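import Pool.Agent.H308R2.CF.Stubs

/-! TASK ABS: absorption of one copy (helper237). -/

namespace Pool.Agent.H308R2.CF

theorem t_ABS (hSC : S_SC) (hSTG : S_STG) (hAPX : S_APX) (hLIM : S_LIM) : S_ABS := by
  classical
  intro ι A _ a u hau φ σ hσ
  obtain ⟨s, hs⟩ := hSC
  apply hLIM ι A u φ _ σ hσ
  intro σ₁ hσ₁ b ε hε
  obtain ⟨δ, hδ, h⟩ := hAPX s hs ι A φ σ₁ u hσ₁ b ε hε
  obtain ⟨W, σ', h1, h2, h3, h4, x, hx, hx2⟩ :=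
    hSTG ι a u hau s hs A φ σ₁ hσ₁ (min δ ε) (lt_min hδ hε)
  exact ⟨W, σ', h1, h2, h3, h4.trans_le (min_le_right _ _),
    h W σ' h2 h3 (h4.trans_le (min_le_left _ _)) ⟨x, hx, hx2.trans_le (min_le_left _ _)⟩⟩

end Pool.Agent.H308R2.CF
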