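import Pool.Agent.H308R2.CF.Stubs
import Pool.Agent.H770R2.FA.Ev

/-! Freeness of the algebra generated by the members with index in `ι` and the member `none`. -/

namespace Pool.Agent.H308R2.CF

open Pool.Agent.H770R2.UL (TrSt n2 cauchy n2_add_le n2_one n2_smul n2_nonneg)
open Pool.Agent.H581R.FF (GR bs ev jj vv kk act)
open scoped ComplexConjugate

/-! ### words -/

theorem alt_jj {ι : Type} (g : FreeGroup ι) : ∃ L : List (Option ι × Bool),
    jj g = FreeGroup.mk L ∧ FreeGroup.IsReduced L ∧ (∀ x ∈ L, x.1 ≠ none) ∧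
      (g ≠ 1 → L ≠ []) := by
  classical
  refine ⟨g.toWord.map fun x => (some x.1, x.2), ?_, ?_, ?_, ?_⟩
  · have h : jj (FreeGroup.mk g.toWord) = FreeGroup.mk (g.toWord.map fun x => (some x.1, x.2)) :=
      FreeGroup.map.mk
    rwa [FreeGroup.mk_toWord] at h
  · have h := FreeGroup.isReduced_toWord (x := g)
    unfold FreeGroup.IsReduced at h ⊢
    rw [List.isChain_map]
    refine h.imp ?_
    intro a b hab h1
    exact hab (Option.some_injective _ h1)
  · intro x hx
    rw [List.mem_map] at hx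
    obtain ⟨y, _, rfl⟩ := hx
    simp
  · intro hg h
    apply hg
    rw [List.map_eq_nil_iff] at h
    exact FreeGroup.toWord_eq_nil_iff.1 h

theorem alt_pow {κ : Type} (k : κ) (b : Bool) (n : ℕ) :
    (FreeGroup.mk [(k, b)]) ^ n = FreeGroup.mk (List.replicate n (k, b)) := by
  induction n with
  | zero => rfl
  | succ n ih =>
      rw [pow_succ', ih, FreeGroup.mul_mk]
      rfl

theorem alt_rep {κ : Type} (x : κ × Bool) (n : ℕ) :
    FreeGroup.IsReduced (List.replicate n x) := by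
  unfold FreeGroup.IsReduced
  exact List.isChain_replicate_of_rel n (fun _ => rfl)

theorem alt_v {ι : Type} (m : ℤ) (hm : m ≠ 0) : ∃ L : List (Option ι × Bool),
    (vv ^ m : FreeGroup (Option ι)) = FreeGroup.mk L ∧ FreeGroup.IsReduced L ∧
      (∀ x ∈ L, x.1 = none) ∧ L ≠ [] := by
  obtain ⟨n, hn | hn⟩ := m.eq_nat_or_neg
  · refine ⟨List.replicate n (none, true), ?_, alt_rep _ _, ?_, ?_⟩
    · rw [hn, zpow_natCast]
      exact alt_pow none true n
    · intro x hx
      rw [List.eq_of_mem_replicate hx]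
    · intro h
      rw [List.replicate_eq_nil_iff] at h
      omega
  · refine ⟨List.replicate n (none, false), ?_, alt_rep _ _, ?_, ?_⟩
    · rw [hn, zpow_neg, zpow_natCast, ← inv_pow]
      exact alt_pow none false n
    · intro x hx
      rw [List.eq_of_mem_replicate hx]
    · intro h
      rw [List.replicate_eq_nil_iff] at h
      omega

/-- elements whose last letter is not `v` or `v⁻¹` -/
def alt_C {ι : Type} (p : FreeGroup (Option ι)) : Prop :=
  ∃ L : List (Option ι × Bool), p = FreeGroup.mk L ∧ FreeGroup.IsReduced L ∧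
    ∀ x ∈ L.getLast?, x.1 ≠ none

theorem alt_C_jj {ι : Type} (g : FreeGroup ι) : alt_C (jj g) := by
  obtain ⟨L, h1, h2, h3, _⟩ := alt_jj g
  exact ⟨L, h1, h2, fun x hx => h3 x (List.mem_of_getLast? hx)⟩

theorem alt_key {ι : Type} (p : FreeGroup (Option ι)) (hp : alt_C p) (m : ℤ) (hm : m ≠ 0)
    (g : FreeGroup ι) : p * vv ^ m * jj g ≠ 1 ∧ (g ≠ 1 → alt_C (p * vv ^ m * jj g)) := by
  classical
  obtain ⟨Lp, p1, p2, p3⟩ := hp
  obtain ⟨Lv, v1, v2, v3, v4⟩ := alt_v (ι := ι) m hm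
  obtain ⟨Lg, g1, g2, g3, g4⟩ := alt_jj g
  have e : p * vv ^ m * jj g = FreeGroup.mk (Lp ++ (Lv ++ Lg)) := by
    rw [p1, v1, g1, FreeGroup.mul_mk, FreeGroup.mul_mk, List.append_assoc]
  have r1 : FreeGroup.IsReduced (Lv ++ Lg) := by
    unfold FreeGroup.IsReduced at v2 g2 ⊢
    rw [List.isChain_append]
    refine ⟨v2, g2, ?_⟩
    intro x hx y hy hxy
    exfalso
    exact g3 y (List.mem_of_mem_head? hy) (hxy ▸ v3 x (List.mem_of_getLast? hx))
  have r2 : FreeGroup.IsReduced (Lp ++ (Lv ++ Lg)) := by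
    unfold FreeGroup.IsReduced at p2 r1 ⊢
    rw [List.isChain_append]
    refine ⟨p2, r1, ?_⟩
    intro x hx y hy hxy
    exfalso
    rw [List.head?_append_of_ne_nil _ v4] at hy
    exact p3 x hx (hxy.trans (v3 y (List.mem_of_mem_head? hy)))
  constructor
  · intro h
    rw [e] at h
    have h1 : (FreeGroup.mk (Lp ++ (Lv ++ Lg))).toWord = [] := by
      rw [h, FreeGroup.toWord_one]
    rw [FreeGroup.toWord_mk, r2.reduce_eq] at h1
    simp only [List.append_eq_nil_iff] at h1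
    exact v4 h1.2.1
  · intro hg
    refine ⟨_, e, r2, ?_⟩
    intro x hx
    have hL := g4 hg
    rw [← List.append_assoc, List.getLast?_append_of_ne_nil _ hL] at hx
    exact g3 x (List.mem_of_getLast? hx)

/-! ### extension by density -/

theorem alt_ext {A : Type} [CStarAlgebra A] (φ : TrSt A) (S : Set A) (t : A)
    (hST : ∀ ε : ℝ, 0 < ε → ∃ x ∈ Submodule.span ℂ S, n2 φ (t - x) < ε) (P Q : A)
    (h : ∀ s ∈ S, φ.toFun (P * s * Q) = 0) : φ.toFun (P * t * Q) = 0 := by
  have h1 : ∀ x ∈ Submodule.span ℂ S, φ.toFun (P * x * Q) = 0 := by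
    intro x hx
    induction hx using Submodule.span_induction with
    | mem x hx => exact h x hx
    | zero => simp
    | add x y _ _ hx hy => rw [mul_add, add_mul, map_add, hx, hy, add_zero]
    | smul c x _ hx =>
        rw [mul_smul_comm, smul_mul_assoc, map_smul, hx, smul_zero]
  have h2 : ∀ ε : ℝ, 0 < ε → ‖φ.toFun (P * t * Q)‖ ≤ n2 φ (star (Q * P)) * ε := by
    intro ε hε
    obtain ⟨x, hx, hx2⟩ := hST ε hε
    have e1 : φ.toFun (P * t * Q) = φ.toFun (star (star (Q * P)) * (t - x)) := by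
      have e2 : P * t * Q = P * x * Q + P * (t - x) * Q := by
        rw [mul_sub, sub_mul]; abel
      rw [e2, map_add, h1 x hx, zero_add, star_star, φ.tr (P * (t - x)) Q, mul_assoc, ← mul_assoc]
    rw [e1]
    exact (cauchy φ _ _).trans (mul_le_mul_of_nonneg_left hx2.le (n2_nonneg _ _))
  have h3 : ‖φ.toFun (P * t * Q)‖ ≤ 0 := by
    apply le_of_forall_pos_le_add
    intro ε hε
    have hC : 0 ≤ n2 φ (star (Q * P)) := n2_nonneg _ _
    have h4 := h2 (ε / (n2 φ (star (Q * P)) + 1)) (by positivity)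
    have h5 : n2 φ (star (Q * P)) * (ε / (n2 φ (star (Q * P)) + 1)) ≤ ε := by
      rw [← mul_div_assoc, div_le_iff₀ (by linarith)]
      nlinarith
    linarith
  exact norm_le_zero_iff.1 h3

/-! ### density -/

theorem alt_gp {ι A : Type} [CStarAlgebra A] (σ : Option ι → CI →⋆ₐ[ℂ] A) (w : FreeGroup ι) :
    gp (sm σ) w = gp σ (jj w) := by
  have h : gp (sm σ) = (gp σ).comp jj := by
    apply FreeGroup.ext_hom
    intro j
    simp [gp, jj]
  rw [h]
  rfl

theorem alt_sys {ι A : Type} [CStarAlgebra A] (φ : TrSt A) (σ : Option ι → CI →⋆ₐ[ℂ] A)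
    (hS : Sys φ σ) : Sys φ (sm σ) := by
  refine ⟨fun j f => hS.mar (some j) f, fun w hw => ?_⟩
  rw [alt_gp]
  apply hS.free
  intro h
  apply hw
  have h1 : Function.Injective (jj : FreeGroup ι →* FreeGroup (Option ι)) :=
    FreeGroup.map_injective (Option.some_injective ι)
  apply h1
  rw [h, map_one]

theorem alt_d1 {ι A : Type} [CStarAlgebra A] (φ : TrSt A) (σ : Option ι → CI →⋆ₐ[ℂ] A)
    (hD : S_DENS) (hS : Sys φ σ) (d : A) (hd : d ∈ Cs (sm σ)) (ε : ℝ) (hε : 0 < ε) :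
    ∃ x ∈ Submodule.span ℂ {a : A | ∃ g : FreeGroup ι, a = (gp σ (jj g) : A)},
      n2 φ (d - x) < ε := by
  obtain ⟨f, hf⟩ := hD ι A φ (sm σ) (alt_sys φ σ hS) d hd ε hε
  refine ⟨_, ?_, hf⟩
  rw [Pool.Agent.H770R2.FA.ev_eq_sum]
  refine Submodule.sum_mem _ fun w _ => Submodule.smul_mem _ _ (Submodule.subset_span ?_)
  exact ⟨w, by rw [alt_gp]⟩

theorem alt_phi {A : Type} [CStarAlgebra A] (φ : TrSt A) (x : A) : ‖φ.toFun x‖ ≤ n2 φ x := by
  have h := cauchy φ 1 x
  rwa [star_one, one_mul, n2_one, one_mul] at h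

theorem alt_d2 {ι A : Type} [CStarAlgebra A] (φ : TrSt A) (σ : Option ι → CI →⋆ₐ[ℂ] A)
    (hD : S_DENS) (hS : Sys φ σ) (d : A) (hd : d ∈ Cs (sm σ)) (h0 : φ.toFun d = 0) (ε : ℝ)
    (hε : 0 < ε) :
    ∃ x ∈ Submodule.span ℂ {a : A | ∃ g : FreeGroup ι, g ≠ 1 ∧ a = (gp σ (jj g) : A)},
      n2 φ (d - x) < ε := by
  obtain ⟨f, hf⟩ := hD ι A φ (sm σ) (alt_sys φ σ hS) d hd (ε / 2) (by linarith)
  have hev : ev (gp (sm σ)) (f - MonoidAlgebra.single 1 (f.coeff 1)) =
      ev (gp (sm σ)) f - (f.coeff 1) • (1 : A) := by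
    have e0 : ev (gp (sm σ)) (MonoidAlgebra.single 1 (f.coeff 1)) = (f.coeff 1) • (1 : A) := by
      unfold ev
      rw [MonoidAlgebra.lift_single]
      have h9 : ((unitary A).subtype.comp (gp (sm σ))) 1 = 1 := map_one _
      rw [h9]
    rw [map_sub, e0]
  refine ⟨ev (gp (sm σ)) (f - MonoidAlgebra.single 1 (f.coeff 1)), ?_, ?_⟩
  · rw [Pool.Agent.H770R2.FA.ev_eq_sum]
    refine Submodule.sum_mem _ fun w hw => Submodule.smul_mem _ _ (Submodule.subset_span ?_)
    refine ⟨w, ?_, by rw [alt_gp]⟩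
    rintro rfl
    rw [Finsupp.mem_support_iff] at hw
    apply hw
    simp
  · rw [hev]
    have h1 : φ.toFun (ev (gp (sm σ)) f) = f.coeff 1 :=
      Pool.Agent.H770R2.FA.phi_ev φ _ (alt_sys φ σ hS).free f
    have h2 : ‖f.coeff 1‖ ≤ n2 φ (d - ev (gp (sm σ)) f) := by
      have h3 := alt_phi φ (d - ev (gp (sm σ)) f)
      rw [map_sub, h0, zero_sub, norm_neg, h1] at h3
      exact h3
    have h4 : d - (ev (gp (sm σ)) f - (f.coeff 1) • (1 : A)) =
        (d - ev (gp (sm σ)) f) + (f.coeff 1) • (1 : A) := by abel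
    rw [h4]
    refine (n2_add_le φ _ _).trans_lt ?_
    rw [n2_smul, n2_one, mul_one]
    linarith

theorem alt_v2 {ι A : Type} [CStarAlgebra A] (φ : TrSt A) (σ : Option ι → CI →⋆ₐ[ℂ] A)
    (hF : S_FEJ) (hT : S_TP) (hS : Sys φ σ) (f : CI) (h0 : φ.toFun (σ none f) = 0) (ε : ℝ)
    (hε : 0 < ε) :
    ∃ x ∈ Submodule.span ℂ {a : A | ∃ m : ℤ, m ≠ 0 ∧ a = (gp σ (vv ^ m) : A)},
      n2 φ (σ none f - x) < ε := by
  have hi : ∫ x : unitInterval, f x = 0 := by rw [← hS.mar none f, h0]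
  obtain ⟨q, q0, _, _, q3⟩ := hF f (ε ^ 2) (by positivity)
  refine ⟨σ none (tp q), ?_, ?_⟩
  · rw [hT.1 A (σ none) q]
    refine Submodule.sum_mem _ fun m hm => Submodule.smul_mem _ _ (Submodule.subset_span ?_)
    refine ⟨m, ?_, ?_⟩
    · rintro rfl
      rw [Finsupp.mem_support_iff] at hm
      exact hm (q0 hi)
    · rw [map_zpow]
      simp [gp, vv]
  · rw [← map_sub]
    unfold n2
    rw [← map_star, ← map_mul, hS.mar]
    have e1 : ∀ x : unitInterval, (star (f - tp q) * (f - tp q)) x =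
        ((‖f x - tp q x‖ ^ 2 : ℝ) : ℂ) := by
      intro x
      have h := Complex.conj_mul' (f x - tp q x)
      rw [← Complex.ofReal_pow] at h
      exact h
    have e2 : ∫ x : unitInterval, ((‖f x - tp q x‖ ^ 2 : ℝ) : ℂ) =
        ((∫ x : unitInterval, ‖f x - tp q x‖ ^ 2 : ℝ) : ℂ) := integral_complex_ofReal
    simp only [e1]
    rw [e2, Complex.ofReal_re, Real.sqrt_lt' hε]
    exact q3

/-! ### the theorem -/

theorem t_ALT (h1 : S_FEJ) (h2 : S_TP) (h3 : S_DENS) : S_ALT := by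
  intro ι A _ φ σ hS l hl d₀ hd₀ d hd f hf
  have key : ∀ l : List (CI × A),
      (∀ p ∈ l, φ.toFun (σ none p.1) = 0 ∧ p.2 ∈ Cs (sm σ) ∧ φ.toFun p.2 = 0) →
      ∀ p : FreeGroup (Option ι), alt_C p →
      φ.toFun ((gp σ p : A) * (l.map fun p => σ none p.1 * p.2).prod * σ none f * d) = 0 := by
    intro l
    induction l with
    | nil =>
        intro _ p hp
        rw [List.map_nil, List.prod_nil, mul_one]
        apply alt_ext φ _ (σ none f) (alt_v2 φ σ h1 h2 hS f hf)
        rintro _ ⟨m, hm, rfl⟩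
        have h4 := alt_ext φ _ d (alt_d1 φ σ h3 hS d hd) ((gp σ p : A) * (gp σ (vv ^ m) : A)) 1 (by
          rintro _ ⟨g, rfl⟩
          rw [mul_one]
          have h5 := hS.free _ (alt_key p hp m hm g).1
          rw [map_mul, map_mul] at h5
          exact h5)
        rw [mul_one] at h4
        exact h4
    | cons c l ih =>
        intro hl p hp
        have hc := hl c (by simp)
        have ih1 := ih (fun p hp => hl p (by simp [hp]))
        rw [List.map_cons, List.prod_cons]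
        set R : A := (l.map fun p => σ none p.1 * p.2).prod * σ none f * d with hR
        have e1 : (gp σ p : A) * (σ none c.1 * c.2 * (l.map fun p => σ none p.1 * p.2).prod) *
            σ none f * d = (gp σ p : A) * σ none c.1 * (c.2 * R) := by
          rw [hR]; noncomm_ring
        rw [e1]
        apply alt_ext φ _ (σ none c.1) (alt_v2 φ σ h1 h2 hS c.1 hc.1)
        rintro _ ⟨m, hm, rfl⟩
        rw [← mul_assoc]
        apply alt_ext φ _ c.2 (alt_d2 φ σ h3 hS c.2 hc.2.1 hc.2.2)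
        rintro _ ⟨g, hg, rfl⟩
        have h6 := ih1 _ ((alt_key p hp m hm g).2 hg)
        have e4 : (gp σ (p * vv ^ m * jj g) : A) =
            (gp σ p : A) * (gp σ (vv ^ m) : A) * (gp σ (jj g) : A) := by
          rw [map_mul, map_mul]
          rfl
        rw [e4] at h6
        rw [hR]
        have e2 : ∀ a b c X Y Z : A, a * b * c * (X * Y * Z) = a * b * c * X * Y * Z := by
          intro a b c X Y Z; noncomm_ring
        rw [e2]
        exact h6
  have e0 : d₀ * (l.map fun p => σ none p.1 * p.2).prod * σ none f * d =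
      1 * d₀ * ((l.map fun p => σ none p.1 * p.2).prod * σ none f * d) := by noncomm_ring
  rw [e0]
  apply alt_ext φ _ d₀ (alt_d1 φ σ h3 hS d₀ hd₀)
  rintro _ ⟨g, rfl⟩
  have h7 := key l hl (jj g) (alt_C_jj g)
  have e3 : ∀ a X Y Z : A, 1 * a * (X * Y * Z) = a * X * Y * Z := by
    intro a X Y Z; noncomm_ring
  rw [e3]
  exact h7

end Pool.Agent.H308R2.CF
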