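import Pool.Agent.H308R2.CF.Stubs

/-! Approximation of all the elements (S_APX), from S_SCGEN. -/

namespace Pool.Agent.H308R2.CF

open Pool.Agent.H770R2.UL (TrSt n2)

/-- the approximation property of an element -/
def ApxP {ι A : Type} [CStarAlgebra A] (s : C(unitInterval, ℝ)) (σ : Option ι → CI →⋆ₐ[ℂ] A) (u : ι)
    (b : A) : Prop :=
  ∀ ε : ℝ, 0 < ε → ∃ δ : ℝ, 0 < δ ∧ ∀ (W : unitary A) (σ' : Option ι → CI →⋆ₐ[ℂ] A),
    (∀ j : ι, j ≠ u → σ' (some j) = σ (some j)) → σ' (some u) = cj W (σ (some u)) →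
    ‖(W : A) - 1‖ < δ → (∃ x ∈ Cs (sm σ'), ‖x - σ none (cs s)‖ < δ) →
    ∃ b' ∈ Cs (sm σ'), ‖b' - b‖ < ε

theorem apx_exact {ι A : Type} [CStarAlgebra A] (s : C(unitInterval, ℝ))
    (σ : Option ι → CI →⋆ₐ[ℂ] A) (u : ι) (b : A)
    (h : ∀ (σ' : Option ι → CI →⋆ₐ[ℂ] A), (∀ j : ι, j ≠ u → σ' (some j) = σ (some j)) →
      b ∈ Cs (sm σ')) : ApxP s σ u b := by
  intro ε hε
  refine ⟨1, one_pos, fun W σ' h1 _ _ _ => ⟨b, h σ' h1, ?_⟩⟩
  simpa using hε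

theorem apx_add {ι A : Type} [CStarAlgebra A] (s : C(unitInterval, ℝ))
    (σ : Option ι → CI →⋆ₐ[ℂ] A) (u : ι) (a b : A) (ha : ApxP s σ u a) (hb : ApxP s σ u b) :
    ApxP s σ u (a + b) := by
  intro ε hε
  obtain ⟨δ1, hδ1, H1⟩ := ha (ε / 2) (by positivity)
  obtain ⟨δ2, hδ2, H2⟩ := hb (ε / 2) (by positivity)
  refine ⟨min δ1 δ2, lt_min hδ1 hδ2, fun W σ' h1 h2 h3 h4 => ?_⟩
  obtain ⟨x, hx, hx2⟩ := h4
  obtain ⟨a', ha', ha2⟩ := H1 W σ' h1 h2 (lt_of_lt_of_le h3 (min_le_left _ _))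
    ⟨x, hx, lt_of_lt_of_le hx2 (min_le_left _ _)⟩
  obtain ⟨b', hb', hb2⟩ := H2 W σ' h1 h2 (lt_of_lt_of_le h3 (min_le_right _ _))
    ⟨x, hx, lt_of_lt_of_le hx2 (min_le_right _ _)⟩
  refine ⟨a' + b', add_mem ha' hb', ?_⟩
  have e : a' + b' - (a + b) = (a' - a) + (b' - b) := by abel
  rw [e]
  have := norm_add_le (a' - a) (b' - b)
  linarith

theorem apx_mul {ι A : Type} [CStarAlgebra A] (s : C(unitInterval, ℝ))
    (σ : Option ι → CI →⋆ₐ[ℂ] A) (u : ι) (a b : A) (ha : ApxP s σ u a) (hb : ApxP s σ u b) :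
    ApxP s σ u (a * b) := by
  intro ε hε
  have hna := norm_nonneg a
  have hnb := norm_nonneg b
  set η : ℝ := min 1 (ε / (‖a‖ + ‖b‖ + 2)) with hη
  have hηpos : 0 < η := lt_min one_pos (by positivity)
  obtain ⟨δ1, hδ1, H1⟩ := ha η hηpos
  obtain ⟨δ2, hδ2, H2⟩ := hb η hηpos
  refine ⟨min δ1 δ2, lt_min hδ1 hδ2, fun W σ' h1 h2 h3 h4 => ?_⟩
  obtain ⟨x, hx, hx2⟩ := h4
  obtain ⟨a', ha', ha2⟩ := H1 W σ' h1 h2 (lt_of_lt_of_le h3 (min_le_left _ _))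
    ⟨x, hx, lt_of_lt_of_le hx2 (min_le_left _ _)⟩
  obtain ⟨b', hb', hb2⟩ := H2 W σ' h1 h2 (lt_of_lt_of_le h3 (min_le_right _ _))
    ⟨x, hx, lt_of_lt_of_le hx2 (min_le_right _ _)⟩
  refine ⟨a' * b', mul_mem ha' hb', ?_⟩
  have e : a' * b' - a * b = (a' - a) * b' + a * (b' - b) := by noncomm_ring
  rw [e]
  have hb'n : ‖b'‖ ≤ ‖b‖ + 1 := by
    have e2 : b' = (b' - b) + b := by abel
    have h5 := norm_add_le (b' - b) b
    rw [← e2] at h5
    have h6 : η ≤ 1 := min_le_left _ _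
    linarith
  have h7 : ‖(a' - a) * b'‖ ≤ ‖a' - a‖ * (‖b‖ + 1) :=
    (norm_mul_le _ _).trans (mul_le_mul_of_nonneg_left hb'n (norm_nonneg _))
  have h8 : ‖a * (b' - b)‖ ≤ ‖a‖ * ‖b' - b‖ := norm_mul_le _ _
  have h9 : η * (‖a‖ + ‖b‖ + 2) ≤ ε := by
    have : η ≤ ε / (‖a‖ + ‖b‖ + 2) := min_le_right _ _
    rwa [le_div_iff₀ (by positivity)] at this
  have h10 := norm_add_le ((a' - a) * b') (a * (b' - b))
  have h11 : ‖a' - a‖ * (‖b‖ + 1) ≤ η * (‖b‖ + 1) :=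
    mul_le_mul_of_nonneg_right ha2.le (by positivity)
  have h12 : ‖a‖ * ‖b' - b‖ ≤ ‖a‖ * η := mul_le_mul_of_nonneg_left hb2.le hna
  nlinarith

theorem apx_star {ι A : Type} [CStarAlgebra A] (s : C(unitInterval, ℝ))
    (σ : Option ι → CI →⋆ₐ[ℂ] A) (u : ι) (a : A) (ha : ApxP s σ u a) :
    ApxP s σ u (star a) := by
  intro ε hε
  obtain ⟨δ1, hδ1, H1⟩ := ha ε hε
  refine ⟨δ1, hδ1, fun W σ' h1 h2 h3 h4 => ?_⟩
  obtain ⟨a', ha', ha2⟩ := H1 W σ' h1 h2 h3 h4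
  refine ⟨star a', star_mem ha', ?_⟩
  rw [← star_sub, norm_star]
  exact ha2

theorem apx_closure {ι A : Type} [CStarAlgebra A] (s : C(unitInterval, ℝ))
    (σ : Option ι → CI →⋆ₐ[ℂ] A) (u : ι) (a : A)
    (ha : ∀ ε : ℝ, 0 < ε → ∃ b, ApxP s σ u b ∧ ‖b - a‖ < ε) : ApxP s σ u a := by
  intro ε hε
  obtain ⟨b, hb, hba⟩ := ha (ε / 2) (by positivity)
  obtain ⟨δ1, hδ1, H1⟩ := hb (ε / 2) (by positivity)
  refine ⟨δ1, hδ1, fun W σ' h1 h2 h3 h4 => ?_⟩
  obtain ⟨b', hb', hb2⟩ := H1 W σ' h1 h2 h3 h4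
  refine ⟨b', hb', ?_⟩
  have e : b' - a = (b' - b) + (b - a) := by abel
  rw [e]
  have := norm_add_le (b' - b) (b - a)
  linarith

/-- the star subalgebra of the elements with the approximation property -/
def apxAlg {ι A : Type} [CStarAlgebra A] (s : C(unitInterval, ℝ)) (σ : Option ι → CI →⋆ₐ[ℂ] A)
    (u : ι) : StarSubalgebra ℂ A where
  carrier := {b | ApxP s σ u b}
  mul_mem' := fun {a b} ha hb => apx_mul s σ u a b ha hb
  add_mem' := fun {a b} ha hb => apx_add s σ u a b ha hb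
  algebraMap_mem' := fun r => apx_exact s σ u _ fun σ' _ => algebraMap_mem _ r
  star_mem' := fun {a} ha => apx_star s σ u a ha

theorem apxAlg_closed {ι A : Type} [CStarAlgebra A] (s : C(unitInterval, ℝ))
    (σ : Option ι → CI →⋆ₐ[ℂ] A) (u : ι) : IsClosed (apxAlg s σ u : Set A) := by
  refine isClosed_of_closure_subset fun a ha => ?_
  refine apx_closure s σ u a fun ε hε => ?_
  obtain ⟨b, hb, hd⟩ := Metric.mem_closure_iff.mp ha ε hε
  refine ⟨b, hb, ?_⟩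
  rw [dist_comm, dist_eq_norm] at hd
  exact hd

theorem mem_Cs {κ A : Type} [CStarAlgebra A] (σ : κ → CI →⋆ₐ[ℂ] A) (j : κ) (f : CI) :
    σ j f ∈ Cs σ := by
  refine StarSubalgebra.le_topologicalClosure _ ?_
  exact (le_iSup (fun j => (σ j).range) j) ⟨f, rfl⟩

theorem apx_conj {A : Type} [CStarAlgebra A] (W : unitary A) (x : A) :
    ‖(W : A) * x * star (W : A) - x‖ ≤ 2 * ‖(W : A) - 1‖ * ‖x‖ := by
  have e : (W : A) * x * star (W : A) - x = ((W : A) - 1) * x * star (W : A) + x * star ((W : A) - 1) := by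
    rw [star_sub, star_one]
    noncomm_ring
  rw [e]
  have h1 : ‖((W : A) - 1) * x * star (W : A)‖ ≤ ‖(W : A) - 1‖ * ‖x‖ := by
    have h2 : ‖((W : A) - 1) * x * star (W : A)‖ = ‖((W : A) - 1) * x‖ := by
      have := CStarRing.norm_mul_mem_unitary (((W : A) - 1) * x) (Unitary.star_mem W.2)
      exact this
    rw [h2]
    exact norm_mul_le _ _
  have h3 : ‖x * star ((W : A) - 1)‖ ≤ ‖x‖ * ‖(W : A) - 1‖ := by
    refine (norm_mul_le _ _).trans ?_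
    rw [norm_star]
  have := norm_add_le (((W : A) - 1) * x * star (W : A)) (x * star ((W : A) - 1))
  nlinarith

theorem t_APX (hSC : S_SCGEN) : S_APX := by
  intro s hs ι A _ φ σ u hF b
  classical
  have key : Cs σ ≤ apxAlg s σ u := by
    refine StarSubalgebra.topologicalClosure_minimal ?_ (apxAlg_closed s σ u)
    refine iSup_le fun j => ?_
    rintro _ ⟨f, rfl⟩
    rcases j with _ | j
    · refine hSC s hs A (σ none) (apxAlg s σ u) (apxAlg_closed s σ u) ?_ f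
      intro ε hε
      refine ⟨ε, hε, fun W σ' _ _ _ h4 => h4⟩
    · by_cases hj : j = u
      · subst hj
        intro ε hε
        have hn := norm_nonneg (σ (some j) f)
        refine ⟨ε / (2 * ‖σ (some j) f‖ + 1), by positivity, fun W σ' _ h2 h3 _ => ?_⟩
        refine ⟨σ' (some j) f, mem_Cs (sm σ') j f, ?_⟩
        rw [h2, cj_apply]
        refine (apx_conj W (σ (some j) f)).trans_lt ?_
        rw [lt_div_iff₀ (by positivity)] at h3
        have h5 := norm_nonneg ((W : A) - 1)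
        by_cases h0 : ‖(W : A) - 1‖ = 0
        · rw [h0]; simpa using hε
        · have h6 : 0 < ‖(W : A) - 1‖ := lt_of_le_of_ne h5 (Ne.symm h0)
          nlinarith
      · refine apx_exact s σ u _ fun σ' h1 => ?_
        have := mem_Cs (sm σ') j f
        rw [show sm σ' j = σ (some j) from h1 j hj] at this
        exact this
  have hb : b ∈ apxAlg s σ u := key (by rw [hF.gen]; trivial)
  exact hb

end Pool.Agent.H308R2.CF
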