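import Mathlib
import Pool.Agent.H770R2.FA.Nrm
import Pool.Agent.H581R.FF.Stubs2

/-! Definitions for the proof that all reduced free powers of `C([0,1])` (with Lebesgue measure) are
isomorphic C*-algebras. -/

namespace Pool.Agent.H308R2.CF

open Pool.Agent.H770R2.UL (TrSt n2)
open Pool.Agent.H581R.FF (GR bs ev jj vv kk act)
open scoped ComplexConjugate

/-! ### tracial states and systems -/

/-- continuous functions on the unit interval -/
abbrev CI : Type := C(unitInterval, ℂ)

/-- the function `t ↦ e^{2πit}` on the unit interval -/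
noncomputable def eI : CI :=
  ⟨fun t => Complex.exp (2 * Real.pi * Complex.I * ((t : ℝ) : ℂ)), by fun_prop⟩

/-- a tracial state is faithful -/
def Fai {A : Type} [CStarAlgebra A] (φ : TrSt A) : Prop :=
  ∀ x : A, φ.toFun (star x * x) = 0 → x = 0

theorem eI_unitary : eI ∈ unitary CI := by
  have h : ∀ t : unitInterval, (starRingEnd ℂ) (eI t) * eI t = 1 := by
    intro t
    rw [← Complex.normSq_eq_conj_mul_self]
    have h1 : ‖eI t‖ = 1 := by
      have h2 : (eI t) = Complex.exp (((2 * Real.pi * (t : ℝ) : ℝ) : ℂ) * Complex.I) := by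
        show Complex.exp _ = _
        congr 1
        push_cast
        ring
      rw [h2, Complex.norm_exp_ofReal_mul_I]
    rw [Complex.normSq_eq_norm_sq, h1]
    norm_num
  rw [Unitary.mem_iff]
  constructor
  · ext t
    exact h t
  · ext t
    have := h t
    rw [mul_comm] at this
    exact this

/-- the unitary of a member of a family -/
noncomputable def uu {A : Type} [CStarAlgebra A] (σ : CI →⋆ₐ[ℂ] A) : unitary A :=
  ⟨σ eI, Unitary.map_mem σ eI_unitary⟩

/-- the homomorphism from the free group given by the unitaries `σ_j(e^{2πit})` -/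
noncomputable def gp {κ A : Type} [CStarAlgebra A] (σ : κ → CI →⋆ₐ[ℂ] A) :
    FreeGroup κ →* unitary A :=
  FreeGroup.lift fun j => uu (σ j)

/-- `σ` is a free family of copies of `C([0,1])` with Lebesgue measure (freeness is expressed by the
unitaries `σ_j(e^{2πit})`) -/
structure Sys {κ A : Type} [CStarAlgebra A] (φ : TrSt A) (σ : κ → CI →⋆ₐ[ℂ] A) : Prop where
  mar : ∀ j f, φ.toFun (σ j f) = ∫ x : unitInterval, f x
  free : ∀ w : FreeGroup κ, w ≠ 1 → φ.toFun (gp σ w : A) = 0

/-- the C*-algebra generated by a family -/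
noncomputable def Cs {κ A : Type} [CStarAlgebra A] (σ : κ → CI →⋆ₐ[ℂ] A) : StarSubalgebra ℂ A :=
  (⨆ j, (σ j).range).topologicalClosure

/-- the members of a family over `Option ι` with index in `ι` -/
abbrev sm {ι A : Type} [CStarAlgebra A] (σ : Option ι → CI →⋆ₐ[ℂ] A) : ι → CI →⋆ₐ[ℂ] A :=
  fun j => σ (some j)

/-- the family is free and generates `A`, the trace is faithful -/
structure FSG {κ A : Type} [CStarAlgebra A] (φ : TrSt A) (σ : κ → CI →⋆ₐ[ℂ] A) : Prop where
  fai : Fai φ
  sys : Sys φ σ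
  gen : Cs σ = ⊤

/-- conjugation of a homomorphism by a unitary -/
noncomputable def cj {A : Type} [CStarAlgebra A] (W : unitary A) (σ : CI →⋆ₐ[ℂ] A) :
    CI →⋆ₐ[ℂ] A :=
  ((Unitary.conjStarAlgAut ℂ A W : A ≃⋆ₐ[ℂ] A) : A →⋆ₐ[ℂ] A).comp σ

theorem cj_apply {A : Type} [CStarAlgebra A] (W : unitary A) (σ : CI →⋆ₐ[ℂ] A) (f : CI) :
    cj W σ f = (W : A) * σ f * star (W : A) := rfl

/-- `σ'` arises from `σ` by conjugating the member with index `j` by `W` -/
structure Mv {κ A : Type} [CStarAlgebra A] (σ σ' : κ → CI →⋆ₐ[ℂ] A) (j : κ) (W : unitary A) :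
    Prop where
  ne : ∀ i, i ≠ j → σ' i = σ i
  eq : σ' j = cj W (σ j)

/-- trigonometric polynomials as elements of `C([0,1])` -/
noncomputable def tp (q : ℤ →₀ ℂ) : CI :=
  q.sum fun m s => s • (⟨fun t => Complex.exp (2 * Real.pi * Complex.I * m * ((t : ℝ) : ℂ)),
    by fun_prop⟩ : CI)

/-! ### norms of coefficient functions, words -/

/-- the `ℓ²`-norm of a finitely supported real function -/
noncomputable abbrev nc {α : Type} (c : α →₀ ℝ) : ℝ := Pool.Agent.H581R.FF.n2 c

/-- the element `∑ c(β) π(β) σ_v(f) π(β)⁻¹` -/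
noncomputable def hh {ι A : Type} [CStarAlgebra A] (σ : Option ι → CI →⋆ₐ[ℂ] A)
    (c : FreeGroup ι →₀ ℝ) (f : CI) : A :=
  c.sum fun β r => (r : ℂ) • ((gp σ (jj β) : A) * σ none f * star (gp σ (jj β) : A))

/-- the word `a^{m₁} u^{n₁} a^{m₂} u^{n₂} …` -/
def wz {α : Type} [Group α] (a u : α) : List (ℤ × ℤ) → α
  | [] => 1
  | p :: r => a ^ p.1 * u ^ p.2 * wz a u r

/-- the operator `Z` on finitely supported functions: sum over the `u`-syllables of
(translation by the prefix after the syllable) - (translation by the prefix before the syllable) -/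
noncomputable def Z0 {α : Type} [Group α] (a u : α) : List (ℤ × ℤ) → (α →₀ ℝ) → (α →₀ ℝ)
  | [], _ => 0
  | p :: r, c => act (a ^ p.1 * u ^ p.2) c - act (a ^ p.1) c +
      act (a ^ p.1 * u ^ p.2) (Z0 a u r c)

/-! ### formal algebra and formal flow -/

/-- the free algebra on `X` as monoid algebra of the free monoid -/
abbrev FA (X : Type) : Type := MonoidAlgebra ℂ (FreeMonoid X)

/-- basis elements -/
noncomputable abbrev wd {X : Type} (w : FreeMonoid X) : FA X := MonoidAlgebra.single w 1

/-- letters -/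
noncomputable abbrev lt {X : Type} (x : X) : FA X := wd (FreeMonoid.of x)

/-- evaluation -/
noncomputable def fev {X A : Type} [Ring A] [Algebra ℂ A] (e : X → A) : FA X →ₐ[ℂ] A :=
  MonoidAlgebra.lift ℂ A (FreeMonoid X) (FreeMonoid.lift e)

/-- `ℓ¹`-norm -/
noncomputable def fl1 {X : Type} (f : FA X) : ℝ := ∑ w ∈ f.coeff.support, ‖f.coeff w‖

/-- the antilinear anti-automorphism of the free algebra given by a map of the letters -/
noncomputable def fst {X : Type} (τ : X → X) (f : FA X) : FA X :=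
  f.coeff.sum fun w c => MonoidAlgebra.single
    (FreeMonoid.ofList ((FreeMonoid.toList w).reverse.map τ)) (conj c)

/-- derivations of the free algebra -/
def FLeib {X : Type} (D : FA X →ₗ[ℂ] FA X) : Prop := ∀ x y, D (x * y) = D x * y + x * D y

/-- the operator `f ↦ D f - i f h` -/
noncomputable def DD {X : Type} (D : FA X →ₗ[ℂ] FA X) (h : FA X) : FA X →ₗ[ℂ] FA X :=
  D - Complex.I • LinearMap.mulRight ℂ h

/-- analytic bound with constant `K` for a linear map of the free algebra -/
def FB {X : Type} (T : FA X →ₗ[ℂ] FA X) (K : ℝ) : Prop :=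
  ∀ (n : ℕ) (w : FreeMonoid X), fl1 (T^[n] (wd w)) ≤ n.factorial * K ^ n * 2 ^ w.length

/-- `e'` is obtained from `e` by the flow of `D` for time `t` -/
def IsFl {X A : Type} [CStarAlgebra A] (D : FA X →ₗ[ℂ] FA X) (t : ℝ) (e e' : X → A) : Prop :=
  ∀ f : FA X, HasSum (fun n : ℕ => ((t : ℂ) ^ n / (n.factorial : ℂ)) • fev e (D^[n] f)) (fev e' f)

/-- `W = e^{t(D - i·h)} 1` -/
def IsW {X A : Type} [CStarAlgebra A] (D : FA X →ₗ[ℂ] FA X) (h : FA X) (t : ℝ) (e : X → A)
    (W : A) : Prop :=
  HasSum (fun n : ℕ => ((t : ℂ) ^ n / (n.factorial : ℂ)) • fev e ((DD D h)^[n] 1)) W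

/-- data for a formal flow: the derivation `D` commutes with the involution, `h` is self-adjoint,
`D` and `D - i·h` satisfy the analytic bound with constant `K` -/
structure FData {X : Type} (τ : X → X) (D : FA X →ₗ[ℂ] FA X) (h : FA X) (K : ℝ) : Prop where
  inv : ∀ x, τ (τ x) = x
  leib : FLeib D
  dst : ∀ x, D (fst τ x) = fst τ (D x)
  hst : fst τ h = h
  Kpos : 0 < K
  bD : FB D K
  bDD : FB (DD D h) K

/-- an evaluation compatible with the involution, letters have norm at most one -/
structure EvOK {X A : Type} [CStarAlgebra A] (τ : X → X) (e : X → A) : Prop where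
  nrm : ∀ x, ‖e x‖ ≤ 1
  str : ∀ x, e (τ x) = star (e x)

/-! ### the concrete formal algebra -/

/-- letters: `some (j, true)` is `u_j`, `some (j, false)` is `u_j⁻¹`, `none` is `Y` -/
abbrev Lt (κ : Type) : Type := Option (κ × Bool)

/-- the involution on letters -/
def lst {κ : Type} : Lt κ → Lt κ
  | none => none
  | some (j, b) => some (j, !b)

/-- the values of the letters in a system (`Y` has the value `σ_v(f)`) -/
noncomputable def le {ι A : Type} [CStarAlgebra A] (σ : Option ι → CI →⋆ₐ[ℂ] A) (f : CI) :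
    Lt (Option ι) → A
  | none => σ none f
  | some (j, true) => ((uu (σ j) : unitary A) : A)
  | some (j, false) => star ((uu (σ j) : unitary A) : A)

/-- the values of the letters in the group ring (`Y` has the value `k(v)`) -/
noncomputable def lg {ι : Type} (q : ℤ →₀ ℂ) : Lt (Option ι) → GR (Option ι)
  | none => kk q
  | some (j, true) => bs (FreeGroup.of j)
  | some (j, false) => bs (FreeGroup.of j)⁻¹

/-- the formal word of an element of the free group -/
def fw {κ : Type} [DecidableEq κ] (β : FreeGroup κ) : FreeMonoid (Lt κ) :=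
  FreeMonoid.ofList (β.toWord.map some)

/-- the formal element `h = ∑ c(β) β Y β⁻¹` -/
noncomputable def fh {ι : Type} [DecidableEq ι] (c : FreeGroup ι →₀ ℝ) : FA (Lt (Option ι)) :=
  c.sum fun β r => (r : ℂ) • (wd (fw (jj β)) * lt none * wd (fw (jj β)⁻¹))

/-- the formal derivation: `D(u) = i(uh - hu)`, `D(u⁻¹) = i(u⁻¹h - hu⁻¹)`, `D = 0` on the other
letters -/
structure FD {ι : Type} [DecidableEq ι] (u : ι) (c : FreeGroup ι →₀ ℝ)
    (D : FA (Lt (Option ι)) →ₗ[ℂ] FA (Lt (Option ι))) : Prop where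
  leib : FLeib D
  du : ∀ b : Bool, D (lt (some (some u, b))) =
    Complex.I • (lt (some (some u, b)) * fh c - fh c * lt (some (some u, b)))
  dz : ∀ (j : Option ι) (b : Bool), j ≠ some u → D (lt (some (j, b))) = 0
  dY : D (lt none) = 0

/-- formal powers of letters -/
noncomputable def zl {κ : Type} (j : κ) (m : ℤ) : FA (Lt κ) :=
  if 0 ≤ m then lt (some (j, true)) ^ m.toNat else lt (some (j, false)) ^ (-m).toNat

/-- the formal word `a^{m₁} u^{n₁} …` -/
noncomputable def fwz {ι : Type} (a u : ι) : List (ℤ × ℤ) → FA (Lt (Option ι))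
  | [] => 1
  | p :: r => zl (some a) p.1 * zl (some u) p.2 * fwz a u r

/-! ### semicircular function -/

/-- `s` is an injective function on the unit interval with semicircular law of radius one -/
structure SCf (s : C(unitInterval, ℝ)) : Prop where
  inj : Function.Injective s
  rng : Set.range s = Set.Icc (-1 : ℝ) 1
  law : ∀ g : ℝ → ℂ, Continuous g →
    ∫ t : unitInterval, g (s t) = (2 / Real.pi : ℂ) * ∫ θ in (0 : ℝ)..Real.pi,
      g (Real.cos θ) * ((Real.sin θ ^ 2 : ℝ) : ℂ)

/-- complexification -/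
noncomputable def cs (s : C(unitInterval, ℝ)) : CI := ⟨fun t => ((s t : ℝ) : ℂ), by fun_prop⟩

/-- the elements `P_w`: `P_∅ = 1`, `P_{iw} = 2 x_i P_w - [w = i w'] P_{w'}` -/
noncomputable def PP {κ A : Type} [Ring A] [Algebra ℂ A] [DecidableEq κ] (x : κ → A) : List κ → A
  | [] => 1
  | [i] => (2 : ℂ) • x i
  | i :: j :: w => (2 : ℂ) • (x i * PP x (j :: w)) - if i = j then PP x w else 0

/-- `x` is a free semicircular family (variances 1/4) -/
structure SCL {κ A : Type} [CStarAlgebra A] [DecidableEq κ] (φ : TrSt A) (x : κ → A) : Prop where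
  sa : ∀ i, star (x i) = x i
  law : ∀ w : List κ, w ≠ [] → φ.toFun (PP x w) = 0

/-! ### the group generated by two one-parameter groups -/

/-- `e^{irx}` -/
noncomputable def ex {A : Type} [CStarAlgebra A] (r : ℝ) (x : A) : A :=
  NormedSpace.exp (((r : ℂ) * Complex.I) • x)

/-- the closed group generated by `e^{irx}`, `e^{iry}` -/
def GG {A : Type} [CStarAlgebra A] (x y : A) : Set A :=
  closure (Submonoid.closure (Set.range (fun r : ℝ => ex r x) ∪ Set.range (fun r : ℝ => ex r y)) :
    Set A)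

/-- its Lie algebra -/
def LL {A : Type} [CStarAlgebra A] (x y : A) : Set A :=
  {K | star K = K ∧ ∀ r : ℝ, ex r K ∈ GG x y}

/-- the product `e^{iα₁x} e^{iβ₁y} e^{iα₂x} e^{iβ₂y} …` -/
noncomputable def Vl {A : Type} [CStarAlgebra A] (x y : A) : List (ℝ × ℝ) → A
  | [] => 1
  | p :: l => ex p.1 x * ex p.2 y * Vl x y l

/-! ### reduced free powers -/

/-- `A` with the trace `φ` is the reduced free product of `|κ|` copies of `(C([0,1]), ∫)` with
canonical embeddings `σ_j`: the `σ_j` preserve the states, their ranges are free with respect to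
`φ` and generate `A`, and `φ` is faithful. -/
structure FreePow {κ A : Type} [CStarAlgebra A] (φ : TrSt A) (σ : κ → CI →⋆ₐ[ℂ] A) : Prop where
  fai : ∀ x : A, φ.toFun (star x * x) = 0 → x = 0
  mar : ∀ j f, φ.toFun (σ j f) = ∫ x : unitInterval, f x
  free : ∀ l : List (κ × CI), l ≠ [] → (l.map Prod.fst).IsChain (· ≠ ·) →
    (∀ p ∈ l, φ.toFun (σ p.1 p.2) = 0) → φ.toFun ((l.map fun p => σ p.1 p.2).prod) = 0
  gen : (⨆ j, (σ j).range).topologicalClosure = (⊤ : StarSubalgebra ℂ A)

end Pool.Agent.H308R2.CF
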