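import Mathlib
import Pool.Agent.H308R2.CF.Defs

/-! Statements of all the tasks. -/

namespace Pool.Agent.H308R2.CF

open Pool.Agent.H770R2.UL (TrSt n2)
open Pool.Agent.H581R.FF (GR bs ev jj vv kk act)
open scoped ComplexConjugate

/-! ### A. tracial states, laws -/

/-- the norm is determined by the moments -/
def S_LAWN : Prop := ∀ (A B : Type) [CStarAlgebra A] [CStarAlgebra B] (φ : TrSt A) (ψ : TrSt B),
  Fai φ → Fai ψ → ∀ (a : A) (b : B),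
  (∀ m : ℕ, φ.toFun ((star a * a) ^ m) = ψ.toFun ((star b * b) ^ m)) → ‖a‖ = ‖b‖

/-- a star subalgebra of a product on which the traces agree gives an isometric homomorphism -/
def S_LAWH : Prop := ∀ (A B : Type) [CStarAlgebra A] [CStarAlgebra B] (φ : TrSt A) (ψ : TrSt B),
  Fai φ → Fai ψ → ∀ S : StarSubalgebra ℂ (A × B), (∀ x ∈ S, φ.toFun x.1 = ψ.toFun x.2) →
  (∀ a : A, a ∈ closure (Prod.fst '' (S : Set (A × B)))) →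
  ∃ Φ : A →⋆ₐ[ℂ] B, (∀ a, ‖Φ a‖ = ‖a‖) ∧ (∀ a, ψ.toFun (Φ a) = φ.toFun a) ∧
    ∀ x ∈ S, Φ x.1 = x.2

/-- approximation of continuous functions by trigonometric polynomials in `L²`, with bounds -/
def S_FEJ : Prop := ∀ (f : CI) (ε : ℝ), 0 < ε → ∃ q : ℤ →₀ ℂ,
  ((∫ x : unitInterval, f x = 0) → q 0 = 0) ∧
  ((∀ x, conj (f x) = f x) → ∀ m, q (-m) = conj (q m)) ∧
  ‖tp q‖ ≤ ‖f‖ + 1 ∧ ∫ x : unitInterval, ‖f x - tp q x‖ ^ 2 < ε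

/-- trigonometric polynomials of a member of a family -/
def S_TP : Prop := (∀ (A : Type) [CStarAlgebra A] (σ : CI →⋆ₐ[ℂ] A) (q : ℤ →₀ ℂ),
    σ (tp q) = q.sum fun m s => s • ((uu σ ^ m : unitary A) : A)) ∧
  (∀ (ι A : Type) [CStarAlgebra A] (σ : Option ι → CI →⋆ₐ[ℂ] A) (q : ℤ →₀ ℂ),
    σ none (tp q) = ev (gp σ) (kk q)) ∧
  ∀ q : ℤ →₀ ℂ, ∫ x : unitInterval, tp q x = q 0

/-- the group ring is dense in the 2-norm -/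
def S_DENS : Prop := ∀ (κ A : Type) [CStarAlgebra A] (φ : TrSt A) (σ : κ → CI →⋆ₐ[ℂ] A),
  Sys φ σ → ∀ a ∈ Cs σ, ∀ ε : ℝ, 0 < ε → ∃ f : GR κ, n2 φ (a - ev (gp σ) f) < ε

/-- free families are systems -/
def S_FREE1 : Prop := ∀ (κ A : Type) [CStarAlgebra A] (φ : TrSt A) (σ : κ → CI →⋆ₐ[ℂ] A),
  FreePow φ σ → FSG φ σ

/-- the ranges of the members of a system are free -/
def S_FREE2 : Prop := ∀ (κ A : Type) [CStarAlgebra A] (φ : TrSt A) (σ : κ → CI →⋆ₐ[ℂ] A),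
  Sys φ σ → ∀ l : List (κ × CI), l ≠ [] → (l.map Prod.fst).IsChain (· ≠ ·) →
    (∀ p ∈ l, φ.toFun (σ p.1 p.2) = 0) → φ.toFun ((l.map fun p => σ p.1 p.2).prod) = 0

/-- the mixed moments of two systems agree -/
def S_MOM : Prop := ∀ (κ A B : Type) [CStarAlgebra A] [CStarAlgebra B] (φ : TrSt A) (ψ : TrSt B)
  (σ : κ → CI →⋆ₐ[ℂ] A) (τ : κ → CI →⋆ₐ[ℂ] B), Sys φ σ → Sys ψ τ → ∀ l : List (κ × CI),
  φ.toFun ((l.map fun p => σ p.1 p.2).prod) = ψ.toFun ((l.map fun p => τ p.1 p.2).prod)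

/-- uniqueness, non-surjective version -/
def S_UNIQ : Prop := ∀ (κ A B : Type) [CStarAlgebra A] [CStarAlgebra B] (φ : TrSt A) (ψ : TrSt B)
  (σ : κ → CI →⋆ₐ[ℂ] A) (τ : κ → CI →⋆ₐ[ℂ] B), FSG φ σ → Fai ψ → Sys ψ τ →
  ∃ Φ : A →⋆ₐ[ℂ] B, (∀ a, ‖Φ a‖ = ‖a‖) ∧ (∀ a, ψ.toFun (Φ a) = φ.toFun a) ∧
    ∀ j f, Φ (σ j f) = τ j f

/-- uniqueness -/
def S_EQV : Prop := ∀ (κ A B : Type) [CStarAlgebra A] [CStarAlgebra B] (φ : TrSt A) (ψ : TrSt B)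
  (σ : κ → CI →⋆ₐ[ℂ] A) (τ : κ → CI →⋆ₐ[ℂ] B), FSG φ σ → FSG ψ τ → Nonempty (A ≃⋆ₐ[ℂ] B)

/-- freeness of the algebra generated by the members with index in `ι` and the member `none` -/
def S_ALT : Prop := ∀ (ι A : Type) [CStarAlgebra A] (φ : TrSt A) (σ : Option ι → CI →⋆ₐ[ℂ] A),
  Sys φ σ → ∀ l : List (CI × A),
  (∀ p ∈ l, φ.toFun (σ none p.1) = 0 ∧ p.2 ∈ Cs (sm σ) ∧ φ.toFun p.2 = 0) →
  ∀ d₀ ∈ Cs (sm σ), ∀ d ∈ Cs (sm σ), ∀ f : CI, φ.toFun (σ none f) = 0 →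
  φ.toFun (d₀ * (l.map fun p => σ none p.1 * p.2).prod * σ none f * d) = 0

/-- the second move -/
def S_MV2 : Prop := ∀ (ι A : Type) [CStarAlgebra A] (φ : TrSt A) (σ σ' : Option ι → CI →⋆ₐ[ℂ] A)
  (Q : unitary A), FSG φ σ → (Q : A) ∈ Cs (sm σ) → Mv σ σ' none Q → FSG φ σ'

/-! ### B. the norm lemma -/

/-- the head of the word is the letter `v` or its inverse -/
def HV {ι : Type} [DecidableEq ι] (w : FreeGroup (Option ι)) : Prop :=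
  ∃ b : Bool, w.toWord.head? = some (none, b)

/-- scalar identities -/
def S_ORTH : Prop := ∀ (ι A : Type) [DecidableEq ι] [CStarAlgebra A] (φ : TrSt A)
  (σ : Option ι → CI →⋆ₐ[ℂ] A), Sys φ σ →
  (∀ a ∈ Cs (sm σ), ∀ b ∈ Cs (sm σ), ∀ t t' : FreeGroup (Option ι), HV t → HV t' → t ≠ t' →
    φ.toFun (star (b * (gp σ t' : A)) * (a * (gp σ t : A))) = 0) ∧
  (∀ w w' : FreeGroup (Option ι), ¬ HV w → ¬ HV w' → ∀ f : CI, φ.toFun (σ none f) = 0 →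
    φ.toFun (star (gp σ w' : A) * (σ none f * (gp σ w : A))) = 0)

/-- the norm lemma for operators -/
def S_NLOP : Prop := ∀ (H : Type) [NormedAddCommGroup H] [InnerProductSpace ℂ H] [CompleteSpace H]
  (n : ℕ) (U : Fin n → H →L[ℂ] H) (K Q : H →L[ℂ] H) (C : ℝ), (∀ m, U m ∈ unitary (H →L[ℂ] H)) →
  star Q = Q → Q * Q = Q → (1 - Q) * K * (1 - Q) = 0 →
  (∀ z : Fin n → H, (∀ m, Q (z m) = z m) → ‖∑ m, U m (z m)‖ ^ 2 ≤ C * ∑ m, ‖z m‖ ^ 2) →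
  ∀ c : Fin n → ℂ, ‖∑ m, c m • (U m * K * star (U m))‖ ≤
    2 * Real.sqrt C * Real.sqrt (∑ m, ‖c m‖ ^ 2) * ‖K‖

/-- the norm lemma -/
def S_NL : Prop := ∀ (ι A : Type) [CStarAlgebra A] (φ : TrSt A) (σ : Option ι → CI →⋆ₐ[ℂ] A),
  FSG φ σ → ∀ (n : ℕ) (a : Fin n → unitary A) (C : ℝ), (∀ m, (a m : A) ∈ Cs (sm σ)) →
  (∀ ξ : Fin n → ℂ, n2 φ (∑ m, ξ m • (a m : A)) ^ 2 ≤ C * ∑ m, ‖ξ m‖ ^ 2) →
  ∀ (c : Fin n → ℂ) (f : CI), ∫ x : unitInterval, f x = 0 →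
  ‖∑ m, c m • ((a m : A) * σ none f * star (a m : A))‖ ≤
    2 * Real.sqrt C * Real.sqrt (∑ m, ‖c m‖ ^ 2) * ‖f‖

/-- the norm lemma for group elements -/
def S_NLG : Prop := ∀ (ι A : Type) [CStarAlgebra A] (φ : TrSt A) (σ : Option ι → CI →⋆ₐ[ℂ] A),
  FSG φ σ → ∀ (c : FreeGroup ι →₀ ℝ) (f : CI), ∫ x : unitInterval, f x = 0 →
  ‖hh σ c f‖ ≤ 2 * nc c * ‖f‖

/-! ### C. formal flow -/

/-- derivations of the free algebra exist -/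
def S_FDER : Prop := ∀ (X : Type) (d : X → FA X), ∃ D : FA X →ₗ[ℂ] FA X,
  FLeib D ∧ ∀ x, D (lt x) = d x

/-- analytic bound -/
def S_FBND : Prop := ∀ (X : Type) (D : FA X →ₗ[ℂ] FA X) (h : FA X), FLeib D →
  {x : X | D (lt x) ≠ 0}.Finite → ∃ K : ℝ, 0 < K ∧ FB D K ∧ FB (DD D h) K

/-- properties of the involution -/
def S_FST : Prop := ∀ (X : Type) (τ : X → X), (∀ x, τ (τ x) = x) →
  (∀ f g : FA X, fst τ (f + g) = fst τ f + fst τ g) ∧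
  (∀ f g : FA X, fst τ (f * g) = fst τ g * fst τ f) ∧
  (∀ (s : ℂ) (f : FA X), fst τ (s • f) = conj s • fst τ f) ∧
  (∀ f : FA X, fst τ (fst τ f) = f) ∧ (∀ x, fst τ (lt x) = lt (τ x)) ∧ fst τ 1 = 1 ∧
  (∀ w : FreeMonoid X, fst τ (wd w) =
    wd (FreeMonoid.ofList ((FreeMonoid.toList w).reverse.map τ))) ∧
  ∀ (A : Type) [CStarAlgebra A] (e : X → A), (∀ x, e (τ x) = star (e x)) →
    ∀ f : FA X, fev e (fst τ f) = star (fev e f)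

/-- the concrete derivation -/
def S_FDAT : Prop := ∀ (ι : Type) [DecidableEq ι] (u : ι) (c : FreeGroup ι →₀ ℝ),
  ∃ (D : FA (Lt (Option ι)) →ₗ[ℂ] FA (Lt (Option ι))) (K : ℝ), FD u c D ∧ FData lst D (fh c) K

/-- the flow exists -/
def S_FL : Prop := ∀ (X A : Type) [CStarAlgebra A] (D : FA X →ₗ[ℂ] FA X) (K t : ℝ), FLeib D →
  FB D K → 0 < K → |t| * K < 1 → ∀ e : X → A, (∀ x, ‖e x‖ ≤ 1) → ∃ e' : X → A, IsFl D t e e'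

/-- second order Taylor bound -/
def S_FTAY : Prop := ∀ (X : Type) (D : FA X →ₗ[ℂ] FA X) (K : ℝ), FB D K → 0 < K → ∀ f : FA X,
  ∃ C : ℝ, 0 ≤ C ∧ ∀ (A : Type) [CStarAlgebra A] (e e' : X → A) (t : ℝ), (∀ x, ‖e x‖ ≤ 1) →
  |t| * K ≤ 1 / 4 → IsFl D t e e' → ‖fev e' f - fev e f - (t : ℂ) • fev e (D f)‖ ≤ C * t ^ 2

/-- the unitary `W` -/
def S_W : Prop := ∀ (X A : Type) [CStarAlgebra A] (τ : X → X) (D : FA X →ₗ[ℂ] FA X) (h : FA X)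
  (K t : ℝ) (e : X → A), FData τ D h K → EvOK τ e → |t| * K ≤ 1 / 4 →
  ∃ W : unitary A, IsW D h t e (W : A) ∧ ‖(W : A) - 1‖ ≤ |t| * ‖fev e h‖ + 2 * K ^ 2 * t ^ 2

/-- `e^{t(D - i·h)}(f) = α_t(f) W` -/
def S_WMUL : Prop := ∀ (X A : Type) [CStarAlgebra A] (D : FA X →ₗ[ℂ] FA X) (h : FA X)
  (K t : ℝ) (e e' : X → A) (W : A), FLeib D → 0 < K → FB D K → FB (DD D h) K → (∀ x, ‖e x‖ ≤ 1) →
  |t| * K ≤ 1 / 4 → IsFl D t e e' → IsW D h t e W → ∀ f : FA X,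
  HasSum (fun n : ℕ => ((t : ℂ) ^ n / (n.factorial : ℂ)) • fev e ((DD D h)^[n] f)) (fev e' f * W)

/-- letters with `D x = i(xh - hx)` are conjugated by `W` -/
def S_WADJ : Prop := ∀ (X A : Type) [CStarAlgebra A] (D : FA X →ₗ[ℂ] FA X) (h : FA X)
  (K t : ℝ) (e e' : X → A) (W : A), FLeib D → 0 < K → FB D K → FB (DD D h) K → (∀ x, ‖e x‖ ≤ 1) →
  |t| * K ≤ 1 / 4 → IsFl D t e e' → IsW D h t e W → ∀ x : X,
  D (lt x) = Complex.I • (lt x * h - h * lt x) → e' x * W = W * e x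

/-- the reverse flow -/
def S_WREV : Prop := ∀ (X A : Type) [CStarAlgebra A] (D : FA X →ₗ[ℂ] FA X) (h : FA X)
  (K t : ℝ) (e e' : X → A) (W : unitary A), FLeib D → 0 < K → FB D K → FB (DD D h) K →
  (∀ x, ‖e x‖ ≤ 1) → |t| * K ≤ 1 / 4 → IsFl D t e e' → IsW D h t e (W : A) →
  HasSum (fun n : ℕ => (((-t : ℝ) : ℂ) ^ n / (n.factorial : ℂ)) • fev e' ((DD D h)^[n] 1))
    (star (W : A))

/-- letters killed by `D` do not move -/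
def S_FLT : Prop := ∀ (X A : Type) [CStarAlgebra A] (D : FA X →ₗ[ℂ] FA X) (t : ℝ) (e e' : X → A),
  IsFl D t e e' → ∀ x : X, D (lt x) = 0 → e' x = e x

/-! ### D. the law, the stage flow -/

/-- trace invariance in the group ring -/
def S_THETA : Prop := ∀ (ι : Type) [DecidableEq ι] (u : ι) (c : FreeGroup ι →₀ ℝ)
  (D : FA (Lt (Option ι)) →ₗ[ℂ] FA (Lt (Option ι))), FD u c D → ∀ q : ℤ →₀ ℂ, q 0 = 0 →
  (∀ m, q (-m) = conj (q m)) → ∀ x, (fev (lg (ι := ι) q) (D x)).coeff 1 = 0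

/-- continuity of evaluations in the 2-norm -/
def S_N2C : Prop := ∀ (X A : Type) [CStarAlgebra A] (φ : TrSt A) (en : ℕ → X → A) (e : X → A)
  (M : ℝ), (∀ n x, ‖en n x‖ ≤ M) → (∀ x, ‖e x‖ ≤ M) →
  (∀ x, Filter.Tendsto (fun n => n2 φ (en n x - e x)) Filter.atTop (nhds 0)) → ∀ f : FA X,
  Filter.Tendsto (fun n => φ.toFun (fev (en n) f)) Filter.atTop (nhds (φ.toFun (fev e f)))

/-- trace invariance -/
def S_FTR : Prop := ∀ (ι : Type) [DecidableEq ι] (u : ι) (c : FreeGroup ι →₀ ℝ)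
  (D : FA (Lt (Option ι)) →ₗ[ℂ] FA (Lt (Option ι))), FD u c D → ∀ (A : Type) [CStarAlgebra A]
  (φ : TrSt A) (σ : Option ι → CI →⋆ₐ[ℂ] A), Sys φ σ → ∀ f : CI,
  (∫ x : unitInterval, f x = 0) → (∀ x, conj (f x) = f x) → ∀ x, φ.toFun (fev (le σ f) (D x)) = 0

/-- the flow of a system -/
def S_FSYS : Prop := ∀ (ι : Type) [DecidableEq ι] (u : ι) (c : FreeGroup ι →₀ ℝ)
  (D : FA (Lt (Option ι)) →ₗ[ℂ] FA (Lt (Option ι))) (K t : ℝ), FD u c D → FData lst D (fh c) K →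
  |t| * K ≤ 1 / 4 → ∀ (A : Type) [CStarAlgebra A] (φ : TrSt A) (σ σ' : Option ι → CI →⋆ₐ[ℂ] A)
  (f : CI) (W : unitary A), FSG φ σ → (∫ x : unitInterval, f x = 0) → (∀ x, conj (f x) = f x) →
  ‖f‖ ≤ 1 → IsW D (fh c) t (le σ f) (W : A) → Mv σ σ' (some u) W →
  IsFl D t (le σ f) (le σ' f) ∧ FSG φ σ'

/-- the derivative of the word `a^{m₁} u^{n₁} …` -/
def S_FORM : Prop := ∀ (ι : Type) [DecidableEq ι] (a u : ι) (c : FreeGroup ι →₀ ℝ)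
  (D : FA (Lt (Option ι)) →ₗ[ℂ] FA (Lt (Option ι))), a ≠ u → FD u c D → ∀ (A : Type)
  [CStarAlgebra A] (σ : Option ι → CI →⋆ₐ[ℂ] A) (f : CI),
  fev (le σ f) (fh c) = hh σ c f ∧ ∀ r : List (ℤ × ℤ),
  fev (le σ f) (fwz a u r) = (gp σ (jj (wz (FreeGroup.of a) (FreeGroup.of u) r)) : A) ∧
  fev (le σ f) (D (fwz a u r)) = Complex.I •
    (hh σ (Z0 (FreeGroup.of a) (FreeGroup.of u) r c) f *
      (gp σ (jj (wz (FreeGroup.of a) (FreeGroup.of u) r)) : A))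

/-- the flow for a short time -/
def S_FS1 : Prop := ∀ (ι : Type) [DecidableEq ι] (a u : ι), a ≠ u → ∀ (r : List (ℤ × ℤ))
  (c : FreeGroup ι →₀ ℝ), ∃ (C t₀ : ℝ), 0 ≤ C ∧ 0 < t₀ ∧ ∀ (A : Type) [CStarAlgebra A]
  (φ : TrSt A) (σ : Option ι → CI →⋆ₐ[ℂ] A), FSG φ σ → ∀ f : CI,
  (∫ x : unitInterval, f x = 0) → (∀ x, conj (f x) = f x) → ‖f‖ ≤ 1 → ∀ t : ℝ, |t| ≤ t₀ →
  ∃ (W : unitary A) (σ' : Option ι → CI →⋆ₐ[ℂ] A), Mv σ σ' (some u) W ∧ FSG φ σ' ∧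
    ‖(W : A) - 1‖ ≤ |t| * (2 * nc c) + C * t ^ 2 ∧
    ‖(gp σ' (jj (wz (FreeGroup.of a) (FreeGroup.of u) r)) : A) -
      ex t (σ none f) * (gp σ (jj (wz (FreeGroup.of a) (FreeGroup.of u) r)) : A)‖ ≤
      |t| * (2 * nc (Z0 (FreeGroup.of a) (FreeGroup.of u) r c - Finsupp.single 1 1)) + C * t ^ 2

/-- the flow for time `β` -/
def S_FS : Prop := ∀ (ι : Type) [DecidableEq ι] (a u : ι), a ≠ u → ∀ (r : List (ℤ × ℤ))
  (c : FreeGroup ι →₀ ℝ) (β η : ℝ), 0 < η → ∀ (A : Type) [CStarAlgebra A]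
  (φ : TrSt A) (σ : Option ι → CI →⋆ₐ[ℂ] A), FSG φ σ → ∀ f : CI,
  (∫ x : unitInterval, f x = 0) → (∀ x, conj (f x) = f x) → ‖f‖ ≤ 1 →
  ∃ (W : unitary A) (σ' : Option ι → CI →⋆ₐ[ℂ] A), Mv σ σ' (some u) W ∧ FSG φ σ' ∧
    ‖(W : A) - 1‖ ≤ |β| * (2 * nc c) + η ∧
    ‖(gp σ' (jj (wz (FreeGroup.of a) (FreeGroup.of u) r)) : A) -
      ex β (σ none f) * (gp σ (jj (wz (FreeGroup.of a) (FreeGroup.of u) r)) : A)‖ ≤
      |β| * (2 * nc (Z0 (FreeGroup.of a) (FreeGroup.of u) r c - Finsupp.single 1 1)) + η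

/-! ### E. semicircular elements -/

/-- a semicircular function exists -/
def S_SC : Prop := ∃ s : C(unitInterval, ℝ), SCf s

/-- elementary consequences -/
def S_SC0 : Prop := ∀ s : C(unitInterval, ℝ), SCf s → ‖cs s‖ ≤ 1 ∧
  (∫ x : unitInterval, cs s x = 0) ∧ (∀ x, conj (cs s x) = cs s x) ∧ (star (cs s) = cs s) ∧
  ∀ (A : Type) [CStarAlgebra A] (σ : CI →⋆ₐ[ℂ] A), star (σ (cs s)) = σ (cs s) ∧
    ‖σ (cs s)‖ ≤ 1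

/-- the semicircular function generates -/
def S_SCGEN : Prop := ∀ s : C(unitInterval, ℝ), SCf s → ∀ (A : Type) [CStarAlgebra A]
  (σ : CI →⋆ₐ[ℂ] A) (S : StarSubalgebra ℂ A), IsClosed (S : Set A) → σ (cs s) ∈ S → ∀ f, σ f ∈ S

/-- integrals of Chebyshev polynomials of the semicircular function -/
def S_CHEB : Prop := ∀ s : C(unitInterval, ℝ), SCf s → ∀ n : ℕ, 0 < n →
  ∫ t : unitInterval, (Polynomial.Chebyshev.U ℂ n).eval ((s t : ℝ) : ℂ) = 0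

/-- members of a system give a free semicircular family -/
def S_SCL : Prop := ∀ (κ : Type) [DecidableEq κ] (s : C(unitInterval, ℝ)), SCf s → ∀ (A : Type)
  [CStarAlgebra A] (φ : TrSt A) (σ : κ → CI →⋆ₐ[ℂ] A), Sys φ σ → SCL φ (fun j => σ j (cs s))

/-- rotation invariance -/
def S_ROT : Prop := ∀ (κ : Type) [Fintype κ] [DecidableEq κ] (A : Type) [CStarAlgebra A]
  (φ : TrSt A) (x : κ → A), SCL φ x → ∀ R : Matrix κ κ ℝ, R * R.transpose = 1 →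
  SCL φ (fun i => ∑ j, ((R i j : ℝ) : ℂ) • x j)

/-- the moments of free semicircular families agree -/
def S_SCM : Prop := ∀ (κ : Type) [DecidableEq κ] (A B : Type) [CStarAlgebra A] [CStarAlgebra B]
  (φ : TrSt A) (ψ : TrSt B) (x : κ → A) (y : κ → B), SCL φ x → SCL ψ y → ∀ w : List κ,
  φ.toFun ((w.map x).prod) = ψ.toFun ((w.map y).prod)

/-- the universal property of free semicircular families -/
def S_SCH : Prop := ∀ (κ : Type) [DecidableEq κ] (s : C(unitInterval, ℝ)), SCf s →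
  ∀ (A B : Type) [CStarAlgebra A] [CStarAlgebra B] (φ : TrSt A) (ψ : TrSt B)
  (σ : κ → CI →⋆ₐ[ℂ] A) (y : κ → B), FSG φ σ → Fai ψ → SCL ψ y →
  ∃ Φ : A →⋆ₐ[ℂ] B, (∀ a, ‖Φ a‖ = ‖a‖) ∧ (∀ a, ψ.toFun (Φ a) = φ.toFun a) ∧
    ∀ j, Φ (σ j (cs s)) = y j

/-! ### F. from one semicircular element to the other -/

/-- Trotter product formula -/
def S_TROT : Prop := ∀ (A : Type) [CStarAlgebra A] (x y : A),
  Filter.Tendsto (fun n : ℕ => (NormedSpace.exp ((1 / (n : ℂ)) • x) *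
    NormedSpace.exp ((1 / (n : ℂ)) • y)) ^ n) Filter.atTop (nhds (NormedSpace.exp (x + y)))

/-- elementary properties of `e^{irx}` -/
def S_EX : Prop := ∀ (A : Type) [CStarAlgebra A] (x y : A), star x = x → star y = y →
  (∀ r, ex r x ∈ unitary A) ∧ (∀ r, star (ex r x) = ex (-r) x) ∧ ex 0 x = 1 ∧
  (∀ r t, ex (r + t) x = ex r x * ex t x) ∧ (∀ r t : ℝ, ex r ((t : ℂ) • x) = ex (r * t) x) ∧
  (∀ r, ex r x * x = x * ex r x) ∧ (∀ r, ‖ex r x - ex r y‖ ≤ |r| * ‖x - y‖) ∧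
  (∀ r, ‖ex r x - 1 - ((r : ℂ) * Complex.I) • x‖ ≤ (|r| * ‖x‖) ^ 2) ∧
  (∀ (r : ℝ) (Q : unitary A), ex r ((Q : A) * x * star (Q : A)) = (Q : A) * ex r x * star (Q : A)) ∧
  (∀ (B : Type) [CStarAlgebra B] (Φ : A →⋆ₐ[ℂ] B) (r : ℝ), Φ (ex r x) = ex r (Φ x)) ∧
  (∀ (S : StarSubalgebra ℂ A), IsClosed (S : Set A) → x ∈ S → ∀ r, ex r x ∈ S) ∧
  ∀ r, HasDerivAt (fun t : ℝ => ex t x) (Complex.I • (x * ex r x)) r

/-- properties of the Lie algebra -/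
def S_LIE : Prop := ∀ (A : Type) [CStarAlgebra A] (x y : A), star x = x → star y = y →
  (x ∈ LL x y ∧ y ∈ LL x y) ∧ (∀ K ∈ LL x y, ∀ K' ∈ LL x y, K + K' ∈ LL x y) ∧
  (∀ (r : ℝ), ∀ K ∈ LL x y, (r : ℂ) • K ∈ LL x y) ∧ IsClosed (LL x y) ∧
  (∀ K ∈ LL x y, ∀ K' ∈ LL x y, ∀ r : ℝ, ex r K * K' * ex (-r) K ∈ LL x y) ∧
  (∀ V ∈ GG x y, V ∈ unitary A) ∧ (1 : A) ∈ GG x y ∧
  (∀ V ∈ GG x y, ∀ V' ∈ GG x y, V * V' ∈ GG x y) ∧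
  (∀ x' ∈ LL x y, ∀ y' ∈ LL x y, GG x' y' ⊆ GG x y) ∧
  ∀ (B : Type) [CStarAlgebra B] (Φ : A →⋆ₐ[ℂ] B), ∀ V ∈ GG x y, Φ V ∈ GG (Φ x) (Φ y)

/-- the element `K` -/
def S_INT : Prop := ∀ (A : Type) [CStarAlgebra A] (x y : A), star x = x → star y = y →
  ∀ T : ℝ, 0 < T → ∃ K ∈ LL x y, Complex.I • (x * K - K * x) =
    y - ((1 / (2 * T) : ℝ) : ℂ) • ∫ t in (-T)..T, ex t x * y * ex (-t) x

/-- Bessel bound for `e^{imz}` -/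
def S_BES : Prop := ∀ s : C(unitInterval, ℝ), SCf s → ∀ (A : Type) [CStarAlgebra A]
  (φ : TrSt A) (σ : CI →⋆ₐ[ℂ] A), (∀ f, φ.toFun (σ f) = ∫ x : unitInterval, f x) →
  ∀ (n : ℕ) (m : Fin n → ℤ), Function.Injective m → ∀ ξ : Fin n → ℂ,
  n2 φ (∑ j, ξ j • ex (m j) (σ (cs s))) ^ 2 ≤ 4 * ∑ j, ‖ξ j‖ ^ 2

/-- the averages are small -/
def S_AVG : Prop := ∀ s : C(unitInterval, ℝ), SCf s → ∀ (A : Type) [CStarAlgebra A]
  (φ : TrSt A) (σ : Option Unit → CI →⋆ₐ[ℂ] A), FSG φ σ → ∀ T : ℕ, 0 < T →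
  ‖((1 / (2 * (T : ℝ)) : ℝ) : ℂ) • ∫ t in (-(T : ℝ))..(T : ℝ),
    ex t (σ (some ()) (cs s)) * σ none (cs s) * ex (-t) (σ (some ()) (cs s))‖ ≤
    4 / Real.sqrt (2 * T)

/-- existence of `V` -/
def S_VLA : Prop := ∀ s : C(unitInterval, ℝ), SCf s → ∀ (A : Type) [CStarAlgebra A]
  (φ : TrSt A) (σ : Option Unit → CI →⋆ₐ[ℂ] A), FSG φ σ → ∀ ε : ℝ, 0 < ε →
  ∃ V ∈ GG (σ (some ()) (cs s)) (σ none (cs s)),
    ‖V * σ (some ()) (cs s) * star V - σ none (cs s)‖ < ε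

/-- the universal list -/
def S_VL : Prop := ∀ s : C(unitInterval, ℝ), SCf s → ∀ ε : ℝ, 0 < ε → ∃ l : List (ℝ × ℝ),
  ∀ (A : Type) [CStarAlgebra A] (φ : TrSt A) (σ : Option Unit → CI →⋆ₐ[ℂ] A), Fai φ → Sys φ σ →
  ‖Vl (σ (some ()) (cs s)) (σ none (cs s)) l * σ (some ()) (cs s) *
    star (Vl (σ (some ()) (cs s)) (σ none (cs s)) l) - σ none (cs s)‖ < ε

/-! ### G. stage, limit -/

/-- a pair inside a system -/
def S_PAIR : Prop := ∀ (ι A : Type) [CStarAlgebra A] (φ : TrSt A) (σ : Option ι → CI →⋆ₐ[ℂ] A),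
  Sys φ σ → ∀ (a : ι) (g : FreeGroup ι) (τ : Option Unit → CI →⋆ₐ[ℂ] A), τ none = σ none →
  τ (some ()) = cj (gp σ (jj g)) (σ (some a)) → Sys φ τ

/-- properties of `Vl` -/
def S_LVL : Prop := ∀ l : List (ℝ × ℝ), ∃ C : ℝ, 0 ≤ C ∧ ∀ (A : Type) [CStarAlgebra A]
  (x y x' y' : A), star x = x → star y = y → star x' = x' → star y' = y' →
  Vl x y l ∈ unitary A ∧ ‖Vl x y l - Vl x' y' l‖ ≤ C * (‖x - x'‖ + ‖y - y'‖) ∧
  ∀ Q : unitary A, Vl ((Q : A) * x * star (Q : A)) ((Q : A) * y * star (Q : A)) l =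
    (Q : A) * Vl x y l * star (Q : A)

/-- the moves -/
def S_RUN : Prop := ∀ l : List (ℝ × ℝ), ∃ C : ℝ, 0 ≤ C ∧ ∀ (ι : Type) [DecidableEq ι] (a u : ι),
  a ≠ u → ∀ (r : List (ℤ × ℤ)) (c : FreeGroup ι →₀ ℝ) (δ : ℝ), 0 < δ → nc c ≤ δ →
  nc (Z0 (FreeGroup.of a) (FreeGroup.of u) r c - Finsupp.single 1 1) ≤ δ →
  ∀ s : C(unitInterval, ℝ), SCf s → ∀ (A : Type) [CStarAlgebra A] (φ : TrSt A)
  (σ : Option ι → CI →⋆ₐ[ℂ] A), FSG φ σ →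
  ∃ (W : unitary A) (σ' : Option ι → CI →⋆ₐ[ℂ] A), FSG φ σ' ∧
    (∀ j : ι, j ≠ u → σ' (some j) = σ (some j)) ∧ σ' (some u) = cj W (σ (some u)) ∧
    ‖(W : A) - 1‖ ≤ C * δ ∧
    ∀ x x' : A, x = cj (gp σ (jj (wz (FreeGroup.of a) (FreeGroup.of u) r))) (σ (some a)) (cs s) →
    x' = cj (gp σ' (jj (wz (FreeGroup.of a) (FreeGroup.of u) r))) (σ' (some a)) (cs s) →
    ‖x' - Vl x (σ none (cs s)) l * x * star (Vl x (σ none (cs s)) l)‖ ≤ C * δ ∧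
    ‖σ' none (cs s) - Vl x (σ none (cs s)) l * σ none (cs s) *
      star (Vl x (σ none (cs s)) l)‖ ≤ C * δ

/-- the word and the coefficients -/
def S_CW : Prop := ∀ (ι : Type) (a u : ι), a ≠ u → ∀ ε : ℝ, 0 < ε →
  ∃ (r : List (ℤ × ℤ)) (c : FreeGroup ι →₀ ℝ), nc c < ε ∧
    nc (Z0 (FreeGroup.of a) (FreeGroup.of u) r c - Finsupp.single 1 1) < ε

/-- the stage lemma -/
def S_STG : Prop := ∀ (ι : Type) [DecidableEq ι] (a u : ι), a ≠ u → ∀ s : C(unitInterval, ℝ),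
  SCf s → ∀ (A : Type) [CStarAlgebra A] (φ : TrSt A) (σ : Option ι → CI →⋆ₐ[ℂ] A), FSG φ σ →
  ∀ ε : ℝ, 0 < ε → ∃ (W : unitary A) (σ' : Option ι → CI →⋆ₐ[ℂ] A), FSG φ σ' ∧
    (∀ j : ι, j ≠ u → σ' (some j) = σ (some j)) ∧ σ' (some u) = cj W (σ (some u)) ∧
    ‖(W : A) - 1‖ < ε ∧ ∃ x ∈ Cs (sm σ'), ‖x - σ none (cs s)‖ < ε

/-- approximation of all the elements -/
def S_APX : Prop := ∀ s : C(unitInterval, ℝ), SCf s → ∀ (ι A : Type) [CStarAlgebra A]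
  (φ : TrSt A) (σ : Option ι → CI →⋆ₐ[ℂ] A) (u : ι), FSG φ σ → ∀ (b : A) (ε : ℝ), 0 < ε →
  ∃ δ : ℝ, 0 < δ ∧ ∀ (W : unitary A) (σ' : Option ι → CI →⋆ₐ[ℂ] A),
    (∀ j : ι, j ≠ u → σ' (some j) = σ (some j)) → σ' (some u) = cj W (σ (some u)) →
    ‖(W : A) - 1‖ < δ → (∃ x ∈ Cs (sm σ'), ‖x - σ none (cs s)‖ < δ) →
    ∃ b' ∈ Cs (sm σ'), ‖b' - b‖ < ε

/-- the conclusion of the stage for all elements of the algebra -/
def StgAt {ι A : Type} [CStarAlgebra A] (u : ι) (φ : TrSt A) : Prop :=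
  ∀ σ : Option ι → CI →⋆ₐ[ℂ] A, FSG φ σ → ∀ (b : A) (ε : ℝ), 0 < ε →
  ∃ (W : unitary A) (σ' : Option ι → CI →⋆ₐ[ℂ] A), FSG φ σ' ∧
    (∀ j : ι, j ≠ u → σ' (some j) = σ (some j)) ∧ σ' (some u) = cj W (σ (some u)) ∧
    ‖(W : A) - 1‖ < ε ∧ ∃ b' ∈ Cs (sm σ'), ‖b' - b‖ < ε

/-- the limit -/
def S_LIM : Prop := ∀ (ι A : Type) [CStarAlgebra A] (u : ι) (φ : TrSt A), StgAt u φ →
  ∀ σ : Option ι → CI →⋆ₐ[ℂ] A, FSG φ σ → ∃ τ : ι → CI →⋆ₐ[ℂ] A, FSG φ τ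

/-- absorption of one copy -/
def S_ABS : Prop := ∀ (ι A : Type) [CStarAlgebra A] (a u : ι), a ≠ u → ∀ (φ : TrSt A)
  (σ : Option ι → CI →⋆ₐ[ℂ] A), FSG φ σ → ∃ τ : ι → CI →⋆ₐ[ℂ] A, FSG φ τ

/-! ### H. existence of the reduced free powers -/

/-- the full Fock space: `x` are the semicircular elements acting from the left, `y` from the
right, `δ` is the orthonormal basis indexed by words -/
def S_FOCK : Prop := ∀ (κ : Type) [DecidableEq κ], ∃ (H : Type) (_ : NormedAddCommGroup H)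
  (_ : InnerProductSpace ℂ H) (_ : CompleteSpace H) (x y : κ → H →L[ℂ] H) (δ : List κ → H),
  Orthonormal ℂ δ ∧ (Submodule.span ℂ (Set.range δ)).topologicalClosure = ⊤ ∧
  (∀ i, star (x i) = x i) ∧ (∀ i, star (y i) = y i) ∧ (∀ i, ‖x i‖ ≤ 1) ∧ (∀ i, ‖y i‖ ≤ 1) ∧
  (∀ i j, x i * y j = y j * x i) ∧ (∀ w, PP x w (δ []) = δ w) ∧
  (∀ w, PP y w (δ []) = δ w.reverse)

/-- a faithful tracial state with a generating free semicircular family of contractions -/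
def S_SCEX : Prop := ∀ (κ : Type) [DecidableEq κ], ∃ (A : Type) (_ : CStarAlgebra A)
  (φ : TrSt A) (x : κ → A), Fai φ ∧ SCL φ x ∧ (∀ i, ‖x i‖ ≤ 1) ∧
  (StarAlgebra.adjoin ℂ (Set.range x)).topologicalClosure = ⊤

/-- free semicircular families give free powers -/
def S_SCFP : Prop := ∀ (κ : Type) [DecidableEq κ] (s : C(unitInterval, ℝ)), SCf s → ∀ (A : Type)
  [CStarAlgebra A] (φ : TrSt A) (x : κ → A), Fai φ → SCL φ x → (∀ i, ‖x i‖ ≤ 1) →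
  (StarAlgebra.adjoin ℂ (Set.range x)).topologicalClosure = ⊤ →
  ∃ σ : κ → CI →⋆ₐ[ℂ] A, FreePow φ σ ∧ ∀ j, σ j (cs s) = x j

/-- existence of the reduced free powers -/
def S_EXI : Prop := ∀ κ : Type, ∃ (A : Type) (_ : CStarAlgebra A) (φ : TrSt A)
  (σ : κ → CI →⋆ₐ[ℂ] A), FreePow φ σ

/-- the main theorem -/
def S_MAIN : Prop := ∀ (ℓ m : ℕ), 2 ≤ ℓ → 2 ≤ m → ∀ (A B : Type) [CStarAlgebra A] [CStarAlgebra B]
  (φ : TrSt A) (ψ : TrSt B) (σ : Fin ℓ → CI →⋆ₐ[ℂ] A) (τ : Fin m → CI →⋆ₐ[ℂ] B),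
  FreePow φ σ → FreePow ψ τ → Nonempty (A ≃⋆ₐ[ℂ] B)

end Pool.Agent.H308R2.CF
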