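import Mathlib
import Pool.Agent.H308R2.CF.Stubs

/-! AVG: the averages are small (helper972). -/

namespace Pool.Agent.H308R2.CF

open Pool.Agent.H770R2.UL (TrSt n2)
open scoped ComplexConjugate

theorem avg_mem {κ A : Type} [CStarAlgebra A] (σ : κ → CI →⋆ₐ[ℂ] A) (j : κ) (f : CI) :
    σ j f ∈ Cs σ := by
  have h1 : σ j f ∈ (⨆ j, (σ j).range : StarSubalgebra ℂ A) := by
    have h2 : (σ j).range ≤ (⨆ j, (σ j).range : StarSubalgebra ℂ A) := le_iSup (fun i => (σ i).range) j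
    exact h2 ⟨f, rfl⟩
  exact StarSubalgebra.le_topologicalClosure _ h1

theorem avg_closed {κ A : Type} [CStarAlgebra A] (σ : κ → CI →⋆ₐ[ℂ] A) :
    IsClosed (Cs σ : Set A) := StarSubalgebra.isClosed_topologicalClosure _

theorem t_AVG (h1 : S_NL) (h2 : S_BES) (h3 : S_EX) (h4 : S_SC0) : S_AVG := by
  intro s hs A _ φ σ hσ T hT
  obtain ⟨hc1, hc2, -, -, hc5⟩ := h4 s hs
  set x : A := σ (some ()) (cs s) with hx
  set y : A := σ none (cs s) with hy
  have hxs : star x = x := (hc5 A (σ (some ()))).1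
  have hys : star y = y := (hc5 A (σ none)).1
  obtain ⟨e1, e2, e3, e4, e5, e6, e7, e8, e9, e10, e11, e12⟩ := h3 A x y hxs hys
  have hxm : x ∈ Cs (sm σ) := avg_mem (sm σ) () (cs s)
  set F : ℝ → A := fun t => ex t x * y * ex (-t) x with hF
  have hexc : Continuous fun t : ℝ => ex t x :=
    continuous_iff_continuousAt.mpr fun r => (e12 r).continuousAt
  have hFc : Continuous F := (hexc.mul continuous_const).mul (hexc.comp continuous_neg)
  set n : ℕ := 2 * T with hn
  -- the points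
  set mm : Fin n → ℤ := fun k => (k.val : ℤ) - T with hmm
  have hinj : Function.Injective mm := by
    intro a b hab
    simp only [hmm] at hab
    exact Fin.ext (by omega)
  -- the sum over the integers
  have hsum : ‖∑ k : Fin n, F ((mm k : ℤ) : ℝ)‖ ≤ 4 * Real.sqrt (2 * T) := by
    have k1 := h1 Unit A φ σ hσ n (fun k => ⟨ex ((mm k : ℤ) : ℝ) x, e1 _⟩) 4
      (fun k => e11 (Cs (sm σ)) (avg_closed _) hxm _)
      (fun ξ => h2 s hs A φ (σ (some ())) (hσ.sys.mar (some ())) n mm hinj ξ)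
      (fun _ => 1) (cs s) hc2
    have k2 : ∑ k : Fin n, (1 : ℂ) • ((ex ((mm k : ℤ) : ℝ) x) * σ none (cs s) *
        star (ex ((mm k : ℤ) : ℝ) x)) = ∑ k : Fin n, F ((mm k : ℤ) : ℝ) := by
      refine Finset.sum_congr rfl fun k _ => ?_
      rw [one_smul, e2]
    have k3 : Real.sqrt 4 = 2 := by
      rw [show (4 : ℝ) = 2 ^ 2 by norm_num, Real.sqrt_sq (by norm_num)]
    have k4 : Real.sqrt (∑ _m : Fin n, ‖(1 : ℂ)‖ ^ 2) = Real.sqrt (2 * T) := by
      congr 1
      simp [hn]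
    rw [k3, k4] at k1
    rw [← k2]
    refine k1.trans ?_
    calc 2 * 2 * Real.sqrt (2 * T) * ‖cs s‖ ≤ 2 * 2 * Real.sqrt (2 * T) * 1 :=
          mul_le_mul_of_nonneg_left hc1 (by positivity)
      _ = 4 * Real.sqrt (2 * T) := by ring
  have hunit : ∀ r : ℝ, ‖ex r x‖ ≤ 1 := fun r => by
    have hu := e1 r
    rcases subsingleton_or_nontrivial A with hA | hA
    · rw [Subsingleton.elim (ex r x) 0, norm_zero]
      exact zero_le_one
    · exact (CStarRing.norm_of_mem_unitary hu).le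
  have hshift : ∀ r t : ℝ, F (r + t) = ex r x * F t * ex (-r) x := by
    intro r t
    simp only [hF]
    rw [e4 r t, show -(r + t) = -t + -r by ring, e4 (-t) (-r)]
    noncomm_ring
  have hsumr : ∀ r : ℝ, ‖∑ k : Fin n, F (r + ((mm k : ℤ) : ℝ))‖ ≤ 4 * Real.sqrt (2 * T) := by
    intro r
    have k1 : ∑ k : Fin n, F (r + ((mm k : ℤ) : ℝ)) =
        ex r x * (∑ k : Fin n, F ((mm k : ℤ) : ℝ)) * ex (-r) x := by
      rw [Finset.mul_sum, Finset.sum_mul]
      exact Finset.sum_congr rfl fun k _ => hshift r _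
    rw [k1]
    calc ‖ex r x * (∑ k : Fin n, F ((mm k : ℤ) : ℝ)) * ex (-r) x‖
        ≤ ‖ex r x‖ * ‖∑ k : Fin n, F ((mm k : ℤ) : ℝ)‖ * ‖ex (-r) x‖ :=
          (norm_mul_le _ _).trans (mul_le_mul_of_nonneg_right (norm_mul_le _ _) (norm_nonneg _))
      _ ≤ 1 * (4 * Real.sqrt (2 * T)) * 1 := by
          refine mul_le_mul (mul_le_mul (hunit r) hsum (norm_nonneg _) zero_le_one) (hunit _)
            (norm_nonneg _) (by positivity)
      _ = 4 * Real.sqrt (2 * T) := by ring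
  -- the integral
  set a : ℕ → ℝ := fun k => (k : ℝ) - T with ha
  have hint : ∀ u v : ℝ, IntervalIntegrable F MeasureTheory.volume u v :=
    fun u v => hFc.intervalIntegrable u v
  have hI : ∫ t in (-(T : ℝ))..(T : ℝ), F t =
      ∫ r in (0 : ℝ)..1, ∑ k : Fin n, F (r + ((mm k : ℤ) : ℝ)) := by
    have k1 : ∑ k ∈ Finset.range n, ∫ t in a k..a (k + 1), F t = ∫ t in a 0..a n, F t :=
      intervalIntegral.sum_integral_adjacent_intervals fun k _ => hint _ _
    have k2 : a 0 = -(T : ℝ) := by simp [ha]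
    have k3 : a n = (T : ℝ) := by simp only [ha, hn]; push_cast; ring
    rw [k2, k3] at k1
    have k7 : ∫ r in (0 : ℝ)..1, ∑ k : Fin n, F (r + ((mm k : ℤ) : ℝ)) =
        ∑ k : Fin n, ∫ r in (0 : ℝ)..1, F (r + ((mm k : ℤ) : ℝ)) :=
      intervalIntegral.integral_finsetSum fun k _ =>
        (hFc.comp (continuous_id.add continuous_const)).intervalIntegrable _ _
    rw [← k1, k7, ← Fin.sum_univ_eq_sum_range (fun k => ∫ t in a k..a (k + 1), F t) n]
    refine Finset.sum_congr rfl fun k _ => ?_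
    have k4 := intervalIntegral.integral_comp_add_right (a := (0 : ℝ)) (b := 1) F
      ((mm k : ℤ) : ℝ)
    have k5 : (0 : ℝ) + ((mm k : ℤ) : ℝ) = a k.val := by
      simp only [ha, hmm]; push_cast; ring
    have k6 : (1 : ℝ) + ((mm k : ℤ) : ℝ) = a (k.val + 1) := by
      simp only [ha, hmm]; push_cast; ring
    rw [k5, k6] at k4
    exact k4.symm
  have hIn : ‖∫ t in (-(T : ℝ))..(T : ℝ), F t‖ ≤ 4 * Real.sqrt (2 * T) := by
    rw [hI]
    have := intervalIntegral.norm_integral_le_of_norm_le_const (a := (0 : ℝ)) (b := 1)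
      (f := fun r => ∑ k : Fin n, F (r + ((mm k : ℤ) : ℝ))) (C := 4 * Real.sqrt (2 * T))
      (fun r _ => hsumr r)
    simpa using this
  have hT0 : (0 : ℝ) < 2 * T := by
    have : (0 : ℝ) < T := by exact_mod_cast hT
    linarith
  rw [norm_smul]
  have k1 : ‖((1 / (2 * (T : ℝ)) : ℝ) : ℂ)‖ = 1 / (2 * T) := by
    rw [Complex.norm_real, Real.norm_of_nonneg (by positivity)]
  rw [k1]
  calc 1 / (2 * (T : ℝ)) * ‖∫ t in (-(T : ℝ))..(T : ℝ), F t‖
      ≤ 1 / (2 * (T : ℝ)) * (4 * Real.sqrt (2 * T)) :=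
        mul_le_mul_of_nonneg_left hIn (by positivity)
    _ = 4 / Real.sqrt (2 * T) := by
        have hsq : Real.sqrt (2 * T) ≠ 0 := (Real.sqrt_pos.mpr hT0).ne'
        field_simp
        rw [Real.sq_sqrt hT0.le]

end Pool.Agent.H308R2.CF
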