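import Pool.Agent.H308R2.CF.Stubs

/-! Bessel bound (task BES). -/

open MeasureTheory

namespace Pool.Agent.H308R2.CF

open Pool.Agent.H770R2.UL (TrSt n2)

theorem bes_exp_int (n : ℤ) (hn : n ≠ 0) :
    ∫ x in (-Real.pi)..Real.pi, Complex.exp ((n : ℂ) * Complex.I * (x : ℂ)) = 0 := by
  have h0 : (n : ℂ) * Complex.I ≠ 0 := mul_ne_zero (by exact_mod_cast hn) Complex.I_ne_zero
  rw [integral_exp_mul_complex h0]
  have h1 : Complex.exp ((n : ℂ) * Complex.I * (Real.pi : ℂ)) =
      Complex.exp ((n : ℂ) * Complex.I * ((-Real.pi : ℝ) : ℂ)) := by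
    rw [Complex.exp_eq_exp_iff_exists_int]
    refine ⟨n, ?_⟩
    push_cast
    ring
  rw [h1, sub_self, zero_div]

theorem bes_parseval (n : ℕ) (m : Fin n → ℤ) (hm : Function.Injective m) (ξ : Fin n → ℂ) :
    ∫ x in (-Real.pi)..Real.pi, ‖∑ j, ξ j * Complex.exp ((m j : ℂ) * Complex.I * (x : ℂ))‖ ^ 2 =
      2 * Real.pi * ∑ j, ‖ξ j‖ ^ 2 := by
  have h1 : ∀ x : ℝ, ((‖∑ j, ξ j * Complex.exp ((m j : ℂ) * Complex.I * (x : ℂ))‖ ^ 2 : ℝ) : ℂ) =
      ∑ j, ∑ k, (ξ j * (starRingEnd ℂ) (ξ k)) *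
        Complex.exp (((m j - m k : ℤ) : ℂ) * Complex.I * (x : ℂ)) := by
    intro x
    push_cast
    rw [← Complex.mul_conj', map_sum, Finset.sum_mul_sum]
    refine Finset.sum_congr rfl fun j _ => Finset.sum_congr rfl fun k _ => ?_
    rw [map_mul, ← Complex.exp_conj]
    have h2 : (starRingEnd ℂ) ((m k : ℂ) * Complex.I * (x : ℂ)) = -((m k : ℂ) * Complex.I * (x : ℂ)) := by
      rw [map_mul, map_mul, Complex.conj_I, Complex.conj_ofReal, map_intCast]
      ring
    rw [h2, show ((m j : ℂ) - (m k : ℂ)) * Complex.I * (x : ℂ) =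
      (m j : ℂ) * Complex.I * (x : ℂ) + -((m k : ℂ) * Complex.I * (x : ℂ)) by ring, Complex.exp_add]
    ring
  have h3 : ((∫ x in (-Real.pi)..Real.pi,
      ‖∑ j, ξ j * Complex.exp ((m j : ℂ) * Complex.I * (x : ℂ))‖ ^ 2 : ℝ) : ℂ) =
      ((2 * Real.pi * ∑ j, ‖ξ j‖ ^ 2 : ℝ) : ℂ) := by
    rw [← intervalIntegral.integral_ofReal]
    simp only [h1]
    have hc : ∀ j k, Continuous fun x : ℝ => (ξ j * (starRingEnd ℂ) (ξ k)) *
        Complex.exp (((m j - m k : ℤ) : ℂ) * Complex.I * (x : ℂ)) := by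
      intro j k
      fun_prop
    rw [intervalIntegral.integral_finsetSum]
    swap
    · intro j _
      exact (continuous_finsetSum _ fun k _ => hc j k).intervalIntegrable _ _
    have h4 : ∀ j, ∫ x in (-Real.pi)..Real.pi, ∑ k, (ξ j * (starRingEnd ℂ) (ξ k)) *
        Complex.exp (((m j - m k : ℤ) : ℂ) * Complex.I * (x : ℂ)) =
        ((2 * Real.pi * ‖ξ j‖ ^ 2 : ℝ) : ℂ) := by
      intro j
      rw [intervalIntegral.integral_finsetSum]
      swap
      · intro k _
        exact (hc j k).intervalIntegrable _ _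
      rw [Finset.sum_eq_single j]
      · simp only [sub_self, Int.cast_zero, zero_mul, Complex.exp_zero, mul_one]
        rw [intervalIntegral.integral_const, Complex.real_smul, Complex.mul_conj']
        push_cast
        ring
      · intro k _ hk
        rw [intervalIntegral.integral_const_mul, bes_exp_int _ (sub_ne_zero.2 fun h => hk (hm h).symm),
          mul_zero]
      · intro h
        exact absurd (Finset.mem_univ j) h
    rw [Finset.sum_congr rfl fun j _ => h4 j]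
    push_cast
    rw [Finset.mul_sum]
  exact_mod_cast h3

theorem bes_semi (h : ℝ → ℝ) (hc : Continuous h) (h0 : ∀ x, 0 ≤ h x) :
    ∫ θ in (0:ℝ)..Real.pi, h (Real.cos θ) * Real.sin θ ^ 2 ≤
      ∫ x in (-Real.pi)..Real.pi, h x := by
  have h1 : ∫ θ in (0:ℝ)..Real.pi, h (Real.cos θ) * Real.sin θ ^ 2 ≤
      ∫ θ in (0:ℝ)..Real.pi, h (Real.cos θ) * Real.sin θ := by
    refine intervalIntegral.integral_mono_on Real.pi_pos.le ?_ ?_ fun θ hθ => ?_
    · exact Continuous.intervalIntegrable (by fun_prop) _ _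
    · exact Continuous.intervalIntegrable (by fun_prop) _ _
    · refine mul_le_mul_of_nonneg_left ?_ (h0 _)
      have := Real.sin_nonneg_of_nonneg_of_le_pi hθ.1 hθ.2
      have := Real.sin_le_one θ
      nlinarith
  have h2 : ∫ θ in (0:ℝ)..Real.pi, h (Real.cos θ) * Real.sin θ = ∫ x in (-1:ℝ)..1, h x := by
    have h3 := intervalIntegral.integral_comp_mul_deriv (a := 0) (b := Real.pi) (f := Real.cos)
      (f' := fun x => -Real.sin x) (g := h) (fun x _ => Real.hasDerivAt_cos x)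
      (by fun_prop) hc
    rw [Real.cos_zero, Real.cos_pi] at h3
    rw [intervalIntegral.integral_symm (-1) 1] at h3
    simp only [Function.comp_def, mul_neg, intervalIntegral.integral_neg, neg_inj] at h3
    exact h3
  have h4 : ∫ x in (-1:ℝ)..1, h x ≤ ∫ x in (-Real.pi)..Real.pi, h x := by
    have hpi := Real.pi_gt_three
    refine intervalIntegral.integral_mono_interval (by linarith) (by norm_num) (by linarith) ?_ ?_
    · exact Filter.Eventually.of_forall h0
    · exact hc.intervalIntegrable _ _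
  linarith

theorem bes_cont {A : Type} [CStarAlgebra A] (σ : CI →⋆ₐ[ℂ] A) : Continuous σ :=
  AddMonoidHomClass.continuous_of_bound σ 1 fun x => by
    rw [one_mul]
    exact NonUnitalStarAlgHom.norm_apply_le σ x

theorem bes_exp_apply (f : CI) (t : unitInterval) :
    (NormedSpace.exp f : CI) t = Complex.exp (f t) := by
  rw [Complex.exp_eq_exp_ℂ]
  exact NormedSpace.map_exp (ContinuousMap.evalAlgHom ℂ ℂ t)
    (show Continuous fun f : CI => f t from continuous_eval_const t) f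

theorem t_BES : S_BES := by
  intro s hs A _ φ σ hσ n m hm ξ
  set F : CI := ∑ j, ξ j • NormedSpace.exp (((((m j : ℤ) : ℝ) : ℂ) * Complex.I) • cs s) with hF
  have h1 : ∑ j, ξ j • ex (m j) (σ (cs s)) = σ F := by
    rw [hF, map_sum]
    refine Finset.sum_congr rfl fun j _ => ?_
    let _ : NormedAlgebra ℚ A := NormedAlgebra.restrictScalars ℚ ℂ A
    rw [map_smul, NormedSpace.map_exp σ (bes_cont σ), map_smul]
    rfl
  have h2 : ∀ t : unitInterval, F t = ∑ j, ξ j * Complex.exp ((m j : ℂ) * Complex.I * ((s t : ℝ) : ℂ)) := by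
    intro t
    rw [hF, ContinuousMap.coe_sum, Finset.sum_apply]
    refine Finset.sum_congr rfl fun j _ => ?_
    rw [ContinuousMap.smul_apply, bes_exp_apply, ContinuousMap.smul_apply, smul_eq_mul, smul_eq_mul]
    show ξ j * Complex.exp ((((m j : ℤ) : ℝ) : ℂ) * Complex.I * ((s t : ℝ) : ℂ)) = _
    push_cast
    rfl
  set h : ℝ → ℝ := fun x => ‖∑ j, ξ j * Complex.exp ((m j : ℂ) * Complex.I * (x : ℂ))‖ ^ 2 with hh
  have hc : Continuous h := by
    rw [hh]
    fun_prop
  have h3 : ∀ t : unitInterval, (star F * F) t = ((h (s t) : ℝ) : ℂ) := by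
    intro t
    rw [ContinuousMap.mul_apply, ContinuousMap.star_apply]
    show (starRingEnd ℂ) (F t) * F t = _
    rw [Complex.conj_mul', h2 t, hh]
    push_cast
    rfl
  have h4 : n2 φ (∑ j, ξ j • ex (m j) (σ (cs s))) ^ 2 =
      (2 / Real.pi) * ∫ θ in (0:ℝ)..Real.pi, h (Real.cos θ) * Real.sin θ ^ 2 := by
    rw [h1, Pool.Agent.H770R2.UL.n2_sq, ← map_star, ← map_mul, hσ]
    rw [integral_congr_ae (Filter.Eventually.of_forall h3)]
    rw [hs.law (fun x => ((h x : ℝ) : ℂ)) (Complex.continuous_ofReal.comp hc)]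
    have h5 : ∀ θ : ℝ, ((h (Real.cos θ) : ℝ) : ℂ) * ((Real.sin θ ^ 2 : ℝ) : ℂ) =
        ((h (Real.cos θ) * Real.sin θ ^ 2 : ℝ) : ℂ) := by
      intro θ
      push_cast
      ring
    simp only [h5]
    rw [intervalIntegral.integral_ofReal]
    rw [show (2 / Real.pi : ℂ) = ((2 / Real.pi : ℝ) : ℂ) by push_cast; rfl, ← Complex.ofReal_mul,
      Complex.ofReal_re]
  rw [h4]
  have h6 := bes_semi h hc (fun x => by rw [hh]; positivity)
  have h7 := bes_parseval n m hm ξ
  have h8 : ∫ x in (-Real.pi)..Real.pi, h x = 2 * Real.pi * ∑ j, ‖ξ j‖ ^ 2 := h7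
  rw [h8] at h6
  have hpi := Real.pi_pos
  calc (2 / Real.pi) * ∫ θ in (0:ℝ)..Real.pi, h (Real.cos θ) * Real.sin θ ^ 2
      ≤ (2 / Real.pi) * (2 * Real.pi * ∑ j, ‖ξ j‖ ^ 2) :=
        mul_le_mul_of_nonneg_left h6 (by positivity)
    _ = 4 * ∑ j, ‖ξ j‖ ^ 2 := by
        field_simp
        ring

end Pool.Agent.H308R2.CF
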