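import Pool.Agent.H308R2.CF.Stubs

set_option autoImplicit false

namespace Pool.Agent.H308R2.CF

namespace CHEB

open MeasureTheory

theorem int_cos (m : ℕ) (hm : 0 < m) :
    ∫ θ in (0 : ℝ)..Real.pi, Complex.cos ((m : ℂ) * θ) = 0 := by
  have hz : (m : ℂ) ≠ 0 := by exact_mod_cast hm.ne'
  rw [integral_cos_mul_complex hz]
  simp [Complex.sin_nat_mul_pi]

theorem prod_sin (n : ℕ) (θ : ℝ) :
    (Polynomial.Chebyshev.U ℂ n).eval ((Real.cos θ : ℝ) : ℂ) * ((Real.sin θ ^ 2 : ℝ) : ℂ) =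
      (1 / 2) * (Complex.cos ((n : ℂ) * θ) - Complex.cos (((n + 2 : ℕ) : ℂ) * θ)) := by
  have h := Polynomial.Chebyshev.U_complex_cos (θ : ℂ) (n : ℤ)
  have e1 : (Polynomial.Chebyshev.U ℂ n).eval ((Real.cos θ : ℝ) : ℂ) * ((Real.sin θ ^ 2 : ℝ) : ℂ) =
      ((Polynomial.Chebyshev.U ℂ n).eval (Complex.cos θ) * Complex.sin θ) * Complex.sin θ := by
    push_cast
    ring
  rw [e1, h]
  push_cast
  have e2 : Complex.cos ((n : ℂ) * θ) = Complex.cos (((n : ℂ) + 1) * θ - θ) := by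
    congr 1; ring
  have e3 : Complex.cos (((n : ℂ) + 2) * θ) = Complex.cos (((n : ℂ) + 1) * θ + θ) := by
    congr 1; ring
  rw [e2, e3, Complex.cos_sub, Complex.cos_add]
  ring

end CHEB

theorem t_CHEB : S_CHEB := by
  intro s hs n hn
  have hg : Continuous (fun x : ℝ => (Polynomial.Chebyshev.U ℂ n).eval ((x : ℝ) : ℂ)) :=
    (Polynomial.Chebyshev.U ℂ n).continuous.comp Complex.continuous_ofReal
  rw [hs.law (fun x : ℝ => (Polynomial.Chebyshev.U ℂ n).eval ((x : ℝ) : ℂ)) hg]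
  have h0 : ∫ θ in (0 : ℝ)..Real.pi, (Polynomial.Chebyshev.U ℂ n).eval ((Real.cos θ : ℝ) : ℂ) *
      ((Real.sin θ ^ 2 : ℝ) : ℂ) = 0 := by
    have e : ∀ θ : ℝ, (Polynomial.Chebyshev.U ℂ n).eval ((Real.cos θ : ℝ) : ℂ) *
        ((Real.sin θ ^ 2 : ℝ) : ℂ) =
        (1 / 2) * (Complex.cos ((n : ℂ) * θ) - Complex.cos (((n + 2 : ℕ) : ℂ) * θ)) :=
      CHEB.prod_sin n
    simp only [e]
    rw [intervalIntegral.integral_const_mul, intervalIntegral.integral_sub,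
      CHEB.int_cos n hn, CHEB.int_cos (n + 2) (by omega)]
    · simp
    · exact (by fun_prop : Continuous fun θ : ℝ => Complex.cos ((n : ℂ) * θ)).intervalIntegrable _ _
    · exact (by fun_prop : Continuous fun θ : ℝ =>
        Complex.cos (((n + 2 : ℕ) : ℂ) * θ)).intervalIntegrable _ _
  rw [h0, mul_zero]

end Pool.Agent.H308R2.CF
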