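import Mathlib
import Pool.Agent.H722.FG.CW
import Pool.Agent.H308R2.CF.Stubs

set_option autoImplicit false

/-! The word `a^{e₁} u^{e₂} a^{e₃} u^{e₄} …` (`e_j = 2 j + 1`) and the small solution of
`Z₀ c ≈ 1`, where `Z₀` is the signed sum over all prefixes. -/

namespace Pool.Agent.H308R2.CF

namespace ZCW

open FreeGroup
open Pool.Agent.H722.FG (hd hd_pow_mul hd_invpow_mul hd_one adm Vd W Ad' mem_W_succ W_len W_vd
  W_card Ad'_le Ad'_nil Ad'_ge sum_sq_single n2_le act_single act_sum sum_W_succ sc ec ec_bound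
  ec_zero sc_N sc_sq)
open Pool.Agent.H581R.FF (n2 act)

section words

variable {X : Type} [DecidableEq X]

/-- `g` does not begin with a power of `l` -/
def nl (l : X) (g : FreeGroup X) : Prop := ∀ b, hd g ≠ some (l, b)

lemma hd_zpow {l : X} {g : FreeGroup X} (h : nl l g) {m : ℤ} (hm : m ≠ 0) :
    ∃ b, hd ((of l) ^ m * g) = some (l, b) := by
  obtain ⟨n, rfl | rfl⟩ := m.eq_nat_or_neg
  · rw [zpow_natCast]
    exact ⟨true, hd_pow_mul l n (by simpa using hm) g (h false)⟩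
  · rw [zpow_neg, zpow_natCast]
    exact ⟨false, hd_invpow_mul l n (by simpa using hm) g (h true)⟩

lemma nl_zpow {l l' : X} (hl : l ≠ l') {g : FreeGroup X} (h : nl l g) {m : ℤ} (hm : m ≠ 0) :
    nl l' ((of l) ^ m * g) := by
  obtain ⟨b, hb⟩ := hd_zpow h hm
  intro b'
  rw [hb]
  intro h'
  simp only [Option.some.injEq, Prod.mk.injEq] at h'
  exact hl h'.1

lemma nl_one (l : X) : nl l (1 : FreeGroup X) := by
  intro b
  rw [hd_one]
  simp

lemma uniq {l : X} {g h : FreeGroup X} (hg : nl l g) (hh : nl l h) {m n : ℤ}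
    (e : (of l) ^ m * g = (of l) ^ n * h) : m = n ∧ g = h := by
  by_cases hmn : m = n
  · subst hmn
    exact ⟨rfl, mul_left_cancel e⟩
  · exfalso
    have e2 : (of l) ^ (m - n) * g = h := by
      rw [sub_eq_neg_add, zpow_add, mul_assoc, e, zpow_neg, inv_mul_cancel_left]
    obtain ⟨b, hb⟩ := hd_zpow hg (sub_ne_zero.2 hmn)
    rw [e2] at hb
    exact hh b hb

lemma uniq2 {l l' : X} {g h : FreeGroup X} (hg : nl l g) (hh : nl l' h) {m n : ℤ} (hm : m ≠ 0)
    (hn : n ≠ 0) (e : (of l) ^ m * g = (of l') ^ n * h) : l = l' ∧ m = n ∧ g = h := by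
  by_cases hl : l = l'
  · subst hl
    exact ⟨rfl, uniq hg hh e⟩
  · exfalso
    have h1 := nl_zpow hl hg hm
    obtain ⟨b, hb⟩ := hd_zpow hh hn
    rw [← e] at hb
    exact h1 b hb

variable (a u : X)

/-- the letter of the syllable `j` -/
def lt (j : ℕ) : X := if j % 2 = 1 then a else u

/-- the exponent of the syllable `j` -/
def ex (j : ℕ) : ℤ := 2 * j + 1

/-- the prefixes -/
def P : ℕ → FreeGroup X
  | 0 => 1
  | j + 1 => P j * (of (lt a u (j + 1))) ^ (ex (j + 1))

omit [DecidableEq X] in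
lemma P_succ (j : ℕ) : P a u (j + 1) = P a u j * (of (lt a u (j + 1))) ^ (ex (j + 1)) := rfl

/-- the type of `t` -/
def TT (q : ℕ) (t : FreeGroup X) : Prop :=
  ∃ (l : X) (m : ℤ) (t' : FreeGroup X), nl l t' ∧ t = (of l) ^ m * t' ∧
    ((l = lt a u (q + 1) ∧ m = ex (q + 1)) ∨ (l = lt a u q ∧ m = - ex q))

variable {a u}

omit [DecidableEq X] in
lemma lt_ne (hau : a ≠ u) (j : ℕ) : lt a u (j + 1) ≠ lt a u j := by
  unfold lt
  rcases Nat.mod_two_eq_zero_or_one j with h | h
  · rw [if_pos (by omega), if_neg (by omega)]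
    exact hau
  · rw [if_neg (by omega), if_pos h]
    exact hau.symm

lemma T_inj {q r : ℕ} {t : FreeGroup X} (h : TT a u q t) (h' : TT a u r t) : q = r := by
  obtain ⟨l, m, t1, h1, h2, h3⟩ := h
  obtain ⟨l', m', t1', h1', h2', h3'⟩ := h'
  have hm : m ≠ 0 := by unfold ex at h3; omega
  have hm' : m' ≠ 0 := by unfold ex at h3'; omega
  obtain ⟨e1, e2, e3⟩ := uniq2 h1 h1' hm hm' (h2.symm.trans h2')
  unfold ex at h3 h3'
  omega

lemma first {p q : ℕ} (hpq : p ≠ q) {t : FreeGroup X} (h : TT a u q t) :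
    ∃ (m : ℤ) (t' : FreeGroup X), m ≠ 0 ∧ nl (lt a u p) t' ∧
      (of (lt a u p)) ^ (ex p) * t = (of (lt a u p)) ^ m * t' ∧ (m = ex p ∨ Even m) := by
  obtain ⟨l, m, t1, h1, h2, h3⟩ := h
  have hm : m ≠ 0 := by unfold ex at h3; omega
  by_cases hl : l = lt a u p
  · refine ⟨ex p + m, t1, ?_, by rw [← hl]; exact h1, ?_, Or.inr ?_⟩
    · unfold ex at h3 ⊢
      omega
    · rw [h2, ← hl, ← mul_assoc, ← zpow_add]
    · unfold ex at h3 ⊢
      rw [Int.even_iff]
      omega
  · refine ⟨ex p, t, by unfold ex; omega, ?_, rfl, Or.inl rfl⟩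
    rw [h2]
    exact nl_zpow hl h1 hm

lemma first' {p q : ℕ} (hpq : p ≠ q) {t : FreeGroup X} (h : TT a u q t) :
    ∃ (m : ℤ) (t' : FreeGroup X), m ≠ 0 ∧ nl (lt a u (p + 1)) t' ∧
      (of (lt a u (p + 1))) ^ (- ex (p + 1)) * t = (of (lt a u (p + 1))) ^ m * t' := by
  obtain ⟨l, m, t1, h1, h2, h3⟩ := h
  have hm : m ≠ 0 := by unfold ex at h3; omega
  by_cases hl : l = lt a u (p + 1)
  · refine ⟨- ex (p + 1) + m, t1, ?_, by rw [← hl]; exact h1, ?_⟩
    · unfold ex at h3 ⊢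
      omega
    · rw [h2, ← hl, ← mul_assoc, ← zpow_add]
  · refine ⟨- ex (p + 1), t, by unfold ex; omega, ?_, rfl⟩
    rw [h2]
    exact nl_zpow hl h1 hm

lemma R_all (hau : a ≠ u) {p q : ℕ} (hpq : p ≠ q) {t : FreeGroup X} (h : TT a u q t) (d : ℕ) :
    ∀ j, j + 1 + d = p → ∃ (m : ℤ) (t' : FreeGroup X), m ≠ 0 ∧ nl (lt a u (j + 1)) t' ∧
      (P a u j)⁻¹ * (P a u p * t) = (of (lt a u (j + 1))) ^ m * t' ∧
      (m = ex (j + 1) ∨ Even m) ∧ (1 ≤ d → m = ex (j + 1)) := by
  induction d with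
  | zero =>
    intro j hj
    obtain ⟨m, t', h1, h2, h3, h4⟩ := first hpq h
    obtain rfl : p = j + 1 := by omega
    refine ⟨m, t', h1, h2, ?_, h4, fun h => absurd h (by omega)⟩
    rw [← h3, P_succ]
    group
  | succ d ih =>
    intro j hj
    obtain ⟨m, t', h1, h2, h3, h4, h5⟩ := ih (j + 1) (by omega)
    refine ⟨ex (j + 1), (P a u (j + 1))⁻¹ * (P a u p * t), by unfold ex; omega, ?_, ?_,
      Or.inl rfl, fun _ => rfl⟩
    · rw [h3]
      exact nl_zpow (lt_ne hau (j + 1)) h2 h1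
    · rw [P_succ]
      group

lemma R_all' (hau : a ≠ u) {p q : ℕ} (hpq : p ≠ q) {t : FreeGroup X} (h : TT a u q t) (d : ℕ) :
    ∃ (m : ℤ) (t' : FreeGroup X), m ≠ 0 ∧ nl (lt a u (p + 1 + d)) t' ∧
      (P a u (p + 1 + d))⁻¹ * (P a u p * t) = (of (lt a u (p + 1 + d))) ^ m * t' ∧
      (1 ≤ d → m = - ex (p + 1 + d)) := by
  induction d with
  | zero =>
    obtain ⟨m, t', h1, h2, h3⟩ := first' hpq h
    refine ⟨m, t', h1, h2, ?_, fun h => absurd h (by omega)⟩
    rw [Nat.add_zero, ← h3, P_succ]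
    group
  | succ d ih =>
    obtain ⟨m, t', h1, h2, h3, h4⟩ := ih
    refine ⟨- ex (p + 1 + (d + 1)), (P a u (p + 1 + d))⁻¹ * (P a u p * t), by unfold ex; omega,
      ?_, ?_, fun _ => rfl⟩
    · rw [h3]
      exact nl_zpow (lt_ne hau (p + 1 + d)).symm h2 h1
    · rw [← Nat.add_assoc, P_succ]
      group

lemma nl_Pinv (hau : a ≠ u) (j : ℕ) : nl (lt a u (j + 1)) (P a u j)⁻¹ := by
  induction j with
  | zero => simpa [P] using nl_one (lt a u 1)
  | succ j ih =>
    have e : (P a u (j + 1))⁻¹ = (of (lt a u (j + 1))) ^ (- ex (j + 1)) * (P a u j)⁻¹ := by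
      rw [P_succ]
      group
    rw [e]
    exact nl_zpow (lt_ne hau (j + 1)).symm ih (by unfold ex; omega)

lemma T_base (hau : a ≠ u) {q : ℕ} (hq : 1 ≤ q) : TT a u q (P a u q)⁻¹ := by
  obtain ⟨j, rfl⟩ : ∃ j, q = j + 1 := ⟨q - 1, by omega⟩
  refine ⟨_, _, (P a u j)⁻¹, nl_Pinv hau j, ?_, Or.inr ⟨rfl, rfl⟩⟩
  rw [P_succ]
  group

lemma T_step (hau : a ≠ u) {p q r : ℕ} {t : FreeGroup X} (hpq : p ≠ q) (h : TT a u q t)
    (hpr : p + 2 ≤ r ∨ r + 2 ≤ p) : TT a u r ((P a u r)⁻¹ * (P a u p * t)) := by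
  rcases hpr with hpr | hpr
  · obtain ⟨m, t', h1, h2, h3, h4⟩ := R_all' hau hpq h (r - p - 1)
    have e : p + 1 + (r - p - 1) = r := by omega
    rw [e] at h2 h3 h4
    exact ⟨_, _, t', h2, h3, Or.inr ⟨rfl, h4 (by omega)⟩⟩
  · obtain ⟨m, t', h1, h2, h3, h4, h5⟩ := R_all hau hpq h (p - r - 1) r (by omega)
    exact ⟨_, _, t', h2, h3, Or.inl ⟨rfl, h5 (by omega)⟩⟩

lemma T_lt (hau : a ≠ u) {p q r s : ℕ} {t t' : FreeGroup X} (hpq : p ≠ q) (hrs : r ≠ s)
    (h : TT a u q t) (h' : TT a u s t') (e : P a u p * t = P a u r * t') : ¬ p < r := by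
  intro hlt
  obtain ⟨m, t1, h1, h2, h3, h4, h5⟩ := R_all hau hrs h' (r - p - 1) p (by omega)
  rw [← e, inv_mul_cancel_left] at h3
  rcases h4 with h4 | h4
  · have : TT a u p t := ⟨_, _, t1, h2, h3, Or.inl ⟨rfl, h4⟩⟩
    exact hpq (T_inj this h)
  · obtain ⟨l, m', t2, g1, g2, g3⟩ := h
    have hm' : m' ≠ 0 := by unfold ex at g3; omega
    obtain ⟨-, e2, -⟩ := uniq2 h2 g1 h1 hm' (h3.symm.trans g2)
    rw [Int.even_iff] at h4
    unfold ex at g3
    omega

lemma T_eq (hau : a ≠ u) {p q r s : ℕ} {t t' : FreeGroup X} (hpq : p ≠ q) (hrs : r ≠ s)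
    (h : TT a u q t) (h' : TT a u s t')
    (e : P a u p * t = P a u r * t') : p = r ∧ q = s ∧ t = t' := by
  have h1 := T_lt hau hpq hrs h h' e
  have h2 := T_lt hau hrs hpq h' h e.symm
  have h3 : p = r := by omega
  subst h3
  have h4 : t = t' := mul_left_cancel e
  subst h4
  exact ⟨rfl, T_inj h h', rfl⟩

/-- the value of an index word -/
def vl (a u : X) : List (ℕ × ℕ) → FreeGroup X
  | [] => 1
  | (p, q) :: w => P a u p * ((P a u q)⁻¹ * vl a u w)

lemma type_of (hau : a ≠ u) (w : List (ℕ × ℕ)) : Vd w → ∀ q, 1 ≤ q → adm q w →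
    TT a u q ((P a u q)⁻¹ * vl a u w) := by
  induction w with
  | nil =>
    intro _ q hq _
    simpa [vl] using T_base (a := a) (u := u) hau hq
  | cons m w ih =>
    obtain ⟨p, r⟩ := m
    intro hv q hq hadm
    obtain ⟨h1, h2, h3, h4, h5⟩ := hv
    have h6 := ih h5 r h2 h4
    exact T_step hau h3 h6 hadm

lemma vl_inj (hau : a ≠ u) (w : List (ℕ × ℕ)) : Vd w → ∀ w' : List (ℕ × ℕ), Vd w' →
    vl a u w = vl a u w' → w = w' := by
  induction w with
  | nil =>
    intro _ w' hw' h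
    cases w' with
    | nil => rfl
    | cons m w' =>
      exfalso
      obtain ⟨p, q⟩ := m
      obtain ⟨h1, h2, h3, h4, h5⟩ := hw'
      simp only [vl] at h
      have h6 := type_of hau w' h5 q h2 h4
      have h7 : (P a u q)⁻¹ * vl a u w' = (P a u p)⁻¹ := by
        exact eq_inv_of_mul_eq_one_right h.symm
      rw [h7] at h6
      exact h3 (T_inj (T_base hau h1) h6)
  | cons m w ih =>
    obtain ⟨p, q⟩ := m
    intro hw w' hw' h
    obtain ⟨h1, h2, h3, h4, h5⟩ := hw
    cases w' with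
    | nil =>
      exfalso
      simp only [vl] at h
      have h6 := type_of hau w h5 q h2 h4
      have h7 : (P a u q)⁻¹ * vl a u w = (P a u p)⁻¹ := by
        exact eq_inv_of_mul_eq_one_right h
      rw [h7] at h6
      exact h3 (T_inj (T_base hau h1) h6)
    | cons m' w' =>
      obtain ⟨p', q'⟩ := m'
      obtain ⟨g1, g2, g3, g4, g5⟩ := hw'
      simp only [vl] at h
      obtain ⟨e1, e2, e3⟩ := T_eq hau h3 g3 (type_of hau w h5 q h2 h4)
        (type_of hau w' g5 q' g2 g4) h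
      subst e1 e2
      have e4 : vl a u w = vl a u w' := mul_left_cancel e3
      rw [ih h5 w' g5 e4]

lemma vl_inj' (hau : a ≠ u) {w w' : List (ℕ × ℕ)} (hw : Vd w) (hw' : Vd w') {q q' : ℕ}
    (hq : 1 ≤ q) (hq' : 1 ≤ q') (h1 : adm q w) (h2 : adm q' w')
    (e : (P a u q)⁻¹ * vl a u w = (P a u q')⁻¹ * vl a u w') : q = q' ∧ w = w' := by
  have t1 := type_of hau w hw q hq h1
  have t2 := type_of hau w' hw' q' hq' h2
  rw [← e] at t2
  have h3 := T_inj t1 t2
  subst h3
  exact ⟨rfl, vl_inj hau w hw w' hw' (mul_left_cancel e)⟩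

end words

/-! ### signs -/

/-- the sign of a prefix -/
noncomputable def sg (j : ℕ) : ℝ := (-1) ^ j

lemma sg_sq (j : ℕ) : sg j * sg j = 1 := by
  unfold sg
  rw [← mul_pow]
  norm_num

/-- the sign of an index word -/
noncomputable def sw : List (ℕ × ℕ) → ℝ
  | [] => 1
  | (p, q) :: w => sg p * sg q * sw w

lemma sw_sq (w : List (ℕ × ℕ)) : sw w ^ 2 = 1 := by
  induction w with
  | nil => simp [sw]
  | cons m w ih =>
    obtain ⟨p, q⟩ := m
    have h1 := sg_sq p
    have h2 := sg_sq q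
    calc (sg p * sg q * sw w) ^ 2 = (sg p * sg p) * (sg q * sg q) * sw w ^ 2 := by ring
      _ = 1 := by rw [h1, h2, ih]; norm_num

lemma sg2 (j : ℕ) : sg j ^ 2 = 1 := by rw [sq, sg_sq]

section

variable {X : Type} (a u : X) (L : ℕ)

/-- the signed sum of translations -/
noncomputable def ZS (c : FreeGroup X →₀ ℝ) : FreeGroup X →₀ ℝ :=
  ∑ p ∈ Finset.Icc 1 L, sg p • act (P a u p) c

/-- level `n` part of the solution -/
noncomputable def C (s : ℕ → ℝ) (n : ℕ) : FreeGroup X →₀ ℝ :=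
  ∑ w ∈ W L n, ∑ q ∈ Ad' L w, Finsupp.single ((P a u q)⁻¹ * vl a u w) (sg q * sw w * s n)

lemma act_C (s : ℕ → ℝ) (n : ℕ) :
    ZS a u L (C a u L s n) =
      ∑ w ∈ W L n, Finsupp.single (vl a u w) (sw w * (s n * (Ad' L w).card)) +
      ∑ w ∈ W L (n + 1), Finsupp.single (vl a u w) (sw w * s n) := by
  rw [← sum_W_succ, ← Finset.sum_add_distrib]
  unfold ZS C
  simp_rw [act_sum, act_single, Finset.smul_sum, Finsupp.smul_single, smul_eq_mul]
  rw [Finset.sum_comm]
  refine Finset.sum_congr rfl fun w hw => ?_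
  rw [Finset.sum_comm]
  have h1 : Finsupp.single (vl a u w) (sw w * (s n * (Ad' L w).card)) =
      ∑ q ∈ Ad' L w, Finsupp.single (vl a u w) (sw w * s n) := by
    rw [Finset.sum_const, Finsupp.smul_single, nsmul_eq_mul]
    congr 1
    ring
  rw [h1, ← Finset.sum_add_distrib]
  refine Finset.sum_congr rfl fun q hq => ?_
  have hq' : q ∈ Finset.Icc 1 L := (Finset.mem_filter.mp hq).1
  rw [← Finset.sum_filter_add_sum_filter_not (Finset.Icc 1 L) (fun p => p ≠ q), add_comm]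
  congr 1
  · have h2 : (Finset.Icc 1 L).filter (fun p => ¬ p ≠ q) = {q} := by
      ext p
      simp only [Finset.mem_filter, not_not, Finset.mem_singleton]
      constructor
      · exact fun h => h.2
      · rintro rfl; exact ⟨hq', rfl⟩
    rw [h2, Finset.sum_singleton, mul_inv_cancel_left]
    congr 1
    calc sg q * (sg q * sw w * s n) = (sg q * sg q) * (sw w * s n) := by ring
      _ = sw w * s n := by rw [sg_sq, one_mul]
  · refine Finset.sum_congr rfl fun p _ => ?_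
    rw [vl, sw]
    congr 1
    ring

lemma ZS_sum {I : Type} (S : Finset I) (f : I → FreeGroup X →₀ ℝ) :
    ZS a u L (∑ i ∈ S, f i) = ∑ i ∈ S, ZS a u L (f i) := by
  unfold ZS
  simp_rw [act_sum, Finset.smul_sum]
  rw [Finset.sum_comm]

variable (N : ℕ)

/-- the solution -/
noncomputable def cc : FreeGroup X →₀ ℝ := ∑ n ∈ Finset.range N, C a u L (sc N L) n

lemma ZS_cc (hN : 1 ≤ N) (hL : 1 ≤ L) :
    ZS a u L (cc a u L N) - Finsupp.single 1 1 =
      ∑ n ∈ Finset.Icc 1 N, ∑ w ∈ W L n, Finsupp.single (vl a u w) (sw w * ec N L n w) := by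
  unfold cc
  rw [ZS_sum]
  simp_rw [act_C]
  rw [Finset.sum_add_distrib]
  have h1 : ∑ n ∈ Finset.range N, ∑ w ∈ W L n,
      Finsupp.single (vl a u w) (sw w * (sc N L n * (Ad' L w).card)) =
      Finsupp.single 1 1 + ∑ n ∈ Finset.Icc 1 N, ∑ w ∈ W L n,
      Finsupp.single (vl a u w) (sw w * (sc N L n * (Ad' L w).card)) := by
    have h2 : ∑ n ∈ Finset.range (N + 1), ∑ w ∈ W L n,
      Finsupp.single (vl a u w) (sw w * (sc N L n * (Ad' L w).card)) =
      ∑ n ∈ Finset.range N, ∑ w ∈ W L n,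
      Finsupp.single (vl a u w) (sw w * (sc N L n * (Ad' L w).card)) := by
      rw [Finset.sum_range_succ, sc_N hN]
      simp
    rw [← h2, Finset.sum_range_succ', add_comm]
    congr 1
    · simp only [W, Finset.sum_singleton, vl, sw]
      rw [ec_zero hL, one_mul]
    · rw [Finset.range_eq_Ico, Finset.sum_Ico_add' (fun n => ∑ w ∈ W L n,
      Finsupp.single (vl a u w) (sw w * (sc N L n * (Ad' L w).card))) 0 N 1]
      rfl
  have h3 : ∑ n ∈ Finset.range N, ∑ w ∈ W L (n + 1),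
      Finsupp.single (vl a u w) (sw w * sc N L n) =
      ∑ n ∈ Finset.Icc 1 N, ∑ w ∈ W L n,
        Finsupp.single (vl a u w) (sw w * sc N L (n - 1)) := by
    rw [Finset.range_eq_Ico]
    have := Finset.sum_Ico_add' (fun n => ∑ w ∈ W L n,
      Finsupp.single (vl a u w) (sw w * sc N L (n - 1))) 0 N 1
    simp only [Nat.add_sub_cancel] at this
    rw [this]
    rfl
  rw [h1, h3, add_assoc, add_sub_cancel_left, ← Finset.sum_add_distrib]
  refine Finset.sum_congr rfl fun n _ => ?_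
  rw [← Finset.sum_add_distrib]
  refine Finset.sum_congr rfl fun w _ => ?_
  rw [← Finsupp.single_add, ← mul_add]
  rfl

variable [DecidableEq X]

lemma err_le (hau : a ≠ u) (hN : 1 ≤ N) (hL : 1 ≤ L) :
    ∑ w ∈ (ZS a u L (cc a u L N) - Finsupp.single 1 1).support,
      ((ZS a u L (cc a u L N) - Finsupp.single 1 1 : FreeGroup X →₀ ℝ) w) ^ 2 ≤
      N * (3 / L + 1 / N) ^ 2 := by
  rw [ZS_cc a u L N hN hL, Finset.sum_sigma', sum_sq_single]
  · rw [Finset.sum_sigma]
    calc ∑ n ∈ Finset.Icc 1 N, ∑ w ∈ W L n, (sw w * ec N L n w) ^ 2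
        ≤ ∑ n ∈ Finset.Icc 1 N, ((3 / L + 1 / N) ^ 2 : ℝ) := by
          refine Finset.sum_le_sum fun n hn => ?_
          rw [Finset.mem_Icc] at hn
          have hL' : (0 : ℝ) < L := by exact_mod_cast hL
          calc ∑ w ∈ W L n, (sw w * ec N L n w) ^ 2
              ≤ ∑ w ∈ W L n, (3 / L + 1 / N : ℝ) ^ 2 / (L : ℝ) ^ (2 * n) :=
                Finset.sum_le_sum fun w _ => by
                  rw [mul_pow, sw_sq, one_mul]
                  exact ec_bound hn.1 hn.2 hL w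
            _ = (W L n).card * ((3 / L + 1 / N : ℝ) ^ 2 / (L : ℝ) ^ (2 * n)) := by
                rw [Finset.sum_const, nsmul_eq_mul]
            _ ≤ (L : ℝ) ^ (2 * n) * ((3 / L + 1 / N : ℝ) ^ 2 / (L : ℝ) ^ (2 * n)) := by
                apply mul_le_mul_of_nonneg_right _ (by positivity)
                exact_mod_cast W_card L n
            _ = (3 / L + 1 / N : ℝ) ^ 2 := by field_simp
      _ = N * (3 / L + 1 / N) ^ 2 := by
          rw [Finset.sum_const, nsmul_eq_mul, Nat.card_Icc, Nat.add_sub_cancel]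
  · rintro ⟨n, w⟩ h ⟨n', w'⟩ h' e
    simp only [Finset.coe_sigma, Set.mem_sigma_iff, Finset.mem_coe] at h h'
    have h2 := vl_inj hau w (W_vd h.2) w' (W_vd h'.2) e
    subst h2
    have h3 := W_len h.2
    have h4 := W_len h'.2
    have h5 : n = n' := by omega
    subst h5
    rfl

lemma cc_le (hau : a ≠ u) (hN : 1 ≤ N) (hL : 1 ≤ L) :
    ∑ w ∈ (cc a u L N).support, (cc a u L N w) ^ 2 ≤ N / L := by
  have h0 : cc a u L N = ∑ z ∈ (Finset.range N).sigma fun n => (W L n).sigma fun w => Ad' L w,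
      Finsupp.single ((P a u z.2.2)⁻¹ * vl a u z.2.1) (sg z.2.2 * sw z.2.1 * sc N L z.1) := by
    unfold cc C
    rw [Finset.sum_sigma]
    refine Finset.sum_congr rfl fun n _ => ?_
    rw [Finset.sum_sigma]
  rw [h0, sum_sq_single]
  · rw [Finset.sum_sigma]
    have hL' : (0 : ℝ) < L := by exact_mod_cast hL
    calc ∑ n ∈ Finset.range N, ∑ z ∈ (W L n).sigma fun w => Ad' L w,
          (sg z.2 * sw z.1 * sc N L n) ^ 2
        ≤ ∑ n ∈ Finset.range N, (1 / L : ℝ) := by
          refine Finset.sum_le_sum fun n hn => ?_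
          rw [Finset.mem_range] at hn
          calc ∑ z ∈ (W L n).sigma fun w => Ad' L w, (sg z.2 * sw z.1 * sc N L n) ^ 2
              = ((W L n).sigma fun w => Ad' L w).card * sc N L n ^ 2 := by
                rw [Finset.sum_congr rfl fun z _ => by
                  rw [mul_pow, mul_pow, sg2, sw_sq, one_mul, one_mul], Finset.sum_const,
                  nsmul_eq_mul]
            _ ≤ ((L : ℝ) ^ (2 * n) * L) * (1 / (L : ℝ) ^ (2 * n + 2)) := by
                apply mul_le_mul _ (sc_sq hn.le hN) (by positivity) (by positivity)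
                have h1 : ((W L n).sigma fun w => Ad' L w).card ≤ L ^ (2 * n) * L := by
                  rw [Finset.card_sigma]
                  calc ∑ w ∈ W L n, (Ad' L w).card ≤ ∑ w ∈ W L n, L :=
                        Finset.sum_le_sum fun w _ => Ad'_le L w
                    _ = (W L n).card * L := by rw [Finset.sum_const, smul_eq_mul]
                    _ ≤ L ^ (2 * n) * L := Nat.mul_le_mul_right _ (W_card L n)
                exact_mod_cast h1
            _ = 1 / L := by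
                rw [pow_add]
                field_simp
      _ = N / L := by
          rw [Finset.sum_const, nsmul_eq_mul, Finset.card_range]
          ring
  · rintro ⟨n, w, q⟩ h ⟨n', w', q'⟩ h' e
    simp only [Finset.coe_sigma, Set.mem_sigma_iff, Finset.mem_coe] at h h'
    obtain ⟨_, h1, h2⟩ := h
    obtain ⟨_, h1', h2'⟩ := h'
    simp only [Ad', Finset.mem_filter, Finset.mem_Icc] at h2 h2'
    obtain ⟨e1, e2⟩ := vl_inj' hau (W_vd h1) (W_vd h1') h2.1.1 h2'.1.1 h2.2 h2'.2 e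
    subst e1 e2
    have h3 := W_len h1
    have h4 := W_len h1'
    have h5 : n = n' := by omega
    subst h5
    rfl

end

/-! ### the word -/

lemma act_zero {α : Type} [Group α] (x : α) : act x (0 : α →₀ ℝ) = 0 := by
  simp [act]

lemma act_add {α : Type} [Group α] (x : α) (c d : α →₀ ℝ) :
    act x (c + d) = act x c + act x d := by
  simp [act, Finsupp.mapDomain_add]

lemma act_sub {α : Type} [Group α] (x : α) (c d : α →₀ ℝ) :
    act x (c - d) = act x c - act x d := by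
  have h := act_add x (c - d) d
  rw [sub_add_cancel] at h
  rw [h, add_sub_cancel_right]

lemma act_act {α : Type} [Group α] (x y : α) (c : α →₀ ℝ) :
    act x (act y c) = act (x * y) c := by
  unfold act
  rw [← Finsupp.mapDomain_comp]
  congr 1
  funext w
  simp [mul_assoc]

lemma wz_append {α : Type} [Group α] (a u : α) (r : List (ℤ × ℤ)) (p : ℤ × ℤ) :
    wz a u (r ++ [p]) = wz a u r * a ^ p.1 * u ^ p.2 := by
  induction r with
  | nil => simp [wz]
  | cons q r ih => simp only [List.cons_append, wz, ih]; group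

lemma Z0_append {α : Type} [Group α] (a u : α) (r : List (ℤ × ℤ)) (p : ℤ × ℤ) (c : α →₀ ℝ) :
    Z0 a u (r ++ [p]) c = Z0 a u r c +
      (act (wz a u r * a ^ p.1 * u ^ p.2) c - act (wz a u r * a ^ p.1) c) := by
  induction r with
  | nil => simp [Z0, wz, act_zero]
  | cons q r ih =>
    simp only [List.cons_append, Z0, ih, wz, act_add, act_sub, act_act]
    simp only [mul_assoc]
    abel

/-- the exponents -/
def rl (l : ℕ) : List (ℤ × ℤ) := (List.range l).map fun i => (ex (2 * i + 1), ex (2 * i + 2))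

lemma rl_succ (l : ℕ) : rl (l + 1) = rl l ++ [(ex (2 * l + 1), ex (2 * l + 2))] := by
  simp [rl, List.range_succ]

lemma Z0_rl {X : Type} (a u : X) (c : FreeGroup X →₀ ℝ) (l : ℕ) :
    wz (of a) (of u) (rl l) = P a u (2 * l) ∧
      Z0 (of a) (of u) (rl l) c = ZS a u (2 * l) c := by
  induction l with
  | zero => simp [rl, wz, Z0, P, ZS]
  | succ l ih =>
    obtain ⟨h1, h2⟩ := ih
    have e1 : lt a u (2 * l + 1) = a := by
      unfold lt
      rw [if_pos (by omega)]
    have e2 : lt a u (2 * l + 1 + 1) = u := by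
      unfold lt
      rw [if_neg (by omega)]
    have e3 : P a u (2 * l + 1) = wz (of a) (of u) (rl l) * (of a) ^ (ex (2 * l + 1)) := by
      rw [P_succ, h1, e1]
    have e4 : P a u (2 * (l + 1)) =
        wz (of a) (of u) (rl l) * (of a) ^ (ex (2 * l + 1)) * (of u) ^ (ex (2 * l + 2)) := by
      rw [show 2 * (l + 1) = 2 * l + 1 + 1 by ring, P_succ, e3, e2]
    refine ⟨by rw [rl_succ, wz_append, e4], ?_⟩
    rw [rl_succ, Z0_append, h2, ← e4, ← e3]
    unfold ZS
    rw [show 2 * (l + 1) = 2 * l + 1 + 1 by ring, Finset.sum_Icc_succ_top (by omega),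
      Finset.sum_Icc_succ_top (by omega)]
    have s1 : sg (2 * l + 1) = -1 := by
      unfold sg
      rw [pow_succ, pow_mul]
      norm_num
    have s2 : sg (2 * l + 1 + 1) = 1 := by
      unfold sg
      rw [pow_succ, pow_succ, pow_mul]
      norm_num
    rw [s1, s2, one_smul, neg_one_smul]
    abel

end ZCW

open ZCW in
open Pool.Agent.H722.FG (n2_le) in
theorem t_CW : S_CW := by
  classical
  intro ι a u hau ε hε
  obtain ⟨N, hN⟩ := exists_nat_gt (16 / ε ^ 2)
  have hε2 : 0 < ε ^ 2 := by positivity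
  have hN0 : (0 : ℝ) < N := lt_trans (by positivity) hN
  have hN1 : 1 ≤ N := by exact_mod_cast hN0
  have hN1' : (1 : ℝ) ≤ N := by exact_mod_cast hN1
  have hlt : 16 / (N : ℝ) < ε ^ 2 := by
    rw [div_lt_iff₀ hN0, mul_comm]
    rwa [div_lt_iff₀ hε2] at hN
  obtain ⟨L, hLN⟩ : ∃ L : ℕ, L = 2 * N ^ 2 := ⟨_, rfl⟩
  have hL : 1 ≤ L := by
    rw [hLN]
    have := Nat.one_le_pow 2 N hN1
    omega
  have hLN' : (L : ℝ) = 2 * (N : ℝ) ^ 2 := by rw [hLN]; push_cast; rfl
  have hZ := fun c => (Z0_rl a u c (N ^ 2)).2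
  rw [← hLN] at hZ
  refine ⟨rl (N ^ 2), cc a u L N, ?_, ?_⟩
  · apply n2_le hε
    refine lt_of_le_of_lt (cc_le a u L N hau hN1 hL) (lt_of_le_of_lt ?_ hlt)
    rw [hLN']
    rw [div_le_div_iff₀ (by positivity) hN0]
    nlinarith
  · rw [hZ]
    apply n2_le hε
    refine lt_of_le_of_lt (err_le a u L N hau hN1 hL) (lt_of_le_of_lt ?_ hlt)
    have h1 : 3 / (L : ℝ) ≤ 3 / N := by
      rw [hLN']
      apply div_le_div_of_nonneg_left (by norm_num) hN0
      nlinarith
    have h2 : (3 / (L : ℝ) + 1 / N) ≤ 4 / N := by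
      have h3 : (4 : ℝ) / N = 3 / N + 1 / N := by ring
      linarith
    have h3 : (N : ℝ) * (3 / L + 1 / N) ^ 2 ≤ N * (4 / N) ^ 2 :=
      mul_le_mul_of_nonneg_left (pow_le_pow_left₀ (by positivity) h2 2) hN0.le
    have h4 : (N : ℝ) * (4 / N) ^ 2 = 16 / N := by field_simp; norm_num
    linarith

end Pool.Agent.H308R2.CF
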