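import Mathlib
import Pool.Agent.H308R2.CF.Stubs

/-! DENS: the group ring is dense in the 2-norm. -/

namespace Pool.Agent.H308R2.CF

open Pool.Agent.H770R2.UL
open Pool.Agent.H581R.FF (GR bs ev jj vv kk act)
open scoped ComplexConjugate

namespace DENSaux

variable {A : Type} [CStarAlgebra A]

/-- `‖ab‖₂ ≤ ‖a‖ ‖b‖₂` -/
theorem n2_mul_le (φ : TrSt A) (a b : A) : n2 φ (a * b) ≤ ‖a‖ * n2 φ b := by
  let _ : PartialOrder A := CStarAlgebra.spectralOrder A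
  have _ : StarOrderedRing A := CStarAlgebra.spectralOrderedRing A
  have h1 : star b * (star a * a) * b ≤ ‖star a * a‖ • (star b * b) :=
    CStarAlgebra.star_left_conjugate_le_norm_smul
  have h2 : 0 ≤ ‖star a * a‖ • (star b * b) - star b * (star a * a) * b := sub_nonneg.2 h1
  obtain ⟨z, hz⟩ := CStarAlgebra.nonneg_iff_eq_star_mul_self.1 h2
  have h3 := (Complex.le_def.1 (φ.pos z)).1
  have e1 : ‖star a * a‖ • (star b * b) = ((‖a‖ ^ 2 : ℝ) : ℂ) • (star b * b) := by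
    rw [CStarRing.norm_star_mul_self, ← sq, Complex.coe_smul]
  have e2 : star b * (star a * a) * b = star (a * b) * (a * b) := by
    rw [star_mul]; noncomm_ring
  rw [← hz, map_sub, e1, e2, map_smul, smul_eq_mul] at h3
  rw [Complex.zero_re, Complex.sub_re, Complex.re_ofReal_mul, ← n2_sq, ← n2_sq] at h3
  have h4 : n2 φ (a * b) ^ 2 ≤ (‖a‖ * n2 φ b) ^ 2 := by rw [mul_pow]; linarith
  exact le_of_sq_le_sq h4 (mul_nonneg (norm_nonneg _) (n2_nonneg _ _))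

/-- `‖ab‖₂ ≤ ‖a‖₂ ‖b‖` -/
theorem n2_mul_le' (φ : TrSt A) (a b : A) : n2 φ (a * b) ≤ n2 φ a * ‖b‖ := by
  rw [← n2_star, star_mul]
  refine (n2_mul_le φ (star b) (star a)).trans (le_of_eq ?_)
  rw [norm_star, n2_star, mul_comm]

theorem ev_bs {κ : Type} (π : FreeGroup κ →* unitary A) (w : FreeGroup κ) :
    ev π (bs w) = (π w : A) := by
  unfold ev
  rw [MonoidAlgebra.lift_single]
  simp

/-- trigonometric polynomials are in the image of the group ring -/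
theorem tp_mem (h2 : S_TP) {κ : Type} (σ : κ → CI →⋆ₐ[ℂ] A) (j : κ) (q : ℤ →₀ ℂ) :
    ∃ g : GR κ, σ j (tp q) = ev (gp σ) g := by
  refine ⟨q.sum fun m s => s • bs (FreeGroup.of j ^ m), ?_⟩
  rw [h2.1 A (σ j) q, Finsupp.sum, Finsupp.sum, map_sum]
  refine Finset.sum_congr rfl fun m _ => ?_
  rw [map_smul, ev_bs, map_zpow]
  congr 2
  rw [gp, FreeGroup.lift_apply_of]

theorem n2_sys {κ : Type} {φ : TrSt A} {σ : κ → CI →⋆ₐ[ℂ] A} (hS : Sys φ σ) (j : κ) (g : CI) :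
    n2 φ (σ j g) = Real.sqrt (∫ x : unitInterval, ‖g x‖ ^ 2) := by
  unfold n2
  congr 1
  rw [← map_star, ← map_mul, hS.mar]
  have e : ∀ x : unitInterval, (star g * g) x = ((‖g x‖ ^ 2 : ℝ) : ℂ) := by
    intro x
    show conj (g x) * g x = _
    rw [← Complex.normSq_eq_conj_mul_self, Complex.normSq_eq_norm_sq]
  simp_rw [e]
  rw [integral_complex_ofReal, Complex.ofReal_re]

/-- elements approximated by the group ring in the 2-norm -/
def Apx {κ : Type} (φ : TrSt A) (σ : κ → CI →⋆ₐ[ℂ] A) (a : A) : Prop :=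
  ∀ ε : ℝ, 0 < ε → ∃ f : GR κ, n2 φ (a - ev (gp σ) f) < ε

theorem apx_ev {κ : Type} (φ : TrSt A) (σ : κ → CI →⋆ₐ[ℂ] A) (f : GR κ) :
    Apx φ σ (ev (gp σ) f) := by
  intro ε hε
  refine ⟨f, ?_⟩
  rw [sub_self]
  have := n2_le_norm φ (0 : A)
  rw [norm_zero] at this
  linarith

theorem apx_add {κ : Type} {φ : TrSt A} {σ : κ → CI →⋆ₐ[ℂ] A} {a b : A} (ha : Apx φ σ a)
    (hb : Apx φ σ b) : Apx φ σ (a + b) := by
  intro ε hε
  obtain ⟨f, hf⟩ := ha (ε / 2) (by linarith)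
  obtain ⟨g, hg⟩ := hb (ε / 2) (by linarith)
  refine ⟨f + g, ?_⟩
  have e : a + b - ev (gp σ) (f + g) = (a - ev (gp σ) f) + (b - ev (gp σ) g) := by
    rw [map_add]; abel
  rw [e]
  have := n2_add_le φ (a - ev (gp σ) f) (b - ev (gp σ) g)
  linarith

theorem apx_smul {κ : Type} {φ : TrSt A} {σ : κ → CI →⋆ₐ[ℂ] A} {a : A} (c : ℂ)
    (ha : Apx φ σ a) : Apx φ σ (c • a) := by
  intro ε hε
  obtain ⟨f, hf⟩ := ha (ε / (‖c‖ + 1)) (by positivity)
  refine ⟨c • f, ?_⟩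
  rw [map_smul, ← smul_sub, n2_smul]
  have h0 := n2_nonneg φ (a - ev (gp σ) f)
  rw [lt_div_iff₀ (by positivity)] at hf
  nlinarith [norm_nonneg c]

theorem apx_mul (h1 : S_FEJ) (h2 : S_TP) {κ : Type} {φ : TrSt A} {σ : κ → CI →⋆ₐ[ℂ] A}
    (hS : Sys φ σ) (j : κ) (f : CI) {a : A} (ha : Apx φ σ a) : Apx φ σ (σ j f * a) := by
  intro ε hε
  obtain ⟨p, hp⟩ := ha (ε / (2 * (‖f‖ + 1))) (by positivity)
  set P : ℝ := ‖ev (gp σ) p‖ with hP
  have hP0 : 0 ≤ P := norm_nonneg _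
  set δ : ℝ := ε / (2 * (P + 1)) with hδ
  have hδ0 : 0 < δ := by positivity
  obtain ⟨q, -, -, -, hq⟩ := h1 f (δ ^ 2) (by positivity)
  obtain ⟨g, hg⟩ := tp_mem h2 σ j q
  refine ⟨g * p, ?_⟩
  have e : σ j f * a - ev (gp σ) (g * p) =
      σ j f * (a - ev (gp σ) p) + σ j (f - tp q) * ev (gp σ) p := by
    rw [map_mul, ← hg, map_sub]; noncomm_ring
  rw [e]
  have i1 := n2_add_le φ (σ j f * (a - ev (gp σ) p)) (σ j (f - tp q) * ev (gp σ) p)
  have i2 := n2_mul_le φ (σ j f) (a - ev (gp σ) p)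
  have i3 := n2_mul_le' φ (σ j (f - tp q)) (ev (gp σ) p)
  have i4 : ‖σ j f‖ ≤ ‖f‖ := NonUnitalStarAlgHom.norm_apply_le (σ j) f
  have i5 : n2 φ (σ j (f - tp q)) < δ := by
    rw [n2_sys hS]
    rw [Real.sqrt_lt' hδ0]
    exact hq
  have h0 := n2_nonneg φ (a - ev (gp σ) p)
  have h0' := n2_nonneg φ (σ j (f - tp q))
  have j1 : ‖σ j f‖ * n2 φ (a - ev (gp σ) p) ≤ ε / 2 := by
    have : ‖σ j f‖ * n2 φ (a - ev (gp σ) p) ≤ (‖f‖ + 1) * (ε / (2 * (‖f‖ + 1))) := by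
      refine mul_le_mul (by linarith) hp.le h0 (by positivity)
    have e3 : (‖f‖ + 1) * (ε / (2 * (‖f‖ + 1))) = ε / 2 := by
      have : ‖f‖ + 1 ≠ 0 := by positivity
      field_simp
    linarith
  have j2 : n2 φ (σ j (f - tp q)) * P < ε / 2 := by
    have e3 : δ * (P + 1) = ε / 2 := by
      have : P + 1 ≠ 0 := by positivity
      rw [hδ]; field_simp
    nlinarith
  linarith

/-- the elements which multiply approximable elements to approximable elements -/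
noncomputable def PS (κ : Type) (φ : TrSt A) (σ : κ → CI →⋆ₐ[ℂ] A) : StarSubalgebra ℂ A where
  carrier := {a | (∀ x, Apx φ σ x → Apx φ σ (a * x)) ∧ ∀ x, Apx φ σ x → Apx φ σ (star a * x)}
  mul_mem' := by
    rintro a b ⟨ha, ha'⟩ ⟨hb, hb'⟩
    refine ⟨fun x hx => ?_, fun x hx => ?_⟩
    · rw [mul_assoc]; exact ha _ (hb _ hx)
    · rw [star_mul, mul_assoc]; exact hb' _ (ha' _ hx)
  add_mem' := by
    rintro a b ⟨ha, ha'⟩ ⟨hb, hb'⟩
    refine ⟨fun x hx => ?_, fun x hx => ?_⟩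
    · rw [add_mul]; exact apx_add (ha _ hx) (hb _ hx)
    · rw [star_add, add_mul]; exact apx_add (ha' _ hx) (hb' _ hx)
  algebraMap_mem' := by
    intro c
    refine ⟨fun x hx => ?_, fun x hx => ?_⟩
    · rw [← Algebra.smul_def]; exact apx_smul c hx
    · rw [Algebra.algebraMap_eq_smul_one, star_smul, star_one, smul_mul_assoc, one_mul]
      exact apx_smul _ hx
  star_mem' := by
    rintro a ⟨ha, ha'⟩
    refine ⟨ha', fun x hx => ?_⟩
    rw [star_star]; exact ha x hx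

end DENSaux

open DENSaux

theorem t_DENS (h1 : S_FEJ) (h2 : S_TP) : S_DENS := by
  intro κ A _ φ σ hS a ha ε hε
  have hle : (⨆ j, (σ j).range) ≤ PS κ φ σ := by
    refine iSup_le fun j => ?_
    rintro _ ⟨f, rfl⟩
    refine ⟨fun x hx => apx_mul h1 h2 hS j f hx, fun x hx => ?_⟩
    have := apx_mul h1 h2 hS j (star f) hx
    rw [map_star] at this
    exact this
  have hcl : a ∈ closure ((⨆ j, (σ j).range : StarSubalgebra ℂ A) : Set A) := ha
  rw [Metric.mem_closure_iff] at hcl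
  obtain ⟨b, hb, hab⟩ := hcl (ε / 2) (by linarith)
  have hb1 : Apx φ σ (b * 1) := by
    refine (hle hb).1 1 ?_
    have := apx_ev φ σ (1 : GR κ)
    rwa [map_one] at this
  rw [mul_one] at hb1
  obtain ⟨f, hf⟩ := hb1 (ε / 2) (by linarith)
  refine ⟨f, ?_⟩
  have e : a - ev (gp σ) f = (a - b) + (b - ev (gp σ) f) := by abel
  rw [e]
  have i1 := n2_add_le φ (a - b) (b - ev (gp σ) f)
  have i2 := n2_le_norm φ (a - b)
  rw [dist_eq_norm] at hab
  linarith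

end Pool.Agent.H308R2.CF
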