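import Pool.Agent.H308R2.CF.Stubs

set_option autoImplicit false

namespace Pool.Agent.H308R2.CF

open Pool.Agent.H770R2.UL (TrSt n2)

theorem t_EQV (h : S_UNIQ) : S_EQV := by
  intro κ A B _ _ φ ψ σ τ hσ hτ
  obtain ⟨Φ, hn, ht, hj⟩ := h κ A B φ ψ σ τ hσ hτ.fai hτ.sys
  have hinj : Function.Injective Φ := by
    intro a b hab
    have h1 : ‖Φ (a - b)‖ = 0 := by rw [map_sub, hab, sub_self, norm_zero]
    rw [hn] at h1
    exact sub_eq_zero.1 (norm_eq_zero.1 h1)
  have hiso : Isometry Φ := AddMonoidHomClass.isometry_of_norm Φ hn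
  have hclosed : IsClosed ((Φ.range : StarSubalgebra ℂ B) : Set B) := by
    have : ((Φ.range : StarSubalgebra ℂ B) : Set B) = Set.range Φ := rfl
    rw [this]
    exact hiso.isClosedEmbedding.isClosed_range
  have hle : (⨆ j, (τ j).range) ≤ Φ.range := by
    refine iSup_le fun j => ?_
    rintro x ⟨f, rfl⟩
    exact ⟨σ j f, hj j f⟩
  have htop : (⊤ : StarSubalgebra ℂ B) ≤ Φ.range := by
    have h1 : Cs τ = ⊤ := hτ.gen
    rw [← h1]
    exact StarSubalgebra.topologicalClosure_minimal hle hclosed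
  have hsurj : Function.Surjective Φ := by
    intro b
    obtain ⟨a, ha⟩ := htop (show b ∈ (⊤ : StarSubalgebra ℂ B) from StarSubalgebra.mem_top)
    exact ⟨a, ha⟩
  exact ⟨StarAlgEquiv.ofBijective Φ ⟨hinj, hsurj⟩⟩

end Pool.Agent.H308R2.CF
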