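import Pool.Agent.H308R2.CF.Stubs

/-! # EX: elementary properties of `e^{irx}` -/

namespace Pool.Agent.H308R2.CF

open scoped CStarAlgebra

section

variable {A : Type} [CStarAlgebra A]

theorem EX_real (r : ℝ) (x : A) : ex r x = NormedSpace.exp (r • (Complex.I • x)) := by
  unfold ex
  rw [mul_smul, Complex.coe_smul]

theorem EX_zero (x : A) : ex 0 x = 1 := by
  unfold ex
  rw [Complex.ofReal_zero, zero_mul, zero_smul, NormedSpace.exp_zero]

theorem EX_star {x : A} (hx : star x = x) (r : ℝ) : star (ex r x) = ex (-r) x := by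
  unfold ex
  rw [NormedSpace.star_exp, star_smul, hx]
  congr 2
  simp

theorem EX_add (r t : ℝ) (x : A) : ex (r + t) x = ex r x * ex t x := by
  letI : NormedAlgebra ℚ A := NormedAlgebra.restrictScalars ℚ ℂ A
  unfold ex
  rw [← NormedSpace.exp_add_of_commute]
  · congr 1
    rw [← add_smul]
    congr 1
    push_cast
    ring
  · exact ((Commute.refl x).smul_left _).smul_right _

theorem EX_smul (r t : ℝ) (x : A) : ex r ((t : ℂ) • x) = ex (r * t) x := by
  unfold ex
  rw [smul_smul]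
  congr 2
  push_cast
  ring

theorem EX_comm (r : ℝ) (x : A) : ex r x * x = x * ex r x := by
  unfold ex
  exact (Commute.exp_left ((Commute.refl x).smul_left _)).eq

theorem EX_unitary {x : A} (hx : star x = x) (r : ℝ) : ex r x ∈ unitary A := by
  rw [Unitary.mem_iff, EX_star hx, ← EX_add, ← EX_add]
  simp [EX_zero]

theorem EX_map {B : Type} [CStarAlgebra B] (Φ : A →⋆ₐ[ℂ] B) (r : ℝ) (x : A) :
    Φ (ex r x) = ex r (Φ x) := by
  letI : NormedAlgebra ℚ A := NormedAlgebra.restrictScalars ℚ ℂ A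
  letI : NormedAlgebra ℚ B := NormedAlgebra.restrictScalars ℚ ℂ B
  have hc : Continuous Φ :=
    (AddMonoidHomClass.continuous_of_bound Φ 1 (fun a => by
      rw [one_mul]; exact NonUnitalStarAlgHom.norm_apply_le Φ a))
  unfold ex
  rw [NormedSpace.map_exp Φ hc, map_smul]

theorem EX_conj (Q : unitary A) (r : ℝ) (x : A) :
    ex r ((Q : A) * x * star (Q : A)) = (Q : A) * ex r x * star (Q : A) := by
  have h := EX_map ((Unitary.conjStarAlgAut ℂ A Q : A ≃⋆ₐ[ℂ] A) : A →⋆ₐ[ℂ] A) r x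
  exact h.symm

theorem EX_mem (S : StarSubalgebra ℂ A) (hS : IsClosed (S : Set A)) {x : A} (hx : x ∈ S) (r : ℝ) :
    ex r x ∈ S := by
  letI : NormedAlgebra ℚ A := NormedAlgebra.restrictScalars ℚ ℂ A
  have h1 : (((r : ℂ) * Complex.I) • x) ∈ S := S.smul_mem hx _
  have h2 := NormedSpace.exp_series_hasSum_exp' (𝕂 := ℂ) (((r : ℂ) * Complex.I) • x)
  unfold ex
  refine hS.mem_of_tendsto h2 (Filter.Eventually.of_forall fun s => ?_)
  exact sum_mem fun n _ => S.smul_mem (pow_mem h1 n) _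

theorem EX_deriv (x : A) (r : ℝ) :
    HasDerivAt (fun t : ℝ => ex t x) (Complex.I • (x * ex r x)) r := by
  have h := hasDerivAt_exp_smul_const' (𝕂 := ℝ) (Complex.I • x) r
  have h2 : (fun t : ℝ => ex t x) = fun t : ℝ => NormedSpace.exp (t • (Complex.I • x)) := by
    funext t
    exact EX_real t x
  rw [h2, EX_real r x, ← smul_mul_assoc]
  exact h

theorem EX_norm {x : A} (hx : star x = x) (r : ℝ) : ‖ex r x‖ ≤ 1 := by
  rcases subsingleton_or_nontrivial A with h | h
  · rw [Subsingleton.elim (ex r x) 0, norm_zero]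
    exact zero_le_one
  · exact (CStarRing.norm_of_mem_unitary (EX_unitary hx r)).le

theorem EX_seg {E : Type} [NormedAddCommGroup E] [NormedSpace ℝ E] (g g' : ℝ → E) (C r : ℝ)
    (hd : ∀ t, HasDerivAt g (g' t) t) (hb : ∀ t, |t| ≤ |r| → ‖g' t‖ ≤ C) :
    ‖g r - g 0‖ ≤ C * |r| := by
  have h := Convex.norm_image_sub_le_of_norm_hasDerivWithin_le (𝕜 := ℝ) (f := g) (f' := g')
    (s := Metric.closedBall (0 : ℝ) |r|) (x := 0) (y := r) (C := C)
    (fun t _ => (hd t).hasDerivWithinAt) (fun t ht => hb t (by simpa using ht))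
    (convex_closedBall _ _) (by simp) (by simp)
  rw [sub_zero, Real.norm_eq_abs] at h
  exact h

theorem EX_lip {x y : A} (hx : star x = x) (hy : star y = y) (r : ℝ) :
    ‖ex r x - ex r y‖ ≤ |r| * ‖x - y‖ := by
  have hd : ∀ t : ℝ, HasDerivAt (fun t : ℝ => ex t x * ex (-t) y)
      (Complex.I • (x * ex t x) * ex (-t) y + ex t x * -(Complex.I • (y * ex (-t) y))) t := by
    intro t
    refine (EX_deriv x t).mul ?_
    have h := (EX_deriv y (-t)).scomp t (hasDerivAt_neg t)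
    rw [neg_one_smul] at h
    exact h
  have hb : ∀ t : ℝ, |t| ≤ |r| →
      ‖Complex.I • (x * ex t x) * ex (-t) y + ex t x * -(Complex.I • (y * ex (-t) y))‖ ≤
        ‖x - y‖ := by
    intro t _
    have h1 : Complex.I • (x * ex t x) * ex (-t) y + ex t x * -(Complex.I • (y * ex (-t) y)) =
        Complex.I • (ex t x * (x - y) * ex (-t) y) := by
      rw [← EX_comm, smul_mul_assoc, mul_neg, mul_smul_comm, mul_sub, sub_mul, smul_sub,
        ← sub_eq_add_neg, mul_assoc (ex t x) y]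
    rw [h1, norm_smul, Complex.norm_I, one_mul]
    calc ‖ex t x * (x - y) * ex (-t) y‖ ≤ ‖ex t x * (x - y)‖ * ‖ex (-t) y‖ := norm_mul_le _ _
      _ ≤ ‖ex t x‖ * ‖x - y‖ * ‖ex (-t) y‖ := by gcongr; exact norm_mul_le _ _
      _ ≤ 1 * ‖x - y‖ * 1 := by
          have h2 := EX_norm hx t
          have h3 := EX_norm hy (-t)
          gcongr
      _ = ‖x - y‖ := by ring
  have h := EX_seg _ _ ‖x - y‖ r hd hb
  have h0 : ex (0 : ℝ) x * ex (-0) y = 1 := by
    rw [neg_zero, EX_zero, EX_zero, one_mul]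
  have h4 : ex r x - ex r y = (ex r x * ex (-r) y - 1) * ex r y := by
    rw [sub_mul, one_mul, mul_assoc, ← EX_add, neg_add_cancel, EX_zero, mul_one]
  rw [h4]
  calc ‖(ex r x * ex (-r) y - 1) * ex r y‖ ≤ ‖ex r x * ex (-r) y - 1‖ * ‖ex r y‖ :=
        norm_mul_le _ _
    _ ≤ (‖x - y‖ * |r|) * 1 := by
        have h5 := EX_norm hy r
        have h6 : ‖ex r x * ex (-r) y - 1‖ ≤ ‖x - y‖ * |r| := by
          simpa only [h0] using h
        gcongr
    _ = |r| * ‖x - y‖ := by ring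

theorem EX_first {x : A} (hx : star x = x) (r : ℝ) : ‖ex r x - 1‖ ≤ |r| * ‖x‖ := by
  have h := EX_lip hx (star_zero A) r
  rw [sub_zero] at h
  have h0 : ex r (0 : A) = 1 := by
    unfold ex
    rw [smul_zero, NormedSpace.exp_zero]
  rwa [h0] at h

theorem EX_second {x : A} (hx : star x = x) (r : ℝ) :
    ‖ex r x - 1 - ((r : ℂ) * Complex.I) • x‖ ≤ (|r| * ‖x‖) ^ 2 := by
  have hd : ∀ t : ℝ, HasDerivAt (fun t : ℝ => ex t x - 1 - t • (Complex.I • x))
      (Complex.I • (x * ex t x) - (1 : ℝ) • (Complex.I • x)) t := by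
    intro t
    exact ((EX_deriv x t).sub_const 1).sub ((hasDerivAt_id t).smul_const _)
  have hb : ∀ t : ℝ, |t| ≤ |r| →
      ‖Complex.I • (x * ex t x) - (1 : ℝ) • (Complex.I • x)‖ ≤ |r| * ‖x‖ ^ 2 := by
    intro t ht
    have h1 : Complex.I • (x * ex t x) - (1 : ℝ) • (Complex.I • x) =
        Complex.I • (x * (ex t x - 1)) := by
      rw [one_smul, mul_sub, mul_one, smul_sub]
    rw [h1, norm_smul, Complex.norm_I, one_mul]
    calc ‖x * (ex t x - 1)‖ ≤ ‖x‖ * ‖ex t x - 1‖ := norm_mul_le _ _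
      _ ≤ ‖x‖ * (|t| * ‖x‖) := by
          have h2 := EX_first hx t
          gcongr
      _ ≤ ‖x‖ * (|r| * ‖x‖) := by gcongr
      _ = |r| * ‖x‖ ^ 2 := by ring
  have h := EX_seg _ _ (|r| * ‖x‖ ^ 2) r hd hb
  simp only [EX_zero, zero_smul, sub_self, sub_zero] at h
  have h3 : ((r : ℂ) * Complex.I) • x = r • (Complex.I • x) := by
    rw [mul_smul, Complex.coe_smul]
  rw [h3]
  calc ‖ex r x - 1 - r • (Complex.I • x)‖ ≤ |r| * ‖x‖ ^ 2 * |r| := h
    _ = (|r| * ‖x‖) ^ 2 := by ring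

end

theorem t_EX : S_EX := by
  intro A _ x y hx hy
  exact ⟨EX_unitary hx, EX_star hx, EX_zero x, fun r t => EX_add r t x, fun r t => EX_smul r t x,
    fun r => EX_comm r x, EX_lip hx hy, EX_second hx, fun r Q => EX_conj Q r x,
    fun B _ Φ r => EX_map Φ r x, fun S hS hxS r => EX_mem S hS hxS r, EX_deriv x⟩

end Pool.Agent.H308R2.CF
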