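import Mathlib
import Pool.Agent.H308R2.CF.Stubs

/-! FBND: analytic bound for a derivation of the free algebra which is nonzero at finitely many
letters only, and for its perturbation. -/

namespace Pool.Agent.H308R2.CF

namespace FBNDAux

variable {X : Type}

theorem fl1_eq (f : FA X) (s : Finset (FreeMonoid X)) (hs : f.coeff.support ⊆ s) :
    fl1 f = ∑ w ∈ s, ‖f.coeff w‖ := by
  unfold fl1
  refine Finset.sum_subset hs ?_
  intro w _ hw
  rw [Finsupp.notMem_support_iff.1 hw, norm_zero]

theorem fl1_nonneg (f : FA X) : 0 ≤ fl1 f := by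
  unfold fl1
  exact Finset.sum_nonneg fun w _ => norm_nonneg _

theorem fl1_add (f g : FA X) : fl1 (f + g) ≤ fl1 f + fl1 g := by
  classical
  rw [fl1_eq (f + g) (f.coeff.support ∪ g.coeff.support) (by
      rw [MonoidAlgebra.coeff_add]
      exact Finsupp.support_add),
    fl1_eq f (f.coeff.support ∪ g.coeff.support) Finset.subset_union_left,
    fl1_eq g (f.coeff.support ∪ g.coeff.support) Finset.subset_union_right,
    ← Finset.sum_add_distrib]
  refine Finset.sum_le_sum ?_
  intro w _
  rw [MonoidAlgebra.coeff_add, Finsupp.add_apply]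
  exact norm_add_le _ _

theorem fl1_zero : fl1 (0 : FA X) = 0 := by
  unfold fl1
  simp

theorem fl1_smul (s : ℂ) (f : FA X) : fl1 (s • f) = ‖s‖ * fl1 f := by
  classical
  rw [fl1_eq (s • f) f.coeff.support (by
      rw [MonoidAlgebra.coeff_smul]
      exact Finsupp.support_smul)]
  unfold fl1
  rw [Finset.mul_sum]
  refine Finset.sum_congr rfl ?_
  intro w _
  rw [MonoidAlgebra.coeff_smul, Finsupp.smul_apply, smul_eq_mul, norm_mul]

theorem fl1_single (w : FreeMonoid X) (c : ℂ) : fl1 (MonoidAlgebra.single w c : FA X) = ‖c‖ := by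
  classical
  rw [fl1_eq (MonoidAlgebra.single w c) {w} (by
      rw [MonoidAlgebra.coeff_single]
      exact Finsupp.support_single_subset)]
  rw [Finset.sum_singleton, MonoidAlgebra.coeff_single, Finsupp.single_eq_same]

theorem fl1_sum {α : Type} (s : Finset α) (F : α → FA X) :
    fl1 (∑ i ∈ s, F i) ≤ ∑ i ∈ s, fl1 (F i) := by
  classical
  induction s using Finset.induction_on with
  | empty => simp [fl1_zero]
  | insert a s ha ih =>
    rw [Finset.sum_insert ha, Finset.sum_insert ha]
    exact (fl1_add _ _).trans (add_le_add le_rfl ih)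

/-- every element is the sum of its terms -/
theorem eq_sum (f : FA X) :
    f = ∑ w ∈ f.coeff.support, (MonoidAlgebra.single w (f.coeff w) : FA X) := by
  apply MonoidAlgebra.coeff_injective
  rw [MonoidAlgebra.coeff_sum]
  simp only [MonoidAlgebra.coeff_single]
  exact (Finsupp.sum_single f.coeff).symm

theorem fl1_mul (f g : FA X) : fl1 (f * g) ≤ fl1 f * fl1 g := by
  conv_lhs => rw [eq_sum f, eq_sum g, Finset.sum_mul_sum]
  refine (fl1_sum _ _).trans ?_
  have : ∀ v ∈ f.coeff.support,
      fl1 (∑ w ∈ g.coeff.support, (MonoidAlgebra.single v (f.coeff v) : FA X) *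
        MonoidAlgebra.single w (g.coeff w)) ≤ ‖f.coeff v‖ * fl1 g := by
    intro v _
    refine (fl1_sum _ _).trans ?_
    unfold fl1
    rw [Finset.mul_sum]
    refine Finset.sum_le_sum ?_
    intro w _
    have h := fl1_single (v * w) (f.coeff v * g.coeff w)
    unfold fl1 at h
    rw [MonoidAlgebra.single_mul_single, h, norm_mul]
  refine (Finset.sum_le_sum this).trans ?_
  rw [← Finset.sum_mul]
  exact le_rfl

theorem fl1_wd (w : FreeMonoid X) : fl1 (wd w) = 1 := by
  rw [fl1_single, norm_one]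

/-- mass at most `m` on words of length at most `r` -/
def Bb (m : ℝ) (r : ℕ) (f : FA X) : Prop := fl1 f ≤ m ∧ ∀ w ∈ f.coeff.support, w.length ≤ r

lemma Bb_mono {m m' : ℝ} {r r' : ℕ} {f : FA X} (hm : m ≤ m') (hr : r ≤ r') (h : Bb m r f) :
    Bb m' r' f := ⟨h.1.trans hm, fun w hw => (h.2 w hw).trans hr⟩

lemma Bb_add {m m' : ℝ} {r : ℕ} {f g : FA X} (hf : Bb m r f) (hg : Bb m' r g) :
    Bb (m + m') r (f + g) := by
  classical
  refine ⟨(fl1_add f g).trans (add_le_add hf.1 hg.1), fun w hw => ?_⟩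
  rw [MonoidAlgebra.coeff_add] at hw
  rcases Finset.mem_union.1 (Finsupp.support_add hw) with hw | hw
  · exact hf.2 w hw
  · exact hg.2 w hw

lemma Bb_mul {m m' : ℝ} {r r' : ℕ} {f g : FA X} (hm : 0 ≤ m) (hf : Bb m r f)
    (hg : Bb m' r' g) : Bb (m * m') (r + r') (f * g) := by
  classical
  refine ⟨(fl1_mul f g).trans (mul_le_mul hf.1 hg.1 (fl1_nonneg g) hm), fun w hw => ?_⟩
  have h1 := MonoidAlgebra.support_coeff_mul_subset f g hw
  obtain ⟨x, hx, y, hy, rfl⟩ := Finset.mem_mul.1 h1
  rw [FreeMonoid.length_mul]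
  exact add_le_add (hf.2 x hx) (hg.2 y hy)

lemma Bb_smul {m : ℝ} {r : ℕ} {f : FA X} (s : ℂ) (hf : Bb m r f) : Bb (‖s‖ * m) r (s • f) := by
  refine ⟨?_, fun w hw => ?_⟩
  · rw [fl1_smul]
    exact mul_le_mul_of_nonneg_left hf.1 (norm_nonneg _)
  · rw [MonoidAlgebra.coeff_smul] at hw
    exact hf.2 w (Finsupp.support_smul hw)

lemma Bb_wd (w : FreeMonoid X) : Bb 1 w.length (wd w) := by
  refine ⟨(fl1_wd w).le, fun w' hw => ?_⟩
  rw [MonoidAlgebra.coeff_single] at hw
  have h1 := Finsupp.support_single_subset hw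
  rw [Finset.mem_singleton] at h1
  rw [h1]

lemma Bb_self (f : FA X) : Bb (fl1 f) (f.coeff.support.sup FreeMonoid.length) f :=
  ⟨le_rfl, fun _ hw => Finset.le_sup (f := FreeMonoid.length) hw⟩

lemma D_one {D : FA X →ₗ[ℂ] FA X} (hD : FLeib D) : D 1 = 0 := by
  have h1 := hD 1 1
  rw [mul_one, mul_one, one_mul] at h1
  have h2 : D 1 + D 1 = D 1 + 0 := by rw [add_zero]; exact h1.symm
  exact add_left_cancel h2

lemma wd_mul (x y : FreeMonoid X) : (wd (x * y) : FA X) = wd x * wd y := by
  rw [wd, wd, wd, MonoidAlgebra.single_mul_single, one_mul]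

/-- all the letters are mapped to elements of mass `≤ M` on words of length `≤ l` -/
lemma letters (D : FA X →ₗ[ℂ] FA X) (hz : {x : X | D (lt x) ≠ 0}.Finite) :
    ∃ (M : ℝ) (l : ℕ), 0 < M ∧ 1 ≤ l ∧ ∀ x : X, Bb M l (D (lt x)) := by
  classical
  refine ⟨∑ x ∈ hz.toFinset, fl1 (D (lt x)) + 1,
    hz.toFinset.sup (fun x => (D (lt x)).coeff.support.sup FreeMonoid.length) + 1, ?_, by omega, ?_⟩
  · have := Finset.sum_nonneg (s := hz.toFinset) (f := fun x => fl1 (D (lt x)))
      (fun x _ => fl1_nonneg _)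
    linarith
  · intro x
    by_cases hx : D (lt x) = 0
    · rw [hx]
      refine ⟨?_, fun w hw => ?_⟩
      · rw [fl1_zero]
        have := Finset.sum_nonneg (s := hz.toFinset) (f := fun x => fl1 (D (lt x)))
          (fun x _ => fl1_nonneg _)
        linarith
      · simp at hw
    · have hmem : x ∈ hz.toFinset := by
        rw [Set.Finite.mem_toFinset]
        exact hx
      refine Bb_mono ?_ ?_ (Bb_self (D (lt x)))
      · have := Finset.single_le_sum (s := hz.toFinset) (f := fun x => fl1 (D (lt x)))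
          (fun x _ => fl1_nonneg _) hmem
        linarith
      · have := Finset.le_sup (s := hz.toFinset)
          (f := fun x => (D (lt x)).coeff.support.sup FreeMonoid.length) hmem
        exact this.trans (Nat.le_succ _)

lemma word (D : FA X →ₗ[ℂ] FA X) (hD : FLeib D) (M : ℝ) (l : ℕ) (hM : 0 < M)
    (hl : ∀ x : X, Bb M l (D (lt x))) :
    ∀ w : FreeMonoid X, Bb (w.length * M) (w.length + l) (D (wd w)) := by
  intro w
  induction w using FreeMonoid.inductionOn' with
  | one =>
    have e : (wd 1 : FA X) = 1 := rfl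
    rw [e, D_one hD]
    refine ⟨by rw [fl1_zero]; simp, fun w hw => ?_⟩
    simp at hw
  | of_mul x w ih =>
    rw [wd_mul, hD]
    have h1 : Bb 1 w.length (wd w : FA X) := Bb_wd w
    have h2 : Bb 1 1 (wd (FreeMonoid.of x) : FA X) := by
      have := Bb_wd (FreeMonoid.of x)
      rw [FreeMonoid.length_of] at this
      exact this
    have h3 := Bb_mul hM.le (hl x) h1
    have h4 := Bb_mul zero_le_one h2 ih
    have hlen : (FreeMonoid.of x * w).length = 1 + w.length := by
      rw [FreeMonoid.length_mul, FreeMonoid.length_of]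
    have h5 := Bb_add (Bb_mono (le_refl (M * 1))
      (show l + w.length ≤ (FreeMonoid.of x * w).length + l by rw [hlen]; omega) h3)
      (Bb_mono (le_refl (1 * (w.length * M)))
      (show 1 + (w.length + l) ≤ (FreeMonoid.of x * w).length + l by rw [hlen]; omega) h4)
    refine Bb_mono (le_of_eq ?_) le_rfl h5
    rw [hlen]
    push_cast
    ring

/-- `∏_{j<n} (r + j l)` -/
def PP (l n r : ℕ) : ℝ := ∏ j ∈ Finset.range n, ((r : ℝ) + j * l)

lemma PP_nonneg (l n r : ℕ) : 0 ≤ PP l n r := Finset.prod_nonneg (fun j _ => by positivity)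

lemma PP_mono (l n : ℕ) {r r' : ℕ} (h : r ≤ r') : PP l n r ≤ PP l n r' := by
  apply Finset.prod_le_prod
  · intro j _; positivity
  · intro j _
    have : (r : ℝ) ≤ r' := by exact_mod_cast h
    linarith

lemma PP_succ (l n r : ℕ) : PP l (n + 1) r = r * PP l n (r + l) := by
  unfold PP
  rw [Finset.prod_range_succ', mul_comm]
  congr 1
  · simp
  · apply Finset.prod_congr rfl
    intro j _
    push_cast
    ring

lemma PP_le (l n s : ℕ) (hl : 1 ≤ l) :
    PP l n (s + 1) ≤ n.factorial * (2 * (l : ℝ)) ^ n * 2 ^ s := by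
  have hl' : (1 : ℝ) ≤ l := by exact_mod_cast hl
  have h1 : PP l n (s + 1) ≤ ∏ j ∈ Finset.range n, ((l : ℝ) * ((s + 1 : ℕ) + j : ℕ)) := by
    apply Finset.prod_le_prod
    · intro j _; positivity
    · intro j _
      push_cast
      have : (0 : ℝ) ≤ s := by positivity
      nlinarith
  have h2 : ∏ j ∈ Finset.range n, ((l : ℝ) * ((s + 1 : ℕ) + j : ℕ)) =
      (l : ℝ) ^ n * ((s + 1).ascFactorial n : ℕ) := by
    rw [Finset.prod_mul_distrib, Finset.prod_const, Finset.card_range,
      Nat.ascFactorial_eq_prod_range, Nat.cast_prod]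
  rw [h2, Nat.ascFactorial_eq_factorial_mul_choose] at h1
  refine h1.trans ?_
  have h3 : ((s + n).choose n : ℝ) ≤ 2 ^ (s + n) := by exact_mod_cast Nat.choose_le_two_pow _ _
  have h4 : (2 : ℝ) ^ (s + n) = 2 ^ n * 2 ^ s := by
    rw [← pow_add, add_comm]
  push_cast
  calc (l : ℝ) ^ n * ((n.factorial : ℝ) * ((s + n).choose n : ℝ))
      ≤ (l : ℝ) ^ n * ((n.factorial : ℝ) * (2 ^ n * 2 ^ s)) := by
        gcongr
        exact h3.trans h4.le
    _ = _ := by rw [mul_pow]; ring

lemma iter (D : FA X →ₗ[ℂ] FA X) (M : ℝ) (l : ℕ) (hM : 0 < M)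
    (hw : ∀ w : FreeMonoid X, Bb ((w.length + 1 : ℕ) * M) (w.length + l) (D (wd w))) :
    ∀ (n : ℕ) (w : FreeMonoid X), fl1 (D^[n] (wd w)) ≤ M ^ n * PP l n (w.length + 1) := by
  intro n
  induction n with
  | zero =>
    intro w
    simp only [Function.iterate_zero, id_eq, pow_zero, one_mul, PP, Finset.range_zero,
      Finset.prod_empty]
    exact (fl1_wd w).le
  | succ n ih =>
    intro w
    rw [Function.iterate_succ_apply]
    obtain ⟨h1, h2⟩ := hw w
    set f := D (wd w) with hf
    have e : D^[n] f = ∑ x ∈ f.coeff.support, f.coeff x • D^[n] (wd x) := by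
      have e1 : f = ∑ x ∈ f.coeff.support, f.coeff x • (wd x : FA X) := by
        conv_lhs => rw [eq_sum f]
        apply Finset.sum_congr rfl
        intro x _
        rw [MonoidAlgebra.smul_single, smul_eq_mul, mul_one]
      have e2 : ∀ g : FA X, D^[n] g = (D ^ n : Module.End ℂ (FA X)) g := fun g =>
        (Module.End.pow_apply D n g).symm
      rw [e2 f]
      conv_lhs => rw [e1]
      rw [map_sum]
      apply Finset.sum_congr rfl
      intro x _
      rw [map_smul, e2]
    rw [e]
    have h3 : ∀ x ∈ f.coeff.support, fl1 (f.coeff x • D^[n] (wd x)) ≤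
        ‖f.coeff x‖ * (M ^ n * PP l n (w.length + 1 + l)) := by
      intro x hx
      rw [fl1_smul]
      apply mul_le_mul_of_nonneg_left _ (norm_nonneg _)
      refine (ih x).trans ?_
      apply mul_le_mul_of_nonneg_left _ (by positivity)
      apply PP_mono l n
      have := h2 x hx
      omega
    calc fl1 (∑ x ∈ f.coeff.support, f.coeff x • D^[n] (wd x))
        ≤ ∑ x ∈ f.coeff.support, fl1 (f.coeff x • D^[n] (wd x)) := fl1_sum _ _
      _ ≤ ∑ x ∈ f.coeff.support, ‖f.coeff x‖ * (M ^ n * PP l n (w.length + 1 + l)) :=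
          Finset.sum_le_sum h3
      _ = fl1 f * (M ^ n * PP l n (w.length + 1 + l)) := by rw [← Finset.sum_mul]; rfl
      _ ≤ ((w.length + 1 : ℕ) * M) * (M ^ n * PP l n (w.length + 1 + l)) := by
          apply mul_le_mul_of_nonneg_right h1
          have := PP_nonneg l n (w.length + 1 + l)
          positivity
      _ = M ^ (n + 1) * PP l (n + 1) (w.length + 1) := by
          rw [PP_succ, pow_succ]; ring

lemma FB_of (D : FA X →ₗ[ℂ] FA X) (M : ℝ) (l : ℕ) (hM : 0 < M) (hl : 1 ≤ l)
    (hw : ∀ w : FreeMonoid X, Bb ((w.length + 1 : ℕ) * M) (w.length + l) (D (wd w))) :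
    FB D (2 * M * l) := by
  intro n w
  refine (iter D M l hM hw n w).trans ?_
  calc M ^ n * PP l n (w.length + 1) ≤ M ^ n * (n.factorial * (2 * (l : ℝ)) ^ n * 2 ^ w.length) :=
        mul_le_mul_of_nonneg_left (PP_le l n w.length hl) (by positivity)
    _ = _ := by
      rw [mul_pow (2 * M) (l : ℝ), mul_pow 2 M, mul_pow 2 (l : ℝ)]; ring

end FBNDAux

open FBNDAux in
theorem t_FBND : S_FBND := by
  intro X D h hD hz
  obtain ⟨M, l, hM, hl, hlet⟩ := letters D hz
  have hw := word D hD M l hM hlet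
  set lh := h.coeff.support.sup FreeMonoid.length with hlh
  have hh0 : 0 ≤ fl1 h := fl1_nonneg h
  have hl' : (1 : ℝ) ≤ (l + lh : ℕ) := by
    have : 1 ≤ l + lh := by omega
    exact_mod_cast this
  refine ⟨2 * (M + fl1 h) * (l + lh : ℕ), by positivity, ?_, ?_⟩
  · apply FB_of D (M + fl1 h) (l + lh) (by linarith) (by omega)
    intro w
    refine Bb_mono ?_ (by omega) (hw w)
    push_cast
    have h1 : (0 : ℝ) ≤ w.length := by positivity
    nlinarith [mul_nonneg h1 hh0]
  · apply FB_of (DD D h) (M + fl1 h) (l + lh) (by linarith) (by omega)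
    intro w
    have e : DD D h (wd w) = D (wd w) + (-Complex.I) • (wd w * h) := by
      unfold DD
      rw [LinearMap.sub_apply, LinearMap.smul_apply, LinearMap.mulRight_apply, neg_smul,
        sub_eq_add_neg]
    rw [e]
    have h1 := Bb_smul (-Complex.I) (Bb_mul zero_le_one (Bb_wd w) (Bb_self h))
    rw [norm_neg, Complex.norm_I, one_mul, one_mul] at h1
    have h2 := Bb_add (Bb_mono (le_refl (w.length * M))
      (show w.length + l ≤ w.length + (l + lh) by omega) (hw w))
      (Bb_mono (le_refl (fl1 h))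
      (show w.length + h.coeff.support.sup FreeMonoid.length ≤ w.length + (l + lh) by
        rw [← hlh]; omega) h1)
    refine Bb_mono ?_ le_rfl h2
    push_cast
    have h3 : (0 : ℝ) ≤ w.length := by positivity
    nlinarith [mul_nonneg h3 hh0]

end Pool.Agent.H308R2.CF
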