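import Pool.Agent.H308R2.CF.Stubs

/-! Task FDAT: the concrete derivation. -/

namespace Pool.Agent.H308R2.CF

open scoped ComplexConjugate
open Pool.Agent.H581R.FF (GR bs ev jj vv kk act)

namespace FDATh

/-- derivations vanish at one -/
theorem leib_one {X : Type} {D : FA X →ₗ[ℂ] FA X} (hD : FLeib D) : D 1 = 0 := by
  have h := hD 1 1
  rw [mul_one, mul_one, one_mul] at h
  exact left_eq_add.1 h

/-- derivations which are equal on letters are equal -/
theorem leib_ext {X : Type} {D D' : FA X →ₗ[ℂ] FA X} (hD : FLeib D) (hD' : FLeib D')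
    (h : ∀ x, D (lt x) = D' (lt x)) (f : FA X) : D f = D' f := by
  have hw : ∀ w : FreeMonoid X, D (wd w) = D' (wd w) := by
    intro w
    induction w using FreeMonoid.inductionOn' with
    | one =>
      have h1 : (wd (1 : FreeMonoid X) : FA X) = 1 := rfl
      rw [h1, leib_one hD, leib_one hD']
    | of_mul x w ih =>
      have h1 : (wd (FreeMonoid.of x * w) : FA X) = lt x * wd w := by
        simp [MonoidAlgebra.single_mul_single]
      rw [h1, hD, hD', h, ih]
  refine MonoidAlgebra.induction_linear f (by simp) ?_ ?_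
  · intro f g hf hg
    rw [map_add, map_add, hf, hg]
  · intro w r
    have h1 : (MonoidAlgebra.single w r : FA X) = r • wd w := by
      rw [MonoidAlgebra.smul_single, smul_eq_mul, mul_one]
    rw [h1, map_smul, map_smul, hw]

theorem lst_lst {κ : Type} (x : Lt κ) : lst (lst x) = x := by
  rcases x with _ | ⟨j, b⟩
  · rfl
  · simp [lst]

theorem fst_fw (h3 : S_FST) {κ : Type} [DecidableEq κ] (β : FreeGroup κ) :
    fst lst (wd (fw β) : FA (Lt κ)) = wd (fw β⁻¹) := by
  obtain ⟨-, -, -, -, -, -, h, -⟩ := h3 (Lt κ) lst lst_lst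
  rw [h]
  unfold fw
  rw [FreeMonoid.toList_ofList, FreeGroup.toWord_inv]
  unfold FreeGroup.invRev
  rw [List.map_reverse, List.map_reverse, List.map_map, List.map_map]
  have h2 : (lst ∘ some : κ × Bool → Lt κ) = some ∘ fun g : κ × Bool => (g.1, !g.2) := by
    funext g
    rfl
  rw [h2]

end FDATh

open FDATh in
theorem t_FDAT (h1 : S_FDER) (h2 : S_FBND) (h3 : S_FST) : S_FDAT := by
  intro ι _ u c
  obtain ⟨D, hD, hDl⟩ := h1 (Lt (Option ι)) (fun x => match x with
    | none => 0
    | some (j, b) => if j = some u then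
        Complex.I • (lt (some (some u, b)) * fh c - fh c * lt (some (some u, b))) else 0)
  have hFD : FD u c D := by
    refine ⟨hD, ?_, ?_, ?_⟩
    · intro b
      rw [hDl]
      simp
    · intro j b hj
      rw [hDl]
      simp [hj]
    · rw [hDl]
  have hfin : {x : Lt (Option ι) | D (lt x) ≠ 0}.Finite := by
    refine Set.Finite.subset (Set.toFinite
      ({some (some u, true), some (some u, false)} : Set (Lt (Option ι)))) ?_
    rintro (_ | ⟨j, b⟩) hx
    · exact absurd hFD.dY hx
    · by_cases hj : j = some u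
      · subst hj
        cases b <;> simp
      · exact absurd (hFD.dz j b hj) hx
  obtain ⟨K, hK, hB1, hB2⟩ := h2 _ D (fh c) hD hfin
  obtain ⟨hadd, hmul, hsmul, hinv, hlt, hone, -, -⟩ := h3 (Lt (Option ι)) lst lst_lst
  obtain ⟨F, hF⟩ : ∃ F : FA (Lt (Option ι)) →+ FA (Lt (Option ι)), ∀ f, F f = fst lst f :=
    ⟨AddMonoidHom.mk' (fst lst) hadd, fun f => rfl⟩
  have hst : fst lst (fh c) = fh c := by
    rw [← hF]
    unfold fh
    rw [map_finsuppSum]
    refine Finsupp.sum_congr fun β _ => ?_
    rw [hF, hsmul, hmul, hmul, fst_fw h3, fst_fw h3, hlt, Complex.conj_ofReal, inv_inv,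
      mul_assoc]
    rfl
  have hsub : ∀ f g : FA (Lt (Option ι)), fst lst (f - g) = fst lst f - fst lst g := by
    intro f g
    rw [← hF, map_sub, hF, hF]
  have hzero : fst lst (0 : FA (Lt (Option ι))) = 0 := by
    rw [← hF, map_zero]
  -- the conjugated derivation
  let D' : FA (Lt (Option ι)) →ₗ[ℂ] FA (Lt (Option ι)) :=
    { toFun := fun f => fst lst (D (fst lst f))
      map_add' := fun f g => by rw [hadd, map_add, hadd]
      map_smul' := fun s f => by
        rw [hsmul, map_smul, hsmul, Complex.conj_conj, RingHom.id_apply] }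
  have hD'a : ∀ f, D' f = fst lst (D (fst lst f)) := fun f => rfl
  have hD' : FLeib D' := by
    intro x y
    rw [hD'a, hD'a, hD'a, hmul, hD, hadd, hmul, hmul, hinv, hinv, add_comm]
  have hlet : ∀ x, D' (lt x) = D (lt x) := by
    rintro (_ | ⟨j, b⟩)
    · rw [hD'a, hlt]
      show fst lst (D (lt none)) = D (lt none)
      rw [hFD.dY, hzero]
    · rw [hD'a, hlt]
      show fst lst (D (lt (some (j, !b)))) = D (lt (some (j, b)))
      by_cases hj : j = some u
      · subst hj
        rw [hFD.du, hFD.du, hsmul, hsub, hmul, hmul, hst, hlt, Complex.conj_I]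
        have hl : lst (some (some u, !b) : Lt (Option ι)) = some (some u, b) := by
          simp [lst]
        rw [hl, neg_smul, ← smul_neg, neg_sub]
      · rw [hFD.dz j _ hj, hFD.dz j _ hj, hzero]
  have heq := leib_ext hD' hD hlet
  refine ⟨D, K, hFD, ⟨lst_lst, hD, ?_, hst, hK, hB1, hB2⟩⟩
  intro x
  have h := heq x
  rw [hD'a] at h
  rw [← h, hinv]

end Pool.Agent.H308R2.CF
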