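import Pool.Agent.H308R2.CF.Stubs

/-! Existence of derivations of the free algebra. -/

set_option autoImplicit false

namespace Pool.Agent.H308R2.CF

namespace FDERaux

open MonoidAlgebra TrivSqZeroExt

variable {X : Type}

/-- The homomorphism to the dual numbers. -/
noncomputable def rho (d : X → FA X) : FA X →ₐ[ℂ] DualNumber (FA X) :=
  MonoidAlgebra.lift ℂ (DualNumber (FA X)) (FreeMonoid X)
    (FreeMonoid.lift (fun z => inl (lt z) + inr (d z)))

theorem fst_rho (d : X → FA X) (x : FA X) : TrivSqZeroExt.fst (rho d x) = x := by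
  have h1 : ∀ w : FreeMonoid X, TrivSqZeroExt.fst (rho d (MonoidAlgebra.of ℂ (FreeMonoid X) w)) =
      MonoidAlgebra.of ℂ (FreeMonoid X) w := by
    intro w
    rw [rho, MonoidAlgebra.lift_of]
    have : ((fstHom ℂ (FA X) (FA X) : DualNumber (FA X) →* FA X).comp
        (FreeMonoid.lift (fun z => inl (lt z) + inr (d z)))) =
        MonoidAlgebra.of ℂ (FreeMonoid X) := by
      apply FreeMonoid.hom_eq
      intro a
      simp
    exact DFunLike.congr_fun this w
  have h2 : (fstHom ℂ (FA X) (FA X)).comp (rho d) = AlgHom.id ℂ (FA X) := by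
    apply MonoidAlgebra.algHom_ext
    · intro w
      exact h1 w
    · exact Subsingleton.elim _ _
  exact DFunLike.congr_fun h2 x

/-- The derivation. -/
noncomputable def dl (d : X → FA X) : FA X →ₗ[ℂ] FA X :=
  (sndHom (FA X) (FA X)).restrictScalars ℂ ∘ₗ (rho d).toLinearMap

theorem dl_apply (d : X → FA X) (x : FA X) : dl d x = TrivSqZeroExt.snd (rho d x) := rfl

end FDERaux

open FDERaux TrivSqZeroExt in
theorem t_FDER : S_FDER := by
  intro X d
  refine ⟨dl d, ?_, ?_⟩
  · intro x y
    rw [dl_apply, map_mul, snd_mul, fst_rho, fst_rho, dl_apply, dl_apply, smul_eq_mul,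
      MulOpposite.smul_eq_mul_unop, MulOpposite.unop_op, add_comm]
  · intro z
    have : (lt z : FA X) = MonoidAlgebra.of ℂ (FreeMonoid X) (FreeMonoid.of z) := rfl
    rw [this, dl_apply, rho, MonoidAlgebra.lift_of]
    simp

end Pool.Agent.H308R2.CF
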