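import Pool.Agent.H308R2.CF.Stubs

/-! FEJ: bounded `L²` approximation by trigonometric polynomials (helper497) -/

namespace Pool.Agent.H308R2.CF

open MeasureTheory
open scoped ComplexConjugate

/-- the monomials -/
noncomputable def FEJ_e (m : ℤ) : CI :=
  ⟨fun t => Complex.exp (2 * Real.pi * Complex.I * m * ((t : ℝ) : ℂ)), by fun_prop⟩

lemma FEJ_e_apply (m : ℤ) (x : unitInterval) :
    FEJ_e m x = Complex.exp (2 * Real.pi * Complex.I * m * ((x : ℝ) : ℂ)) := rfl

lemma FEJ_tp (q : ℤ →₀ ℂ) : tp q = Finsupp.linearCombination ℂ FEJ_e q := rfl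

lemma FEJ_tp_add (q r : ℤ →₀ ℂ) : tp (q + r) = tp q + tp r := by
  rw [FEJ_tp, FEJ_tp, FEJ_tp, map_add]

lemma FEJ_tp_sub (q r : ℤ →₀ ℂ) : tp (q - r) = tp q - tp r := by
  rw [FEJ_tp, FEJ_tp, FEJ_tp, map_sub]

lemma FEJ_tp_smul (c : ℂ) (q : ℤ →₀ ℂ) : tp (c • q) = c • tp q := by
  rw [FEJ_tp, FEJ_tp, map_smul]

lemma FEJ_tp_single (m : ℤ) (c : ℂ) : tp (Finsupp.single m c) = c • FEJ_e m := by
  rw [FEJ_tp, Finsupp.linearCombination_single]

lemma FEJ_int_eq {E : Type*} [NormedAddCommGroup E] [NormedSpace ℝ E] (g : ℝ → E) :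
    ∫ x : unitInterval, g x = ∫ x in (0 : ℝ)..1, g x := by
  rw [intervalIntegral.integral_of_le zero_le_one, ← integral_Icc_eq_integral_Ioc]
  exact integral_subtype_comap measurableSet_Icc g

lemma FEJ_int_pow (k : ℕ) : ∫ x : unitInterval, (x : ℝ) ^ k = 1 / ((k : ℝ) + 1) := by
  rw [FEJ_int_eq (fun x => x ^ k), integral_pow]
  simp

lemma FEJ_integrable {E : Type*} [NormedAddCommGroup E] (g : unitInterval → E) (hg : Continuous g) :
    Integrable g := by
  have h : IntegrableOn g Set.univ := hg.continuousOn.integrableOn_compact isCompact_univ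
  rwa [integrableOn_univ] at h

lemma FEJ_int_e (m : ℤ) : ∫ x : unitInterval, FEJ_e m x = if m = 0 then 1 else 0 := by
  simp only [FEJ_e_apply]
  rw [FEJ_int_eq (fun x : ℝ => Complex.exp (2 * Real.pi * Complex.I * m * (x : ℂ)))]
  split_ifs with h
  · subst h
    simp
  · have hc : (2 * Real.pi * Complex.I * m : ℂ) ≠ 0 := by
      have : (m : ℂ) ≠ 0 := by exact_mod_cast h
      have hpi : (Real.pi : ℂ) ≠ 0 := by exact_mod_cast Real.pi_ne_zero
      simp [hpi, Complex.I_ne_zero, this]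
    rw [integral_exp_mul_complex hc]
    have e1 : Complex.exp (2 * Real.pi * Complex.I * m * ((1 : ℝ) : ℂ)) = 1 := by
      have := Complex.exp_int_mul_two_pi_mul_I m
      rw [← this]
      congr 1
      push_cast
      ring
    rw [e1]
    simp

lemma FEJ_int_tp (q : ℤ →₀ ℂ) : ∫ x : unitInterval, tp q x = q 0 := by
  induction q using Finsupp.induction_linear with
  | zero => simp [FEJ_tp]
  | add q r hq hr =>
    rw [FEJ_tp_add]
    simp only [ContinuousMap.add_apply, Finsupp.add_apply]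
    rw [integral_add (FEJ_integrable _ (tp q).continuous) (FEJ_integrable _ (tp r).continuous), hq, hr]
  | single m c =>
    rw [FEJ_tp_single]
    simp only [ContinuousMap.smul_apply]
    rw [integral_smul, FEJ_int_e, Finsupp.single_apply]
    split_ifs <;> simp

/-- the conjugate coefficients -/
noncomputable def FEJ_c (q : ℤ →₀ ℂ) : ℤ →₀ ℂ :=
  (q.mapDomain (Equiv.neg ℤ)).mapRange (starRingEnd ℂ) (map_zero _)

lemma FEJ_c_apply (q : ℤ →₀ ℂ) (m : ℤ) : FEJ_c q m = conj (q (-m)) := by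
  unfold FEJ_c
  rw [Finsupp.mapRange_apply, Finsupp.mapDomain_equiv_apply]
  rfl

lemma FEJ_c_add (q r : ℤ →₀ ℂ) : FEJ_c (q + r) = FEJ_c q + FEJ_c r := by
  ext m
  rw [Finsupp.add_apply, FEJ_c_apply, FEJ_c_apply, FEJ_c_apply, Finsupp.add_apply, map_add]

lemma FEJ_tp_c (q : ℤ →₀ ℂ) (x : unitInterval) : tp (FEJ_c q) x = conj (tp q x) := by
  induction q using Finsupp.induction_linear with
  | zero =>
    have : FEJ_c 0 = 0 := by
      ext m
      rw [FEJ_c_apply]
      simp
    rw [this]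
    simp [FEJ_tp]
  | add q r hq hr =>
    rw [FEJ_c_add, FEJ_tp_add, FEJ_tp_add, ContinuousMap.add_apply, ContinuousMap.add_apply, map_add, hq, hr]
  | single m c =>
    have : FEJ_c (Finsupp.single m c) = Finsupp.single (-m) (conj c) := by
      ext k
      rw [FEJ_c_apply, Finsupp.single_apply, Finsupp.single_apply]
      by_cases h : m = -k
      · rw [if_pos h, if_pos (by rw [h, neg_neg])]
      · rw [if_neg h, if_neg (fun h' => h (by rw [← h', neg_neg])), map_zero]
    rw [this, FEJ_tp_single, FEJ_tp_single, ContinuousMap.smul_apply, ContinuousMap.smul_apply, smul_eq_mul,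
      smul_eq_mul, map_mul]
    congr 1
    rw [FEJ_e_apply, FEJ_e_apply, ← Complex.exp_conj]
    congr 1
    simp only [map_mul, Complex.conj_I, Complex.conj_ofReal, map_ofNat, map_intCast]
    push_cast
    ring

/-- uniform approximation of periodic functions -/
lemma FEJ_approx (g : CI) (h : g 0 = g 1) (e : ℝ) (he : 0 < e) :
    ∃ q : ℤ →₀ ℂ, ∀ x : unitInterval, ‖g x - tp q x‖ ≤ e := by
  set G : ℝ → ℂ := Set.IccExtend (zero_le_one (α := ℝ)) g with hG
  have hGc : Continuous G := g.continuous.Icc_extend'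
  have hG0 : G 0 = g 0 := by
    rw [hG, Set.IccExtend_of_mem _ _ ⟨le_rfl, zero_le_one⟩]
    rfl
  have hG1 : G 1 = g 1 := by
    rw [hG, Set.IccExtend_of_mem _ _ ⟨zero_le_one, le_rfl⟩]
    rfl
  have hper : G 0 = G 1 := by rw [hG0, hG1, h]
  set F : C(AddCircle (1 : ℝ), ℂ) := ⟨AddCircle.liftIco 1 0 G,
    AddCircle.liftIco_zero_continuous hper hGc.continuousOn⟩ with hF
  have hFx : ∀ x : unitInterval, F ((x : ℝ) : AddCircle (1 : ℝ)) = g x := by
    intro x
    rcases lt_or_eq_of_le x.2.2 with hx | hx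
    · have : F ((x : ℝ) : AddCircle (1 : ℝ)) = G x := by
        show AddCircle.liftIco 1 0 G ((x : ℝ) : AddCircle (1 : ℝ)) = G x
        exact AddCircle.liftIco_zero_coe_apply ⟨x.2.1, hx⟩
      rw [this, hG, Set.IccExtend_val]
    · have h1 : x = 1 := Subtype.ext hx
      have h2 : (((x : unitInterval) : ℝ) : AddCircle (1 : ℝ)) = ((0 : ℝ) : AddCircle (1 : ℝ)) := by
        rw [hx]
        exact AddCircle.coe_period 1
      have h3 : F ((0 : ℝ) : AddCircle (1 : ℝ)) = G 0 := by
        show AddCircle.liftIco 1 0 G ((0 : ℝ) : AddCircle (1 : ℝ)) = G 0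
        exact AddCircle.liftIco_zero_coe_apply ⟨le_rfl, zero_lt_one⟩
      rw [h2, h3, hG0, h1, h]
  have hcl : F ∈ closure ((Submodule.span ℂ (Set.range (fourier (T := (1 : ℝ)))) :
      Submodule ℂ C(AddCircle (1 : ℝ), ℂ)) : Set C(AddCircle (1 : ℝ), ℂ)) := by
    have h1 := span_fourier_closure_eq_top (T := (1 : ℝ))
    have h2 : F ∈ (Submodule.span ℂ (Set.range (fourier (T := (1 : ℝ))))).topologicalClosure := by
      rw [h1]
      trivial
    exact h2
  obtain ⟨p, hp, hd⟩ := Metric.mem_closure_iff.mp hcl e he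
  obtain ⟨c, hc⟩ := (Finsupp.mem_span_range_iff_exists_finsupp).mp hp
  refine ⟨c, fun x => ?_⟩
  have e1 : tp c x = p ((x : ℝ) : AddCircle (1 : ℝ)) := by
    rw [← hc]
    unfold tp Finsupp.sum
    rw [ContinuousMap.sum_apply, ContinuousMap.sum_apply]
    refine Finset.sum_congr rfl fun m _ => ?_
    rw [ContinuousMap.smul_apply, ContinuousMap.smul_apply, fourier_coe_apply]
    congr 1
    show Complex.exp _ = _
    congr 1
    push_cast
    ring
  rw [← hFx x, e1]
  rw [dist_eq_norm] at hd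
  exact (ContinuousMap.norm_coe_le_norm (F - p) _).trans hd.le

theorem t_FEJ : S_FEJ := by
  intro f ε hε
  set N := ‖f‖ with hN
  have N0 : 0 ≤ N := norm_nonneg f
  have fN : ∀ x, ‖f x‖ ≤ N := fun x => ContinuousMap.norm_coe_le_norm f x
  obtain ⟨δ, hδ0, hδ1, hδ2⟩ : ∃ δ : ℝ, 0 < δ ∧ δ ≤ 1 ∧ δ ≤ ε / 8 :=
    ⟨min 1 (ε / 8), by positivity, min_le_left _ _, min_le_right _ _⟩
  obtain ⟨n, hn⟩ := exists_nat_ge (max (4 * N / δ) (max (16 * N ^ 2 / ε) 1))
  have n1 : 4 * N / δ ≤ n := (le_max_left _ _).trans hn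
  have n2 : 16 * N ^ 2 / ε ≤ n := (le_max_left _ _).trans ((le_max_right _ _).trans hn)
  have n3 : (1 : ℝ) ≤ n := (le_max_right _ _).trans ((le_max_right _ _).trans hn)
  have n3' : n ≠ 0 := by
    intro h
    rw [h] at n3
    norm_num at n3
  -- the periodic modification
  set g : CI := ⟨fun t => (1 - ((t : ℝ) : ℂ) ^ n) * f t + ((t : ℝ) : ℂ) ^ n * f 0, by fun_prop⟩ with hg
  have gx : ∀ x, g x = (1 - ((x : ℝ) : ℂ) ^ n) * f x + ((x : ℝ) : ℂ) ^ n * f 0 := fun x => rfl
  have g01 : g 0 = g 1 := by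
    rw [gx, gx]
    simp [n3']
  have xn : ∀ x : unitInterval, 0 ≤ (x : ℝ) ^ n ∧ (x : ℝ) ^ n ≤ 1 := fun x =>
    ⟨pow_nonneg x.2.1 _, pow_le_one₀ x.2.1 x.2.2⟩
  have gN : ∀ x, ‖g x‖ ≤ N := by
    intro x
    rw [gx]
    obtain ⟨a1, a2⟩ := xn x
    have b1 : ‖(1 - ((x : ℝ) : ℂ) ^ n)‖ = 1 - (x : ℝ) ^ n := by
      have : (1 - ((x : ℝ) : ℂ) ^ n) = ((1 - (x : ℝ) ^ n : ℝ) : ℂ) := by push_cast; ring
      rw [this, Complex.norm_real, Real.norm_of_nonneg (by linarith)]
    have b2 : ‖((x : ℝ) : ℂ) ^ n‖ = (x : ℝ) ^ n := by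
      rw [← Complex.ofReal_pow, Complex.norm_real, Real.norm_of_nonneg a1]
    calc ‖(1 - ((x : ℝ) : ℂ) ^ n) * f x + ((x : ℝ) : ℂ) ^ n * f 0‖
        ≤ ‖(1 - ((x : ℝ) : ℂ) ^ n) * f x‖ + ‖((x : ℝ) : ℂ) ^ n * f 0‖ := norm_add_le _ _
      _ = (1 - (x : ℝ) ^ n) * ‖f x‖ + (x : ℝ) ^ n * ‖f 0‖ := by rw [norm_mul, norm_mul, b1, b2]
      _ ≤ (1 - (x : ℝ) ^ n) * N + (x : ℝ) ^ n * N := by
          have c1 := fN x
          have c2 := fN 0
          have c3 : 0 ≤ 1 - (x : ℝ) ^ n := by linarith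
          gcongr
      _ = N := by ring
  have fg : ∀ x, ‖f x - g x‖ ≤ 2 * N * (x : ℝ) ^ n := by
    intro x
    rw [gx]
    obtain ⟨a1, a2⟩ := xn x
    have e1 : f x - ((1 - ((x : ℝ) : ℂ) ^ n) * f x + ((x : ℝ) : ℂ) ^ n * f 0) =
        ((x : ℝ) : ℂ) ^ n * (f x - f 0) := by ring
    have b2 : ‖((x : ℝ) : ℂ) ^ n‖ = (x : ℝ) ^ n := by
      rw [← Complex.ofReal_pow, Complex.norm_real, Real.norm_of_nonneg a1]
    rw [e1, norm_mul, b2]
    have := norm_sub_le (f x) (f 0)
    have c1 := fN x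
    have c2 := fN 0
    have c3 : ‖f x - f 0‖ ≤ 2 * N := by linarith
    calc (x : ℝ) ^ n * ‖f x - f 0‖ ≤ (x : ℝ) ^ n * (2 * N) := mul_le_mul_of_nonneg_left c3 a1
      _ = _ := by ring
  obtain ⟨q0, hq0⟩ := FEJ_approx g g01 (δ / 4) (by linarith)
  have hi1 : Integrable (fun x : unitInterval => ‖f x - g x‖) :=
    FEJ_integrable _ (f.continuous.sub g.continuous).norm
  have hi2 : Integrable (fun x : unitInterval => 2 * ‖f x - g x‖ ^ 2) :=
    FEJ_integrable _ (continuous_const.mul ((f.continuous.sub g.continuous).norm.pow 2))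
  have int_fg : ∫ x : unitInterval, ‖f x - g x‖ ≤ δ / 2 := by
    calc ∫ x : unitInterval, ‖f x - g x‖ ≤ ∫ x : unitInterval, 2 * N * (x : ℝ) ^ n := by
          refine integral_mono (FEJ_integrable _ (f.continuous.sub g.continuous).norm)
            (FEJ_integrable _ (by fun_prop)) fun x => fg x
      _ = 2 * N * (1 / ((n : ℝ) + 1)) := by rw [integral_const_mul, FEJ_int_pow]
      _ ≤ δ / 2 := by
          rw [mul_one_div, div_le_iff₀ (by positivity)]
          rw [div_le_iff₀ hδ0] at n1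
          nlinarith
  have int_fg2 : ∫ x : unitInterval, ‖f x - g x‖ ^ 2 ≤ ε / 8 := by
    calc ∫ x : unitInterval, ‖f x - g x‖ ^ 2 ≤ ∫ x : unitInterval, 4 * N ^ 2 * (x : ℝ) ^ (2 * n) := by
          refine integral_mono (FEJ_integrable _ ((f.continuous.sub g.continuous).norm.pow 2))
            (FEJ_integrable _ (by fun_prop)) fun x => ?_
          have := pow_le_pow_left₀ (norm_nonneg _) (fg x) 2
          refine this.trans (le_of_eq ?_)
          rw [pow_mul']
          ring
      _ = 4 * N ^ 2 * (1 / (((2 * n : ℕ) : ℝ) + 1)) := by rw [integral_const_mul, FEJ_int_pow]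
      _ ≤ ε / 8 := by
          rw [mul_one_div, div_le_iff₀ (by positivity)]
          rw [div_le_iff₀ hε] at n2
          push_cast
          nlinarith
  -- the mean
  obtain ⟨q1, hq1a, hq1b⟩ : ∃ q1 : ℤ →₀ ℂ, ((∫ x : unitInterval, f x = 0) → q1 0 = 0) ∧
      ∀ x : unitInterval, ‖g x - tp q1 x‖ ≤ δ := by
    by_cases hf : ∫ x : unitInterval, f x = 0
    · refine ⟨q0 - Finsupp.single 0 (q0 0), fun _ => by simp, fun x => ?_⟩
      have hb : ‖q0 0‖ ≤ δ / 4 + δ / 2 := by
        have h1 : q0 0 = ∫ x : unitInterval, (tp q0 x - f x) := by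
          rw [integral_sub (FEJ_integrable _ (tp q0).continuous) (FEJ_integrable _ f.continuous), FEJ_int_tp, hf,
            sub_zero]
        rw [h1]
        calc ‖∫ x : unitInterval, (tp q0 x - f x)‖ ≤ ∫ x : unitInterval, ‖tp q0 x - f x‖ :=
              norm_integral_le_integral_norm _
          _ ≤ ∫ x : unitInterval, (δ / 4 + ‖f x - g x‖) := by
              refine integral_mono (FEJ_integrable _ ((tp q0).continuous.sub f.continuous).norm)
                (FEJ_integrable _ (continuous_const.add (f.continuous.sub g.continuous).norm)) fun x => ?_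
              simp only
              have h2 : tp q0 x - f x = -(g x - tp q0 x) - (f x - g x) := by ring
              rw [h2]
              refine (norm_sub_le _ _).trans ?_
              rw [norm_neg]
              linarith [hq0 x]
          _ = δ / 4 + ∫ x : unitInterval, ‖f x - g x‖ := by
              rw [integral_add (integrable_const _) hi1]
              simp
          _ ≤ δ / 4 + δ / 2 := by linarith
      have h3 : tp (q0 - Finsupp.single 0 (q0 0)) x = tp q0 x - q0 0 := by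
        rw [FEJ_tp_sub, FEJ_tp_single, ContinuousMap.sub_apply, ContinuousMap.smul_apply, FEJ_e_apply]
        simp
      rw [h3]
      have h4 : g x - (tp q0 x - q0 0) = (g x - tp q0 x) + q0 0 := by ring
      rw [h4]
      refine (norm_add_le _ _).trans ?_
      linarith [hq0 x]
    · exact ⟨q0, fun h => absurd h hf, fun x => (hq0 x).trans (by linarith)⟩
  -- reality
  obtain ⟨q2, hq2a, hq2r, hq2b⟩ : ∃ q2 : ℤ →₀ ℂ, ((∫ x : unitInterval, f x = 0) → q2 0 = 0) ∧
      ((∀ x, conj (f x) = f x) → ∀ m, q2 (-m) = conj (q2 m)) ∧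
      ∀ x : unitInterval, ‖g x - tp q2 x‖ ≤ δ := by
    by_cases hf : ∀ x, conj (f x) = f x
    · refine ⟨(1 / 2 : ℂ) • (q1 + FEJ_c q1), fun h => ?_, fun _ m => ?_, fun x => ?_⟩
      · have h0 := hq1a h
        rw [Finsupp.smul_apply, Finsupp.add_apply, FEJ_c_apply, neg_zero, h0]
        simp
      · rw [Finsupp.smul_apply, Finsupp.smul_apply, Finsupp.add_apply, Finsupp.add_apply, FEJ_c_apply,
          FEJ_c_apply, neg_neg, smul_eq_mul, smul_eq_mul, map_mul, map_add, Complex.conj_conj]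
        have : conj (1 / 2 : ℂ) = 1 / 2 := by
          have e2 : (1 / 2 : ℂ) = ((1 / 2 : ℝ) : ℂ) := by push_cast; rfl
          rw [e2, Complex.conj_ofReal]
        rw [this]
        ring
      · rw [FEJ_tp_smul, FEJ_tp_add, ContinuousMap.smul_apply, ContinuousMap.add_apply, FEJ_tp_c, smul_eq_mul]
        have hgr : conj (g x) = g x := by
          rw [gx]
          simp only [map_add, map_mul, map_sub, map_one, map_pow, Complex.conj_ofReal, hf]
        have e1 : g x - 1 / 2 * (tp q1 x + conj (tp q1 x)) =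
            1 / 2 * ((g x - tp q1 x) + conj (g x - tp q1 x)) := by
          rw [map_sub, hgr]
          ring
        rw [e1, norm_mul]
        have h5 := norm_add_le (g x - tp q1 x) (conj (g x - tp q1 x))
        rw [RCLike.norm_conj] at h5
        have h6 : ‖(1 / 2 : ℂ)‖ = 1 / 2 := by norm_num
        rw [h6]
        linarith [hq1b x]
    · exact ⟨q1, hq1a, fun h => absurd h hf, hq1b⟩
  refine ⟨q2, hq2a, hq2r, ?_, ?_⟩
  · rw [ContinuousMap.norm_le _ (by positivity)]
    intro x
    have h7 : tp q2 x = g x - (g x - tp q2 x) := by ring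
    rw [h7]
    refine (norm_sub_le _ _).trans ?_
    linarith [gN x, hq2b x]
  · calc ∫ x : unitInterval, ‖f x - tp q2 x‖ ^ 2
        ≤ ∫ x : unitInterval, (2 * ‖f x - g x‖ ^ 2 + 2 * δ ^ 2) := by
          refine integral_mono (FEJ_integrable _ ((f.continuous.sub (tp q2).continuous).norm.pow 2))
            (FEJ_integrable _ ((continuous_const.mul ((f.continuous.sub g.continuous).norm.pow 2)).add
              continuous_const)) fun x => ?_
          simp only
          have h8 : ‖f x - tp q2 x‖ ≤ ‖f x - g x‖ + δ := by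
            have : f x - tp q2 x = (f x - g x) + (g x - tp q2 x) := by ring
            rw [this]
            exact (norm_add_le _ _).trans (by linarith [hq2b x])
          have h9 := pow_le_pow_left₀ (norm_nonneg _) h8 2
          nlinarith [sq_nonneg (‖f x - g x‖ - δ)]
      _ = 2 * (∫ x : unitInterval, ‖f x - g x‖ ^ 2) + 2 * δ ^ 2 := by
          rw [integral_add hi2 (integrable_const _), integral_const_mul]
          simp
      _ < ε := by
          have h10 : δ ^ 2 ≤ δ := by nlinarith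
          linarith

end Pool.Agent.H308R2.CF
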