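import Mathlib
import Pool.Agent.H308R2.CF.Stubs

/-! FL: the flow of a derivation of the free algebra exists. -/

open scoped ComplexConjugate
open Finset

namespace Pool.Agent.H308R2.CF

variable {X : Type} {A : Type} [CStarAlgebra A]

/-- the terms of the series -/
noncomputable def FL_am (D : FA X →ₗ[ℂ] FA X) (t : ℝ) (e : X → A) (n : ℕ)
    (f : FA X) : A := ((t : ℂ) ^ n / (n.factorial : ℂ)) • fev e (D^[n] f)

theorem FL_iter_smul (D : FA X →ₗ[ℂ] FA X) (n : ℕ) (c : ℂ) (f : FA X) :
    D^[n] (c • f) = c • D^[n] f := by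
  induction n with
  | zero => rfl
  | succ n ih => rw [Function.iterate_succ_apply', Function.iterate_succ_apply', ih, map_smul]

theorem FL_leib_iter (D : FA X →ₗ[ℂ] FA X) (hD : ∀ x y, D (x * y) = D x * y + x * D y) (n : ℕ)
    (a b : FA X) :
    D^[n] (a * b) = ∑ ij ∈ antidiagonal n, n.choose ij.1 • (D^[ij.1] a * D^[ij.2] b) := by
  induction n with
  | zero => simp
  | succ n ih =>
    rw [sum_antidiagonal_choose_succ_nsmul (M := FA X) (fun i j => D^[i] a * D^[j] b) n]
    simp only [Function.iterate_succ_apply', ih, map_sum, map_nsmul, hD, smul_add,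
      sum_add_distrib]
    rw [add_comm]
    congr 1
    refine sum_congr rfl fun ⟨i, j⟩ hij ↦ ?_
    rw [n.choose_symm_of_eq_add (mem_antidiagonal.1 hij).symm]

theorem FL_am_add (D : FA X →ₗ[ℂ] FA X) (t : ℝ) (e : X → A) (n : ℕ)
    (f g : FA X) : FL_am D t e n (f + g) = FL_am D t e n f + FL_am D t e n g := by
  unfold FL_am
  rw [iterate_map_add, map_add, smul_add]

theorem FL_am_smul (D : FA X →ₗ[ℂ] FA X) (t : ℝ) (e : X → A) (n : ℕ)
    (c : ℂ) (f : FA X) : FL_am D t e n (c • f) = c • FL_am D t e n f := by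
  unfold FL_am
  rw [FL_iter_smul, map_smul, smul_comm]

theorem FL_am_zero (D : FA X →ₗ[ℂ] FA X) (t : ℝ) (e : X → A) (n : ℕ) :
    FL_am D t e n (0 : FA X) = 0 := by
  unfold FL_am
  rw [iterate_map_zero, map_zero, smul_zero]

theorem FL_am_mul (D : FA X →ₗ[ℂ] FA X) (hD : ∀ x y, D (x * y) = D x * y + x * D y) (t : ℝ)
    (e : X → A) (n : ℕ) (a b : FA X) :
    FL_am D t e n (a * b) = ∑ ij ∈ antidiagonal n, FL_am D t e ij.1 a * FL_am D t e ij.2 b := by
  unfold FL_am
  rw [FL_leib_iter D hD, map_sum, smul_sum]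
  refine sum_congr rfl fun ⟨i, j⟩ hij => ?_
  have hn : i + j = n := mem_antidiagonal.1 hij
  subst hn
  rw [map_nsmul, map_mul, smul_mul_smul_comm, ← Nat.cast_smul_eq_nsmul ℂ, smul_smul]
  congr 1
  show (t : ℂ) ^ (i + j) / ((i + j).factorial : ℂ) * ((i + j).choose i : ℂ) =
    (t : ℂ) ^ i / (i.factorial : ℂ) * ((t : ℂ) ^ j / (j.factorial : ℂ))
  rw [Nat.choose_symm_add, Nat.add_choose]
  have h1 : ((i.factorial * j.factorial : ℕ) : ℂ) ≠ 0 :=
    Nat.cast_ne_zero.2 (Nat.mul_ne_zero i.factorial_ne_zero j.factorial_ne_zero)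
  rw [Nat.cast_div (Nat.factorial_mul_factorial_dvd_factorial_add i j) h1]
  have h2 : (i.factorial : ℂ) ≠ 0 := Nat.cast_ne_zero.2 i.factorial_ne_zero
  have h3 : (j.factorial : ℂ) ≠ 0 := Nat.cast_ne_zero.2 j.factorial_ne_zero
  have h4 : ((i + j).factorial : ℂ) ≠ 0 := Nat.cast_ne_zero.2 (i + j).factorial_ne_zero
  push_cast
  field_simp
  ring

theorem FL_single_eq (w : FreeMonoid X) (c : ℂ) : (MonoidAlgebra.single w c : FA X) = c • wd w := by
  rw [wd, MonoidAlgebra.smul_single', mul_one]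

theorem FL_norm_word (e : X → A) (he : ∀ x, ‖e x‖ ≤ 1) (w : FreeMonoid X) :
    ‖FreeMonoid.lift e w‖ ≤ 1 := by
  induction w using FreeMonoid.inductionOn' with
  | one =>
    rw [map_one]
    rcases subsingleton_or_nontrivial A with h | h
    · have : (1 : A) = 0 := Subsingleton.elim _ _
      rw [this, norm_zero]
      exact zero_le_one
    · exact le_of_eq norm_one
  | of_mul x w ih =>
    rw [map_mul, FreeMonoid.lift_eval_of]
    calc ‖e x * FreeMonoid.lift e w‖ ≤ ‖e x‖ * ‖FreeMonoid.lift e w‖ := norm_mul_le _ _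
      _ ≤ 1 * 1 := mul_le_mul (he x) ih (norm_nonneg _) zero_le_one
      _ = 1 := mul_one 1

theorem FL_fev_wd (e : X → A) (w : FreeMonoid X) : fev e (wd w) = FreeMonoid.lift e w := by
  unfold fev
  rw [wd, MonoidAlgebra.lift_single, one_smul]

theorem FL_norm_fev (e : X → A) (he : ∀ x, ‖e x‖ ≤ 1) (f : FA X) : ‖fev e f‖ ≤ fl1 f := by
  have h1 : fev e f = ∑ w ∈ f.coeff.support, f.coeff w • FreeMonoid.lift e w := by
    conv_lhs => rw [show f = ∑ w ∈ f.coeff.support, MonoidAlgebra.single w (f.coeff w) from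
      (MonoidAlgebra.sum_coeff_single f).symm]
    rw [map_sum]
    refine sum_congr rfl fun w _ => ?_
    rw [FL_single_eq, map_smul, FL_fev_wd]
  rw [h1]
  unfold fl1
  refine (norm_sum_le _ _).trans (sum_le_sum fun w _ => ?_)
  rw [norm_smul]
  calc ‖f.coeff w‖ * ‖FreeMonoid.lift e w‖ ≤ ‖f.coeff w‖ * 1 :=
        mul_le_mul_of_nonneg_left (FL_norm_word e he w) (norm_nonneg _)
    _ = _ := mul_one _

theorem FL_norm_am (D : FA X →ₗ[ℂ] FA X) {K : ℝ} (hK : FB D K) (t : ℝ)
    (e : X → A) (he : ∀ x, ‖e x‖ ≤ 1) (n : ℕ) (w : FreeMonoid X) :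
    ‖FL_am D t e n (wd w)‖ ≤ (|t| * K) ^ n * 2 ^ w.length := by
  unfold FL_am
  rw [norm_smul, norm_div, norm_pow, Complex.norm_real, Complex.norm_natCast, Real.norm_eq_abs]
  have h1 := (FL_norm_fev e he (D^[n] (wd w))).trans (hK n w)
  have h2 : (0 : ℝ) < n.factorial := Nat.cast_pos.2 n.factorial_pos
  calc |t| ^ n / n.factorial * ‖fev e (D^[n] (wd w))‖
      ≤ |t| ^ n / n.factorial * (n.factorial * K ^ n * 2 ^ w.length) := by gcongr
    _ = (|t| * K) ^ n * 2 ^ w.length := by
        field_simp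
        ring

theorem FL_summable (D : FA X →ₗ[ℂ] FA X) {K : ℝ} (hK0 : 0 < K) (hK : FB D K)
    (t : ℝ) (ht : |t| * K < 1) (e : X → A) (he : ∀ x, ‖e x‖ ≤ 1) (f : FA X) :
    Summable fun n => ‖FL_am D t e n f‖ := by
  induction f using MonoidAlgebra.induction_linear with
  | zero => simp [FL_am_zero]
  | add a b ha hb =>
    refine Summable.of_nonneg_of_le (fun n => norm_nonneg _) (fun n => ?_) (ha.add hb)
    rw [FL_am_add]
    exact norm_add_le _ _
  | single w c =>
    have h1 : Summable fun n : ℕ => ‖c‖ * ((|t| * K) ^ n * 2 ^ w.length) :=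
      ((summable_geometric_of_lt_one (by positivity) ht).mul_right _).mul_left _
    refine Summable.of_nonneg_of_le (fun n => norm_nonneg _) (fun n => ?_) h1
    rw [FL_single_eq, FL_am_smul, norm_smul]
    exact mul_le_mul_of_nonneg_left (FL_norm_am D hK t e he n w) (norm_nonneg c)

/-- existence of the flow -/
theorem t_FL : S_FL := by
  intro X A _ D K t hD hK hK0 ht e he
  have hs := FL_summable D hK0 hK t ht e he
  set Φ : FA X → A := fun f => ∑' n, FL_am D t e n f with hΦ
  have hsum : ∀ f, HasSum (fun n => FL_am D t e n f) (Φ f) := fun f => (hs f).of_norm.hasSum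
  have hadd : ∀ f g, Φ (f + g) = Φ f + Φ g := by
    intro f g
    have := (hsum f).add (hsum g)
    simp only [← FL_am_add] at this
    exact (hsum (f + g)).unique this
  have hsmul : ∀ (c : ℂ) f, Φ (c • f) = c • Φ f := by
    intro c f
    have := (hsum f).const_smul c
    simp only [← FL_am_smul] at this
    exact (hsum (c • f)).unique this
  have hmul : ∀ f g, Φ (f * g) = Φ f * Φ g := by
    intro f g
    simp only [hΦ]
    rw [tsum_mul_tsum_eq_tsum_sum_antidiagonal_of_summable_norm (hs f) (hs g)]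
    refine tsum_congr fun n => ?_
    exact FL_am_mul D hD t e n f g
  have hone : Φ 1 = 1 := by
    have hD1 : D 1 = 0 := by
      have := hD 1 1
      simpa using this
    have h0 : ∀ n, n ≠ 0 → FL_am D t e n 1 = 0 := by
      intro n hn
      obtain ⟨m, rfl⟩ := Nat.exists_eq_succ_of_ne_zero hn
      unfold FL_am
      rw [Function.iterate_succ_apply, hD1, iterate_map_zero, map_zero, smul_zero]
    simp only [hΦ]
    rw [tsum_eq_single 0 h0]
    unfold FL_am
    simp
  refine ⟨fun x => Φ (lt x), fun f => ?_⟩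
  have hw : ∀ w : FreeMonoid X, Φ (wd w) = FreeMonoid.lift (fun x => Φ (lt x)) w := by
    intro w
    induction w using FreeMonoid.inductionOn' with
    | one => rw [map_one]; exact hone
    | of_mul x w ih =>
      rw [map_mul, FreeMonoid.lift_eval_of, ← ih, ← hmul]
      congr 1
      rw [lt, wd, wd, wd, MonoidAlgebra.single_mul_single, mul_one]
  have e2 : fev (fun x => Φ (lt x)) f = Φ f := by
    induction f using MonoidAlgebra.induction_linear with
    | zero =>
      rw [map_zero]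
      have := hsmul 0 0
      simpa using this.symm
    | add a b ha hb => rw [map_add, hadd, ha, hb]
    | single w c =>
      rw [FL_single_eq, map_smul, hsmul, FL_fev_wd, hw]
  rw [e2]
  exact hsum f

end Pool.Agent.H308R2.CF
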