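import Pool.Agent.H308R2.CF.Stubs

/-! FLT (helper311) -/

namespace Pool.Agent.H308R2.CF

theorem FLT_fev_lt {X A : Type} [Ring A] [Algebra ℂ A] (e : X → A) (x : X) :
    fev e (lt x) = e x := by
  unfold fev lt wd
  rw [MonoidAlgebra.lift_single, one_smul, FreeMonoid.lift_eval_of]

theorem t_FLT : S_FLT := by
  intro X A _ D t e e' h x hx
  have h1 := h (lt x)
  have h2 : HasSum (fun n : ℕ => ((t : ℂ) ^ n / (n.factorial : ℂ)) • fev e (D^[n] (lt x)))
      (fev e (lt x)) := by
    have h3 := hasSum_single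
      (f := fun n : ℕ => ((t : ℂ) ^ n / (n.factorial : ℂ)) • fev e (D^[n] (lt x))) 0 (by
        intro n hn
        obtain ⟨m, rfl⟩ := Nat.exists_eq_succ_of_ne_zero hn
        have h4 : D^[m.succ] (lt x) = 0 := by
          rw [Nat.succ_eq_add_one, Function.iterate_succ_apply, hx]
          exact Function.iterate_fixed (map_zero D) m
        simp only [h4, map_zero, smul_zero])
    simpa using h3
  have h5 := h1.unique h2
  rwa [FLT_fev_lt, FLT_fev_lt] at h5

end Pool.Agent.H308R2.CF
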