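import Mathlib
import Pool.Agent.H308R2.CF.Stubs

/-! Task FOCK: the full Fock space. -/

set_option autoImplicit false

namespace Pool.Agent.H308R2.CF

namespace FOCK

open scoped ComplexConjugate

/-- `ℓ²(I)` -/
abbrev El (I : Type) : Type := lp (fun _ : I => ℂ) 2

/-- `f ↦ f ∘ φ` on `ℓ²(I)` for an injective map `φ` -/
noncomputable def cmp {I : Type} (φ : I → I) (hφ : Function.Injective φ) :
    El I →L[ℂ] El I :=
  LinearMap.mkContinuous
    { toFun := fun f => ⟨fun h => f (φ h), by
        have h1 := (lp.memℓp f).summable (by norm_num)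
        refine memℓp_gen ?_
        exact h1.comp_injective hφ⟩
      map_add' := fun f g => by ext h; rfl
      map_smul' := fun c f => by ext h; rfl } 1 (by
    intro f
    have h1 : (0 : ℝ) < (2 : ENNReal).toReal := by norm_num
    rw [one_mul, lp.norm_eq_tsum_rpow h1, lp.norm_eq_tsum_rpow h1]
    have h2 := (lp.memℓp f).summable h1
    refine Real.rpow_le_rpow (tsum_nonneg fun i => Real.rpow_nonneg (norm_nonneg _) _) ?_
      (by norm_num)
    exact (h2.comp_injective hφ).tsum_le_tsum_of_inj φ hφ
      (fun c _ => Real.rpow_nonneg (norm_nonneg _) _) (fun i => le_rfl) h2)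

theorem cmp_norm {I : Type} (φ : I → I) (hφ : Function.Injective φ) : ‖cmp φ hφ‖ ≤ 1 :=
  LinearMap.mkContinuous_norm_le _ zero_le_one _

theorem cmp_apply {I : Type} (φ : I → I) (hφ : Function.Injective φ) (f : El I) (x : I) :
    cmp φ hφ f x = f (φ x) := rfl

open Classical in
/-- basis vectors -/
noncomputable def ba {I : Type} (x : I) : El I := lp.single 2 x (1 : ℂ)

open Classical in
theorem ba_apply {I : Type} (x y : I) : (ba x : I → ℂ) y = if y = x then 1 else 0 := by
  by_cases h : y = x
  · subst h
    rw [if_pos rfl]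
    exact @Pi.single_eq_same I (fun _ => ℂ) (fun _ => inferInstance)
      (Classical.decEq I) y (1 : ℂ)
  · rw [if_neg h]
    exact @Pi.single_eq_of_ne I (fun _ => ℂ) (fun _ => inferInstance)
      (Classical.decEq I) x y h (1 : ℂ)

theorem inner_ba {I : Type} (x : I) (f : El I) : inner ℂ (ba x) f = f x := by
  have h := @lp.inner_single_left I ℂ _ (fun _ => ℂ) _ _ (Classical.decEq I) x (1 : ℂ) f
  have h2 : inner ℂ (1 : ℂ) (f x) = f x := by simp
  rw [h2] at h
  exact h

/-- the standard Hilbert basis -/
noncomputable def hb (I : Type) : HilbertBasis I ℂ (El I) :=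
  ⟨LinearIsometryEquiv.refl ℂ (El I)⟩

theorem hb_apply {I : Type} (x : I) : hb I x = ba x :=
  (@HilbertBasis.repr_symm_single I ℂ _ (El I) _ _ (Classical.decEq I) (hb I) x).symm

theorem ba_orthonormal (I : Type) : Orthonormal ℂ (ba (I := I)) := by
  have h := (hb I).orthonormal
  have e : (fun x => hb I x) = ba (I := I) := funext hb_apply
  rw [← e]
  exact h

theorem ba_dense (I : Type) : (Submodule.span ℂ (Set.range (ba (I := I)))).topologicalClosure = ⊤ := by
  have h := (hb I).dense_span
  have e : (fun x => hb I x) = ba (I := I) := funext hb_apply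
  rw [← e]
  exact h

theorem ext_ba {I : Type} {A B : El I →L[ℂ] El I} (h : ∀ x, A (ba x) = B (ba x)) : A = B := by
  refine ContinuousLinearMap.ext_on (s := Set.range (ba (I := I))) ?_ ?_
  · rw [Submodule.dense_iff_topologicalClosure_eq_top]
    exact ba_dense I
  · rintro _ ⟨x, rfl⟩
    exact h x

theorem adj_cmp_ba {I : Type} (φ : I → I) (hφ : Function.Injective φ) (x : I) :
    ContinuousLinearMap.adjoint (cmp φ hφ) (ba x) = ba (φ x) := by
  classical
  ext y
  rw [← inner_ba y, ContinuousLinearMap.adjoint_inner_right, ← inner_conj_symm, inner_ba,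
    cmp_apply, ba_apply, ba_apply]
  by_cases h : φ x = y
  · subst h; simp
  · rw [if_neg h, if_neg (fun hc => h hc.symm)]
    simp

theorem cmp_ba_range {I : Type} (φ : I → I) (hφ : Function.Injective φ) (x : I) :
    cmp φ hφ (ba (φ x)) = ba x := by
  classical
  ext y
  rw [cmp_apply, ba_apply, ba_apply]
  by_cases h : y = x
  · subst h; simp
  · rw [if_neg h, if_neg (fun hc => h (hφ hc))]

theorem cmp_ba_not {I : Type} (φ : I → I) (hφ : Function.Injective φ) (x : I)
    (h : ∀ y, φ y ≠ x) : cmp φ hφ (ba x) = 0 := by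
  classical
  ext y
  rw [cmp_apply, ba_apply, if_neg (h y)]
  rfl

variable {κ : Type}

theorem inl (i : κ) : Function.Injective (fun w : List κ => i :: w) := fun a b h => by
  simpa using h

theorem inr (i : κ) : Function.Injective (fun w : List κ => w ++ [i]) := fun a b h => by
  simpa using h

/-- left annihilation operators -/
noncomputable def al (i : κ) : El (List κ) →L[ℂ] El (List κ) := cmp _ (inl i)

/-- right annihilation operators -/
noncomputable def ar (i : κ) : El (List κ) →L[ℂ] El (List κ) := cmp _ (inr i)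

/-- left creation operators -/
noncomputable def cl (i : κ) : El (List κ) →L[ℂ] El (List κ) := ContinuousLinearMap.adjoint (al i)

/-- right creation operators -/
noncomputable def cr (i : κ) : El (List κ) →L[ℂ] El (List κ) := ContinuousLinearMap.adjoint (ar i)

theorem cl_ba (i : κ) (w : List κ) : cl i (ba w) = ba (i :: w) := adj_cmp_ba _ _ _

theorem cr_ba (i : κ) (w : List κ) : cr i (ba w) = ba (w ++ [i]) := adj_cmp_ba _ _ _

theorem al_nil (i : κ) : al i (ba []) = 0 := cmp_ba_not _ _ _ fun y => by simp

theorem ar_nil (i : κ) : ar i (ba []) = 0 := cmp_ba_not _ _ _ fun y => by simp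

theorem al_cons [DecidableEq κ] (i j : κ) (w : List κ) :
    al i (ba (j :: w)) = if i = j then ba w else 0 := by
  by_cases h : i = j
  · subst h
    rw [if_pos rfl]
    exact cmp_ba_range _ (inl i) w
  · rw [if_neg h]
    exact cmp_ba_not _ _ _ fun y => by
      intro hc
      simp only [List.cons.injEq] at hc
      exact h hc.1

theorem ar_append [DecidableEq κ] (i j : κ) (w : List κ) :
    ar i (ba (w ++ [j])) = if i = j then ba w else 0 := by
  by_cases h : i = j
  · subst h
    rw [if_pos rfl]
    exact cmp_ba_range _ (inr i) w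
  · rw [if_neg h]
    refine cmp_ba_not _ _ _ fun y => ?_
    intro hc
    have := congrArg List.getLast? hc
    simp at this
    exact h this

/-- the left semicircular elements -/
noncomputable def sx (i : κ) : El (List κ) →L[ℂ] El (List κ) := (1 / 2 : ℂ) • (al i + cl i)

/-- the right semicircular elements -/
noncomputable def sy (i : κ) : El (List κ) →L[ℂ] El (List κ) := (1 / 2 : ℂ) • (ar i + cr i)

theorem sa_gen (T : El (List κ) →L[ℂ] El (List κ)) :
    star ((1 / 2 : ℂ) • (T + ContinuousLinearMap.adjoint T)) =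
      (1 / 2 : ℂ) • (T + ContinuousLinearMap.adjoint T) := by
  rw [star_smul, star_add, ContinuousLinearMap.star_eq_adjoint,
    ContinuousLinearMap.star_eq_adjoint, ContinuousLinearMap.adjoint_adjoint, add_comm]
  congr 1
  simp

theorem norm_gen (T : El (List κ) →L[ℂ] El (List κ)) (hT : ‖T‖ ≤ 1) :
    ‖(1 / 2 : ℂ) • (T + ContinuousLinearMap.adjoint T)‖ ≤ 1 := by
  rw [norm_smul]
  have h1 : ‖ContinuousLinearMap.adjoint T‖ = ‖T‖ := LinearIsometryEquiv.norm_map _ _
  have h2 := norm_add_le T (ContinuousLinearMap.adjoint T)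
  have h3 : ‖(1 / 2 : ℂ)‖ = 1 / 2 := by simp
  rw [h3]
  linarith

theorem sx_apply (i : κ) (v : El (List κ)) : sx i v = (1 / 2 : ℂ) • (al i v + cl i v) := rfl

theorem sy_apply (i : κ) (v : El (List κ)) : sy i v = (1 / 2 : ℂ) • (ar i v + cr i v) := rfl

theorem comm_ba [DecidableEq κ] (i j : κ) (w : List κ) :
    (al i + cl i) ((ar j + cr j) (ba w)) = (ar j + cr j) ((al i + cl i) (ba w)) := by
  simp only [_root_.add_apply, map_add]
  rcases w with _ | ⟨p, t⟩
  · simp only [ar_nil, cr_ba, al_nil, cl_ba, map_zero]
    have e1 : al i (ba (([] : List κ) ++ [j])) = if i = j then ba [] else 0 := al_cons i j []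
    have e2 : ar j (ba [i]) = if j = i then ba [] else 0 := ar_append j i []
    rw [e1, e2]
    by_cases h : i = j
    · subst h; simp
    · rw [if_neg h, if_neg (fun hc => h hc.symm)]
      simp
  · rcases List.eq_nil_or_concat t with rfl | ⟨t', q, rfl⟩
    · have e1 : ar j (ba [p]) = if j = p then ba [] else 0 := ar_append j p []
      have e2 : al i (ba ([p] ++ [j])) = if i = p then ba [j] else 0 := al_cons i p [j]
      have e3 : ar j (ba [i, p]) = if j = p then ba [i] else 0 := ar_append j p [i]
      simp only [e1, e2, e3, cr_ba, al_cons, cl_ba]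
      by_cases h : j = p <;> by_cases h' : i = p <;>
        simp [h, h', al_nil, ar_nil, cl_ba, cr_ba]
    · rw [List.concat_eq_append]
      have e1 : ar j (ba (p :: (t' ++ [q]))) = if j = q then ba (p :: t') else 0 :=
        ar_append j q (p :: t')
      have e2 : al i (ba (p :: (t' ++ [q]) ++ [j])) = if i = p then ba (t' ++ [q] ++ [j]) else 0 :=
        al_cons i p _
      have e3 : ar j (ba (i :: p :: (t' ++ [q]))) = if j = q then ba (i :: p :: t') else 0 :=
        ar_append j q (i :: p :: t')
      rw [e1, cr_ba, e2, al_cons, cl_ba, cl_ba, e3, cr_ba]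
      by_cases h : j = q <;> by_cases h' : i = p
      · rw [if_pos h, if_pos h', if_pos h', if_pos h, al_cons, if_pos h', cl_ba, ar_append,
          if_pos h, cr_ba]
        simp only [List.cons_append]
        abel
      · rw [if_pos h, if_neg h', if_neg h', if_pos h, al_cons, if_neg h', cl_ba]
        simp only [map_zero, List.cons_append]
        abel
      · rw [if_neg h, if_pos h', if_pos h', if_neg h, ar_append, if_neg h, cr_ba]
        simp only [map_zero, List.cons_append]
        abel
      · rw [if_neg h, if_neg h', if_neg h', if_neg h]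
        simp only [map_zero, List.cons_append]

theorem comm_xy [DecidableEq κ] (i j : κ) : (sx i : El (List κ) →L[ℂ] El (List κ)) * sy j =
    sy j * sx i := by
  apply ext_ba
  intro w
  have h := comm_ba i j w
  change sx i (sy j (ba w)) = sy j (sx i (ba w))
  change (al i (ar j (ba w) + cr j (ba w)) + cl i (ar j (ba w) + cr j (ba w))) =
    (ar j (al i (ba w) + cl i (ba w)) + cr j (al i (ba w) + cl i (ba w))) at h
  rw [sy_apply, sx_apply, sx_apply, sy_apply]
  simp only [map_smul, ← smul_add]
  rw [h]

theorem PP_x [DecidableEq κ] : ∀ w : List κ,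
    PP (fun i : κ => (sx i : El (List κ) →L[ℂ] El (List κ))) w (ba []) = ba w
  | [] => by
    rw [PP]
    rfl
  | [i] => by
    rw [PP]
    change (2 : ℂ) • sx i (ba []) = ba [i]
    rw [sx_apply, al_nil, cl_ba, smul_smul]
    norm_num
  | i :: j :: w => by
    rw [PP]
    have h1 := PP_x (j :: w)
    have h2 := PP_x w
    change (2 : ℂ) • sx i (PP (fun i : κ => (sx i : El (List κ) →L[ℂ] El (List κ))) (j :: w)
      (ba [])) - (if i = j then PP (fun i : κ => (sx i : El (List κ) →L[ℂ] El (List κ))) w
        else 0) (ba []) = ba (i :: j :: w)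
    rw [h1, sx_apply, al_cons, cl_ba, smul_smul]
    by_cases h : i = j
    · rw [if_pos h, if_pos h, h2]
      norm_num
    · rw [if_neg h, if_neg h]
      change (2 * (1 / 2) : ℂ) • (0 + ba (i :: j :: w)) - 0 = _
      norm_num

theorem PP_y [DecidableEq κ] : ∀ w : List κ,
    PP (fun i : κ => (sy i : El (List κ) →L[ℂ] El (List κ))) w (ba []) = ba w.reverse
  | [] => by
    rw [PP]
    rfl
  | [i] => by
    rw [PP]
    change (2 : ℂ) • sy i (ba []) = ba [i]
    rw [sy_apply, ar_nil, cr_ba, smul_smul]
    norm_num
  | i :: j :: w => by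
    rw [PP]
    have h1 := PP_y (j :: w)
    have h2 := PP_y w
    change (2 : ℂ) • sy i (PP (fun i : κ => (sy i : El (List κ) →L[ℂ] El (List κ))) (j :: w)
      (ba [])) - (if i = j then PP (fun i : κ => (sy i : El (List κ) →L[ℂ] El (List κ))) w
        else 0) (ba []) = ba (i :: j :: w).reverse
    rw [h1, List.reverse_cons, sy_apply, ar_append, cr_ba, smul_smul, List.reverse_cons,
      List.reverse_cons]
    by_cases h : i = j
    · rw [if_pos h, if_pos h, h2]
      norm_num
    · rw [if_neg h, if_neg h]
      change (2 * (1 / 2) : ℂ) • (0 + ba (w.reverse ++ [j] ++ [i])) - 0 = _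
      norm_num

end FOCK

open FOCK in
theorem t_FOCK : S_FOCK := by
  intro κ _
  refine ⟨El (List κ), inferInstance, inferInstance, inferInstance, sx, sy, ba,
    ba_orthonormal _, ba_dense _, fun i => sa_gen (al i), fun i => sa_gen (ar i),
    fun i => norm_gen _ (cmp_norm _ _), fun i => norm_gen _ (cmp_norm _ _), comm_xy,
    PP_x, PP_y⟩

end Pool.Agent.H308R2.CF
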