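import Pool.Agent.H308R2.CF.Stubs

/-! FORM: the derivative of the word `a^{m₁} u^{n₁} …`. -/

namespace Pool.Agent.H308R2.CF

open Pool.Agent.H770R2.UL (TrSt n2)
open Pool.Agent.H581R.FF (GR bs ev jj vv kk act)
open scoped ComplexConjugate

section FORM_basic

variable {ι A : Type} [CStarAlgebra A]

theorem FORM_fev_wd {X : Type} (e : X → A) (w : FreeMonoid X) :
    fev e (wd w) = FreeMonoid.lift e w := by
  unfold fev
  rw [MonoidAlgebra.lift_single, one_smul]

theorem FORM_gp_mk {κ : Type} (σ : κ → CI →⋆ₐ[ℂ] A) (L : List (κ × Bool)) :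
    ((gp σ (FreeGroup.mk L) : unitary A) : A) =
      (L.map fun x => cond x.2 ((uu (σ x.1) : unitary A) : A)
        (star ((uu (σ x.1) : unitary A) : A))).prod := by
  unfold gp
  rw [FreeGroup.lift_mk]
  induction L with
  | nil => simp
  | cons x L ih =>
    rw [List.map_cons, List.prod_cons, List.map_cons, List.prod_cons, Submonoid.coe_mul, ih]
    congr 1
    rcases x with ⟨j, _ | _⟩ <;> rfl

theorem FORM_fw (σ : Option ι → CI →⋆ₐ[ℂ] A) [DecidableEq ι] (f : CI)
    (β : FreeGroup (Option ι)) :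
    fev (le σ f) (wd (fw β)) = ((gp σ β : unitary A) : A) := by
  rw [FORM_fev_wd]
  conv_rhs => rw [← FreeGroup.mk_toWord (x := β)]
  rw [FORM_gp_mk]
  unfold fw
  rw [FreeMonoid.lift_ofList, List.map_map]
  congr 1
  refine List.map_congr_left fun x _ => ?_
  rcases x with ⟨j, _ | _⟩ <;> rfl

theorem FORM_inv {κ : Type} (σ : κ → CI →⋆ₐ[ℂ] A) (β : FreeGroup κ) :
    ((gp σ β⁻¹ : unitary A) : A) = star ((gp σ β : unitary A) : A) := by
  rw [map_inv]; rfl

theorem FORM_fh (σ : Option ι → CI →⋆ₐ[ℂ] A) [DecidableEq ι] (f : CI) (c : FreeGroup ι →₀ ℝ) :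
    fev (le σ f) (fh c) = hh σ c f := by
  unfold fh hh
  rw [Finsupp.sum, Finsupp.sum, map_sum]
  refine Finset.sum_congr rfl fun β _ => ?_
  rw [map_smul, map_mul, map_mul, FORM_fw, FORM_fw, FORM_inv]
  congr 3
  rw [FORM_fev_wd, FreeMonoid.lift_eval_of]
  rfl

theorem FORM_hh_add (σ : Option ι → CI →⋆ₐ[ℂ] A) (f : CI) (c d : FreeGroup ι →₀ ℝ) :
    hh σ (c + d) f = hh σ c f + hh σ d f := by
  unfold hh
  refine Finsupp.sum_add_index' (fun β => by simp) fun β x y => ?_
  rw [Complex.ofReal_add, add_smul]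

theorem FORM_hh_zero (σ : Option ι → CI →⋆ₐ[ℂ] A) (f : CI) :
    hh σ (0 : FreeGroup ι →₀ ℝ) f = 0 := Finsupp.sum_zero_index

theorem FORM_hh_sub (σ : Option ι → CI →⋆ₐ[ℂ] A) (f : CI) (c d : FreeGroup ι →₀ ℝ) :
    hh σ (c - d) f = hh σ c f - hh σ d f := by
  have h := FORM_hh_add σ f (c - d) d
  rw [sub_add_cancel] at h
  rw [h, add_sub_cancel_right]

theorem FORM_hh_act (σ : Option ι → CI →⋆ₐ[ℂ] A) (f : CI) (x : FreeGroup ι)
    (c : FreeGroup ι →₀ ℝ) :
    hh σ (act x c) f = ((gp σ (jj x) : unitary A) : A) * hh σ c f *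
      star ((gp σ (jj x) : unitary A) : A) := by
  unfold hh act
  rw [Finsupp.sum_mapDomain_index (fun β => by simp)
    (fun β r s => by rw [Complex.ofReal_add, add_smul])]
  rw [Finsupp.sum, Finsupp.sum, Finset.mul_sum, Finset.sum_mul]
  refine Finset.sum_congr rfl fun β _ => ?_
  rw [map_mul, map_mul, Submonoid.coe_mul, star_mul, mul_smul_comm, smul_mul_assoc]
  congr 1
  simp only [mul_assoc]

theorem FORM_lt (σ : Option ι → CI →⋆ₐ[ℂ] A) (f : CI) (x : Lt (Option ι)) :
    fev (le σ f) (lt x) = le σ f x := by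
  rw [FORM_fev_wd, FreeMonoid.lift_eval_of]

theorem FORM_zl (σ : Option ι → CI →⋆ₐ[ℂ] A) (f : CI) (j : Option ι) (m : ℤ) :
    fev (le σ f) (zl j m) = ((gp σ (FreeGroup.of j ^ m) : unitary A) : A) := by
  have hg : gp σ (FreeGroup.of j) = uu (σ j) := by
    unfold gp
    rw [FreeGroup.lift_apply_of]
  unfold zl
  split_ifs with h
  · rw [map_pow, FORM_lt]
    obtain ⟨n, rfl⟩ := Int.eq_ofNat_of_zero_le h
    rw [Int.toNat_natCast, zpow_natCast, map_pow, hg]
    rfl
  · rw [map_pow, FORM_lt]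
    obtain ⟨n, hn⟩ := Int.eq_ofNat_of_zero_le (show 0 ≤ -m by omega)
    rw [hn, Int.toNat_natCast]
    have hm : m = -(n : ℤ) := by omega
    rw [hm, zpow_neg, zpow_natCast, FORM_inv, map_pow, hg]
    show (star ((uu (σ j) : unitary A) : A)) ^ n = star ((((uu (σ j)) ^ n : unitary A)) : A)
    rw [SubmonoidClass.coe_pow, star_pow]

end FORM_basic

section FORM_D

variable {X : Type} {D : FA X →ₗ[ℂ] FA X}

theorem FORM_D_one (hD : FLeib D) : D 1 = 0 := by
  have h := hD 1 1
  rw [mul_one, mul_one, one_mul] at h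
  have h2 : D 1 - D 1 = D 1 + D 1 - D 1 := by rw [← h]
  rw [sub_self, add_sub_cancel_right] at h2
  exact h2.symm

theorem FORM_D_pow_zero (hD : FLeib D) {x : FA X} (hx : D x = 0) (n : ℕ) : D (x ^ n) = 0 := by
  induction n with
  | zero => rw [pow_zero]; exact FORM_D_one hD
  | succ n ih => rw [pow_succ, hD, ih, hx, zero_mul, mul_zero, add_zero]

theorem FORM_D_pow (hD : FLeib D) {x h : FA X} (hx : D x = Complex.I • (x * h - h * x)) (n : ℕ) :
    D (x ^ n) = Complex.I • (x ^ n * h - h * x ^ n) := by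
  induction n with
  | zero => rw [pow_zero, FORM_D_one hD, one_mul, mul_one, sub_self, smul_zero]
  | succ n ih =>
    rw [pow_succ, hD, ih, hx, smul_mul_assoc, mul_smul_comm, ← smul_add]
    congr 1
    noncomm_ring

end FORM_D

theorem t_FORM : S_FORM := by
  intro ι _ a u c D hau hD A _ σ f
  have hfh := FORM_fh σ f c
  have hza : ∀ m : ℤ, D (zl (some a) m) = 0 := by
    intro m
    have hne : (some a : Option ι) ≠ some u := fun h => hau (Option.some.inj h)
    unfold zl
    split_ifs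
    · exact FORM_D_pow_zero hD.leib (hD.dz _ _ hne) _
    · exact FORM_D_pow_zero hD.leib (hD.dz _ _ hne) _
  have hzu : ∀ m : ℤ, D (zl (some u) m) =
      Complex.I • (zl (some u) m * fh c - fh c * zl (some u) m) := by
    intro m
    unfold zl
    split_ifs
    · exact FORM_D_pow hD.leib (hD.du _) _
    · exact FORM_D_pow hD.leib (hD.du _) _
  have hja : ∀ m : ℤ, fev (le σ f) (zl (some a) m) =
      ((gp σ (jj (FreeGroup.of a ^ m)) : unitary A) : A) := by
    intro m
    rw [FORM_zl, map_zpow jj, FreeGroup.map.of]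
  have hju : ∀ m : ℤ, fev (le σ f) (zl (some u) m) =
      ((gp σ (jj (FreeGroup.of u ^ m)) : unitary A) : A) := by
    intro m
    rw [FORM_zl, map_zpow jj, FreeGroup.map.of]
  refine ⟨hfh, fun r => ?_⟩
  induction r with
  | nil =>
    refine ⟨?_, ?_⟩
    · show fev (le σ f) 1 = ((gp σ (jj 1) : unitary A) : A)
      rw [map_one, map_one, map_one]
      rfl
    · show fev (le σ f) (D 1) = Complex.I • (hh σ 0 f * _)
      rw [FORM_D_one hD.leib, map_zero, FORM_hh_zero, zero_mul, smul_zero]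
  | cons p r ih =>
    obtain ⟨ih1, ih2⟩ := ih
    have e1 : fwz a u (p :: r) = zl (some a) p.1 * zl (some u) p.2 * fwz a u r := rfl
    have e2 : wz (FreeGroup.of a) (FreeGroup.of u) (p :: r) =
      FreeGroup.of a ^ p.1 * FreeGroup.of u ^ p.2 * wz (FreeGroup.of a) (FreeGroup.of u) r := rfl
    have e3 : Z0 (FreeGroup.of a) (FreeGroup.of u) (p :: r) c =
      act (FreeGroup.of a ^ p.1 * FreeGroup.of u ^ p.2) c - act (FreeGroup.of a ^ p.1) c +
      act (FreeGroup.of a ^ p.1 * FreeGroup.of u ^ p.2)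
        (Z0 (FreeGroup.of a) (FreeGroup.of u) r c) := rfl
    set P := gp σ (jj (FreeGroup.of a ^ p.1)) with hP
    set Q := gp σ (jj (FreeGroup.of u ^ p.2)) with hQ
    set W := gp σ (jj (wz (FreeGroup.of a) (FreeGroup.of u) r)) with hW
    have hPQ : gp σ (jj (FreeGroup.of a ^ p.1 * FreeGroup.of u ^ p.2)) = P * Q := by
      rw [map_mul, map_mul]
    have hPQW : gp σ (jj (FreeGroup.of a ^ p.1 * FreeGroup.of u ^ p.2 *
        wz (FreeGroup.of a) (FreeGroup.of u) r)) = P * Q * W := by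
      rw [map_mul, map_mul, hPQ]
    have hPP : star (P : A) * (P : A) = 1 := P.2.1
    have hQQ : star (Q : A) * (Q : A) = 1 := Q.2.1
    refine ⟨?_, ?_⟩
    · rw [e1, e2, map_mul, map_mul, hja, hju, ih1, hPQW]
      rfl
    · rw [e1, e2, e3, hPQW, FORM_hh_add, FORM_hh_sub, FORM_hh_act, FORM_hh_act, FORM_hh_act, hPQ,
        ← hP, hD.leib, hD.leib, hza, hzu, zero_mul, zero_add, map_add, map_mul, map_mul, map_mul,
        map_mul, map_smul, map_sub, map_mul, map_mul, hja, hju, ih1, ih2, hfh, ← hP, ← hQ]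
      generalize hh σ c f = H
      generalize hh σ (Z0 (FreeGroup.of a) (FreeGroup.of u) r c) f = Z
      have k1 : ((P * Q : unitary A) : A) = (P : A) * Q := rfl
      have k2 : ((P * Q * W : unitary A) : A) = (P : A) * Q * W := rfl
      rw [k1, k2, star_mul]
      have k3 : (P : A) * Q * H * (star (Q : A) * star (P : A)) * ((P : A) * Q * W) =
          (P : A) * Q * H * W := by
        calc _ = (P : A) * Q * H * (star (Q : A) * ((star (P : A) * (P : A)) * Q)) * W := by
              simp only [mul_assoc]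
          _ = _ := by rw [hPP, one_mul, hQQ, mul_one]
      have k4 : (P : A) * H * star (P : A) * ((P : A) * Q * W) = (P : A) * H * Q * W := by
        calc _ = (P : A) * H * ((star (P : A) * (P : A)) * Q) * W := by simp only [mul_assoc]
          _ = _ := by rw [hPP, one_mul]
      have k5 : (P : A) * Q * Z * (star (Q : A) * star (P : A)) * ((P : A) * Q * W) =
          (P : A) * Q * Z * W := by
        calc _ = (P : A) * Q * Z * (star (Q : A) * ((star (P : A) * (P : A)) * Q)) * W := by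
              simp only [mul_assoc]
          _ = _ := by rw [hPP, one_mul, hQQ, mul_one]
      rw [add_mul, sub_mul, k3, k4, k5, mul_smul_comm, smul_mul_assoc, mul_smul_comm, ← smul_add]
      congr 1
      noncomm_ring

end Pool.Agent.H308R2.CF
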