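import Pool.Agent.H308R2.CF.Stubs

set_option autoImplicit false

namespace Pool.Agent.H308R2.CF

open Pool.Agent.H770R2.UL (TrSt n2)

namespace FREE1

/-- the sign of a letter -/
def sg (b : Bool) : ℤ := if b then 1 else -1

theorem mk_cons {κ : Type} (x : κ × Bool) (L : List (κ × Bool)) :
    FreeGroup.mk (x :: L) = FreeGroup.of x.1 ^ sg x.2 * FreeGroup.mk L := by
  obtain ⟨j, b⟩ := x
  have h : FreeGroup.mk ((j, b) :: L) = FreeGroup.mk [(j, b)] * FreeGroup.mk L := by
    rw [FreeGroup.mul_mk]; rfl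
  rw [h]
  congr 1
  cases b
  · show _ = FreeGroup.of j ^ (-1 : ℤ)
    rw [zpow_neg_one, FreeGroup.of, FreeGroup.inv_mk]
    rfl
  · show _ = FreeGroup.of j ^ (1 : ℤ)
    rw [zpow_one]
    rfl

/-- grouping the letters of a reduced word into syllables -/
theorem syl {κ : Type} (x : κ × Bool) (L : List (κ × Bool)) :
    (x :: L).IsChain (fun a b => a.1 = b.1 → a.2 = b.2) →
    ∃ (m : ℤ) (l : List (κ × ℤ)), 0 < sg x.2 * m ∧
      (((x.1, m) :: l).map Prod.fst).IsChain (· ≠ ·) ∧ (∀ p ∈ (x.1, m) :: l, p.2 ≠ 0) ∧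
      FreeGroup.mk (x :: L) = (((x.1, m) :: l).map fun p => FreeGroup.of p.1 ^ p.2).prod := by
  induction L generalizing x with
  | nil =>
    intro _
    refine ⟨sg x.2, [], ?_, by simp, ?_, ?_⟩
    · unfold sg; split_ifs <;> norm_num
    · intro p hp
      simp only [List.mem_singleton] at hp
      subst hp
      show sg x.2 ≠ 0
      unfold sg; split_ifs <;> norm_num
    · rw [mk_cons]
      simp
      rfl
  | cons y L ih =>
    intro h
    rw [List.isChain_cons_cons] at h
    obtain ⟨hxy, hL⟩ := h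
    obtain ⟨m, l, hm, hc, hne, hmk⟩ := ih y hL
    by_cases hj : x.1 = y.1
    · have hb := hxy hj
      refine ⟨sg x.2 + m, l, ?_, ?_, ?_, ?_⟩
      · rw [← hb] at hm
        have : sg x.2 * sg x.2 = 1 := by unfold sg; split_ifs <;> norm_num
        nlinarith
      · rw [hj]; exact hc
      · intro p hp
        rcases List.mem_cons.1 hp with rfl | hp
        · show sg x.2 + m ≠ 0
          rw [← hb] at hm
          intro h0
          have hm' : m = -sg x.2 := by linarith
          have : sg x.2 * sg x.2 = 1 := by unfold sg; split_ifs <;> norm_num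
          rw [hm'] at hm
          nlinarith
        · exact hne p (List.mem_cons_of_mem _ hp)
      · rw [mk_cons, hmk]
        simp only [List.map_cons, List.prod_cons]
        rw [← mul_assoc, ← hj, ← zpow_add]
    · refine ⟨sg x.2, (y.1, m) :: l, ?_, ?_, ?_, ?_⟩
      · unfold sg; split_ifs <;> norm_num
      · simp only [List.map_cons] at hc ⊢
        rw [List.isChain_cons_cons]
        exact ⟨hj, hc⟩
      · intro p hp
        rcases List.mem_cons.1 hp with rfl | hp
        · show sg x.2 ≠ 0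
          unfold sg; split_ifs <;> norm_num
        · exact hne p hp
      · rw [mk_cons, hmk]
        simp only [List.map_cons, List.prod_cons]

/-- the unitary `e^{2πit}` -/
noncomputable def eU : unitary CI := ⟨eI, eI_unitary⟩

theorem eU_pow (m : ℤ) (t : unitInterval) :
    ((eU ^ m : unitary CI) : CI) t = Complex.exp (2 * Real.pi * Complex.I * m * ((t : ℝ) : ℂ)) := by
  have hnat : ∀ n : ℕ, ((eU ^ n : unitary CI) : CI) t =
      Complex.exp (2 * Real.pi * Complex.I * n * ((t : ℝ) : ℂ)) := by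
    intro n
    have h1 : ((eU ^ n : unitary CI) : CI) t = (eI t) ^ n := rfl
    have h2 : eI t = Complex.exp (2 * Real.pi * Complex.I * ((t : ℝ) : ℂ)) := rfl
    rw [h1, h2, ← Complex.exp_nat_mul]
    congr 1
    ring
  obtain ⟨n, rfl | rfl⟩ := m.eq_nat_or_neg
  · rw [zpow_natCast, hnat]
    norm_cast
  · rw [zpow_neg, zpow_natCast]
    have h1 : (((eU ^ n)⁻¹ : unitary CI) : CI) t = (starRingEnd ℂ) (((eU ^ n : unitary CI) : CI) t) := rfl
    rw [h1, hnat, ← Complex.exp_conj]
    congr 1
    simp only [map_mul, Complex.conj_I, Complex.conj_ofReal, map_natCast, map_ofNat]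
    push_cast
    ring

theorem int_eU (m : ℤ) (hm : m ≠ 0) : ∫ t : unitInterval, ((eU ^ m : unitary CI) : CI) t = 0 := by
  simp_rw [eU_pow]
  have h1 : ∫ t : unitInterval, Complex.exp (2 * Real.pi * Complex.I * m * ((t : ℝ) : ℂ)) =
      ∫ t in Set.Icc (0 : ℝ) 1, Complex.exp (2 * Real.pi * Complex.I * m * (t : ℂ)) := by
    exact MeasureTheory.integral_subtype_comap measurableSet_Icc
      (fun t : ℝ => Complex.exp (2 * Real.pi * Complex.I * m * (t : ℂ)))
  rw [h1, MeasureTheory.integral_Icc_eq_integral_Ioc,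
    ← intervalIntegral.integral_of_le (by norm_num : (0 : ℝ) ≤ 1)]
  have hc : (2 * Real.pi * Complex.I * m : ℂ) ≠ 0 := by
    have : (Real.pi : ℂ) ≠ 0 := by exact_mod_cast Real.pi_ne_zero
    have hm' : (m : ℂ) ≠ 0 := by exact_mod_cast hm
    exact mul_ne_zero (mul_ne_zero (mul_ne_zero (by norm_num) this) Complex.I_ne_zero) hm'
  rw [integral_exp_mul_complex hc]
  have h2 : Complex.exp (2 * Real.pi * Complex.I * m * ((1 : ℝ) : ℂ)) = 1 := by
    rw [Complex.exp_eq_one_iff]
    exact ⟨m, by push_cast; ring⟩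
  rw [h2]
  simp

theorem map_eU {A : Type} [CStarAlgebra A] (σ : CI →⋆ₐ[ℂ] A) (m : ℤ) :
    σ ((eU ^ m : unitary CI) : CI) = ((uu σ ^ m : unitary A) : A) := by
  have hnat : ∀ n : ℕ, σ ((eU ^ n : unitary CI) : CI) = ((uu σ ^ n : unitary A) : A) := by
    intro n
    rw [SubmonoidClass.coe_pow, SubmonoidClass.coe_pow, map_pow]
    rfl
  obtain ⟨n, rfl | rfl⟩ := m.eq_nat_or_neg
  · rw [zpow_natCast, zpow_natCast, hnat]
  · rw [zpow_neg, zpow_natCast, zpow_neg, zpow_natCast]
    have h1 : (((eU ^ n)⁻¹ : unitary CI) : CI) = star ((eU ^ n : unitary CI) : CI) := rfl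
    have h2 : (((uu σ ^ n)⁻¹ : unitary A) : A) = star ((uu σ ^ n : unitary A) : A) := rfl
    rw [h1, h2, map_star, hnat]

end FREE1

open FREE1

theorem t_FREE1 : S_FREE1 := by
  intro κ A _ φ σ h
  classical
  refine ⟨h.fai, ⟨h.mar, ?_⟩, h.gen⟩
  intro w hw
  have hw1 : FreeGroup.toWord w ≠ [] := fun h' => hw (FreeGroup.toWord_eq_nil_iff.1 h')
  obtain ⟨x, L, hxL⟩ := List.exists_cons_of_ne_nil hw1
  have hred : FreeGroup.IsReduced (FreeGroup.toWord w) := FreeGroup.isReduced_toWord
  rw [hxL] at hred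
  obtain ⟨m, l, -, hc, hne, hmk⟩ := syl x L hred
  rw [← hxL, FreeGroup.mk_toWord] at hmk
  set l0 := (x.1, m) :: l with hl0
  have key := h.free (l0.map fun p => (p.1, ((eU ^ p.2 : unitary CI) : CI))) (by simp [hl0])
    (by
      rw [List.map_map]
      exact hc)
    (by
      intro p hp
      obtain ⟨q, hq, rfl⟩ := List.mem_map.1 hp
      show φ.toFun (σ q.1 ((eU ^ q.2 : unitary CI) : CI)) = 0
      rw [h.mar]
      exact int_eU _ (hne q hq))
  rw [List.map_map] at key
  rw [← key]
  congr 1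
  rw [hmk, map_list_prod, List.map_map]
  have e : ∀ l1 : List (κ × ℤ), (((l1.map ((gp σ) ∘ fun p => FreeGroup.of p.1 ^ p.2)).prod :
      unitary A) : A) = (l1.map ((fun p : κ × CI => σ p.1 p.2) ∘
        fun p => (p.1, ((eU ^ p.2 : unitary CI) : CI)))).prod := by
    intro l1
    induction l1 with
    | nil => rfl
    | cons p l1 ih =>
      simp only [List.map_cons, List.prod_cons, Function.comp_apply]
      rw [map_eU, map_zpow]
      have e2 : gp σ (FreeGroup.of p.1) = uu (σ p.1) := FreeGroup.lift_apply_of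
      rw [e2]
      have ih' := ih
      show _ * _ = _ * _
      rw [← ih']
  exact e l0

end Pool.Agent.H308R2.CF
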