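import Pool.Agent.H308R2.CF.Stubs

/-! FREE2: the ranges of the members of a system are free. -/

set_option autoImplicit false

namespace Pool.Agent.H308R2.CF

open Pool.Agent.H770R2.UL

/-- alternating products of nonzero powers are nontrivial in the free group -/
theorem free2_word_ne {κ : Type} (L : List (κ × ℤ)) (hL : L ≠ [])
    (hc : (L.map Prod.fst).IsChain (· ≠ ·)) (h0 : ∀ p ∈ L, p.2 ≠ 0) :
    (L.map fun p => FreeGroup.of p.1 ^ p.2).prod ≠ 1 := by
  classical
  intro h
  let Θ : FreeGroup κ →* Monoid.CoprodI (fun _ : κ => Multiplicative ℤ) :=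
    FreeGroup.lift fun j => Monoid.CoprodI.of (M := fun _ : κ => Multiplicative ℤ) (i := j)
      (Multiplicative.ofAdd 1)
  have h1 := congrArg Θ h
  rw [map_one, map_list_prod, List.map_map] at h1
  let w : Monoid.CoprodI.Word (fun _ : κ => Multiplicative ℤ) :=
    { toList := L.map fun p => ⟨p.1, Multiplicative.ofAdd p.2⟩
      ne_one := by
        intro l hl
        obtain ⟨p, hp, rfl⟩ := List.mem_map.1 hl
        intro h2
        exact h0 p hp (ofAdd_eq_one.1 h2)
      chain_ne := by
        rw [List.isChain_map] at hc ⊢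
        exact hc }
  have h2 : w.prod = 1 := by
    unfold Monoid.CoprodI.Word.prod
    rw [← h1]
    show ((L.map fun p => (⟨p.1, Multiplicative.ofAdd p.2⟩ : Σ _ : κ, Multiplicative ℤ)).map
      fun l => Monoid.CoprodI.of (M := fun _ : κ => Multiplicative ℤ) l.snd).prod = _
    rw [List.map_map]
    congr 1
    apply List.map_congr_left
    intro p _
    simp only [Function.comp_apply, Θ, map_zpow, FreeGroup.lift_apply_of]
    rw [← map_zpow, ← ofAdd_zsmul, smul_eq_mul, mul_one]
  have h3 : w = Monoid.CoprodI.Word.empty :=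
    (Monoid.CoprodI.Word.equiv (M := fun _ : κ => Multiplicative ℤ)).symm.injective
      (h2.trans Monoid.CoprodI.Word.prod_empty.symm)
  have h4 := congrArg Monoid.CoprodI.Word.toList h3
  have h5 : L.map (fun p => (⟨p.1, Multiplicative.ofAdd p.2⟩ : Σ _ : κ, Multiplicative ℤ)) = [] := h4
  exact hL (List.map_eq_nil_iff.1 h5)

theorem free2_gp_of {κ A : Type} [CStarAlgebra A] (σ : κ → CI →⋆ₐ[ℂ] A) (j : κ) (m : ℤ) :
    gp σ (FreeGroup.of j ^ m) = uu (σ j) ^ m := by
  rw [map_zpow]
  unfold gp
  rw [FreeGroup.lift_apply_of]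

/-- trigonometric polynomials -/
theorem free2_tp (hTP : S_TP) {κ A : Type} [CStarAlgebra A] (φ : TrSt A) (σ : κ → CI →⋆ₐ[ℂ] A)
    (hs : Sys φ σ) (L : List (κ × (ℤ →₀ ℂ))) :
    ∀ W : List (κ × ℤ), (∀ p ∈ W, p.2 ≠ 0) → (∀ p ∈ L, p.2 0 = 0) →
      (W.map Prod.fst ++ L.map Prod.fst).IsChain (· ≠ ·) → (W ≠ [] ∨ L ≠ []) →
      φ.toFun ((gp σ (W.map fun p => FreeGroup.of p.1 ^ p.2).prod : A) *
        (L.map fun p => σ p.1 (tp p.2)).prod) = 0 := by
  induction L with
  | nil =>
    intro W hW _ hc hne
    rw [List.map_nil, List.prod_nil, mul_one]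
    apply hs.free
    apply free2_word_ne W _ (by simpa using hc) hW
    rcases hne with h | h
    · exact h
    · exact absurd rfl h
  | cons r L ih =>
    obtain ⟨j, q⟩ := r
    intro W hW hL hc hne
    rw [List.map_cons, List.prod_cons, hTP.1 A (σ j) q]
    rw [Finsupp.sum, Finset.sum_mul, Finset.mul_sum, map_sum]
    apply Finset.sum_eq_zero
    intro m hm
    have hm0 : m ≠ 0 := by
      rintro rfl
      have := hL (j, q) (by simp)
      exact (Finsupp.mem_support_iff.1 hm) this
    have h1 := ih (W ++ [(j, m)]) (by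
      intro p hp
      rcases List.mem_append.1 hp with h | h
      · exact hW p h
      · rw [List.mem_singleton.1 h]
        exact hm0) (fun p hp => hL p (by simp [hp])) (by
      rw [List.map_append, List.append_assoc]
      exact hc) (Or.inl (by simp))
    rw [List.map_append, List.prod_append] at h1
    simp only [List.map_cons, List.map_nil, List.prod_cons, List.prod_nil, mul_one] at h1
    rw [(gp σ).map_mul, free2_gp_of, Submonoid.coe_mul] at h1
    rw [smul_mul_assoc, mul_smul_comm, map_smul, ← mul_assoc, h1, smul_zero]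

theorem free2_n2 {κ A : Type} [CStarAlgebra A] (φ : TrSt A) (σ : κ → CI →⋆ₐ[ℂ] A)
    (hs : Sys φ σ) (j : κ) (g : CI) :
    n2 φ (σ j g) ^ 2 = ∫ x : unitInterval, ‖g x‖ ^ 2 := by
  rw [n2_sq, ← map_star, ← map_mul, hs.mar]
  have h1 : ∀ x : unitInterval, (star g * g) x = ((‖g x‖ ^ 2 : ℝ) : ℂ) := by
    intro x
    show (starRingEnd ℂ) (g x) * g x = _
    rw [Complex.conj_mul']
    push_cast
    rfl
  have h2 : ∫ x : unitInterval, (star g * g) x =
      ((∫ x : unitInterval, ‖g x‖ ^ 2 : ℝ) : ℂ) := by
    refine Eq.trans (MeasureTheory.integral_congr_ae (Filter.Eventually.of_forall h1)) ?_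
    exact integral_ofReal (𝕜 := ℂ) (f := fun x : unitInterval => ‖g x‖ ^ 2)
  rw [h2, Complex.ofReal_re]

theorem t_FREE2 (hF : S_FEJ) (hTP : S_TP) : S_FREE2 := by
  intro κ A _ φ σ hs
  -- mixed lists
  have key : ∀ (L2 : List (κ × CI)) (L1 : List (κ × (ℤ →₀ ℂ))), (∀ p ∈ L1, p.2 0 = 0) →
      (∀ p ∈ L2, φ.toFun (σ p.1 p.2) = 0) →
      (L1.map Prod.fst ++ L2.map Prod.fst).IsChain (· ≠ ·) → (L1 ≠ [] ∨ L2 ≠ []) →
      φ.toFun ((L1.map fun p => σ p.1 (tp p.2)).prod * (L2.map fun p => σ p.1 p.2).prod) = 0 := by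
    intro L2
    induction L2 with
    | nil =>
      intro L1 h1 _ hc hne
      have h2 := free2_tp hTP φ σ hs L1 [] (by simp) h1 (by simpa using hc) (by
        rcases hne with h | h
        · exact Or.inr h
        · exact absurd rfl h)
      simpa using h2
    | cons r L2 ih =>
      obtain ⟨j, f⟩ := r
      intro L1 h1 h2 hc _
      set P : A := (L1.map fun p => σ p.1 (tp p.2)).prod with hP
      set Q : A := (L2.map fun p => σ p.1 p.2).prod with hQ
      rw [List.map_cons, List.prod_cons]
      rw [← norm_le_zero_iff]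
      apply le_of_forall_pos_le_add
      intro ε hε
      rw [zero_add]
      set K : ℝ := ‖Q * P‖ with hK
      have hK0 : 0 ≤ K := norm_nonneg _
      have hδ : 0 < (ε / (K + 1)) ^ 2 := by positivity
      obtain ⟨q, hq0, -, -, hq⟩ := hF f _ hδ
      have hf0 : ∫ x : unitInterval, f x = 0 := by
        rw [← hs.mar j f]
        exact h2 (j, f) (by simp)
      have h3 := ih (L1 ++ [(j, q)]) (by
        intro p hp
        rcases List.mem_append.1 hp with h | h
        · exact h1 p h
        · rw [List.mem_singleton.1 h]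
          exact hq0 hf0) (fun p hp => h2 p (by simp [hp])) (by
        rw [List.map_append, List.append_assoc]
        exact hc) (Or.inl (by simp))
      rw [List.map_append, List.prod_append] at h3
      simp only [List.map_cons, List.map_nil, List.prod_cons, List.prod_nil, mul_one] at h3
      have h4 : φ.toFun (P * (σ j f * Q)) = φ.toFun ((Q * P) * σ j (f - tp q)) := by
        have h5 : φ.toFun ((Q * P) * σ j (f - tp q)) = φ.toFun (P * (σ j (f - tp q) * Q)) := by
          rw [mul_assoc, φ.tr Q, mul_assoc]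
        rw [h5, map_sub, sub_mul, mul_sub, map_sub]
        have h6 : φ.toFun (P * (σ j (tp q) * Q)) = 0 := by
          rw [← mul_assoc]
          exact h3
        rw [h6, sub_zero]
      rw [h4]
      have h7 := cauchy φ (star (Q * P)) (σ j (f - tp q))
      rw [star_star] at h7
      refine h7.trans ?_
      have h8 : n2 φ (star (Q * P)) ≤ K := by
        rw [n2_star]
        exact n2_le_norm φ _
      have h9 : n2 φ (σ j (f - tp q)) ≤ ε / (K + 1) := by
        have h10 := free2_n2 φ σ hs j (f - tp q)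
        have h11 : n2 φ (σ j (f - tp q)) ^ 2 ≤ (ε / (K + 1)) ^ 2 := by
          rw [h10]
          exact hq.le
        exact (pow_le_pow_iff_left₀ (n2_nonneg _ _) (by positivity) (by norm_num)).1 h11
      calc n2 φ (star (Q * P)) * n2 φ (σ j (f - tp q)) ≤ K * (ε / (K + 1)) :=
            mul_le_mul h8 h9 (n2_nonneg _ _) hK0
        _ ≤ ε := by
            rw [mul_div_assoc', div_le_iff₀ (by linarith)]
            nlinarith
  intro l hl hc h0
  have h := key l [] (by simp) h0 (by simpa using hc) (Or.inr hl)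
  simpa using h

end Pool.Agent.H308R2.CF
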