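import Pool.Agent.H308R2.CF.Stubs

/-! FS: the flow for time `β` (helper368). -/

namespace Pool.Agent.H308R2.CF

open Pool.Agent.H770R2.UL (TrSt n2)
open Pool.Agent.H581R.FF (GR bs ev jj vv kk act)
open scoped ComplexConjugate

theorem FS_mv_refl {κ A : Type} [CStarAlgebra A] (σ : κ → CI →⋆ₐ[ℂ] A) (j : κ) :
    Mv σ σ j (1 : unitary A) := by
  refine ⟨fun _ _ => rfl, ?_⟩
  ext f
  rw [cj_apply]
  simp

theorem FS_mv_trans {κ A : Type} [CStarAlgebra A] {σ σ' σ'' : κ → CI →⋆ₐ[ℂ] A} {j : κ}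
    {W V : unitary A} (h : Mv σ σ' j W) (h' : Mv σ' σ'' j V) : Mv σ σ'' j (V * W) := by
  refine ⟨fun i hi => (h'.ne i hi).trans (h.ne i hi), ?_⟩
  rw [h'.eq, h.eq]
  ext f
  rw [cj_apply, cj_apply, cj_apply]
  simp only [Submonoid.coe_mul, star_mul, mul_assoc]

theorem FS_norm {A : Type} [CStarAlgebra A] (V W : unitary A) :
    ‖((V * W : unitary A) : A) - 1‖ ≤ ‖(W : A) - 1‖ + ‖(V : A) - 1‖ := by
  have h : ((V * W : unitary A) : A) - 1 = (V : A) * ((W : A) - 1) + ((V : A) - 1) := by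
    rw [Submonoid.coe_mul, mul_sub, mul_one]
    abel
  rw [h]
  refine (norm_add_le _ _).trans ?_
  rw [CStarRing.norm_coe_unitary_mul]

theorem t_FS (h1 : S_FS1) (h2 : S_EX) : S_FS := by
  intro ι _ a u hau r c β η hη A _ φ σ hσ f hf0 hfr hf1
  obtain ⟨C, t₀, hC, ht₀, H⟩ := h1 ι a u hau r c
  obtain ⟨g, hg⟩ : ∃ g, g = jj (wz (FreeGroup.of a) (FreeGroup.of u) r) := ⟨_, rfl⟩
  obtain ⟨B, hB⟩ : ∃ B : ℝ, B = 2 * nc (Z0 (FreeGroup.of a) (FreeGroup.of u) r c -
    Finsupp.single 1 1) := ⟨_, rfl⟩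
  rw [← hg, ← hB]
  simp only [← hg, ← hB] at H
  obtain ⟨N, hN⟩ := exists_nat_gt (|β| / t₀ + C * β ^ 2 / η)
  have hp1 : 0 ≤ |β| / t₀ := by positivity
  have hp2 : 0 ≤ C * β ^ 2 / η := by positivity
  have hN0 : (0 : ℝ) < N := by linarith
  obtain ⟨t, ht⟩ : ∃ t : ℝ, t = β / N := ⟨_, rfl⟩
  have htt : |t| ≤ t₀ := by
    rw [ht, abs_div, Nat.abs_cast, div_le_iff₀ hN0, mul_comm, ← div_le_iff₀ ht₀]
    linarith
  have hk : star (σ none f) = σ none f := by
    rw [← map_star]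
    congr 1
    ext x
    exact hfr x
  obtain ⟨hex1, -, hex3, hex4, -⟩ := h2 A (σ none f) (σ none f) hk hk
  have key : ∀ n : ℕ, ∃ (W : unitary A) (σ' : Option ι → CI →⋆ₐ[ℂ] A), Mv σ σ' (some u) W ∧
      FSG φ σ' ∧ ‖(W : A) - 1‖ ≤ n * (|t| * (2 * nc c) + C * t ^ 2) ∧
      ‖(gp σ' g : A) - ex (n * t) (σ none f) * (gp σ g : A)‖ ≤ n * (|t| * B + C * t ^ 2) := by
    intro n
    induction n with
    | zero =>
      refine ⟨1, σ, FS_mv_refl σ _, hσ, ?_, ?_⟩
      · simp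
      · rw [Nat.cast_zero, zero_mul, hex3, one_mul, sub_self, norm_zero, zero_mul]
    | succ n ih =>
      obtain ⟨W, σ', hM, hF, hn1, hn2⟩ := ih
      obtain ⟨V, σ'', hM', hF', hn1', hn2'⟩ := H A φ σ' hF f hf0 hfr hf1 t htt
      have hnone : σ' none = σ none := hM.ne none (by simp)
      rw [hnone] at hn2'
      refine ⟨V * W, σ'', FS_mv_trans hM hM', hF', ?_, ?_⟩
      · refine (FS_norm V W).trans ?_
        push_cast
        linarith
      · have e1 : ((n + 1 : ℕ) : ℝ) * t = t + n * t := by push_cast; ring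
        rw [e1, hex4]
        have e2 : (gp σ'' g : A) - ex t (σ none f) * ex (n * t) (σ none f) * (gp σ g : A)
            = ((gp σ'' g : A) - ex t (σ none f) * (gp σ' g : A)) +
              ex t (σ none f) * ((gp σ' g : A) - ex (n * t) (σ none f) * (gp σ g : A)) := by
          rw [mul_sub, mul_assoc]
          abel
        rw [e2]
        have e3 : ‖ex t (σ none f) * ((gp σ' g : A) - ex (n * t) (σ none f) * (gp σ g : A))‖
            = ‖(gp σ' g : A) - ex (n * t) (σ none f) * (gp σ g : A)‖ :=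
          CStarRing.norm_mem_unitary_mul _ (hex1 t)
        refine (norm_add_le _ _).trans ?_
        rw [e3]
        push_cast
        linarith
  obtain ⟨W, σ', hM, hF, hn1, hn2⟩ := key N
  have e1 : (N : ℝ) * t = β := by rw [ht]; field_simp
  have e2 : (N : ℝ) * |t| = |β| := by
    rw [← e1, abs_mul, Nat.abs_cast]
  have e3 : (N : ℝ) * (C * t ^ 2) ≤ η := by
    have h3 : (N : ℝ) * (C * t ^ 2) = C * β ^ 2 / N := by
      rw [ht]; field_simp
    rw [h3, div_le_iff₀ hN0]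
    have h4 : C * β ^ 2 / η < N := by linarith
    rw [div_lt_iff₀ hη] at h4
    linarith
  refine ⟨W, σ', hM, hF, ?_, ?_⟩
  · refine hn1.trans ?_
    have : (N : ℝ) * (|t| * (2 * nc c) + C * t ^ 2) = |β| * (2 * nc c) + N * (C * t ^ 2) := by
      rw [← e2]; ring
    rw [this]
    linarith
  · rw [e1] at hn2
    refine hn2.trans ?_
    have : (N : ℝ) * (|t| * B + C * t ^ 2) = |β| * B + N * (C * t ^ 2) := by
      rw [← e2]; ring
    rw [this]
    linarith

end Pool.Agent.H308R2.CF
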