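import Pool.Agent.H308R2.CF.Stubs

/-! Task FS1 (helper666): the flow for a short time. -/
set_option autoImplicit false

namespace Pool.Agent.H308R2.CF

open Pool.Agent.H770R2.UL (TrSt n2)
open Pool.Agent.H581R.FF (GR bs ev jj vv kk act)
open scoped ComplexConjugate

namespace FS1aux

theorem norm_unitary_le {A : Type} [CStarAlgebra A] (U : unitary A) : ‖(U : A)‖ ≤ 1 := by
  rcases subsingleton_or_nontrivial A with h | h
  · rw [norm_of_subsingleton]; exact zero_le_one
  · exact (CStarRing.norm_coe_unitary U).le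

theorem evOK {ι A : Type} [CStarAlgebra A] (σ : Option ι → CI →⋆ₐ[ℂ] A) (f : CI)
    (hf : ∀ x, conj (f x) = f x) (hf1 : ‖f‖ ≤ 1) : EvOK lst (le σ f) := by
  have hsf : star f = f := by ext x; exact hf x
  refine ⟨?_, ?_⟩
  · rintro (_ | ⟨j, b⟩)
    · exact (NonUnitalStarAlgHom.norm_apply_le (σ none) f).trans hf1
    · cases b
      · change ‖star ((uu (σ j) : unitary A) : A)‖ ≤ 1
        rw [norm_star]
        exact norm_unitary_le _
      · exact norm_unitary_le _
  · rintro (_ | ⟨j, b⟩)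
    · change σ none f = star (σ none f)
      rw [← map_star, hsf]
    · cases b
      · change ((uu (σ j) : unitary A) : A) = star (star ((uu (σ j) : unitary A) : A))
        rw [star_star]
      · rfl

theorem hh_add {ι A : Type} [CStarAlgebra A] (σ : Option ι → CI →⋆ₐ[ℂ] A)
    (c d : FreeGroup ι →₀ ℝ) (f : CI) : hh σ (c + d) f = hh σ c f + hh σ d f := by
  classical
  unfold hh
  apply Finsupp.sum_add_index'
  · intro β; simp
  · intro β r s
    push_cast
    rw [add_smul]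

theorem hh_single_one {ι A : Type} [CStarAlgebra A] (σ : Option ι → CI →⋆ₐ[ℂ] A) (f : CI) :
    hh σ (Finsupp.single 1 1) f = σ none f := by
  unfold hh
  rw [Finsupp.sum_single_index (by simp)]
  simp

end FS1aux

open FS1aux in
theorem t_FS1 (hFDAT : S_FDAT) (hW : S_W) (hFSYS : S_FSYS) (hFORM : S_FORM) (hFTAY : S_FTAY)
    (hNLG : S_NLG) (hEX : S_EX) : S_FS1 := by
  classical
  intro ι _ a u hau r c
  obtain ⟨D, K, hFD, hdata⟩ := hFDAT ι u c
  obtain ⟨C1, hC1, hT⟩ := hFTAY _ D K hdata.bD hdata.Kpos (fwz a u r)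
  have hK := hdata.Kpos
  refine ⟨C1 + 2 * K ^ 2 + 1, 1 / (4 * K), by positivity, by positivity, ?_⟩
  intro A _ φ σ hσ f hf0 hfr hf1 t ht
  have htK : |t| * K ≤ 1 / 4 := by
    calc |t| * K ≤ 1 / (4 * K) * K := mul_le_mul_of_nonneg_right ht hK.le
      _ = 1 / 4 := by field_simp
  have hev := evOK σ f hfr hf1
  obtain ⟨W, hIsW, hWn⟩ := hW _ A lst D (fh c) K t (le σ f) hdata hev htK
  have hMv : Mv σ (Function.update σ (some u) (cj W (σ (some u)))) (some u) W :=
    ⟨fun i hi => Function.update_of_ne hi _ _, Function.update_self _ _ _⟩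
  generalize hσ' : Function.update σ (some u) (cj W (σ (some u))) = σ' at hMv
  obtain ⟨hFl, hFSG'⟩ := hFSYS ι u c D K t hFD hdata htK A φ σ σ' f W hσ hf0 hfr hf1 hIsW hMv
  obtain ⟨hF1, hF2⟩ := hFORM ι a u c D hau hFD A σ f
  obtain ⟨hF3, hF4⟩ := hF2 r
  have hF5 := ((hFORM ι a u c D hau hFD A σ' f).2 r).1
  have hnc : ∀ d : FreeGroup ι →₀ ℝ, ‖hh σ d f‖ ≤ 2 * nc d := by
    intro d
    have h1 := hNLG ι A φ σ hσ d f hf0
    have h2 : 0 ≤ 2 * nc d := mul_nonneg zero_le_two (Real.sqrt_nonneg _)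
    calc ‖hh σ d f‖ ≤ 2 * nc d * ‖f‖ := h1
      _ ≤ 2 * nc d * 1 := mul_le_mul_of_nonneg_left hf1 h2
      _ = 2 * nc d := mul_one _
  refine ⟨W, σ', hMv, hFSG', ?_, ?_⟩
  · rw [hF1] at hWn
    have h1 := mul_le_mul_of_nonneg_left (hnc c) (abs_nonneg t)
    nlinarith [sq_nonneg t]
  · have hT1 := hT A (le σ f) (le σ' f) t hev.nrm htK hFl
    rw [hF5, hF3, hF4] at hT1
    set g : A := (gp σ (jj (wz (FreeGroup.of a) (FreeGroup.of u) r)) : A) with hg
    set g' : A := (gp σ' (jj (wz (FreeGroup.of a) (FreeGroup.of u) r)) : A) with hg'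
    set d := Z0 (FreeGroup.of a) (FreeGroup.of u) r c with hd
    set k : A := σ none f with hk
    have hgn : ‖g‖ ≤ 1 := norm_unitary_le _
    have hH : hh σ d f = hh σ (d - Finsupp.single 1 1) f + k := by
      rw [hk, ← hh_single_one σ f, ← hh_add, sub_add_cancel]
    have hks : star k = k := by
      have hsf : star f = f := by ext x; exact hfr x
      rw [hk, ← map_star, hsf]
    have hkn : ‖k‖ ≤ 1 := (NonUnitalStarAlgHom.norm_apply_le (σ none) f).trans hf1
    have hE := (hEX A k k hks hks).2.2.2.2.2.2.2.1 t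
    have hE' : ‖ex t k - 1 - ((t : ℂ) * Complex.I) • k‖ ≤ t ^ 2 := by
      refine hE.trans ?_
      rw [mul_pow, sq_abs]
      have : ‖k‖ ^ 2 ≤ 1 := pow_le_one₀ (norm_nonneg _) hkn
      nlinarith [sq_nonneg t]
    have key : g' - ex t k * g = (g' - g - (t : ℂ) • (Complex.I • (hh σ d f * g))) -
        (ex t k - 1 - ((t : ℂ) * Complex.I) • k) * g +
        ((t : ℂ) * Complex.I) • (hh σ (d - Finsupp.single 1 1) f * g) := by
      rw [hH, smul_smul, add_mul, smul_add, sub_mul, sub_mul, one_mul, smul_mul_assoc]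
      abel
    have hn1 : ‖(ex t k - 1 - ((t : ℂ) * Complex.I) • k) * g‖ ≤ t ^ 2 := by
      calc _ ≤ ‖ex t k - 1 - ((t : ℂ) * Complex.I) • k‖ * ‖g‖ := norm_mul_le _ _
        _ ≤ t ^ 2 * 1 := mul_le_mul hE' hgn (norm_nonneg _) (sq_nonneg t)
        _ = t ^ 2 := mul_one _
    have hn2 : ‖((t : ℂ) * Complex.I) • (hh σ (d - Finsupp.single 1 1) f * g)‖ ≤
        |t| * (2 * nc (d - Finsupp.single 1 1)) := by
      rw [norm_smul, norm_mul, Complex.norm_I, mul_one, Complex.norm_real, Real.norm_eq_abs]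
      apply mul_le_mul_of_nonneg_left _ (abs_nonneg t)
      calc ‖hh σ (d - Finsupp.single 1 1) f * g‖ ≤ ‖hh σ (d - Finsupp.single 1 1) f‖ * ‖g‖ :=
            norm_mul_le _ _
        _ ≤ (2 * nc (d - Finsupp.single 1 1)) * 1 :=
            mul_le_mul (hnc _) hgn (norm_nonneg _) (mul_nonneg zero_le_two (Real.sqrt_nonneg _))
        _ = 2 * nc (d - Finsupp.single 1 1) := mul_one _
    rw [key]
    refine (norm_add_le _ _).trans ?_
    have h3 := norm_sub_le (g' - g - (t : ℂ) • (Complex.I • (hh σ d f * g)))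
      ((ex t k - 1 - ((t : ℂ) * Complex.I) • k) * g)
    have h4 : 0 ≤ K ^ 2 * t ^ 2 := by positivity
    nlinarith [h3, hT1, hn1, hn2]

end Pool.Agent.H308R2.CF
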