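import Mathlib
import Pool.Agent.H308R2.CF.Stubs

/-! Task FST: properties of the involution of the free algebra. -/

namespace Pool.Agent.H308R2.CF

open scoped ComplexConjugate

/-- the reversed word, letters mapped by `τ` -/
private def fstRv {X : Type} (τ : X → X) (w : FreeMonoid X) : FreeMonoid X :=
  FreeMonoid.ofList ((FreeMonoid.toList w).reverse.map τ)

private theorem fstRv_mul {X : Type} (τ : X → X) (w w' : FreeMonoid X) :
    fstRv τ (w * w') = fstRv τ w' * fstRv τ w := by
  unfold fstRv
  rw [FreeMonoid.toList_mul, List.reverse_append, List.map_append, FreeMonoid.ofList_append]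

private theorem fstRv_one {X : Type} (τ : X → X) : fstRv τ 1 = 1 := rfl

private theorem fstRv_of {X : Type} (τ : X → X) (x : X) :
    fstRv τ (FreeMonoid.of x) = FreeMonoid.of (τ x) := rfl

private theorem fstRv_inv {X : Type} (τ : X → X) (h : ∀ x, τ (τ x) = x) (w : FreeMonoid X) :
    fstRv τ (fstRv τ w) = w := by
  have h1 : τ ∘ τ = id := funext h
  unfold fstRv
  rw [FreeMonoid.toList_ofList, ← List.map_reverse, List.reverse_reverse, List.map_map, h1,
    List.map_id, FreeMonoid.ofList_toList]

private theorem fst_zero' {X : Type} (τ : X → X) : fst τ (0 : FA X) = 0 := by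
  unfold fst
  rw [MonoidAlgebra.coeff_zero, Finsupp.sum_zero_index]

private theorem fst_add' {X : Type} (τ : X → X) (f g : FA X) :
    fst τ (f + g) = fst τ f + fst τ g := by
  unfold fst
  rw [MonoidAlgebra.coeff_add]
  refine Finsupp.sum_add_index' (fun w => ?_) fun w s t => ?_
  · rw [map_zero, MonoidAlgebra.single_zero]
  · rw [map_add, MonoidAlgebra.single_add]

private theorem fst_single' {X : Type} (τ : X → X) (w : FreeMonoid X) (s : ℂ) :
    fst τ (MonoidAlgebra.single w s) = MonoidAlgebra.single (fstRv τ w) (conj s) := by
  unfold fst
  rw [MonoidAlgebra.coeff_single]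
  refine Finsupp.sum_single_index ?_
  rw [map_zero, MonoidAlgebra.single_zero]

private theorem fev_single' {X A : Type} [CStarAlgebra A] (e : X → A) (w : FreeMonoid X) (s : ℂ) :
    fev e (MonoidAlgebra.single w s) = s • FreeMonoid.lift e w := by
  unfold fev
  rw [MonoidAlgebra.lift_single]

private theorem lift_rv' {X A : Type} [CStarAlgebra A] (τ : X → X) (e : X → A)
    (he : ∀ x, e (τ x) = star (e x)) (w : FreeMonoid X) :
    FreeMonoid.lift e (fstRv τ w) = star (FreeMonoid.lift e w) := by
  induction w using FreeMonoid.inductionOn' with
  | one => rw [fstRv_one, map_one, star_one]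
  | of_mul x w ih =>
    rw [fstRv_mul, map_mul, map_mul, ih, fstRv_of, FreeMonoid.lift_eval_of,
      FreeMonoid.lift_eval_of, he, star_mul]

theorem t_FST : S_FST := by
  intro X τ hτ
  have hadd := fst_add' (X := X) τ
  have hsing := fst_single' (X := X) τ
  refine ⟨hadd, ?_, ?_, ?_, ?_, ?_, ?_, ?_⟩
  · intro f g
    induction f using MonoidAlgebra.induction_linear with
    | zero => rw [zero_mul, fst_zero', mul_zero]
    | add f f' h h' => rw [add_mul, hadd, hadd, h, h', mul_add]
    | single w s =>
      induction g using MonoidAlgebra.induction_linear with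
      | zero => rw [mul_zero, fst_zero', zero_mul]
      | add g g' h h' => rw [mul_add, hadd, hadd, h, h', add_mul]
      | single w' s' =>
        rw [MonoidAlgebra.single_mul_single, hsing, hsing, hsing, MonoidAlgebra.single_mul_single,
          fstRv_mul, map_mul, mul_comm]
  · intro s f
    induction f using MonoidAlgebra.induction_linear with
    | zero => rw [smul_zero, fst_zero', smul_zero]
    | add f f' h h' => rw [smul_add, hadd, hadd, h, h', smul_add]
    | single w t =>
      rw [MonoidAlgebra.smul_single, hsing, hsing, MonoidAlgebra.smul_single, smul_eq_mul,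
        smul_eq_mul, map_mul]
  · intro f
    induction f using MonoidAlgebra.induction_linear with
    | zero => rw [fst_zero', fst_zero']
    | add f f' h h' => rw [hadd, hadd, h, h']
    | single w t => rw [hsing, hsing, fstRv_inv τ hτ, Complex.conj_conj]
  · intro x
    rw [hsing, fstRv_of, map_one]
  · rw [MonoidAlgebra.one_def, hsing, fstRv_one, map_one]
  · intro w
    rw [hsing, map_one]
    rfl
  · intro A _ e he f
    induction f using MonoidAlgebra.induction_linear with
    | zero => rw [fst_zero', map_zero, star_zero]
    | add f f' h h' => rw [hadd, map_add, map_add, h, h', star_add]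
    | single w t =>
      rw [hsing, fev_single', fev_single', lift_rv' τ e he, star_smul]
      rfl

end Pool.Agent.H308R2.CF
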