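import Pool.Agent.H308R2.CF.Stubs
set_option autoImplicit false

namespace Pool.Agent.H308R2.CF

theorem ftay_norm_one {A : Type} [CStarAlgebra A] : ‖(1 : A)‖ ≤ 1 := by
  rcases subsingleton_or_nontrivial A with h | h
  · have : (1 : A) = 0 := Subsingleton.elim _ _
    rw [this, norm_zero]
    norm_num
  · exact CStarRing.norm_one.le

theorem ftay_fev_wd {X A : Type} [CStarAlgebra A] (e : X → A) (w : FreeMonoid X) :
    fev e (wd w) = FreeMonoid.lift e w := by
  simp [fev, wd]

theorem ftay_norm_wd {X A : Type} [CStarAlgebra A] (e : X → A) (he : ∀ x, ‖e x‖ ≤ 1)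
    (w : FreeMonoid X) : ‖FreeMonoid.lift e w‖ ≤ 1 := by
  induction w using FreeMonoid.inductionOn' with
  | one => simpa using ftay_norm_one
  | of_mul x w ih =>
    rw [map_mul, FreeMonoid.lift_eval_of]
    refine (norm_mul_le _ _).trans ?_
    exact mul_le_one₀ (he x) (norm_nonneg _) ih

theorem ftay_norm {X A : Type} [CStarAlgebra A] (e : X → A) (he : ∀ x, ‖e x‖ ≤ 1)
    (f : FA X) : ‖fev e f‖ ≤ fl1 f := by
  unfold fev fl1
  rw [MonoidAlgebra.lift_apply, Finsupp.sum]
  refine (norm_sum_le _ _).trans (Finset.sum_le_sum fun w _ => ?_)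
  rw [norm_smul]
  exact mul_le_of_le_one_right (norm_nonneg _) (ftay_norm_wd e he w)

theorem ftay_word {X : Type} (D : FA X →ₗ[ℂ] FA X) (K : ℝ) (hB : FB D K) (hK : 0 < K)
    (w : FreeMonoid X) {A : Type} [CStarAlgebra A] (e e' : X → A) (t : ℝ)
    (he : ∀ x, ‖e x‖ ≤ 1) (ht : |t| * K ≤ 1 / 4) (hfl : IsFl D t e e') :
    ‖fev e' (wd w) - fev e (wd w) - (t : ℂ) • fev e (D (wd w))‖ ≤
      (2 * K ^ 2 * 2 ^ w.length) * t ^ 2 := by
  have h1 := hfl (wd w)
  rw [← hasSum_nat_add_iff' 2] at h1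
  simp only [Finset.sum_range_succ, Finset.sum_range_zero, zero_add, pow_zero, Nat.factorial_zero,
    Nat.cast_one, div_one, one_smul, Function.iterate_zero, id_eq, pow_one, Nat.factorial_one,
    Function.iterate_one] at h1
  rw [← sub_sub] at h1
  have hq0 : 0 ≤ |t| * K := by positivity
  have hq1 : |t| * K < 1 := by linarith
  have h2 : HasSum (fun n : ℕ => (2 ^ w.length * (|t| * K) ^ 2) * (|t| * K) ^ n)
      ((2 ^ w.length * (|t| * K) ^ 2) * (1 - |t| * K)⁻¹) :=
    (hasSum_geometric_of_lt_one hq0 hq1).mul_left _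
  have h3 := h1.norm_le_of_bounded h2 (fun n => by
    have h4 := (ftay_norm e he _).trans (hB (n + 2) w)
    have hf : (0 : ℝ) < ((n + 2).factorial : ℝ) := by positivity
    rw [norm_smul, norm_div, norm_pow, Complex.norm_real, Real.norm_eq_abs, Complex.norm_natCast]
    calc |t| ^ (n + 2) / ((n + 2).factorial : ℝ) * ‖fev e (D^[n + 2] (wd w))‖
        ≤ |t| ^ (n + 2) / ((n + 2).factorial : ℝ) *
          ((n + 2).factorial * K ^ (n + 2) * 2 ^ w.length) := by gcongr
      _ = (2 ^ w.length * (|t| * K) ^ 2) * (|t| * K) ^ n := by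
          field_simp
          ring)
  refine h3.trans ?_
  have h5 : (1 - |t| * K)⁻¹ ≤ 2 := by
    rw [inv_le_comm₀ (by linarith) (by norm_num)]
    linarith
  calc 2 ^ w.length * (|t| * K) ^ 2 * (1 - |t| * K)⁻¹
      ≤ 2 ^ w.length * (|t| * K) ^ 2 * 2 := by gcongr
    _ = _ := by
      rw [mul_pow, sq_abs]
      ring

theorem t_FTAY : S_FTAY := by
  intro X D K hB hK f
  induction f using MonoidAlgebra.induction_linear with
  | zero =>
    refine ⟨0, le_rfl, ?_⟩
    intro A _ e e' t _ _ _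
    simp
  | add f g hf hg =>
    obtain ⟨C, hC, h1⟩ := hf
    obtain ⟨C', hC', h2⟩ := hg
    refine ⟨C + C', by positivity, ?_⟩
    intro A _ e e' t he ht hfl
    have a1 := h1 A e e' t he ht hfl
    have a2 := h2 A e e' t he ht hfl
    have a3 : fev e' (f + g) - fev e (f + g) - (t : ℂ) • fev e (D (f + g)) =
        (fev e' f - fev e f - (t : ℂ) • fev e (D f)) +
          (fev e' g - fev e g - (t : ℂ) • fev e (D g)) := by
      simp only [map_add, smul_add]
      abel
    rw [a3, add_mul]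
    exact (norm_add_le _ _).trans (add_le_add a1 a2)
  | single w c =>
    refine ⟨‖c‖ * (2 * K ^ 2 * 2 ^ w.length), by positivity, ?_⟩
    intro A _ e e' t he ht hfl
    have a1 := ftay_word D K hB hK w e e' t he ht hfl
    have a2 : (MonoidAlgebra.single w c : FA X) = c • wd w := by
      simp [wd]
    have a3 : fev e' (c • wd w) - fev e (c • wd w) - (t : ℂ) • fev e (D (c • wd w)) =
        c • (fev e' (wd w) - fev e (wd w) - (t : ℂ) • fev e (D (wd w))) := by
      simp only [map_smul, smul_sub]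
      rw [smul_comm (t : ℂ) c]
    rw [a2, a3, norm_smul, mul_assoc]
    gcongr

end Pool.Agent.H308R2.CF
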