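import Pool.Agent.H308R2.CF.Stubs
import Pool.Agent.H770R2.FA.Ev

/-! Trace invariance of the formal derivation. -/

namespace Pool.Agent.H308R2.CF

open Pool.Agent.H770R2.UL (TrSt n2)
open Pool.Agent.H770R2.FA
open Pool.Agent.H581R.FF (GR bs ev jj vv kk act)
open scoped ComplexConjugate

theorem FTR_fev_lt {X A : Type} [Ring A] [Algebra ℂ A] (e : X → A) (x : X) :
    fev e (lt x) = e x := by
  unfold fev
  rw [MonoidAlgebra.lift_single]
  simp

theorem FTR_fev_wd {X A : Type} [Ring A] [Algebra ℂ A] (e : X → A) (w : FreeMonoid X) :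
    fev e (wd w) = FreeMonoid.lift e w := by
  unfold fev
  rw [MonoidAlgebra.lift_single]
  simp

/-- compositions of evaluations -/
theorem FTR_comp {X A B : Type} [Ring A] [Algebra ℂ A] [Ring B] [Algebra ℂ B] (g : B →ₐ[ℂ] A)
    (e : X → A) (e' : X → B) (h : ∀ x, e x = g (e' x)) (z : FA X) : fev e z = g (fev e' z) := by
  have key : fev e = g.comp (fev e') := by
    refine MonoidAlgebra.algHom_ext (fun w => ?_) (Subsingleton.elim _ _)
    show fev e (wd w) = g (fev e' (wd w))
    rw [FTR_fev_wd, FTR_fev_wd]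
    induction w using FreeMonoid.inductionOn' with
    | one => rw [map_one, map_one, map_one]
    | of_mul x xs ih => rw [map_mul, map_mul, map_mul, ih, FreeMonoid.lift_eval_of,
        FreeMonoid.lift_eval_of, h]
  rw [key]
  rfl

theorem FTR_gp_of {κ A : Type} [CStarAlgebra A] (σ : κ → CI →⋆ₐ[ℂ] A) (j : κ) :
    gp σ (FreeGroup.of j) = uu (σ j) := by
  unfold gp
  rw [FreeGroup.lift_apply_of]

theorem FTR_ev (h4 : S_TP) {ι A : Type} [CStarAlgebra A] (σ : Option ι → CI →⋆ₐ[ℂ] A)
    (q : ℤ →₀ ℂ) (z : FA (Lt (Option ι))) :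
    fev (le σ (tp q)) z = ev (gp σ) (fev (lg (ι := ι) q) z) := by
  apply FTR_comp
  intro x
  match x with
  | none => exact h4.2.1 ι A σ q
  | some (j, true) =>
    show ((uu (σ j) : unitary A) : A) = ev (gp σ) (bs (FreeGroup.of j))
    rw [ev_bs, FTR_gp_of]
  | some (j, false) =>
    show star ((uu (σ j) : unitary A) : A) = ev (gp σ) (bs (FreeGroup.of j)⁻¹)
    rw [ev_bs, map_inv, FTR_gp_of]
    rfl

theorem FTR_n2 {κ A : Type} [CStarAlgebra A] (φ : TrSt A) (σ : κ → CI →⋆ₐ[ℂ] A) (hσ : Sys φ σ)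
    (j : κ) (g : CI) : n2 φ (σ j g) = Real.sqrt (∫ x : unitInterval, ‖g x‖ ^ 2) := by
  unfold n2
  congr 1
  rw [← map_star, ← map_mul, hσ.mar]
  have e : ∀ x : unitInterval, (star g * g) x = ((‖g x‖ ^ 2 : ℝ) : ℂ) := by
    intro x
    show conj (g x) * g x = _
    rw [Complex.conj_mul']
    push_cast
    rfl
  simp only [e]
  rw [integral_complex_ofReal, Complex.ofReal_re]

theorem FTR_norm {ι A : Type} [CStarAlgebra A] (σ : Option ι → CI →⋆ₐ[ℂ] A) (f : CI) (M : ℝ)
    (h1 : 1 ≤ M) (hf : ‖f‖ ≤ M) (x : Lt (Option ι)) : ‖le σ f x‖ ≤ M := by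
  match x with
  | none => exact (NonUnitalStarAlgHom.norm_apply_le (σ none) f).trans hf
  | some (j, true) => exact (norm_unitary_le _).trans h1
  | some (j, false) =>
    show ‖star ((uu (σ j) : unitary A) : A)‖ ≤ M
    rw [norm_star]
    exact (norm_unitary_le _).trans h1

theorem t_FTR (h1 : S_THETA) (h2 : S_N2C) (h3 : S_FEJ) (h4 : S_TP) : S_FTR := by
  intro ι _ u c D hD A _ φ σ hσ f hf hr x
  have hq : ∀ n : ℕ, ∃ q : ℤ →₀ ℂ, ((∫ x : unitInterval, f x = 0) → q 0 = 0) ∧
      ((∀ x, conj (f x) = f x) → ∀ m, q (-m) = conj (q m)) ∧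
      ‖tp q‖ ≤ ‖f‖ + 1 ∧ ∫ x : unitInterval, ‖f x - tp q x‖ ^ 2 < 1 / ((n : ℝ) + 1) :=
    fun n => h3 f _ (by positivity)
  choose q q0 qs qn qi using hq
  have hlim := h2 (Lt (Option ι)) A φ (fun n => le σ (tp (q n))) (le σ f) (‖f‖ + 1)
    (fun n y => FTR_norm σ (tp (q n)) _ (by linarith [norm_nonneg f]) (qn n) y)
    (fun y => FTR_norm σ f _ (by linarith [norm_nonneg f]) (by linarith) y) ?_ (D x)
  · have hz : (fun n => φ.toFun (fev (le σ (tp (q n))) (D x))) = fun _ => 0 := by
      funext n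
      rw [FTR_ev h4, phi_ev φ (gp σ) hσ.free]
      exact h1 ι u c D hD (q n) (q0 n hf) (qs n hr) x
    rw [hz] at hlim
    exact (tendsto_nhds_unique hlim tendsto_const_nhds)
  · intro y
    match y with
    | some (j, true) =>
      have e : (fun n : ℕ => n2 φ (le σ (tp (q n)) (some (j, true)) - le σ f (some (j, true)))) =
          fun _ => 0 := by
        funext n
        show n2 φ (((uu (σ j) : unitary A) : A) - ((uu (σ j) : unitary A) : A)) = 0
        rw [sub_self]
        unfold n2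
        simp
      rw [e]
      exact tendsto_const_nhds
    | some (j, false) =>
      have e : (fun n : ℕ => n2 φ (le σ (tp (q n)) (some (j, false)) - le σ f (some (j, false)))) =
          fun _ => 0 := by
        funext n
        show n2 φ (star ((uu (σ j) : unitary A) : A) - star ((uu (σ j) : unitary A) : A)) = 0
        rw [sub_self]
        unfold n2
        simp
      rw [e]
      exact tendsto_const_nhds
    | none =>
      have hb : ∀ n : ℕ, n2 φ (le σ (tp (q n)) none - le σ f none) ≤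
          Real.sqrt (1 / ((n : ℝ) + 1)) := by
        intro n
        show n2 φ (σ none (tp (q n)) - σ none f) ≤ _
        rw [← map_sub, FTR_n2 φ σ hσ]
        apply Real.sqrt_le_sqrt
        refine le_trans (le_of_eq ?_) (qi n).le
        refine MeasureTheory.integral_congr_ae (Filter.Eventually.of_forall fun y => ?_)
        show ‖(tp (q n) - f) y‖ ^ 2 = ‖f y - tp (q n) y‖ ^ 2
        rw [ContinuousMap.sub_apply, norm_sub_rev]
      have ht : Filter.Tendsto (fun n : ℕ => Real.sqrt (1 / ((n : ℝ) + 1))) Filter.atTop (nhds 0) := by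
        have := (Real.continuous_sqrt.tendsto 0).comp tendsto_one_div_add_atTop_nhds_zero_nat
        rw [Real.sqrt_zero] at this
        exact this
      exact squeeze_zero (fun n => Pool.Agent.H770R2.UL.n2_nonneg _ _) hb ht

end Pool.Agent.H308R2.CF
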