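import Pool.Agent.H308R2.CF.Stubs

/-!
# The element `K`
-/

namespace Pool.Agent.H308R2.CF

open MeasureTheory
open scoped ComplexConjugate

namespace INT971

variable {A : Type} [CStarAlgebra A]

/-- the Lie algebra as a real subspace -/
def sub (hL : S_LIE) (x y : A) (hx : star x = x) (hy : star y = y) : Submodule ℝ A where
  carrier := LL x y
  add_mem' := fun {a b} ha hb => (hL A x y hx hy).2.1 a ha b hb
  zero_mem' := by
    have h := (hL A x y hx hy).2.2.1 0 x (hL A x y hx hy).1.1
    rw [Complex.ofReal_zero, zero_smul] at h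
    exact h
  smul_mem' := by
    intro r a ha
    have h := (hL A x y hx hy).2.2.1 r a ha
    rw [Complex.coe_smul] at h
    exact h

theorem integral_mem (V : Submodule ℝ A) (hV : IsClosed (V : Set A)) (f : ℝ → A)
    (hf : Continuous f) (h : ∀ t, f t ∈ V) (a b : ℝ) (hab : a < b) : ∫ t in a..b, f t ∈ V := by
  have h1 : (⨍ t in Set.uIoc a b, f t) ∈ (V : Set A) := by
    refine Convex.set_average_mem V.convex hV ?_ ?_ (Filter.Eventually.of_forall h) ?_
    · rw [Set.uIoc_of_le hab.le, Real.volume_Ioc]
      simp [hab]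
    · rw [Set.uIoc_of_le hab.le, Real.volume_Ioc]
      exact ENNReal.ofReal_ne_top
    · exact (hf.intervalIntegrable a b).def'
  rw [interval_average_eq] at h1
  have h2 := V.smul_mem (b - a) h1
  rwa [smul_smul, mul_inv_cancel₀ (by linarith), one_smul] at h2

/-- `S(t)` -/
noncomputable def SS (x y : A) (t : ℝ) : A := ex t x * y * ex (-t) x

/-- the inner derivation -/
noncomputable def der (x : A) : A →L[ℝ] A :=
  (Complex.I • (ContinuousLinearMap.mul ℂ A x - (ContinuousLinearMap.mul ℂ A).flip x) :
    A →L[ℂ] A).restrictScalars ℝ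

theorem der_apply (x a : A) : der x a = Complex.I • (x * a - a * x) := rfl

theorem hasDeriv (hE : S_EX) (x y : A) (hx : star x = x) (hy : star y = y) (t : ℝ) :
    HasDerivAt (SS x y) (der x (SS x y t)) t := by
  obtain ⟨-, -, -, -, -, h1, -, -, -, -, -, h2⟩ := hE A x y hx hy
  have h3 := h2 t
  have h4 : HasDerivAt (fun t : ℝ => ex (-t) x) (-(Complex.I • (x * ex (-t) x))) t := by
    have h5 := (h2 (-t)).scomp t (hasDerivAt_neg t)
    rw [neg_smul, one_smul] at h5
    exact h5
  have h6 := (h3.mul_const y).mul h4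
  have h8 : der x (SS x y t) = Complex.I • (x * ex t x) * y * ex (-t) x +
      ex t x * y * -(Complex.I • (x * ex (-t) x)) := by
    rw [der_apply]
    unfold SS
    have h7 : ex t x * y * (ex (-t) x * x) = ex t x * y * (x * ex (-t) x) := by rw [h1 (-t)]
    rw [mul_neg, smul_mul_assoc, smul_mul_assoc, mul_smul_comm, smul_sub, sub_eq_add_neg]
    congr 2
    · simp only [mul_assoc]
    · rw [mul_assoc (ex t x * y), h7]
  rw [h8]
  exact h6

theorem cont (hE : S_EX) (x y : A) (hx : star x = x) (hy : star y = y) : Continuous (SS x y) :=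
  continuous_iff_continuousAt.2 fun t => (hasDeriv hE x y hx hy t).continuousAt

/-- integration by parts for an affine weight -/
theorem parts (hE : S_EX) (x y : A) (hx : star x = x) (hy : star y = y) (p q a b : ℝ) :
    ∫ t in a..b, der x ((p + q * t) • SS x y t) =
      (p + q * b) • SS x y b - (p + q * a) • SS x y a - q • ∫ t in a..b, SS x y t := by
  have hc := cont hE x y hx hy
  have h1 : ∀ t ∈ Set.uIcc a b, HasDerivAt (fun t => (p + q * t) • SS x y t)
      ((p + q * t) • der x (SS x y t) + q • SS x y t) t := by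
    intro t _
    have h2 : HasDerivAt (fun t : ℝ => p + q * t) q t := by
      have := ((hasDerivAt_id t).const_mul q).const_add p
      simpa using this
    exact h2.smul (hasDeriv hE x y hx hy t)
  have hc1 : Continuous (fun t => (p + q * t) • der x (SS x y t)) := by
    have : Continuous (fun t => der x (SS x y t)) := (der x).continuous.comp hc
    fun_prop
  have hc2 : Continuous (fun t => q • SS x y t) := by fun_prop
  have h3 := intervalIntegral.integral_eq_sub_of_hasDerivAt h1
    ((hc1.add hc2).intervalIntegrable a b)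
  rw [intervalIntegral.integral_add (hc1.intervalIntegrable a b) (hc2.intervalIntegrable a b),
    intervalIntegral.integral_smul] at h3
  simp only [map_smul]
  rw [← h3]
  abel

end INT971

open INT971

theorem t_INT (hL : S_LIE) (hE : S_EX) : S_INT := by
  intro A _ x y hx hy T hT
  obtain ⟨⟨hx1, hy1⟩, -, -, hcl, hconj, -⟩ := hL A x y hx hy
  have hc := cont hE x y hx hy
  set V := INT971.sub hL x y hx hy with hV
  have hSV : ∀ t, SS x y t ∈ V := fun t => hconj x hx1 y hy1 t
  -- the two weights
  have hc1 : ∀ p q : ℝ, Continuous (fun t => (p + q * t) • SS x y t) := fun p q => by fun_prop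
  have hm : ∀ (p q a b : ℝ), a < b → ∫ t in a..b, (p + q * t) • SS x y t ∈ V := fun p q a b hab =>
    integral_mem V hcl _ (hc1 p q) (fun t => V.smul_mem _ (hSV t)) a b hab
  set K1 := ∫ t in (0:ℝ)..T, (1 / 2 + (-(1 / (2 * T))) * t) • SS x y t with hK1
  set K2 := ∫ t in (-T)..(0:ℝ), (1 / 2 + (1 / (2 * T)) * t) • SS x y t with hK2
  have hK1m : K1 ∈ V := hm _ _ _ _ hT
  have hK2m : K2 ∈ V := hm _ _ _ _ (by linarith)
  refine ⟨K2 - K1, V.sub_mem hK2m hK1m, ?_⟩
  rw [← der_apply, map_sub, hK1, hK2]
  rw [← ContinuousLinearMap.intervalIntegral_comp_comm _ ((hc1 _ _).intervalIntegrable _ _),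
    ← ContinuousLinearMap.intervalIntegral_comp_comm _ ((hc1 _ _).intervalIntegrable _ _),
    parts hE x y hx hy, parts hE x y hx hy, Complex.coe_smul]
  change _ = y - (1 / (2 * T)) • ∫ t in (-T)..T, SS x y t
  rw [← intervalIntegral.integral_add_adjacent_intervals
      (hc.intervalIntegrable (-T) 0) (hc.intervalIntegrable 0 T)]
  have h0 : SS x y 0 = y := by
    unfold SS
    rw [neg_zero, (hE A x y hx hy).2.2.1, one_mul, mul_one]
  have e1 : (1 / 2 + 1 / (2 * T) * 0 : ℝ) = 1 / 2 := by ring
  have e2 : (1 / 2 + 1 / (2 * T) * -T : ℝ) = 0 := by field_simp; ring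
  have e3 : (1 / 2 + -(1 / (2 * T)) * T : ℝ) = 0 := by field_simp; ring
  have e4 : (1 / 2 + -(1 / (2 * T)) * 0 : ℝ) = 1 / 2 := by ring
  rw [h0, e1, e2, e3, e4]
  module

end Pool.Agent.H308R2.CF
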