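import Pool.Agent.H308R2.CF.Stubs

/-! An isometric homomorphism from the equality of two traces on a star subalgebra of a product. -/

namespace Pool.Agent.H308R2.CF

open Pool.Agent.H770R2.UL (TrSt n2)

private theorem lawh_norm (h : S_LAWN) (A B : Type) [CStarAlgebra A] [CStarAlgebra B] (φ : TrSt A)
    (ψ : TrSt B) (hφ : Fai φ) (hψ : Fai ψ) (S : StarSubalgebra ℂ (A × B))
    (hS : ∀ x ∈ S, φ.toFun x.1 = ψ.toFun x.2) (x : A × B) (hx : x ∈ S) : ‖x.1‖ = ‖x.2‖ := by
  refine h A B φ ψ hφ hψ x.1 x.2 fun m => ?_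
  exact hS ((star x * x) ^ m) (pow_mem (mul_mem (star_mem hx) hx) m)

private theorem lawh_cont {A : Type} [CStarAlgebra A] (φ : TrSt A) :
    Continuous fun x => φ.toFun x :=
  AddMonoidHomClass.continuous_of_bound φ.toFun 1 fun x => by simpa using φ.bdd x

theorem t_LAWH (h : S_LAWN) : S_LAWH := by
  intro A B _ _ φ ψ hφ hψ S hS hd
  have hn := lawh_norm h A B φ ψ hφ hψ S hS
  set T : StarSubalgebra ℂ (A × B) := S.topologicalClosure with hT
  have hTc : IsClosed (T : Set (A × B)) := S.isClosed_topologicalClosure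
  have hST : S ≤ T := S.le_topologicalClosure
  have hTcl : (T : Set (A × B)) = closure (S : Set (A × B)) := S.topologicalClosure_coe
  have hnT : ∀ x ∈ T, ‖x.1‖ = ‖x.2‖ := by
    intro x hx
    have hx' : x ∈ closure (S : Set (A × B)) := hTcl ▸ hx
    have hcl : IsClosed {x : A × B | ‖x.1‖ = ‖x.2‖} :=
      isClosed_eq (by fun_prop) (by fun_prop)
    exact closure_minimal (fun y hy => hn y hy) hcl hx'
  have hSt : ∀ x ∈ T, φ.toFun x.1 = ψ.toFun x.2 := by
    intro x hx
    have hx' : x ∈ closure (S : Set (A × B)) := hTcl ▸ hx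
    have hcl : IsClosed {x : A × B | φ.toFun x.1 = ψ.toFun x.2} :=
      isClosed_eq ((lawh_cont φ).comp continuous_fst) ((lawh_cont ψ).comp continuous_snd)
    exact closure_minimal (fun y hy => hS y hy) hcl hx'
  let p : T →⋆ₐ[ℂ] A := (StarAlgHom.fst ℂ A B).comp T.subtype
  have hp : ∀ x : T, p x = (x : A × B).1 := fun x => rfl
  have hiso : Isometry p := by
    refine AddMonoidHomClass.isometry_of_norm p fun x => ?_
    rw [hp]
    show ‖(x : A × B).1‖ = ‖(x : A × B)‖
    rw [Prod.norm_def, ← hnT x x.2, max_self]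
  have : CompleteSpace T := hTc.completeSpace_coe
  have hcl : IsClosed (Set.range p) := hiso.isClosedEmbedding.isClosed_range
  have hsurj : Function.Surjective p := by
    intro a
    have h1 : Prod.fst '' (S : Set (A × B)) ⊆ Set.range p := by
      rintro _ ⟨x, hx, rfl⟩
      exact ⟨⟨x, hST hx⟩, rfl⟩
    exact closure_minimal h1 hcl (hd a)
  let e : T ≃⋆ₐ[ℂ] A := StarAlgEquiv.ofBijective p ⟨hiso.injective, hsurj⟩
  have he : ∀ x : T, e x = (x : A × B).1 := fun x => rfl
  have hes : ∀ a : A, ((e.symm a : T) : A × B).1 = a := fun a => by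
    rw [← he, StarAlgEquiv.apply_symm_apply]
  refine ⟨((StarAlgHom.snd ℂ A B).comp T.subtype).comp (e.symm : A →⋆ₐ[ℂ] T), ?_, ?_, ?_⟩
  · intro a
    show ‖((e.symm a : T) : A × B).2‖ = ‖a‖
    rw [← hnT _ (e.symm a).2, hes]
  · intro a
    show ψ.toFun ((e.symm a : T) : A × B).2 = φ.toFun a
    rw [← hSt _ (e.symm a).2, hes]
  · intro x hx
    show ((e.symm x.1 : T) : A × B).2 = x.2
    have : e.symm x.1 = ⟨x, hST hx⟩ := by
      rw [StarAlgEquiv.symm_apply_eq]
      rfl
    rw [this]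

end Pool.Agent.H308R2.CF
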