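import Pool.Agent.H308R2.CF.Stubs

/-! Task LAWN: the norm is determined by the moments. -/

set_option autoImplicit false

namespace Pool.Agent.H308R2.CF

open Pool.Agent.H770R2.UL (TrSt n2)

namespace LAWN

theorem spec_le {A : Type} [CStarAlgebra A] {p : A} (hp : IsSelfAdjoint p) {x : ℝ}
    (hx : x ∈ spectrum ℝ p) : |x| ≤ ‖p‖ := by
  have h := norm_apply_le_norm_cfc (𝕜 := ℝ) (id : ℝ → ℝ) p hx continuousOn_id hp
  rw [cfc_id ℝ p hp] at h
  simpa using h

theorem aeval_tr {A : Type} [CStarAlgebra A] (φ : TrSt A) (p : A) (P : Polynomial ℝ) :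
    φ.toFun (Polynomial.aeval p P) =
      ∑ m ∈ Finset.range (P.natDegree + 1), (P.coeff m : ℂ) * φ.toFun (p ^ m) := by
  rw [Polynomial.aeval_eq_sum_range, map_sum]
  refine Finset.sum_congr rfl fun m _ => ?_
  have : P.coeff m • p ^ m = ((P.coeff m : ℝ) : ℂ) • p ^ m := by
    rw [Complex.coe_smul]
  rw [this, map_smul, smul_eq_mul]

/-- functional calculus has the same trace -/
theorem cfc_tr {A B : Type} [CStarAlgebra A] [CStarAlgebra B] (φ : TrSt A) (ψ : TrSt B)
    (p : A) (q : B) (hp : IsSelfAdjoint p) (hq : IsSelfAdjoint q)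
    (h : ∀ m : ℕ, φ.toFun (p ^ m) = ψ.toFun (q ^ m)) (f : ℝ → ℝ) (hf : Continuous f) :
    φ.toFun (cfc f p) = ψ.toFun (cfc f q) := by
  rw [← sub_eq_zero, ← norm_eq_zero]
  refine le_antisymm (le_of_forall_pos_le_add fun ε hε => ?_) (norm_nonneg _)
  set R := max ‖p‖ ‖q‖
  obtain ⟨P, hP⟩ := exists_polynomial_near_of_continuousOn (-R) R f hf.continuousOn (ε / 2)
    (by positivity)
  have key : ∀ (C : Type) [CStarAlgebra C] (χ : TrSt C) (c : C), IsSelfAdjoint c → ‖c‖ ≤ R →
      ‖χ.toFun (cfc f c) - χ.toFun (Polynomial.aeval c P)‖ ≤ ε / 2 := by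
    intro C _ χ c hc hcR
    have hPc : ContinuousOn (fun x => P.eval x) (spectrum ℝ c) := P.continuous.continuousOn
    rw [← cfc_polynomial P c hc, ← map_sub, ← cfc_sub f (fun x => P.eval x) c hf.continuousOn hPc]
    refine (χ.bdd _).trans (norm_cfc_le (by positivity) fun x hx => ?_)
    have h1 := (spec_le hc hx).trans hcR
    rw [abs_le] at h1
    have h2 := hP x h1
    rw [Real.norm_eq_abs, abs_sub_comm]
    exact h2.le
  have h1 := key A φ p hp (le_max_left _ _)
  have h2 := key B ψ q hq (le_max_right _ _)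
  have h3 : φ.toFun (Polynomial.aeval p P) = ψ.toFun (Polynomial.aeval q P) := by
    rw [aeval_tr, aeval_tr]
    simp_rw [h]
  rw [zero_add]
  calc ‖φ.toFun (cfc f p) - ψ.toFun (cfc f q)‖
      = ‖(φ.toFun (cfc f p) - φ.toFun (Polynomial.aeval p P)) -
          (ψ.toFun (cfc f q) - ψ.toFun (Polynomial.aeval q P))‖ := by
        rw [h3]; congr 1; ring
    _ ≤ ε / 2 + ε / 2 := (norm_sub_le _ _).trans (add_le_add h1 h2)
    _ = ε := by ring

theorem norm_le {A B : Type} [CStarAlgebra A] [CStarAlgebra B] (φ : TrSt A) (ψ : TrSt B)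
    (hψ : Fai ψ) (a : A) (b : B)
    (h : ∀ m : ℕ, φ.toFun ((star a * a) ^ m) = ψ.toFun ((star b * b) ^ m)) : ‖b‖ ≤ ‖a‖ := by
  set p := star a * a with hp
  set q := star b * b with hq
  have hps : IsSelfAdjoint p := IsSelfAdjoint.star_mul_self a
  have hqs : IsSelfAdjoint q := IsSelfAdjoint.star_mul_self b
  let f : ℝ → ℝ := fun x => max (x - ‖p‖) 0
  have hf : Continuous f := (continuous_id.sub continuous_const).max continuous_const
  let g : ℝ → ℝ := fun x => Real.sqrt (f x)
  have hg : Continuous g := hf.sqrt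
  have hf0 : ∀ x, 0 ≤ f x := fun x => le_max_right _ _
  have hgg : (fun x => g x * g x) = f := by
    funext x
    exact Real.mul_self_sqrt (hf0 x)
  have h1 : cfc f p = 0 := by
    have : cfc f p = cfc (fun _ : ℝ => (0 : ℝ)) p := by
      refine cfc_congr fun x hx => ?_
      have h2 := spec_le hps hx
      have h3 : x ≤ ‖p‖ := (le_abs_self x).trans h2
      show max (x - ‖p‖) 0 = 0
      exact max_eq_right (by linarith)
    rw [this]
    exact cfc_const_zero ℝ p
  have h2 : ψ.toFun (cfc f q) = 0 := by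
    rw [← cfc_tr φ ψ p q hps hqs h f hf, h1, map_zero]
  have h3 : star (cfc g q) * cfc g q = cfc f q := by
    have hsa : IsSelfAdjoint (cfc g q) := cfc_predicate g q
    rw [hsa.star_eq, ← cfc_mul g g q hg.continuousOn hg.continuousOn, hgg]
  have h4 : cfc g q = 0 := by
    apply hψ
    rw [h3, h2]
  have h5 : ‖q‖ ≤ ‖p‖ := by
    have h6 : ‖cfc (id : ℝ → ℝ) q‖ ≤ ‖p‖ := by
      refine norm_cfc_le (norm_nonneg _) fun x hx => ?_
      have hx0 : 0 ≤ x := spectrum_star_mul_self_nonneg x hx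
      have h7 := norm_apply_le_norm_cfc (𝕜 := ℝ) g q hx hg.continuousOn hqs
      rw [h4, norm_zero] at h7
      have h8 : g x = 0 := norm_le_zero_iff.1 h7
      have h9 : f x = 0 := by
        rw [← hgg]
        simp only [h8, mul_zero]
      have h10 : x - ‖p‖ ≤ 0 := by
        rw [← h9]
        exact le_max_left _ _
      rw [Real.norm_eq_abs, id, abs_of_nonneg hx0]
      linarith
    rwa [cfc_id ℝ q hqs] at h6
  rw [hp, hq, CStarRing.norm_star_mul_self, CStarRing.norm_star_mul_self] at h5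
  nlinarith [norm_nonneg a, norm_nonneg b]

end LAWN

theorem t_LAWN : S_LAWN := by
  intro A B _ _ φ ψ hφ hψ a b h
  exact le_antisymm (LAWN.norm_le ψ φ hφ b a fun m => (h m).symm) (LAWN.norm_le φ ψ hψ a b h)

end Pool.Agent.H308R2.CF
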