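import Mathlib
import Pool.Agent.H308R2.CF.Stubs

/-! LIE: properties of the Lie algebra. -/

open Finset
open scoped ComplexConjugate

namespace Pool.Agent.H308R2.CF

open Pool.Agent.H770R2.UL (TrSt n2)

/-- the submonoid generated by the exponentials -/
noncomputable def LIE_M {A : Type} [CStarAlgebra A] (x y : A) : Submonoid A :=
  Submonoid.closure (Set.range (fun r : ℝ => ex r x) ∪ Set.range (fun r : ℝ => ex r y))

theorem LIE_GG {A : Type} [CStarAlgebra A] (x y : A) : GG x y = closure (LIE_M x y : Set A) := rfl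

theorem LIE_closed {A : Type} [CStarAlgebra A] (x y : A) : IsClosed (GG x y) := isClosed_closure

theorem LIE_one {A : Type} [CStarAlgebra A] (x y : A) : (1 : A) ∈ GG x y :=
  subset_closure (LIE_M x y).one_mem

theorem LIE_mul {A : Type} [CStarAlgebra A] (x y : A) {V V' : A} (h : V ∈ GG x y)
    (h' : V' ∈ GG x y) : V * V' ∈ GG x y :=
  (LIE_M x y).topologicalClosure.mul_mem h h'

theorem LIE_pow {A : Type} [CStarAlgebra A] (x y : A) {V : A} (h : V ∈ GG x y) (n : ℕ) :
    V ^ n ∈ GG x y :=
  (LIE_M x y).topologicalClosure.pow_mem h n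

theorem LIE_gx {A : Type} [CStarAlgebra A] (x y : A) (r : ℝ) : ex r x ∈ GG x y :=
  subset_closure (Submonoid.subset_closure (Or.inl ⟨r, rfl⟩))

theorem LIE_gy {A : Type} [CStarAlgebra A] (x y : A) (r : ℝ) : ex r y ∈ GG x y :=
  subset_closure (Submonoid.subset_closure (Or.inr ⟨r, rfl⟩))

theorem LIE_star {A : Type} [CStarAlgebra A] (h2 : S_EX) (x y : A) (hx : star x = x)
    (hy : star y = y) {V : A} (h : V ∈ GG x y) : star V ∈ GG x y := by
  have hsx := (h2 A x x hx hx).2.1
  have hsy := (h2 A y y hy hy).2.1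
  have h3 : ∀ V ∈ LIE_M x y, star V ∈ LIE_M x y := by
    intro V hV
    unfold LIE_M at hV
    induction hV using Submonoid.closure_induction with
    | mem V hV =>
      rcases hV with ⟨r, rfl⟩ | ⟨r, rfl⟩
      · show star (ex r x) ∈ _
        rw [hsx]
        exact Submonoid.subset_closure (Or.inl ⟨-r, rfl⟩)
      · show star (ex r y) ∈ _
        rw [hsy]
        exact Submonoid.subset_closure (Or.inr ⟨-r, rfl⟩)
    | one => rw [star_one]; exact (LIE_M x y).one_mem
    | mul a b _ _ ha hb => rw [star_mul]; exact (LIE_M x y).mul_mem hb ha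
  exact map_mem_closure continuous_star h h3

theorem LIE_unit {A : Type} [CStarAlgebra A] (h2 : S_EX) (x y : A) (hx : star x = x)
    (hy : star y = y) {V : A} (h : V ∈ GG x y) : V ∈ unitary A := by
  have hle : LIE_M x y ≤ unitary A := by
    refine Submonoid.closure_le.2 ?_
    rintro V (⟨r, rfl⟩ | ⟨r, rfl⟩)
    · exact (h2 A x x hx hx).1 r
    · exact (h2 A y y hy hy).1 r
  have hcl : IsClosed ((unitary A : Submonoid A) : Set A) := by
    have e : ((unitary A : Submonoid A) : Set A) =
        {V : A | star V * V = 1} ∩ {V : A | V * star V = 1} := by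
      ext V
      exact Unitary.mem_iff
    rw [e]
    exact (isClosed_eq (continuous_star.mul continuous_id) continuous_const).inter
      (isClosed_eq (continuous_id.mul continuous_star) continuous_const)
  exact closure_minimal (show (LIE_M x y : Set A) ⊆ _ from hle) hcl h

theorem LIE_excont {A : Type} [CStarAlgebra A] (r : ℝ) : Continuous fun K : A => ex r K := by
  letI : NormedAlgebra ℚ A := NormedAlgebra.restrictScalars ℚ ℂ A
  unfold ex
  exact NormedSpace.exp_continuous.comp (continuous_const_smul _)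

theorem LIE_sum {A : Type} [CStarAlgebra A] (h1 : S_TROT) (x y : A) {K K' : A}
    (hK : K ∈ LL x y) (hK' : K' ∈ LL x y) : K + K' ∈ LL x y := by
  refine ⟨by rw [star_add, hK.1, hK'.1], fun r => ?_⟩
  have h3 := h1 A (((r : ℂ) * Complex.I) • K) (((r : ℂ) * Complex.I) • K')
  have e : ex r (K + K') = NormedSpace.exp (((r : ℂ) * Complex.I) • K + ((r : ℂ) * Complex.I) • K') := by
    unfold ex
    rw [smul_add]
  rw [e]
  refine (LIE_closed x y).mem_of_tendsto h3 (Filter.Eventually.of_forall fun n => ?_)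
  have e1 : ∀ Z : A, NormedSpace.exp ((1 / (n : ℂ)) • (((r : ℂ) * Complex.I) • Z)) = ex (r / n) Z := by
    intro Z
    unfold ex
    rw [smul_smul]
    congr 2
    push_cast
    ring
  rw [e1, e1]
  exact LIE_pow x y (LIE_mul x y (hK.2 _) (hK'.2 _)) n

theorem LIE_conj {A : Type} [CStarAlgebra A] (h2 : S_EX) (x y : A) (hx : star x = x)
    (hy : star y = y) {V K : A} (hV : V ∈ GG x y) (hK : K ∈ LL x y) :
    V * K * star V ∈ LL x y := by
  refine ⟨by rw [star_mul, star_mul, star_star, hK.1, mul_assoc], fun r => ?_⟩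
  have h3 := (h2 A K K hK.1 hK.1).2.2.2.2.2.2.2.2.1 r ⟨V, LIE_unit h2 x y hx hy hV⟩
  have h4 : ex r (V * K * star V) = V * ex r K * star V := h3
  rw [h4]
  exact LIE_mul x y (LIE_mul x y hV (hK.2 r)) (LIE_star h2 x y hx hy hV)

/-- properties of the Lie algebra -/
theorem t_LIE (h1 : S_TROT) (h2 : S_EX) : S_LIE := by
  intro A _ x y hx hy
  refine ⟨⟨⟨hx, fun r => LIE_gx x y r⟩, ⟨hy, fun r => LIE_gy x y r⟩⟩,
    fun K hK K' hK' => LIE_sum h1 x y hK hK', ?_, ?_, ?_,
    fun V hV => LIE_unit h2 x y hx hy hV, LIE_one x y,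
    fun V hV V' hV' => LIE_mul x y hV hV', ?_, ?_⟩
  · intro r K hK
    refine ⟨?_, fun t => ?_⟩
    · rw [star_smul, hK.1]
      congr 1
      exact Complex.conj_ofReal r
    · rw [(h2 A K K hK.1 hK.1).2.2.2.2.1 t r]
      exact hK.2 _
  · have e : LL x y = {K : A | star K = K} ∩ ⋂ r : ℝ, (fun K : A => ex r K) ⁻¹' GG x y := by
      ext K
      simp only [LL, Set.mem_ofPred_eq, Set.mem_inter_iff, Set.mem_iInter, Set.mem_preimage]
    rw [e]
    exact (isClosed_eq continuous_star continuous_id).inter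
      (isClosed_iInter fun r => (LIE_closed x y).preimage (LIE_excont r))
  · intro K hK K' hK' r
    rw [← (h2 A K K hK.1 hK.1).2.1 r]
    exact LIE_conj h2 x y hx hy (hK.2 r) hK'
  · intro x' hx' y' hy'
    refine closure_minimal ?_ (LIE_closed x y)
    have hle : LIE_M x' y' ≤ (LIE_M x y).topologicalClosure := by
      refine Submonoid.closure_le.2 ?_
      rintro V (⟨r, rfl⟩ | ⟨r, rfl⟩)
      · exact hx'.2 r
      · exact hy'.2 r
    exact hle
  · intro B _ Φ V hV
    have hc : Continuous Φ := AddMonoidHomClass.continuous_of_bound Φ 1 fun a => by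
      rw [one_mul]
      exact NonUnitalStarAlgHom.norm_apply_le Φ a
    have h3 : ∀ V ∈ LIE_M x y, Φ V ∈ LIE_M (Φ x) (Φ y) := by
      intro V hV
      unfold LIE_M at hV
      induction hV using Submonoid.closure_induction with
      | mem V hV =>
        rcases hV with ⟨r, rfl⟩ | ⟨r, rfl⟩
        · show Φ (ex r x) ∈ _
          rw [(h2 A x x hx hx).2.2.2.2.2.2.2.2.2.1 B Φ r]
          exact Submonoid.subset_closure (Or.inl ⟨r, rfl⟩)
        · show Φ (ex r y) ∈ _
          rw [(h2 A y y hy hy).2.2.2.2.2.2.2.2.2.1 B Φ r]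
          exact Submonoid.subset_closure (Or.inr ⟨r, rfl⟩)
      | one => rw [map_one]; exact (LIE_M (Φ x) (Φ y)).one_mem
      | mul a b _ _ ha hb => rw [map_mul]; exact (LIE_M (Φ x) (Φ y)).mul_mem ha hb
    exact map_mem_closure hc hV h3

end Pool.Agent.H308R2.CF
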