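import Pool.Agent.H308R2.CF.Stubs

/-! LIM: the limit (helper152) -/

namespace Pool.Agent.H308R2.CF

open Pool.Agent.H770R2.UL (TrSt n2)
open Pool.Agent.H581R.FF (GR bs ev jj vv kk act)
open Filter Topology

namespace LIMaux

variable {ι A : Type} [CStarAlgebra A]

open Classical in
/-- the family with the member `u` conjugated -/
noncomputable def tw (σ : Option ι → CI →⋆ₐ[ℂ] A) (u : ι) (W : unitary A) : ι → CI →⋆ₐ[ℂ] A :=
  fun j => if j = u then cj W (σ (some j)) else σ (some j)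

open Classical in
/-- the letters -/
noncomputable def TT (σ : Option ι → CI →⋆ₐ[ℂ] A) (u : ι) (x : A) (p : ι × CI) : A :=
  if p.1 = u then x * σ (some p.1) p.2 * star x else σ (some p.1) p.2

theorem TT_eq (σ : Option ι → CI →⋆ₐ[ℂ] A) (u : ι) (W : unitary A) (p : ι × CI) :
    TT σ u (W : A) p = tw σ u W p.1 p.2 := by
  unfold TT tw
  split_ifs <;> rfl

theorem cont (σ : Option ι → CI →⋆ₐ[ℂ] A) (u : ι) (P : FreeAlgebra ℂ (ι × CI)) :
    Continuous (fun x : A => FreeAlgebra.lift ℂ (TT σ u x) P) := by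
  induction P using FreeAlgebra.induction with
  | grade0 r => simpa using continuous_const
  | grade1 p =>
    simp only [FreeAlgebra.lift_ι_apply]
    unfold TT
    split_ifs
    · fun_prop
    · exact continuous_const
  | mul a b ha hb => simp only [map_mul]; exact ha.mul hb
  | add a b ha hb => simp only [map_add]; exact ha.add hb

theorem lift_mem (σ : Option ι → CI →⋆ₐ[ℂ] A) (u : ι) (W : unitary A)
    (P : FreeAlgebra ℂ (ι × CI)) :
    FreeAlgebra.lift ℂ (TT σ u (W : A)) P ∈ Cs (tw σ u W) := by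
  induction P using FreeAlgebra.induction with
  | grade0 r => simpa using algebraMap_mem (Cs (tw σ u W)) r
  | grade1 p =>
    rw [FreeAlgebra.lift_ι_apply, TT_eq]
    exact StarSubalgebra.le_topologicalClosure _
      ((le_iSup (fun j => (tw σ u W j).range) p.1) ⟨p.2, rfl⟩)
  | mul a b ha hb => rw [map_mul]; exact mul_mem ha hb
  | add a b ha hb => rw [map_add]; exact add_mem ha hb

theorem star_lift (σ : Option ι → CI →⋆ₐ[ℂ] A) (u : ι) (W : unitary A)
    (P : FreeAlgebra ℂ (ι × CI)) :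
    star (FreeAlgebra.lift ℂ (TT σ u (W : A)) P) ∈ (FreeAlgebra.lift ℂ (TT σ u (W : A))).range := by
  induction P using FreeAlgebra.induction with
  | grade0 r =>
    rw [AlgHom.commutes, ← algebraMap_star_comm]
    exact algebraMap_mem _ _
  | grade1 p =>
    refine ⟨FreeAlgebra.ι ℂ (p.1, star p.2), ?_⟩
    show FreeAlgebra.lift ℂ (TT σ u (W : A)) (FreeAlgebra.ι ℂ (p.1, star p.2)) = _
    rw [FreeAlgebra.lift_ι_apply, FreeAlgebra.lift_ι_apply, TT_eq, TT_eq, map_star]
  | mul a b ha hb => rw [map_mul, star_mul]; exact mul_mem hb ha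
  | add a b ha hb => rw [map_add, star_add]; exact add_mem ha hb

theorem approx (σ : Option ι → CI →⋆ₐ[ℂ] A) (u : ι) (W : unitary A) (c : A)
    (hc : c ∈ Cs (tw σ u W)) (ε : ℝ) (hε : 0 < ε) :
    ∃ P : FreeAlgebra ℂ (ι × CI), ‖FreeAlgebra.lift ℂ (TT σ u (W : A)) P - c‖ < ε := by
  let S : StarSubalgebra ℂ A :=
    { (FreeAlgebra.lift ℂ (TT σ u (W : A))).range with
      star_mem' := by
        rintro _ ⟨P, rfl⟩
        exact star_lift σ u W P }
  have h1 : (⨆ j, (tw σ u W j).range) ≤ S := by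
    refine iSup_le fun j => ?_
    rintro _ ⟨f, rfl⟩
    refine ⟨FreeAlgebra.ι ℂ (j, f), ?_⟩
    show FreeAlgebra.lift ℂ (TT σ u (W : A)) (FreeAlgebra.ι ℂ (j, f)) = _
    rw [FreeAlgebra.lift_ι_apply, TT_eq]
    rfl
  have h2 : c ∈ closure (((⨆ j, (tw σ u W j).range) : StarSubalgebra ℂ A) : Set A) := hc
  obtain ⟨y, hy, hy'⟩ := Metric.mem_closure_iff.1 h2 ε hε
  obtain ⟨P, hP⟩ := h1 hy
  refine ⟨P, ?_⟩
  have h3 : FreeAlgebra.lift ℂ (TT σ u (W : A)) P = y := hP
  rw [h3, ← dist_eq_norm, dist_comm]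
  exact hy'

/-- the coordinate function -/
noncomputable def idI : CI := ⟨fun t => ((t : ℝ) : ℂ), by fun_prop⟩

/-- the coordinate function generates `C([0,1])` -/
theorem gen_id (S : StarSubalgebra ℂ A) (hS : IsClosed (S : Set A)) (ρ : CI →⋆ₐ[ℂ] A)
    (h : ρ idI ∈ S) (f : CI) : ρ f ∈ S := by
  have hρ : Continuous ρ := AddMonoidHomClass.continuous_of_bound ρ 1
    (by simpa using NonUnitalStarAlgHom.norm_apply_le ρ)
  have hcl : IsClosed ((S.comap ρ : StarSubalgebra ℂ CI) : Set CI) := hS.preimage hρ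
  have hsep : (S.comap ρ).SeparatesPoints := by
    intro x y hxy
    refine ⟨idI, ⟨idI, h, rfl⟩, ?_⟩
    intro h'
    apply hxy
    have h1 : ((x : ℝ) : ℂ) = ((y : ℝ) : ℂ) := h'
    exact Subtype.ext (by exact_mod_cast h1)
  have htop := ContinuousMap.starSubalgebra_topologicalClosure_eq_top_of_separatesPoints _ hsep
  have h1 : f ∈ (S.comap ρ).topologicalClosure := by rw [htop]; trivial
  have h2 : (S.comap ρ).topologicalClosure ≤ S.comap ρ :=
    StarSubalgebra.topologicalClosure_minimal le_rfl hcl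
  exact h2 h1

theorem gp_sm (σ : Option ι → CI →⋆ₐ[ℂ] A) (w : FreeGroup ι) : gp (sm σ) w = gp σ (jj w) := by
  have h : gp (sm σ) = (gp σ).comp jj := by
    apply FreeGroup.ext_hom
    intro j
    simp [gp, jj]
  rw [h]
  rfl

theorem jj_ne (w : FreeGroup ι) (hw : w ≠ 1) : (jj w : FreeGroup (Option ι)) ≠ 1 := by
  classical
  intro h
  apply hw
  rcases isEmpty_or_nonempty ι with he | ⟨⟨i0⟩⟩
  · exact Subsingleton.elim _ _
  · have h1 : FreeGroup.map (fun o : Option ι => o.getD i0) (jj w) = w := by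
      unfold jj
      rw [FreeGroup.map.comp]
      have : (fun o : Option ι => o.getD i0) ∘ some = id := rfl
      rw [this, FreeGroup.map.id]
    rw [← h1, h, map_one]

theorem gp_lim (σ : Option ι → CI →⋆ₐ[ℂ] A) (u : ι) (Wk : ℕ → unitary A) (W : unitary A)
    (h : Tendsto (fun k => (Wk k : A)) atTop (𝓝 (W : A))) (w : FreeGroup ι) :
    Tendsto (fun k => (gp (tw σ u (Wk k)) w : A)) atTop (𝓝 (gp (tw σ u W) w : A)) := by
  have hof : ∀ j : ι, Tendsto (fun k => (gp (tw σ u (Wk k)) (FreeGroup.of j) : A)) atTop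
      (𝓝 (gp (tw σ u W) (FreeGroup.of j) : A)) := by
    intro j
    have e : ∀ V : unitary A, (gp (tw σ u V) (FreeGroup.of j) : A) =
        FreeAlgebra.lift ℂ (TT σ u (V : A)) (FreeAlgebra.ι ℂ (j, eI)) := by
      intro V
      rw [FreeAlgebra.lift_ι_apply, TT_eq]
      simp [gp, uu]
    simp only [e]
    exact ((cont σ u (FreeAlgebra.ι ℂ (j, eI))).tendsto _).comp h
  induction w using FreeGroup.induction_on with
  | C1 => simpa using tendsto_const_nhds
  | of j => exact hof j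
  | inv_of j _ =>
    have := (hof j).star
    have e : ∀ V : unitary A, (gp (tw σ u V) (FreeGroup.of j)⁻¹ : A) =
        star (gp (tw σ u V) (FreeGroup.of j) : A) := by
      intro V
      rw [map_inv]
      rfl
    simp only [e]
    exact this
  | mul x y hx hy =>
    simp only [map_mul]
    exact hx.mul hy

/-- the good unitaries -/
def MM (φ : TrSt A) (σ : Option ι → CI →⋆ₐ[ℂ] A) (u : ι) : Set A :=
  {V | ∃ W : unitary A, (W : A) = V ∧ ∃ σ' : Option ι → CI →⋆ₐ[ℂ] A, FSG φ σ' ∧ sm σ' = tw σ u W}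

theorem one_mem (φ : TrSt A) (σ : Option ι → CI →⋆ₐ[ℂ] A) (u : ι) (hσ : FSG φ σ) :
    (1 : A) ∈ MM φ σ u := by
  refine ⟨1, rfl, σ, hσ, ?_⟩
  funext j
  ext f
  unfold tw
  split_ifs
  · simp [cj_apply]
  · rfl

theorem stage (φ : TrSt A) (σ : Option ι → CI →⋆ₐ[ℂ] A) (u : ι) (hS : StgAt u φ) (V : A)
    (hV : V ∈ MM φ σ u) (b : A) (ε : ℝ) (hε : 0 < ε) :
    ∃ V' ∈ MM φ σ u, ‖V' - V‖ < ε ∧ ∃ P : FreeAlgebra ℂ (ι × CI),
      ‖FreeAlgebra.lift ℂ (TT σ u V') P - b‖ < ε := by
  obtain ⟨W, rfl, σ', hσ', hsm⟩ := hV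
  obtain ⟨W1, σ'', h1, h2, h3, h4, b', hb', hbb⟩ := hS σ' hσ' b (ε / 2) (half_pos hε)
  have e : sm σ'' = tw σ u (W1 * W) := by
    funext j
    have hj : σ' (some j) = tw σ u W j := congrFun hsm j
    show σ'' (some j) = _
    by_cases hju : j = u
    · subst hju
      rw [h3, hj]
      ext f
      simp only [tw, if_true, cj_apply, Submonoid.coe_mul, star_mul, mul_assoc]
    · rw [h2 j hju, hj]
      unfold tw
      rw [if_neg hju, if_neg hju]
  refine ⟨((W1 * W : unitary A) : A), ⟨W1 * W, rfl, σ'', h1, e⟩, ?_, ?_⟩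
  · have h5 : ((W1 * W : unitary A) : A) - (W : A) = ((W1 : A) - 1) * (W : A) := by
      rw [sub_mul, one_mul, Submonoid.coe_mul]
    rw [h5, CStarRing.norm_mul_coe_unitary]
    linarith
  · rw [e] at hb'
    obtain ⟨P, hP⟩ := approx σ u (W1 * W) b' hb' (ε / 2) (half_pos hε)
    refine ⟨P, ?_⟩
    have h6 : FreeAlgebra.lift ℂ (TT σ u ((W1 * W : unitary A) : A)) P - b =
        (FreeAlgebra.lift ℂ (TT σ u ((W1 * W : unitary A) : A)) P - b') + (b' - b) := by abel
    rw [h6]
    refine (norm_add_le _ _).trans_lt ?_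
    linarith

theorem baire (φ : TrSt A) (σ : Option ι → CI →⋆ₐ[ℂ] A) (u : ι) (hσ : FSG φ σ)
    (hS : StgAt u φ) (b : Bool → A) : ∃ V ∈ closure (MM φ σ u), ∀ (i : Bool) (n : ℕ),
      ∃ P : FreeAlgebra ℂ (ι × CI), ‖FreeAlgebra.lift ℂ (TT σ u V) P - b i‖ < 1 / ((n : ℝ) + 1) := by
  have hcl : IsClosed (closure (MM φ σ u)) := isClosed_closure
  haveI : CompleteSpace (closure (MM φ σ u)) := hcl.completeSpace_coe
  haveI : Nonempty (closure (MM φ σ u)) := ⟨⟨1, subset_closure (one_mem φ σ u hσ)⟩⟩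
  have hopen : ∀ q : Bool × ℕ, IsOpen {V : closure (MM φ σ u) |
      ∃ P : FreeAlgebra ℂ (ι × CI),
        ‖FreeAlgebra.lift ℂ (TT σ u (V : A)) P - b q.1‖ < 1 / ((q.2 : ℝ) + 1)} := by
    intro q
    have e : {V : closure (MM φ σ u) | ∃ P : FreeAlgebra ℂ (ι × CI),
        ‖FreeAlgebra.lift ℂ (TT σ u (V : A)) P - b q.1‖ < 1 / ((q.2 : ℝ) + 1)} =
        ⋃ P : FreeAlgebra ℂ (ι × CI), {V : closure (MM φ σ u) |
          ‖FreeAlgebra.lift ℂ (TT σ u (V : A)) P - b q.1‖ < 1 / ((q.2 : ℝ) + 1)} := by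
      ext V
      simp
    rw [e]
    refine isOpen_iUnion fun P => isOpen_lt ?_ continuous_const
    exact (((cont σ u P).comp continuous_subtype_val).sub continuous_const).norm
  have hdense : ∀ q : Bool × ℕ, Dense {V : closure (MM φ σ u) |
      ∃ P : FreeAlgebra ℂ (ι × CI),
        ‖FreeAlgebra.lift ℂ (TT σ u (V : A)) P - b q.1‖ < 1 / ((q.2 : ℝ) + 1)} := by
    intro q
    rw [Metric.dense_iff]
    intro V r hr
    obtain ⟨V1, hV1, hd⟩ := Metric.mem_closure_iff.1 V.2 (r / 2) (half_pos hr)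
    have hq : (0:ℝ) < 1 / ((q.2 : ℝ) + 1) := by positivity
    obtain ⟨V2, hV2, h1, P, hP⟩ := stage φ σ u hS V1 hV1 (b q.1) (min (r / 2) (1 / ((q.2 : ℝ) + 1)))
      (lt_min (half_pos hr) hq)
    refine ⟨⟨V2, subset_closure hV2⟩, ?_, P, hP.trans_le (min_le_right _ _)⟩
    rw [Metric.mem_ball, Subtype.dist_eq]
    have h2 : dist V2 V1 < r / 2 := by
      rw [dist_eq_norm]
      exact h1.trans_le (min_le_left _ _)
    calc dist V2 (V : A) ≤ dist V2 V1 + dist V1 (V : A) := dist_triangle _ _ _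
      _ < r / 2 + r / 2 := add_lt_add h2 (by rw [dist_comm]; exact hd)
      _ = r := add_halves r
  obtain ⟨V, hV⟩ := (dense_iInter_of_isOpen hopen hdense).nonempty
  refine ⟨V, V.2, fun i n => ?_⟩
  exact Set.mem_iInter.1 hV (i, n)

end LIMaux

open LIMaux in
theorem t_LIM : S_LIM := by
  intro ι A _ u φ hS σ hσ
  obtain ⟨V, hV, hb⟩ := baire φ σ u hσ hS (fun i => if i then σ none idI else σ (some u) idI)
  obtain ⟨x, hx, hxV⟩ := mem_closure_iff_seq_limit.1 hV
  choose Wk hWk σk hσk hsm using hx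
  have hlim : Tendsto (fun k => (Wk k : A)) atTop (𝓝 V) := by
    simp only [hWk]
    exact hxV
  have hVu : V ∈ unitary A := by
    rw [Unitary.mem_iff]
    constructor
    · refine tendsto_nhds_unique (hlim.star.mul hlim) ?_
      simpa using tendsto_const_nhds
    · refine tendsto_nhds_unique (hlim.mul hlim.star) ?_
      simpa using tendsto_const_nhds
  obtain ⟨W, hW⟩ : ∃ W : unitary A, (W : A) = V := ⟨⟨V, hVu⟩, rfl⟩
  rw [← hW] at hlim hb
  refine ⟨tw σ u W, hσ.fai, ⟨?_, ?_⟩, ?_⟩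
  · intro j f
    unfold tw
    split_ifs
    · rw [cj_apply, φ.tr, ← mul_assoc, Unitary.coe_star_mul_self, one_mul]
      exact hσ.sys.mar (some j) f
    · exact hσ.sys.mar (some j) f
  · intro w hw
    have h1 := ((Pool.Agent.H770R2.UL.continuous_toFun φ).tendsto _).comp (gp_lim σ u Wk W hlim w)
    refine tendsto_nhds_unique h1 ?_
    have h2 : ∀ k, φ.toFun (gp (tw σ u (Wk k)) w : A) = 0 := by
      intro k
      rw [← hsm k, gp_sm]
      exact (hσk k).sys.free _ (jj_ne w hw)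
    have h3 : (⇑φ.toFun ∘ fun k => (gp (tw σ u (Wk k)) w : A)) = fun _ => 0 := funext h2
    rw [h3]
    exact tendsto_const_nhds
  · have hcl : IsClosed ((Cs (tw σ u W) : StarSubalgebra ℂ A) : Set A) :=
      StarSubalgebra.isClosed_topologicalClosure _
    have hmem : ∀ i : Bool, (if i then σ none idI else σ (some u) idI) ∈ Cs (tw σ u W) := by
      intro i
      have : (if i then σ none idI else σ (some u) idI) ∈
          closure ((Cs (tw σ u W) : StarSubalgebra ℂ A) : Set A) := by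
        rw [Metric.mem_closure_iff]
        intro ε hε
        obtain ⟨n, hn⟩ := exists_nat_one_div_lt hε
        obtain ⟨P, hP⟩ := hb i n
        refine ⟨_, lift_mem σ u W P, ?_⟩
        rw [dist_comm, dist_eq_norm]
        exact hP.trans hn
      rwa [hcl.closure_eq] at this
    have h1 : (⨆ j, (σ j).range) ≤ Cs (tw σ u W) := by
      refine iSup_le fun j => ?_
      rintro _ ⟨f, rfl⟩
      rcases j with _ | j
      · exact gen_id _ hcl (σ none) (hmem true) f
      · by_cases hj : j = u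
        · subst hj
          exact gen_id _ hcl (σ (some j)) (hmem false) f
        · refine StarSubalgebra.le_topologicalClosure _
            ((le_iSup (fun j => (tw σ u W j).range) j) ⟨f, ?_⟩)
          show tw σ u W j f = σ (some j) f
          unfold tw
          rw [if_neg hj]
    have h2 : Cs σ ≤ Cs (tw σ u W) := StarSubalgebra.topologicalClosure_minimal h1 hcl
    rw [hσ.gen] at h2
    exact top_le_iff.1 h2

end Pool.Agent.H308R2.CF
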