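import Pool.Agent.H308R2.CF.Stubs
set_option autoImplicit false

namespace Pool.Agent.H308R2.CF

theorem lvl_norm_le {A : Type} [CStarAlgebra A] (U : A) (hU : U ∈ unitary A) : ‖U‖ ≤ 1 := by
  rcases subsingleton_or_nontrivial A with h | h
  · have : U = 0 := Subsingleton.elim _ _
    rw [this, norm_zero]
    norm_num
  · exact (CStarRing.norm_of_mem_unitary hU).le

theorem lvl_mul {A : Type} [CStarAlgebra A] (U U' V V' : A) (hU' : ‖U'‖ ≤ 1) (hV : ‖V‖ ≤ 1) :
    ‖U * V - U' * V'‖ ≤ ‖U - U'‖ + ‖V - V'‖ := by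
  have h : U * V - U' * V' = (U - U') * V + U' * (V - V') := by noncomm_ring
  rw [h]
  refine (norm_add_le _ _).trans (add_le_add ?_ ?_)
  · refine (norm_mul_le _ _).trans ?_
    exact mul_le_of_le_one_right (norm_nonneg _) hV
  · refine (norm_mul_le _ _).trans ?_
    exact mul_le_of_le_one_left (norm_nonneg _) hU'

theorem t_LVL (h1 : S_EX) : S_LVL := by
  intro l
  induction l with
  | nil =>
    refine ⟨0, le_rfl, ?_⟩
    intro A _ x y x' y' _ _ _ _
    refine ⟨?_, ?_, ?_⟩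
    · exact one_mem _
    · simp [Vl]
    · intro Q
      simp [Vl]
  | cons p l ih =>
    obtain ⟨C, hC, h2⟩ := ih
    refine ⟨C + (|p.1| + |p.2|), by positivity, ?_⟩
    intro A _ x y x' y' hx hy hx' hy'
    obtain ⟨h3, h4, h5⟩ := h2 A x y x' y' hx hy hx' hy'
    obtain ⟨ax, -, -, -, -, -, bx, -, cx, -⟩ := h1 A x x' hx hx'
    obtain ⟨ay, -, -, -, -, -, bz, -, cy, -⟩ := h1 A y y' hy hy'
    obtain ⟨ax', -⟩ := h1 A x' x' hx' hx'
    obtain ⟨ay', -⟩ := h1 A y' y' hy' hy'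
    refine ⟨?_, ?_, ?_⟩
    · exact mul_mem (mul_mem (ax _) (ay _)) h3
    · have e1 : ‖Vl x y (p :: l) - Vl x' y' (p :: l)‖ ≤
          (‖ex p.1 x - ex p.1 x'‖ + ‖ex p.2 y - ex p.2 y'‖) + ‖Vl x y l - Vl x' y' l‖ := by
        refine (lvl_mul (ex p.1 x * ex p.2 y) (ex p.1 x' * ex p.2 y') (Vl x y l) (Vl x' y' l)
          (lvl_norm_le _ (mul_mem (ax' _) (ay' _))) (lvl_norm_le _ h3)).trans ?_
        gcongr
        exact lvl_mul _ _ _ _ (lvl_norm_le _ (ax' _)) (lvl_norm_le _ (ay _))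
      have e2 := bx p.1
      have e3 := bz p.2
      have n1 := norm_nonneg (x - x')
      have n2 := norm_nonneg (y - y')
      have n3 : 0 ≤ |p.1| * ‖y - y'‖ := by positivity
      have n4 : 0 ≤ |p.2| * ‖x - x'‖ := by positivity
      calc _ ≤ _ := e1
        _ ≤ (|p.1| * ‖x - x'‖ + |p.2| * ‖y - y'‖) + C * (‖x - x'‖ + ‖y - y'‖) := by gcongr
        _ ≤ _ := by linarith
    · intro Q
      show ex p.1 _ * ex p.2 _ * Vl _ _ l = (Q : A) * (ex p.1 x * ex p.2 y * Vl x y l) * star (Q : A)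
      rw [h5 Q, cx p.1 Q, cy p.2 Q]
      have hQ : star (Q : A) * (Q : A) = 1 := Unitary.coe_star_mul_self Q
      calc (Q : A) * ex p.1 x * star (Q : A) * ((Q : A) * ex p.2 y * star (Q : A)) *
            ((Q : A) * Vl x y l * star (Q : A))
          = (Q : A) * ex p.1 x * (star (Q : A) * (Q : A)) * ex p.2 y * (star (Q : A) * (Q : A)) *
            Vl x y l * star (Q : A) := by noncomm_ring
        _ = _ := by
          rw [hQ]
          noncomm_ring

end Pool.Agent.H308R2.CF
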