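import Mathlib
import Pool.Agent.H308R2.CF.Stubs

/-! Assembly of the main theorem. -/

namespace Pool.Agent.H308R2.CF

open Pool.Agent.H770R2.UL (TrSt n2)

/-- reindexing of a system -/
theorem main_gp {κ κ' A : Type} [CStarAlgebra A] (e : κ' → κ) (σ : κ → CI →⋆ₐ[ℂ] A)
    (w : FreeGroup κ') : gp (fun j => σ (e j)) w = gp σ (FreeGroup.map e w) := by
  have h : gp (fun j => σ (e j)) = (gp σ).comp (FreeGroup.map e) := by
    ext j
    simp [gp]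
  rw [h]
  rfl

theorem main_reindex {κ κ' A : Type} [CStarAlgebra A] (φ : TrSt A) (e : κ' ≃ κ)
    (σ : κ → CI →⋆ₐ[ℂ] A) (h : FSG φ σ) : FSG φ (fun j => σ (e j)) := by
  refine ⟨h.fai, ⟨fun j f => h.sys.mar (e j) f, ?_⟩, ?_⟩
  · intro w hw
    rw [main_gp]
    apply h.sys.free
    intro h1
    apply hw
    have h2 := congrArg (FreeGroup.map e.symm) h1
    rw [FreeGroup.map.comp] at h2
    simpa using h2
  · have h1 : (⨆ j, (σ (e j)).range) = ⨆ j, (σ j).range :=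
      Equiv.iSup_comp (g := fun j => (σ j).range) e
    have := h.gen
    unfold Cs at this ⊢
    rw [h1]
    exact this

theorem main_down (hABS : S_ABS) {A : Type} [CStarAlgebra A] (φ : TrSt A) :
    ∀ (n m : ℕ), 2 ≤ m → (∃ σ : Fin (m + n) → CI →⋆ₐ[ℂ] A, FSG φ σ) →
    ∃ σ : Fin m → CI →⋆ₐ[ℂ] A, FSG φ σ := by
  intro n
  induction n with
  | zero => intro m _ h; exact h
  | succ n ih =>
    intro m hm h
    have h1 : ∃ σ : Fin (m + 1) → CI →⋆ₐ[ℂ] A, FSG φ σ := by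
      apply ih (m + 1) (by omega)
      have h2 : m + 1 + n = m + (n + 1) := by ring
      rw [h2]
      exact h
    obtain ⟨σ, hσ⟩ := h1
    have h3 : FSG φ (fun j : Option (Fin m) => σ ((finSuccEquiv m).symm j)) :=
      main_reindex φ (finSuccEquiv m).symm σ hσ
    obtain ⟨τ, hτ⟩ := hABS (Fin m) A (⟨0, by omega⟩) (⟨1, by omega⟩) (by simp) φ _ h3
    exact ⟨τ, hτ⟩

theorem t_MAIN (hFREE1 : S_FREE1) (hABS : S_ABS) (hEQV : S_EQV) : S_MAIN := by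
  intro ℓ m hℓ hm A B _ _ φ ψ σ τ hσ hτ
  have h1 := hFREE1 _ _ _ _ hσ
  have h2 := hFREE1 _ _ _ _ hτ
  rcases le_total ℓ m with h | h
  · obtain ⟨n, rfl⟩ := Nat.exists_eq_add_of_le h
    obtain ⟨τ', hτ'⟩ := main_down hABS ψ n ℓ hℓ ⟨τ, h2⟩
    exact hEQV _ _ _ _ _ _ _ h1 hτ'
  · obtain ⟨n, rfl⟩ := Nat.exists_eq_add_of_le h
    obtain ⟨σ', hσ'⟩ := main_down hABS φ n m hm ⟨σ, h1⟩
    exact hEQV _ _ _ _ _ _ _ hσ' h2

end Pool.Agent.H308R2.CF
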