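import Mathlib
import Pool.Agent.H308R2.CF.TMAIN

/-! Assembly of the main theorem, with isomorphisms preserving the traces. -/

namespace Pool.Agent.H308R2.CF

open Pool.Agent.H770R2.UL (TrSt n2)

theorem eqv_tr (h : S_UNIQ) {κ A B : Type} [CStarAlgebra A] [CStarAlgebra B] (φ : TrSt A)
    (ψ : TrSt B) (σ : κ → CI →⋆ₐ[ℂ] A) (τ : κ → CI →⋆ₐ[ℂ] B) (hσ : FSG φ σ) (hτ : FSG ψ τ) :
    ∃ Φ : A ≃⋆ₐ[ℂ] B, ∀ a, ψ.toFun (Φ a) = φ.toFun a := by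
  obtain ⟨Φ, hn, ht, hj⟩ := h κ A B φ ψ σ τ hσ hτ.fai hτ.sys
  have hinj : Function.Injective Φ := by
    intro a b hab
    have h1 : ‖Φ (a - b)‖ = 0 := by rw [map_sub, hab, sub_self, norm_zero]
    rw [hn] at h1
    exact sub_eq_zero.1 (norm_eq_zero.1 h1)
  have hiso : Isometry Φ := AddMonoidHomClass.isometry_of_norm Φ hn
  have hclosed : IsClosed ((Φ.range : StarSubalgebra ℂ B) : Set B) := by
    have : ((Φ.range : StarSubalgebra ℂ B) : Set B) = Set.range Φ := rfl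
    rw [this]
    exact hiso.isClosedEmbedding.isClosed_range
  have hle : (⨆ j, (τ j).range) ≤ Φ.range := by
    refine iSup_le fun j => ?_
    rintro x ⟨f, rfl⟩
    exact ⟨σ j f, hj j f⟩
  have htop : (⊤ : StarSubalgebra ℂ B) ≤ Φ.range := by
    have h1 : Cs τ = ⊤ := hτ.gen
    rw [← h1]
    exact StarSubalgebra.topologicalClosure_minimal hle hclosed
  have hsurj : Function.Surjective Φ := by
    intro b
    obtain ⟨a, ha⟩ := htop (show b ∈ (⊤ : StarSubalgebra ℂ B) from StarSubalgebra.mem_top)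
    exact ⟨a, ha⟩
  exact ⟨StarAlgEquiv.ofBijective Φ ⟨hinj, hsurj⟩, ht⟩

theorem t_MAIN2 (hFREE1 : S_FREE1) (hABS : S_ABS) (hUNIQ : S_UNIQ) :
    ∀ (ℓ m : ℕ), 2 ≤ ℓ → 2 ≤ m → ∀ (A B : Type) [CStarAlgebra A] [CStarAlgebra B]
      (φ : TrSt A) (ψ : TrSt B) (σ : Fin ℓ → CI →⋆ₐ[ℂ] A) (τ : Fin m → CI →⋆ₐ[ℂ] B),
      FreePow φ σ → FreePow ψ τ → ∃ Φ : A ≃⋆ₐ[ℂ] B, ∀ a, ψ.toFun (Φ a) = φ.toFun a := by
  intro ℓ m hℓ hm A B _ _ φ ψ σ τ hσ hτ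
  have h1 := hFREE1 _ _ _ _ hσ
  have h2 := hFREE1 _ _ _ _ hτ
  rcases le_total ℓ m with h | h
  · obtain ⟨n, rfl⟩ := Nat.exists_eq_add_of_le h
    obtain ⟨τ', hτ'⟩ := main_down hABS ψ n ℓ hℓ ⟨τ, h2⟩
    exact eqv_tr hUNIQ _ _ _ _ h1 hτ'
  · obtain ⟨n, rfl⟩ := Nat.exists_eq_add_of_le h
    obtain ⟨σ', hσ'⟩ := main_down hABS φ n m hm ⟨σ, h1⟩
    exact eqv_tr hUNIQ _ _ _ _ hσ' h2

end Pool.Agent.H308R2.CF
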