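import Pool.Agent.H308R2.CF.Stubs
import Pool.Agent.H770R2.FA.Ev

/-! Task MOM: the mixed moments of two systems agree. -/

namespace Pool.Agent.H308R2.CF

open Pool.Agent.H770R2.UL (TrSt n2 n2_sq n2_nonneg n2_star n2_le_norm cauchy)
open Pool.Agent.H770R2.FA (StdA phi_ev)
open Pool.Agent.H581R.FF (GR bs ev jj vv kk act)
open scoped ComplexConjugate

namespace MOMaux

theorem norm_le {A : Type} [CStarAlgebra A] (φ : TrSt A) (P x Q : A) :
    ‖φ.toFun (P * x * Q)‖ ≤ ‖P‖ * ‖Q‖ * n2 φ x := by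
  have h1 : φ.toFun (P * x * Q) = φ.toFun (star (star (Q * P)) * x) := by
    rw [φ.tr, star_star, mul_assoc Q P x]
  rw [h1]
  refine (cauchy φ _ _).trans ?_
  refine mul_le_mul_of_nonneg_right ?_ (n2_nonneg φ x)
  refine (n2_le_norm φ _).trans ?_
  rw [norm_star, mul_comm ‖P‖]
  exact norm_mul_le _ _

theorem n2_sig {A : Type} [CStarAlgebra A] (φ : TrSt A) (σ : CI →⋆ₐ[ℂ] A)
    (h : ∀ f, φ.toFun (σ f) = ∫ x : unitInterval, f x) (g : CI) :
    n2 φ (σ g) ^ 2 = ∫ x : unitInterval, ‖g x‖ ^ 2 := by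
  rw [n2_sq, ← map_star, ← map_mul, h]
  have e : ∀ x : unitInterval, (star g * g) x = ((‖g x‖ ^ 2 : ℝ) : ℂ) := by
    intro x
    show (starRingEnd ℂ) (g x) * g x = _
    rw [← Complex.normSq_eq_conj_mul_self, Complex.normSq_eq_norm_sq]
  simp only [e]
  rw [integral_complex_ofReal, Complex.ofReal_re]

/-- the element of the group ring which corresponds to `σ_j(tp q)` -/
noncomputable def G {κ : Type} (p : κ × (ℤ →₀ ℂ)) : GR κ :=
  p.2.sum fun m s => MonoidAlgebra.single ((FreeGroup.of p.1) ^ m) s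

theorem ev_G (hTP : S_TP) {κ A : Type} [CStarAlgebra A] (σ : κ → CI →⋆ₐ[ℂ] A)
    (p : κ × (ℤ →₀ ℂ)) : ev (gp σ) (G p) = σ p.1 (tp p.2) := by
  rw [hTP.1 A (σ p.1) p.2]
  unfold G Finsupp.sum
  rw [map_sum]
  refine Finset.sum_congr rfl fun m _ => ?_
  unfold ev
  rw [MonoidAlgebra.lift_single]
  congr 1
  simp [gp]

theorem ev_prod (hTP : S_TP) {κ A : Type} [CStarAlgebra A] (σ : κ → CI →⋆ₐ[ℂ] A)
    (l : List (κ × (ℤ →₀ ℂ))) :
    ev (gp σ) ((l.map G).prod) = (l.map fun p => σ p.1 (tp p.2)).prod := by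
  rw [map_list_prod, List.map_map]
  congr 1
  refine List.map_congr_left fun p _ => ?_
  exact ev_G hTP σ p

theorem main (hFEJ : S_FEJ) (hTP : S_TP) {κ A B : Type} [CStarAlgebra A] [CStarAlgebra B]
    (φ : TrSt A) (ψ : TrSt B) (σ : κ → CI →⋆ₐ[ℂ] A) (τ : κ → CI →⋆ₐ[ℂ] B) (hσ : Sys φ σ)
    (hτ : Sys ψ τ) (l : List (κ × CI)) : ∀ l₁ : List (κ × (ℤ →₀ ℂ)),
    φ.toFun ((l₁.map fun p => σ p.1 (tp p.2)).prod * (l.map fun p => σ p.1 p.2).prod) =
      ψ.toFun ((l₁.map fun p => τ p.1 (tp p.2)).prod * (l.map fun p => τ p.1 p.2).prod) := by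
  induction l with
  | nil =>
    intro l₁
    simp only [List.map_nil, List.prod_nil, mul_one]
    rw [← ev_prod hTP σ l₁, ← ev_prod hTP τ l₁, phi_ev φ (gp σ) hσ.free, phi_ev ψ (gp τ) hτ.free]
  | cons p l ih =>
    intro l₁
    obtain ⟨j, f⟩ := p
    simp only [List.map_cons, List.prod_cons]
    set P := (l₁.map fun p => σ p.1 (tp p.2)).prod with hP
    set P' := (l₁.map fun p => τ p.1 (tp p.2)).prod with hP'
    set Q := (l.map fun p => σ p.1 p.2).prod with hQ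
    set Q' := (l.map fun p => τ p.1 p.2).prod with hQ'
    set M : ℝ := ‖P‖ * ‖Q‖ + ‖P'‖ * ‖Q'‖ with hM
    have hM0 : 0 ≤ M := by positivity
    rw [← sub_eq_zero, ← norm_eq_zero]
    refine le_antisymm (le_of_forall_pos_le_add fun ε hε => ?_) (norm_nonneg _)
    rw [zero_add]
    -- choose the approximation
    set δ : ℝ := ε / (M + 1) with hδ
    have hδ0 : 0 < δ := by positivity
    obtain ⟨q, -, -, -, hq⟩ := hFEJ f (δ ^ 2) (by positivity)
    have hn : ∀ (C : Type) [CStarAlgebra C] (χ : TrSt C) (ρ : CI →⋆ₐ[ℂ] C),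
        (∀ f, χ.toFun (ρ f) = ∫ x : unitInterval, f x) → n2 χ (ρ (f - tp q)) ≤ δ := by
      intro C _ χ ρ hρ
      have h1 := n2_sig χ ρ hρ (f - tp q)
      have h2 : n2 χ (ρ (f - tp q)) ^ 2 < δ ^ 2 := by
        rw [h1]
        exact hq
      exact (le_abs_self _).trans (abs_le_of_sq_le_sq h2.le hδ0.le)
    have h1 := hn A φ (σ j) (hσ.mar j)
    have h2 := hn B ψ (τ j) (hτ.mar j)
    have h3 := ih (l₁ ++ [(j, q)])
    simp only [List.map_append, List.map_cons, List.map_nil, List.prod_append, List.prod_cons,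
      List.prod_nil, mul_one] at h3
    rw [← hP, ← hP'] at h3
    have e1 : φ.toFun (P * (σ j f * Q)) = φ.toFun (P * σ j (tp q) * Q) +
        φ.toFun (P * σ j (f - tp q) * Q) := by
      rw [← map_add, map_sub]
      congr 1
      noncomm_ring
    have e2 : ψ.toFun (P' * (τ j f * Q')) = ψ.toFun (P' * τ j (tp q) * Q') +
        ψ.toFun (P' * τ j (f - tp q) * Q') := by
      rw [← map_add, map_sub]
      congr 1
      noncomm_ring
    rw [e1, e2, h3, add_sub_add_left_eq_sub]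
    refine (norm_sub_le _ _).trans ?_
    have b1 := norm_le φ P (σ j (f - tp q)) Q
    have b2 := norm_le ψ P' (τ j (f - tp q)) Q'
    have b3 : ‖P‖ * ‖Q‖ * n2 φ (σ j (f - tp q)) ≤ ‖P‖ * ‖Q‖ * δ :=
      mul_le_mul_of_nonneg_left h1 (by positivity)
    have b4 : ‖P'‖ * ‖Q'‖ * n2 ψ (τ j (f - tp q)) ≤ ‖P'‖ * ‖Q'‖ * δ :=
      mul_le_mul_of_nonneg_left h2 (by positivity)
    have b5 : M * δ ≤ ε := by
      rw [hδ, mul_div_assoc', div_le_iff₀ (by positivity)]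
      nlinarith
    have b6 : M * δ = ‖P‖ * ‖Q‖ * δ + ‖P'‖ * ‖Q'‖ * δ := by rw [hM]; ring
    linarith

end MOMaux

/-- MOM (from FEJ, TP) -/
theorem t_MOM (h1 : S_FEJ) (h2 : S_TP) : S_MOM := by
  intro κ A B _ _ φ ψ σ τ hσ hτ l
  have h := MOMaux.main h1 h2 φ ψ σ τ hσ hτ l []
  simpa using h

end Pool.Agent.H308R2.CF
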