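import Mathlib
import Pool.Agent.H308R2.CF.Stubs

/-! The second move: conjugating the member `none` by a unitary of the algebra generated by the
other members gives a free generating family again. -/

namespace Pool.Agent.H308R2.CF

open Pool.Agent.H770R2.UL (TrSt n2)
open Pool.Agent.H581R.FF (GR bs ev jj vv kk act)

/-- alternating form of an element of the free group over `Option ι` -/
def mv2P {ι : Type} (w : FreeGroup (Option ι)) : Prop :=
  (∃ g : FreeGroup ι, w = jj g) ∨
    ∃ (g0 g : FreeGroup ι) (l : List (ℤ × FreeGroup ι)) (m : ℤ), (∀ p ∈ l, p.1 ≠ 0 ∧ p.2 ≠ 1) ∧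
      m ≠ 0 ∧ w = jj g0 * (l.map fun p => vv ^ p.1 * jj p.2).prod * vv ^ m * jj g

theorem mv2_stepJ {ι : Type} (h : FreeGroup ι) (w : FreeGroup (Option ι)) (hw : mv2P w) :
    mv2P (jj h * w) := by
  rcases hw with ⟨g, rfl⟩ | ⟨g0, g, l, m, hl, hm, rfl⟩
  · exact Or.inl ⟨h * g, by rw [map_mul]⟩
  · refine Or.inr ⟨h * g0, g, l, m, hl, hm, ?_⟩
    rw [map_mul]
    simp only [mul_assoc]

theorem mv2_stepV {ι : Type} (e : ℤ) (w : FreeGroup (Option ι)) (hw : mv2P w) :
    mv2P (vv ^ e * w) := by
  by_cases he : e = 0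
  · rw [he, zpow_zero, one_mul]
    exact hw
  rcases hw with ⟨g, rfl⟩ | ⟨g0, g, l, m, hl, hm, rfl⟩
  · refine Or.inr ⟨1, g, [], e, ?_, he, ?_⟩
    · intro p hp
      simp at hp
    · simp
  · by_cases h0 : g0 = 1
    · subst h0
      cases l with
      | nil =>
        by_cases h1 : e + m = 0
        · refine Or.inl ⟨g, ?_⟩
          have : (vv : FreeGroup (Option ι)) ^ e * vv ^ m = 1 := by
            rw [← zpow_add, h1, zpow_zero]
          simp only [map_one, List.map_nil, List.prod_nil, one_mul]
          rw [← mul_assoc, this, one_mul]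
        · refine Or.inr ⟨1, g, [], e + m, ?_, h1, ?_⟩
          · intro p hp
            simp at hp
          · simp only [map_one, List.map_nil, List.prod_nil, one_mul]
            rw [zpow_add, mul_assoc]
      | cons p l' =>
        have hp := hl p (by simp)
        have hl' : ∀ q ∈ l', q.1 ≠ 0 ∧ q.2 ≠ 1 := fun q hq => hl q (by simp [hq])
        by_cases h1 : e + p.1 = 0
        · refine Or.inr ⟨p.2, g, l', m, hl', hm, ?_⟩
          have : (vv : FreeGroup (Option ι)) ^ e * vv ^ p.1 = 1 := by
            rw [← zpow_add, h1, zpow_zero]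
          simp only [map_one, List.map_cons, List.prod_cons, one_mul]
          simp only [← mul_assoc]
          rw [this, one_mul]
        · refine Or.inr ⟨1, g, (e + p.1, p.2) :: l', m, ?_, hm, ?_⟩
          · intro q hq
            rcases List.mem_cons.1 hq with rfl | hq
            · exact ⟨h1, hp.2⟩
            · exact hl' q hq
          · simp only [map_one, List.map_cons, List.prod_cons, one_mul]
            rw [zpow_add]
            simp only [mul_assoc]
    · refine Or.inr ⟨1, g, (e, g0) :: l, m, ?_, hm, ?_⟩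
      · intro q hq
        rcases List.mem_cons.1 hq with rfl | hq
        · exact ⟨he, h0⟩
        · exact hl q hq
      · simp only [map_one, List.map_cons, List.prod_cons, one_mul]
        simp only [mul_assoc]

theorem mv2_dec {ι : Type} (w : FreeGroup (Option ι)) : mv2P w := by
  have key : ∀ L : List (Option ι × Bool), mv2P (FreeGroup.mk L) := by
    intro L
    induction L with
    | nil =>
      refine Or.inl ⟨1, ?_⟩
      rw [map_one]
      rfl
    | cons x L ih =>
      have h1 : FreeGroup.mk (x :: L) = FreeGroup.mk [x] * FreeGroup.mk L := by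
        rw [FreeGroup.mul_mk]
        rfl
      rw [h1]
      rcases x with ⟨o, b⟩
      cases o with
      | none =>
        cases b with
        | false =>
          have h2 : FreeGroup.mk [((none : Option ι), false)] = vv ^ (-1 : ℤ) := by
            rw [zpow_neg_one]
            rfl
          rw [h2]
          exact mv2_stepV _ _ ih
        | true =>
          have h2 : FreeGroup.mk [((none : Option ι), true)] = vv ^ (1 : ℤ) := by
            rw [zpow_one]
            rfl
          rw [h2]
          exact mv2_stepV _ _ ih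
      | some j =>
        cases b with
        | false =>
          have h2 : FreeGroup.mk [(some j, false)] = jj (FreeGroup.of j)⁻¹ := by
            rw [map_inv]
            rfl
          rw [h2]
          exact mv2_stepJ _ _ ih
        | true =>
          have h2 : FreeGroup.mk [(some j, true)] = jj (FreeGroup.of j) := by
            rfl
          rw [h2]
          exact mv2_stepJ _ _ ih
  classical
  have := key w.toWord
  rwa [FreeGroup.mk_toWord] at this

theorem mv2_vpow {ι : Type} (m : ℤ) (hm : m ≠ 0) : (vv : FreeGroup (Option ι)) ^ m ≠ 1 := by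
  intro h
  let F : FreeGroup (Option ι) →* Multiplicative ℤ :=
    FreeGroup.lift (fun _ : Option ι => Multiplicative.ofAdd (1 : ℤ))
  have e1 : F (vv ^ m) = (F vv) ^ m := map_zpow F _ _
  have e2 : F vv = Multiplicative.ofAdd (1 : ℤ) := FreeGroup.lift_apply_of
  have h2 : F (vv ^ m) = 1 := by
    rw [h]
    exact F.map_one
  rw [e1, e2, ← ofAdd_zsmul] at h2
  have h3 := congrArg Multiplicative.toAdd h2
  rw [toAdd_ofAdd, smul_eq_mul, mul_one] at h3
  exact hm h3

theorem mv2_jj {ι : Type} (g : FreeGroup ι) (hg : g ≠ 1) : (jj g : FreeGroup (Option ι)) ≠ 1 := by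
  intro h
  have h2 := congrArg (FreeGroup.lift (fun o : Option ι => o.elim 1 FreeGroup.of)) h
  rw [map_one] at h2
  have h3 : (FreeGroup.lift (fun o : Option ι => o.elim 1 FreeGroup.of)).comp (jj (ι := ι)) =
      MonoidHom.id _ := by
    ext j
    simp
  have h4 := DFunLike.congr_fun h3 g
  simp only [MonoidHom.comp_apply, MonoidHom.id_apply] at h4
  rw [h4] at h2
  exact hg h2

theorem mv2_range_le {κ A : Type} [CStarAlgebra A] (σ : κ → CI →⋆ₐ[ℂ] A) (j : κ) (f : CI) :
    σ j f ∈ Cs σ := by
  apply StarSubalgebra.le_topologicalClosure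
  have h1 : (σ j).range ≤ ⨆ j, (σ j).range := le_iSup (fun j => (σ j).range) j
  exact h1 ⟨f, rfl⟩

theorem mv2_gp_mem {κ A : Type} [CStarAlgebra A] (σ : κ → CI →⋆ₐ[ℂ] A) (g : FreeGroup κ) :
    ((gp σ g : unitary A) : A) ∈ Cs σ := by
  induction g using FreeGroup.induction_on with
  | C1 =>
    rw [map_one]
    exact one_mem _
  | of x =>
    have : ((gp σ (FreeGroup.of x) : unitary A) : A) = σ x eI := by
      unfold gp
      rw [FreeGroup.lift_apply_of]
      rfl
    rw [this]
    exact mv2_range_le σ x eI
  | inv_of x h =>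
    rw [map_inv]
    have : (((gp σ (FreeGroup.of x))⁻¹ : unitary A) : A) =
      star ((gp σ (FreeGroup.of x) : unitary A) : A) := rfl
    rw [this]
    exact star_mem h
  | mul x y hx hy =>
    rw [map_mul]
    exact mul_mem hx hy

theorem mv2_gp_jj {ι A : Type} [CStarAlgebra A] (σ : Option ι → CI →⋆ₐ[ℂ] A) (g : FreeGroup ι) :
    gp σ (jj g) = gp (sm σ) g := by
  have h3 : (gp σ).comp (jj (ι := ι)) = gp (sm σ) := by
    ext j
    simp [gp]
  exact DFunLike.congr_fun h3 g

theorem mv2_sm_le {ι A : Type} [CStarAlgebra A] (σ : Option ι → CI →⋆ₐ[ℂ] A) :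
    Cs (sm σ) ≤ Cs σ := by
  unfold Cs
  apply StarSubalgebra.topologicalClosure_mono
  exact iSup_le fun j => le_iSup (fun j => (σ j).range) (some j)

/-- powers of the generating unitary of `C([0,1])` -/
noncomputable def mv2_e (m : ℤ) : CI := (((⟨eI, eI_unitary⟩ : unitary CI) ^ m : unitary CI) : CI)

theorem mv2_uu_pow {A : Type} [CStarAlgebra A] (σ : CI →⋆ₐ[ℂ] A) (m : ℤ) :
    ((uu σ ^ m : unitary A) : A) = σ (mv2_e m) := by
  let F : unitary CI →* unitary A :=
    { toFun := fun x => ⟨σ (x : CI), Unitary.map_mem σ x.2⟩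
      map_one' := by
        apply Subtype.ext
        exact map_one σ
      map_mul' := fun x y => by
        apply Subtype.ext
        exact map_mul σ _ _ }
  have h1 : F ((⟨eI, eI_unitary⟩ : unitary CI) ^ m) = (F ⟨eI, eI_unitary⟩) ^ m := map_zpow F _ _
  have h2 : F ⟨eI, eI_unitary⟩ = uu σ := rfl
  rw [← h2, ← h1]
  rfl

theorem mv2_gp_v {ι A : Type} [CStarAlgebra A] (σ : Option ι → CI →⋆ₐ[ℂ] A) (m : ℤ) :
    ((gp σ (vv ^ m) : unitary A) : A) = σ none (mv2_e m) := by
  rw [map_zpow]
  have : gp σ vv = uu (σ none) := by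
    unfold gp
    exact FreeGroup.lift_apply_of
  rw [this]
  exact mv2_uu_pow _ _

theorem mv2_ss {A : Type} [CStarAlgebra A] (Q : unitary A) : star (Q : A) * (Q : A) = 1 :=
  Unitary.star_mul_self_of_mem Q.2

theorem mv2_ms {A : Type} [CStarAlgebra A] (Q : unitary A) : (Q : A) * star (Q : A) = 1 :=
  Unitary.mul_star_self_of_mem Q.2

theorem mv2_star_mul {A : Type} [CStarAlgebra A] (Q : unitary A) (x : A) :
    star (Q : A) * ((Q : A) * x) = x := by
  rw [← mul_assoc, mv2_ss, one_mul]

theorem mv2_mul_star {A : Type} [CStarAlgebra A] (Q : unitary A) (x : A) :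
    (Q : A) * (star (Q : A) * x) = x := by
  rw [← mul_assoc, mv2_ms, one_mul]

theorem t_MV2 (hA : S_ALT) : S_MV2 := by
  intro ι A _ φ σ σ' Q hσ hQ hM
  have hsm : sm σ' = sm σ := by
    funext j
    exact hM.ne (some j) (by simp)
  have hsub : Cs (sm σ) ≤ Cs σ' := by
    rw [← hsm]
    exact mv2_sm_le σ'
  have htr : ∀ x : A, φ.toFun ((Q : A) * x * star (Q : A)) = φ.toFun x := by
    intro x
    rw [φ.tr, mv2_star_mul]
  have htr2 : ∀ x : A, φ.toFun (star (Q : A) * x * (Q : A)) = φ.toFun x := by
    intro x
    rw [φ.tr, mv2_mul_star]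
  have hgpj : ∀ g : FreeGroup ι, gp σ' (jj g) = gp σ (jj g) := by
    intro g
    rw [mv2_gp_jj, mv2_gp_jj, hsm]
  have hmem : ∀ g : FreeGroup ι, ((gp σ (jj g) : unitary A) : A) ∈ Cs (sm σ) := by
    intro g
    rw [mv2_gp_jj]
    exact mv2_gp_mem _ _
  have hQs : star (Q : A) ∈ Cs (sm σ) := star_mem hQ
  refine ⟨hσ.fai, ⟨?_, ?_⟩, ?_⟩
  · intro j f
    cases j with
    | some j =>
      rw [hM.ne (some j) (by simp)]
      exact hσ.sys.mar _ _
    | none =>
      rw [hM.eq, cj_apply, htr]
      exact hσ.sys.mar _ _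
  · intro w hw
    rcases mv2_dec w with ⟨g, rfl⟩ | ⟨g0, g, l, m, hl, hm, rfl⟩
    · rw [hgpj]
      exact hσ.sys.free _ hw
    · have hv : ∀ k : ℤ, ((gp σ' (vv ^ k) : unitary A) : A) =
          (Q : A) * σ none (mv2_e k) * star (Q : A) := by
        intro k
        rw [mv2_gp_v, hM.eq, cj_apply]
      have hprod : ∀ l : List (ℤ × FreeGroup ι),
          ((gp σ' (l.map fun p => vv ^ p.1 * jj p.2).prod : unitary A) : A) =
          (Q : A) * ((l.map fun p : ℤ × FreeGroup ι => (mv2_e p.1,
            star (Q : A) * ((gp σ (jj p.2) : unitary A) : A) * (Q : A))).map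
            fun p : CI × A => σ none p.1 * p.2).prod * star (Q : A) := by
        intro l
        induction l with
        | nil =>
          simp only [List.map_nil, List.prod_nil, map_one, mul_one]
          rw [mv2_ms]
          rfl
        | cons p l ih =>
          simp only [List.map_cons, List.prod_cons, map_mul] at ih ⊢
          rw [Submonoid.coe_mul, Submonoid.coe_mul, hv, hgpj, ih]
          simp only [mul_assoc]
      have hw2 : ((gp σ' (jj g0 * (l.map fun p => vv ^ p.1 * jj p.2).prod * vv ^ m * jj g) :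
          unitary A) : A) =
          (((gp σ (jj g0) : unitary A) : A) * (Q : A)) *
          ((l.map fun p : ℤ × FreeGroup ι => (mv2_e p.1,
            star (Q : A) * ((gp σ (jj p.2) : unitary A) : A) * (Q : A))).map
            fun p : CI × A => σ none p.1 * p.2).prod * σ none (mv2_e m) *
          (star (Q : A) * ((gp σ (jj g) : unitary A) : A)) := by
        rw [map_mul, map_mul, map_mul, Submonoid.coe_mul, Submonoid.coe_mul, Submonoid.coe_mul,
          hprod, hv, hgpj, hgpj]
        simp only [mul_assoc, mv2_star_mul]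
      rw [hw2]
      have hz : ∀ k : ℤ, k ≠ 0 → φ.toFun (σ none (mv2_e k)) = 0 := by
        intro k hk
        rw [← mv2_gp_v]
        exact hσ.sys.free _ (mv2_vpow k hk)
      apply hA ι A φ σ hσ.sys
      · intro q hq
        rw [List.mem_map] at hq
        obtain ⟨p, hp, rfl⟩ := hq
        refine ⟨hz _ (hl p hp).1, ?_, ?_⟩
        · exact mul_mem (mul_mem hQs (hmem _)) hQ
        · rw [htr2]
          exact hσ.sys.free _ (mv2_jj _ (hl p hp).2)
      · exact mul_mem (hmem _) hQ
      · exact mul_mem hQs (hmem _)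
      · exact hz m hm
  · rw [eq_top_iff, ← hσ.gen]
    apply StarSubalgebra.topologicalClosure_minimal
    · apply iSup_le
      intro j
      rintro _ ⟨f, rfl⟩
      cases j with
      | some j =>
        apply hsub
        exact mv2_range_le (sm σ) j f
      | none =>
        have h1 : σ none f = star (Q : A) * (σ' none f) * (Q : A) := by
          rw [hM.eq, cj_apply]
          simp only [mul_assoc]
          rw [mv2_ss, mul_one, mv2_star_mul]
        have h2 : σ none f ∈ Cs σ' := by
          rw [h1]
          exact mul_mem (mul_mem (hsub hQs) (mv2_range_le σ' none f)) (hsub hQ)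
        exact h2
    · exact StarSubalgebra.isClosed_topologicalClosure _

end Pool.Agent.H308R2.CF
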