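import Pool.Agent.H308R2.CF.Stubs

/-! Continuity of evaluations in the 2-norm. -/

namespace Pool.Agent.H308R2.CF

open Pool.Agent.H770R2.UL
open scoped ComplexConjugate

theorem N2C_mul_le {A : Type} [CStarAlgebra A] (φ : TrSt A) (a b : A) :
    n2 φ (a * b) ≤ ‖a‖ * n2 φ b := by
  letI : PartialOrder A := CStarAlgebra.spectralOrder A
  haveI : StarOrderedRing A := CStarAlgebra.spectralOrderedRing A
  have h1 : star b * (star a * a) * b ≤ ‖star a * a‖ • (star b * b) :=
    CStarAlgebra.star_left_conjugate_le_norm_smul (IsSelfAdjoint.star_mul_self a)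
  have h2 : 0 ≤ ‖star a * a‖ • (star b * b) - star b * (star a * a) * b := sub_nonneg.2 h1
  obtain ⟨c, hc⟩ := CStarAlgebra.nonneg_iff_eq_star_mul_self.1 h2
  have h3 := (Complex.le_def.1 (φ.pos c)).1
  rw [← hc, map_sub] at h3
  have e1 : (‖star a * a‖ • (star b * b) : A) = ((‖star a * a‖ : ℝ) : ℂ) • (star b * b) := by
    rw [Complex.coe_smul]
  rw [e1, map_smul, CStarRing.norm_star_mul_self, Complex.sub_re, Complex.zero_re, smul_eq_mul,
    Complex.re_ofReal_mul] at h3
  have e2 : star (a * b) * (a * b) = star b * (star a * a) * b := by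
    rw [star_mul]
    simp only [mul_assoc]
  have h4 := n2_sq φ (a * b)
  rw [e2] at h4
  have h5 := n2_sq φ b
  have h6 : n2 φ (a * b) ^ 2 ≤ (‖a‖ * n2 φ b) ^ 2 := by
    rw [h4, mul_pow, h5]
    nlinarith
  exact (pow_le_pow_iff_left₀ (n2_nonneg _ _) (mul_nonneg (norm_nonneg _) (n2_nonneg _ _))
    (by norm_num)).1 h6

theorem N2C_mul_le' {A : Type} [CStarAlgebra A] (φ : TrSt A) (a b : A) :
    n2 φ (a * b) ≤ n2 φ a * ‖b‖ := by
  rw [← n2_star φ (a * b), star_mul]
  refine (N2C_mul_le φ _ _).trans ?_
  rw [norm_star, n2_star, mul_comm]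

theorem N2C_word {X A : Type} [CStarAlgebra A] (φ : TrSt A) (en : ℕ → X → A) (e : X → A)
    (M : ℝ) (hM : ∀ n x, ‖en n x‖ ≤ M)
    (hen : ∀ x, Filter.Tendsto (fun n => n2 φ (en n x - e x)) Filter.atTop (nhds 0)) (l : List X) :
    Filter.Tendsto (fun n => n2 φ ((l.map (en n)).prod - (l.map e).prod)) Filter.atTop (nhds 0) := by
  induction l with
  | nil => simp [n2]
  | cons x l ih =>
    have h1 : Filter.Tendsto (fun n => M * n2 φ ((l.map (en n)).prod - (l.map e).prod) +
        n2 φ (en n x - e x) * ‖(l.map e).prod‖) Filter.atTop (nhds 0) := by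
      have := (ih.const_mul M).add ((hen x).mul_const ‖(l.map e).prod‖)
      simpa using this
    refine squeeze_zero (fun n => n2_nonneg _ _) (fun n => ?_) h1
    have e1 : ((x :: l).map (en n)).prod - ((x :: l).map e).prod =
        en n x * ((l.map (en n)).prod - (l.map e).prod) + (en n x - e x) * (l.map e).prod := by
      simp only [List.map_cons, List.prod_cons]
      noncomm_ring
    rw [e1]
    refine (n2_add_le φ _ _).trans (add_le_add ?_ (N2C_mul_le' φ _ _))
    exact (N2C_mul_le φ _ _).trans (mul_le_mul_of_nonneg_right (hM n x) (n2_nonneg _ _))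

theorem t_N2C : S_N2C := by
  intro X A _ φ en e M hM _ hen f
  induction f using MonoidAlgebra.induction_linear with
  | zero => simp
  | add f g hf hg =>
    simp only [map_add]
    exact hf.add hg
  | single w r =>
    have h1 : ∀ e' : X → A, fev e' (MonoidAlgebra.single w r) =
        r • ((FreeMonoid.toList w).map e').prod := by
      intro e'
      unfold fev
      rw [MonoidAlgebra.lift_single, FreeMonoid.lift_apply]
    simp only [h1, map_smul]
    apply Filter.Tendsto.const_smul
    have h2 := N2C_word φ en e M hM hen (FreeMonoid.toList w)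
    rw [tendsto_iff_norm_sub_tendsto_zero]
    refine squeeze_zero (fun n => norm_nonneg _) (fun n => ?_) h2
    rw [← map_sub]
    have h3 := cauchy φ 1 (((FreeMonoid.toList w).map (en n)).prod -
      ((FreeMonoid.toList w).map e).prod)
    rw [star_one, one_mul, n2_one, one_mul] at h3
    exact h3

end Pool.Agent.H308R2.CF
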