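import Pool.Agent.H308R2.CF.Stubs

namespace Pool.Agent.H308R2.CF

open Pool.Agent.H770R2.UL (TrSt n2)
open Pool.Agent.H581R.FF (GR bs ev jj vv kk act)
open scoped ComplexConjugate InnerProductSpace ComplexOrder

theorem NL_gns {A : Type} [CStarAlgebra A] (φ : TrSt A) : ∃ (H : Type) (_ : NormedAddCommGroup H)
    (_ : InnerProductSpace ℂ H) (_ : CompleteSpace H) (ρ : A →⋆ₐ[ℂ] (H →L[ℂ] H)) (Ω : H),
    (∀ a b, ⟪ρ a Ω, ρ b Ω⟫_ℂ = φ.toFun (star a * b)) ∧ Dense (Set.range fun a => ρ a Ω) := by
  let _ : PartialOrder A := CStarAlgebra.spectralOrder A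
  let _ : StarOrderedRing A := CStarAlgebra.spectralOrderedRing A
  let f : A →ₚ[ℂ] ℂ := PositiveLinearMap.mk₀ φ.toFun (fun a ha => by
    obtain ⟨b, rfl⟩ := CStarAlgebra.nonneg_iff_eq_star_mul_self.1 ha
    exact φ.pos b)
  have hρ : ∀ a : A, f.gnsStarAlgHom a ((f.toPreGNS 1 : f.PreGNS) : f.GNS) =
      ((f.toPreGNS a : f.PreGNS) : f.GNS) := by
    intro a
    have h : f.gnsStarAlgHom a ((f.toPreGNS 1 : f.PreGNS) : f.GNS) =
      ((f.leftMulMapPreGNS a (f.toPreGNS 1) : f.PreGNS) : f.GNS) :=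
      f.gnsNonUnitalStarAlgHom_apply_coe (a := a) (b := f.toPreGNS 1)
    rw [h]
    congr 1
    show f.toPreGNS (a * 1) = _
    rw [mul_one]
  refine ⟨f.GNS, inferInstance, inferInstance, inferInstance, f.gnsStarAlgHom,
    ((f.toPreGNS 1 : f.PreGNS) : f.GNS), ?_, ?_⟩
  · intro a b
    rw [hρ, hρ, UniformSpace.Completion.inner_coe, f.preGNS_inner_def]
    rfl
  · have : (Set.range fun a => f.gnsStarAlgHom a ((f.toPreGNS 1 : f.PreGNS) : f.GNS)) =
        Set.range (fun x : f.PreGNS => (x : f.GNS)) := by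
      ext x
      constructor
      · rintro ⟨a, rfl⟩
        exact ⟨f.toPreGNS a, (hρ a).symm⟩
      · rintro ⟨y, rfl⟩
        exact ⟨f.ofPreGNS y, hρ _⟩
    rw [this]
    exact UniformSpace.Completion.denseRange_coe

/-- an operator whose matrix entries in a total family vanish is zero -/
theorem NL_zero {H : Type} [NormedAddCommGroup H] [InnerProductSpace ℂ H] {κ : Type} (e : κ → H)
    (hd : Dense (Submodule.span ℂ (Set.range e) : Set H)) (T : H →L[ℂ] H)
    (h : ∀ w w', ⟪e w', T (e w)⟫_ℂ = 0) : T = 0 := by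
  have h1 : ∀ w, T (e w) = 0 := by
    intro w
    have h2 : ∀ y : H, ⟪y, T (e w)⟫_ℂ = 0 := by
      have hcl : IsClosed {y : H | ⟪y, T (e w)⟫_ℂ = 0} :=
        isClosed_eq (by fun_prop) continuous_const
      have hsub : (Submodule.span ℂ (Set.range e) : Set H) ⊆ {y : H | ⟪y, T (e w)⟫_ℂ = 0} := by
        intro y hy
        induction hy using Submodule.span_induction with
        | mem x hx =>
          obtain ⟨w', rfl⟩ := hx
          exact h w w'
        | zero => exact inner_zero_left _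
        | add x y _ _ hx hy =>
          show ⟪x + y, _⟫_ℂ = 0
          rw [inner_add_left, hx, hy, add_zero]
        | smul c x _ hx =>
          show ⟪c • x, _⟫_ℂ = 0
          rw [inner_smul_left, hx, mul_zero]
      intro y
      exact closure_minimal hsub hcl (hd y)
    exact inner_self_eq_zero.1 (h2 _)
  have hcl : IsClosed {y : H | T y = 0} := isClosed_eq (by fun_prop) continuous_const
  have hsub : (Submodule.span ℂ (Set.range e) : Set H) ⊆ {y : H | T y = 0} := by
    intro y hy
    induction hy using Submodule.span_induction with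
    | mem x hx =>
      obtain ⟨w', rfl⟩ := hx
      exact h1 w'
    | zero => exact map_zero T
    | add x y _ _ hx hy =>
      show T (x + y) = 0
      rw [map_add, hx, hy, add_zero]
    | smul c x _ hx =>
      show T (c • x) = 0
      rw [map_smul, hx, smul_zero]
  ext y
  exact closure_minimal hsub hcl (hd y)

/-- Pythagoras -/
theorem NL_pyth {H : Type} [NormedAddCommGroup H] [InnerProductSpace ℂ H] {κ : Type}
    (F : Finset κ) (v : κ → H) (h : ∀ t ∈ F, ∀ t' ∈ F, t ≠ t' → ⟪v t, v t'⟫_ℂ = 0) :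
    ‖∑ t ∈ F, v t‖ ^ 2 = ∑ t ∈ F, ‖v t‖ ^ 2 := by
  have h1 : ⟪∑ t ∈ F, v t, ∑ t ∈ F, v t⟫_ℂ = ∑ t ∈ F, ⟪v t, v t⟫_ℂ := by
    rw [sum_inner]
    refine Finset.sum_congr rfl fun t ht => ?_
    rw [inner_sum]
    exact Finset.sum_eq_single_of_mem t ht fun t' ht' hne => h t ht t' ht' hne.symm
  rw [inner_self_eq_norm_sq_to_K] at h1
  have h2 : ∑ t ∈ F, ⟪v t, v t⟫_ℂ = ((∑ t ∈ F, ‖v t‖ ^ 2 : ℝ) : ℂ) := by
    rw [Complex.ofReal_sum]
    refine Finset.sum_congr rfl fun t _ => ?_
    rw [inner_self_eq_norm_sq_to_K]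
    norm_cast
  rw [h2] at h1
  apply Complex.ofReal_injective
  rw [← h1]
  norm_cast

theorem t_NL (hORTH : S_ORTH) (hNLOP : S_NLOP) (hDENS : S_DENS) : S_NL := by
  classical
  intro ι A _ φ σ hσ n a C ha hB c f hf
  obtain ⟨H, _, _, _, ρ, Ω, hin, hdense⟩ := NL_gns φ
  obtain ⟨hO1, hO2⟩ := hORTH ι A φ σ hσ.sys
  have hnrm : ∀ x : A, ‖ρ x Ω‖ ^ 2 = n2 φ x ^ 2 := by
    intro x
    rw [Pool.Agent.H770R2.UL.n2_sq, ← hin, inner_self_eq_norm_sq_to_K]
    norm_cast
  have hinj : Function.Injective ρ := by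
    rw [injective_iff_map_eq_zero]
    intro x hx
    apply hσ.fai
    rw [← hin, hx]
    simp
  have hiso : ∀ x, ‖ρ x‖ = ‖x‖ := NonUnitalStarAlgHom.norm_map ρ hinj
  set e : FreeGroup (Option ι) → H := fun w => ρ (gp σ w : A) Ω with he_def
  have he : Orthonormal ℂ e := by
    rw [orthonormal_iff_ite]
    intro w w'
    show ⟪ρ _ Ω, ρ _ Ω⟫_ℂ = _
    rw [hin]
    have : star (gp σ w : A) * (gp σ w' : A) = ((gp σ (w⁻¹ * w') : unitary A) : A) := by
      rw [map_mul, map_inv]
      rfl
    rw [this]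
    split_ifs with h
    · subst h
      simp [φ.one]
    · exact hσ.sys.free _ (by rwa [Ne, inv_mul_eq_one])
  have htot : Dense (Submodule.span ℂ (Set.range e) : Set H) := by
    have h0 : ∀ g : GR (Option ι), ρ (ev (gp σ) g) Ω ∈ Submodule.span ℂ (Set.range e) := by
      intro g
      induction g using MonoidAlgebra.induction_on with
      | of w =>
        have : ρ (ev (gp σ) (MonoidAlgebra.of ℂ _ w)) Ω = e w := by
          show ρ (MonoidAlgebra.lift ℂ A _ _ _) Ω = _
          rw [MonoidAlgebra.lift_of]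
          rfl
        rw [this]
        exact Submodule.subset_span ⟨w, rfl⟩
      | add x y hx hy =>
        rw [map_add, map_add]
        exact Submodule.add_mem _ hx hy
      | smul r x hx =>
        rw [map_smul, map_smul]
        exact Submodule.smul_mem _ r hx
    have h1 : ∀ x : A, ρ x Ω ∈ closure (Submodule.span ℂ (Set.range e) : Set H) := by
      intro x
      rw [Metric.mem_closure_iff]
      intro ε hε
      obtain ⟨g, hg⟩ := hDENS _ A φ σ hσ.sys x (by rw [hσ.gen]; trivial) ε hε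
      refine ⟨ρ (ev (gp σ) g) Ω, h0 g, ?_⟩
      have e1 : ρ x Ω - ρ (ev (gp σ) g) Ω = ρ (x - ev (gp σ) g) Ω := by
        rw [map_sub]
        rfl
      rw [dist_eq_norm, e1]
      have e2 := hnrm (x - ev (gp σ) g)
      rw [sq_eq_sq₀ (norm_nonneg _) (Pool.Agent.H770R2.UL.n2_nonneg _ _)] at e2
      rw [e2]
      exact hg
    intro x
    have h2 : closure (Set.range fun a => ρ a Ω) ⊆
        closure (Submodule.span ℂ (Set.range e) : Set H) :=
      closure_minimal (by rintro _ ⟨x, rfl⟩; exact h1 x) isClosed_closure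
    exact h2 (hdense x)
  -- the projection
  let e' : {t : FreeGroup (Option ι) // HV t} → H := fun t => e t
  have he' : Orthonormal ℂ e' := he.comp _ Subtype.val_injective
  let S : Submodule ℂ H := (Submodule.span ℂ (Set.range e')).topologicalClosure
  have hScl : IsClosed (S : Set H) := Submodule.isClosed_topologicalClosure _
  have : CompleteSpace S := hScl.completeSpace_coe
  let Q : H →L[ℂ] H := S.starProjection
  have hQ1 : ∀ t, HV t → Q (e t) = e t := by
    intro t ht
    exact Submodule.starProjection_eq_self_iff.2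
      (Submodule.le_topologicalClosure _ (Submodule.subset_span ⟨⟨t, ht⟩, rfl⟩))
  have hQ0 : ∀ t, ¬ HV t → Q (e t) = 0 := by
    intro t ht
    apply (Submodule.starProjection_apply_eq_zero_iff S).2
    rw [Submodule.mem_orthogonal]
    intro y hy
    have hcl : IsClosed {y : H | ⟪y, e t⟫_ℂ = 0} := isClosed_eq (by fun_prop) continuous_const
    have hsub : (Submodule.span ℂ (Set.range e') : Set H) ⊆ {y : H | ⟪y, e t⟫_ℂ = 0} := by
      intro y hy
      induction hy using Submodule.span_induction with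
      | mem x hx =>
        obtain ⟨w', rfl⟩ := hx
        exact he.2 (fun h => ht (h ▸ w'.2))
      | zero => exact inner_zero_left _
      | add x y _ _ hx hy =>
        show ⟪x + y, _⟫_ℂ = 0
        rw [inner_add_left, hx, hy, add_zero]
      | smul c x _ hx =>
        show ⟪c • x, _⟫_ℂ = 0
        rw [inner_smul_left, hx, mul_zero]
    exact closure_minimal hsub hcl hy
  have hQs : star Q = Q := by
    rw [ContinuousLinearMap.star_eq_adjoint]
    symm
    rw [ContinuousLinearMap.eq_adjoint_iff]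
    intro x y
    exact Submodule.inner_starProjection_left_eq_right S x y
  have hQQ : Q * Q = Q := Submodule.isIdempotentElem_starProjection S
  have hfree : φ.toFun (σ none f) = 0 := by rw [hσ.sys.mar, hf]
  have hcorner : (1 - Q) * ρ (σ none f) * (1 - Q) = 0 := by
    apply NL_zero e htot
    intro w w'
    have hsa : ⟪e w', ((1 - Q) * ρ (σ none f) * (1 - Q)) (e w)⟫_ℂ =
        ⟪e w' - Q (e w'), ρ (σ none f) (e w - Q (e w))⟫_ℂ := by
      show ⟪e w', ρ (σ none f) (e w - Q (e w)) - Q (ρ (σ none f) (e w - Q (e w)))⟫_ℂ = _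
      rw [inner_sub_right, inner_sub_left]
      congr 1
      exact (Submodule.inner_starProjection_left_eq_right S _ _).symm
    rw [hsa]
    by_cases hw' : HV w'
    · rw [hQ1 w' hw', sub_self, inner_zero_left]
    by_cases hw : HV w
    · rw [hQ1 w hw, sub_self, map_zero, inner_zero_right]
    rw [hQ0 w' hw', hQ0 w hw, sub_zero, sub_zero]
    have e1 : ρ (σ none f) (e w) = ρ (σ none f * (gp σ w : A)) Ω := by
      rw [map_mul]
      rfl
    rw [e1]
    show ⟪ρ _ Ω, _⟫_ℂ = 0
    rw [hin]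
    exact hO2 w w' hw hw' f hfree
  -- the Bessel bound on the span
  have hbes0 : ∀ z : Fin n → H, (∀ m, z m ∈ Submodule.span ℂ (Set.range e')) →
      ‖∑ m, ρ (a m : A) (z m)‖ ^ 2 ≤ C * ∑ m, ‖z m‖ ^ 2 := by
    intro z hz
    have hz' : ∀ m, ∃ l : {t : FreeGroup (Option ι) // HV t} →₀ ℂ,
        Finsupp.linearCombination ℂ e' l = z m := by
      intro m
      exact (Finsupp.mem_span_range_iff_exists_finsupp.1 (hz m))
    choose l hl using hz'
    let F : Finset {t : FreeGroup (Option ι) // HV t} := Finset.univ.biUnion fun m => (l m).support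
    have hzF : ∀ m, z m = ∑ t ∈ F, l m t • e' t := by
      intro m
      rw [← hl m, Finsupp.linearCombination_apply, Finsupp.sum]
      refine Finset.sum_subset (Finset.subset_biUnion_of_mem (fun m => (l m).support)
        (Finset.mem_univ m)) ?_
      intro t _ ht
      rw [Finsupp.notMem_support_iff.1 ht, zero_smul]
    have hnz : ∀ m, ‖z m‖ ^ 2 = ∑ t ∈ F, ‖l m t‖ ^ 2 := by
      intro m
      rw [hzF m, NL_pyth]
      · refine Finset.sum_congr rfl fun t _ => ?_
        rw [norm_smul, he'.1, mul_one]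
      · intro t _ t' _ htt
        rw [inner_smul_left, inner_smul_right, he'.2 htt, mul_zero, mul_zero]
    let x : {t : FreeGroup (Option ι) // HV t} → A := fun t => ∑ m, l m t • (a m : A)
    have hxmem : ∀ t, x t ∈ Cs (sm σ) := fun t =>
      sum_mem fun m _ => SMulMemClass.smul_mem _ (ha m)
    have hsum : ∑ m, ρ (a m : A) (z m) =
        ∑ t ∈ F, ρ (x t * (gp σ (t : FreeGroup (Option ι)) : A)) Ω := by
      have e1 : ∀ m, ρ (a m : A) (z m) = ∑ t ∈ F,
          ρ (l m t • ((a m : A) * (gp σ (t : FreeGroup (Option ι)) : A))) Ω := by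
        intro m
        rw [hzF m, map_sum]
        refine Finset.sum_congr rfl fun t _ => ?_
        rw [map_smul, map_smul, map_mul]
        rfl
      rw [Finset.sum_congr rfl fun m _ => e1 m, Finset.sum_comm]
      refine Finset.sum_congr rfl fun t _ => ?_
      have e2 : x t * (gp σ (t : FreeGroup (Option ι)) : A) =
          ∑ m, l m t • ((a m : A) * (gp σ (t : FreeGroup (Option ι)) : A)) := by
        rw [Finset.sum_mul]
        refine Finset.sum_congr rfl fun m _ => ?_
        rw [smul_mul_assoc]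
      rw [e2, map_sum, _root_.sum_apply]
    have hnsum : ‖∑ m, ρ (a m : A) (z m)‖ ^ 2 = ∑ t ∈ F, n2 φ (x t) ^ 2 := by
      rw [hsum, NL_pyth]
      · refine Finset.sum_congr rfl fun t _ => ?_
        rw [hnrm, Pool.Agent.H770R2.UL.n2_mul_unitary φ (gp σ (t : FreeGroup (Option ι))).2]
      · intro t _ t' _ htt
        rw [hin]
        exact hO1 (x t') (hxmem t') (x t) (hxmem t) t' t t'.2 t.2
          (fun h => htt (Subtype.ext h.symm))
    rw [hnsum]
    calc ∑ t ∈ F, n2 φ (x t) ^ 2 ≤ ∑ t ∈ F, C * ∑ m, ‖l m t‖ ^ 2 :=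
          Finset.sum_le_sum fun t _ => hB fun m => l m t
      _ = C * ∑ m, ‖z m‖ ^ 2 := by
          rw [← Finset.mul_sum, Finset.sum_comm]
          congr 1
          exact Finset.sum_congr rfl fun m _ => (hnz m).symm
  have hbes : ∀ z : Fin n → H, (∀ m, Q (z m) = z m) →
      ‖∑ m, ρ (a m : A) (z m)‖ ^ 2 ≤ C * ∑ m, ‖z m‖ ^ 2 := by
    intro z hz
    have hcl : IsClosed {z : Fin n → H | ‖∑ m, ρ (a m : A) (z m)‖ ^ 2 ≤ C * ∑ m, ‖z m‖ ^ 2} :=
      isClosed_le (by fun_prop) (by fun_prop)
    have hsub : Set.pi Set.univ (fun _ : Fin n => (Submodule.span ℂ (Set.range e') : Set H)) ⊆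
        {z : Fin n → H | ‖∑ m, ρ (a m : A) (z m)‖ ^ 2 ≤ C * ∑ m, ‖z m‖ ^ 2} :=
      fun z hz => hbes0 z fun m => hz m (Set.mem_univ m)
    have hmem : z ∈ closure (Set.pi Set.univ
        (fun _ : Fin n => (Submodule.span ℂ (Set.range e') : Set H))) := by
      rw [closure_pi_set]
      intro m _
      have := Submodule.starProjection_eq_self_iff.1 (hz m)
      exact this
    exact closure_minimal hsub hcl hmem
  have hmain := hNLOP H n (fun m => ρ (a m : A)) (ρ (σ none f)) Q C
    (fun m => Unitary.map_mem ρ (a m).2) hQs hQQ hcorner hbes c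
  have e1 : ∑ m, c m • (ρ (a m : A) * ρ (σ none f) * star (ρ (a m : A))) =
      ρ (∑ m, c m • ((a m : A) * σ none f * star (a m : A))) := by
    rw [map_sum]
    refine Finset.sum_congr rfl fun m _ => ?_
    rw [map_smul, map_mul, map_mul, map_star]
  rw [e1, hiso, hiso] at hmain
  refine hmain.trans ?_
  have h2 : ‖σ none f‖ ≤ ‖f‖ := NonUnitalStarAlgHom.norm_apply_le (σ none) f
  exact mul_le_mul_of_nonneg_left h2 (by positivity)

end Pool.Agent.H308R2.CF
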