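import Pool.Agent.H308R2.CF.Stubs

/-!
# The norm lemma for operators
-/

set_option autoImplicit false

namespace Pool.Agent.H308R2.CF

section NLOP

variable {H : Type} [NormedAddCommGroup H] [InnerProductSpace ℂ H] [CompleteSpace H]

private lemma nlop_proj {Q : H →L[ℂ] H} (h1 : star Q = Q) (h2 : Q * Q = Q) : ‖Q‖ ≤ 1 := by
  have h3 : ‖star Q * Q‖ = ‖Q‖ * ‖Q‖ := CStarRing.norm_star_mul_self
  rw [h1, h2] at h3
  by_contra hcon
  push Not at hcon
  nlinarith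

private lemma nlop_unit {U : H →L[ℂ] H} (hU : U ∈ unitary (H →L[ℂ] H)) : ‖star U‖ ≤ 1 := by
  have h3 : ‖star (star U) * star U‖ = ‖star U‖ * ‖star U‖ := CStarRing.norm_star_mul_self
  rw [star_star, Unitary.mul_star_self_of_mem hU] at h3
  have h4 : ‖(1 : H →L[ℂ] H)‖ ≤ 1 := ContinuousLinearMap.norm_id_le
  by_contra hcon
  push Not at hcon
  nlinarith

private lemma nlop_half {n : ℕ} {U : Fin n → H →L[ℂ] H} {Q : H →L[ℂ] H} {C : ℝ}
    (hU : ∀ m, U m ∈ unitary (H →L[ℂ] H)) (hQ1 : star Q = Q) (hQ2 : Q * Q = Q)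
    (hz : ∀ z : Fin n → H, (∀ m, Q (z m) = z m) →
      ‖∑ m, U m (z m)‖ ^ 2 ≤ C * ∑ m, ‖z m‖ ^ 2) (c : Fin n → ℂ) (B : H →L[ℂ] H) :
    ‖∑ m, c m • (U m * (Q * B) * star (U m))‖ ≤
      Real.sqrt C * Real.sqrt (∑ m, ‖c m‖ ^ 2) * ‖B‖ := by
  refine ContinuousLinearMap.opNorm_le_bound _ (by positivity) fun x => ?_
  have h1 : (∑ m, c m • (U m * (Q * B) * star (U m))) x =
      ∑ m, U m (c m • Q (B (star (U m) x))) := by
    rw [ContinuousLinearMap.sum_apply]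
    refine Finset.sum_congr rfl fun m _ => ?_
    simp [ContinuousLinearMap.mul_apply]
  rw [h1]
  have h2 := hz (fun m => c m • Q (B (star (U m) x))) (fun m => by
    rw [map_smul]
    congr 1
    exact DFunLike.congr_fun hQ2 (B (star (U m) x)))
  have hQn := nlop_proj hQ1 hQ2
  have h3 : ∀ m, ‖c m • Q (B (star (U m) x))‖ ^ 2 ≤ ‖c m‖ ^ 2 * (‖B‖ * ‖x‖) ^ 2 := by
    intro m
    rw [norm_smul, mul_pow]
    refine mul_le_mul_of_nonneg_left ?_ (sq_nonneg _)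
    refine pow_le_pow_left₀ (norm_nonneg _) ?_ 2
    calc ‖Q (B (star (U m) x))‖ ≤ ‖Q‖ * ‖B (star (U m) x)‖ := Q.le_opNorm _
      _ ≤ 1 * ‖B (star (U m) x)‖ := mul_le_mul_of_nonneg_right hQn (norm_nonneg _)
      _ ≤ ‖B‖ * ‖star (U m) x‖ := by rw [one_mul]; exact B.le_opNorm _
      _ ≤ ‖B‖ * (‖star (U m)‖ * ‖x‖) :=
        mul_le_mul_of_nonneg_left ((star (U m)).le_opNorm x) (norm_nonneg _)
      _ ≤ ‖B‖ * (1 * ‖x‖) := mul_le_mul_of_nonneg_left
        (mul_le_mul_of_nonneg_right (nlop_unit (hU m)) (norm_nonneg _)) (norm_nonneg _)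
      _ = ‖B‖ * ‖x‖ := by rw [one_mul]
  have hC : C ≤ Real.sqrt C ^ 2 := by
    rcases le_total 0 C with h | h
    · rw [Real.sq_sqrt h]
    · exact h.trans (sq_nonneg _)
  have h4 : ‖∑ m, U m (c m • Q (B (star (U m) x)))‖ ^ 2 ≤
      (Real.sqrt C * Real.sqrt (∑ m, ‖c m‖ ^ 2) * ‖B‖ * ‖x‖) ^ 2 := by
    have h5 : 0 ≤ ∑ m, ‖c m • Q (B (star (U m) x))‖ ^ 2 :=
      Finset.sum_nonneg fun m _ => sq_nonneg _
    calc _ ≤ C * ∑ m, ‖c m • Q (B (star (U m) x))‖ ^ 2 := h2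
      _ ≤ Real.sqrt C ^ 2 * ∑ m, ‖c m • Q (B (star (U m) x))‖ ^ 2 :=
        mul_le_mul_of_nonneg_right hC h5
      _ ≤ Real.sqrt C ^ 2 * ∑ m, ‖c m‖ ^ 2 * (‖B‖ * ‖x‖) ^ 2 :=
        mul_le_mul_of_nonneg_left (Finset.sum_le_sum fun m _ => h3 m) (sq_nonneg _)
      _ = _ := by
        rw [← Finset.sum_mul, mul_pow, mul_pow, mul_pow, mul_pow,
          Real.sq_sqrt (Finset.sum_nonneg fun m _ => sq_nonneg ‖c m‖)]
        ring
  exact (pow_le_pow_iff_left₀ (norm_nonneg _) (by positivity) two_ne_zero).1 h4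

end NLOP

theorem t_NLOP : S_NLOP := by
  intro H _ _ _ n U K Q C hU hQ1 hQ2 hK hz c
  have hQ1' : star (1 - Q) = 1 - Q := by rw [star_sub, star_one, hQ1]
  have hQ2' : (1 - Q) * (1 - Q) = 1 - Q := by
    rw [mul_sub, sub_mul, sub_mul, hQ2]
    simp
  have hdec : K = Q * K + (1 - Q) * K * Q := by
    have h1 : Q * K + (1 - Q) * K * Q + (1 - Q) * K * (1 - Q) = K := by noncomm_ring
    rw [hK, add_zero] at h1
    exact h1.symm
  have hsum : ∑ m, c m • (U m * K * star (U m)) =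
      ∑ m, c m • (U m * (Q * K) * star (U m)) +
      ∑ m, c m • (U m * ((1 - Q) * K * Q) * star (U m)) := by
    rw [← Finset.sum_add_distrib]
    refine Finset.sum_congr rfl fun m _ => ?_
    rw [← smul_add, ← add_mul, ← mul_add, ← hdec]
  have h1 := nlop_half hU hQ1 hQ2 hz c K
  have h2 : ‖∑ m, c m • (U m * ((1 - Q) * K * Q) * star (U m))‖ ≤
      Real.sqrt C * Real.sqrt (∑ m, ‖c m‖ ^ 2) * ‖K‖ := by
    rw [← norm_star]
    have h3 : star (∑ m, c m • (U m * ((1 - Q) * K * Q) * star (U m))) =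
        ∑ m, (star (c m)) • (U m * (Q * (star K * (1 - Q))) * star (U m)) := by
      rw [star_sum]
      refine Finset.sum_congr rfl fun m _ => ?_
      rw [star_smul]
      congr 1
      simp only [star_mul, star_star, hQ1, hQ1', mul_assoc]
    rw [h3]
    refine (nlop_half hU hQ1 hQ2 hz (fun m => star (c m)) (star K * (1 - Q))).trans ?_
    have h4 : ∑ m, ‖star (c m)‖ ^ 2 = ∑ m, ‖c m‖ ^ 2 :=
      Finset.sum_congr rfl fun m _ => by rw [norm_star]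
    simp only [h4]
    refine mul_le_mul_of_nonneg_left ?_ (by positivity)
    calc ‖star K * (1 - Q)‖ ≤ ‖star K‖ * ‖1 - Q‖ := norm_mul_le _ _
      _ ≤ ‖star K‖ * 1 := mul_le_mul_of_nonneg_left (nlop_proj hQ1' hQ2') (norm_nonneg _)
      _ = ‖K‖ := by rw [mul_one, norm_star]
  rw [hsum]
  refine (norm_add_le _ _).trans ?_
  linarith

end Pool.Agent.H308R2.CF
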