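import Pool.Agent.H308R2.CF.Stubs

/-! Scalar identities for the norm lemma. -/

set_option autoImplicit false

namespace Pool.Agent.H308R2.CF

open Pool.Agent.H770R2.UL
open Pool.Agent.H581R.FF (GR bs ev jj vv kk act)
open scoped ComplexConjugate

namespace ORTH

/-! ### words -/

theorem letters_map {α β : Type} [DecidableEq β] (f : α → β) (x : FreeGroup α) :
    ∀ p ∈ (FreeGroup.map f x).toWord, p.1 ∈ Set.range f := by
  rcases x with ⟨L⟩
  intro p hp
  have h1 : FreeGroup.map f (FreeGroup.mk L) = FreeGroup.mk (L.map fun x => (f x.1, x.2)) :=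
    FreeGroup.map.mk
  have hp' : p ∈ (FreeGroup.map f (FreeGroup.mk L)).toWord := hp
  rw [h1, FreeGroup.toWord_mk] at hp'
  have h2 := (FreeGroup.reduce.red (L := L.map fun x => (f x.1, x.2))).sublist.subset hp'
  rw [List.mem_map] at h2
  obtain ⟨y, -, rfl⟩ := h2
  exact ⟨y.1, rfl⟩

theorem head_mul {β : Type} [DecidableEq β] (x y : FreeGroup β) (P : β → Prop) (hx : x ≠ 1)
    (hxP : ∀ p ∈ x.toWord, P p.1) (hy : ∀ p, y.toWord.head? = some p → ¬ P p.1) :
    ∃ p, (x * y).toWord.head? = some p ∧ P p.1 := by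
  have hred : FreeGroup.IsReduced (x.toWord ++ y.toWord) := by
    unfold FreeGroup.IsReduced
    rw [List.isChain_append]
    refine ⟨FreeGroup.isReduced_toWord, FreeGroup.isReduced_toWord, ?_⟩
    intro p hp q hq he
    exfalso
    apply hy q hq
    rw [← he]
    exact hxP p (List.mem_of_getLast? hp)
  have hw : (x * y).toWord = x.toWord ++ y.toWord := by
    rw [FreeGroup.toWord_mul, hred.reduce_eq]
  have hne : x.toWord ≠ [] := fun h => hx (FreeGroup.toWord_eq_nil_iff.1 h)
  obtain ⟨p, l, hl⟩ := List.exists_cons_of_ne_nil hne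
  refine ⟨p, ?_, hxP p (by rw [hl]; exact List.mem_cons_self)⟩
  rw [hw, hl]
  rfl

variable {ι : Type} [DecidableEq ι]

theorem ne_one (g : FreeGroup ι) (t t' : FreeGroup (Option ι)) (ht : HV t) (ht' : HV t')
    (hne : t ≠ t') : t'⁻¹ * (jj g * t) ≠ 1 := by
  intro h
  have h1 : t' = jj g * t := by
    rw [inv_mul_eq_one] at h
    exact h
  by_cases hg : g = 1
  · subst hg
    rw [map_one, one_mul] at h1
    exact hne h1.symm
  have hg' : jj g ≠ 1 := by
    intro h2
    apply hg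
    apply FreeGroup.map_injective (Option.some_injective ι)
    rw [map_one]
    exact h2
  obtain ⟨p, hp, hP⟩ := head_mul (jj g) t (fun j => j ∈ Set.range (some : ι → Option ι)) hg'
    (letters_map some g) (by
      intro p hp hP
      obtain ⟨b, hb⟩ := ht
      rw [hb] at hp
      obtain ⟨i, hi⟩ := hP
      have : p = (none, b) := (Option.some.inj hp).symm
      rw [this] at hi
      exact absurd hi (by simp))
  obtain ⟨b, hb⟩ := ht'
  rw [← h1, hb] at hp
  obtain ⟨i, hi⟩ := hP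
  have : p = (none, b) := (Option.some.inj hp).symm
  rw [this] at hi
  exact absurd hi (by simp)

theorem vv_zpow_ne (m : ℤ) (hm : m ≠ 0) : (vv ^ m : FreeGroup (Option ι)) ≠ 1 := by
  intro h
  have h2 : (FreeGroup.lift (fun _ : Option ι => Multiplicative.ofAdd (1 : ℤ)))
      (vv ^ m : FreeGroup (Option ι)) = 1 := by rw [h, map_one]
  rw [map_zpow] at h2
  simp only [vv, FreeGroup.lift_apply_of] at h2
  rw [← ofAdd_zsmul] at h2
  have h3 := congrArg Multiplicative.toAdd h2
  simp at h3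
  exact hm h3

theorem ne_one' (m : ℤ) (hm : m ≠ 0) (w w' : FreeGroup (Option ι)) (hw : ¬ HV w) (hw' : ¬ HV w') :
    w'⁻¹ * (vv ^ m * w) ≠ 1 := by
  intro h
  have h1 : w' = vv ^ m * w := by
    rw [inv_mul_eq_one] at h
    exact h
  have e : (vv ^ m : FreeGroup (Option ι)) =
      FreeGroup.map (fun _ : Unit => (none : Option ι)) (FreeGroup.of () ^ m) := by
    rw [map_zpow, FreeGroup.map.of]
  obtain ⟨p, hp, hP⟩ := head_mul (vv ^ m) w (fun j => j ∈ Set.range (fun _ : Unit =>
    (none : Option ι))) (vv_zpow_ne m hm) (by rw [e]; exact letters_map _ _) (by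
      intro p hp hP
      apply hw
      obtain ⟨i, hi⟩ := hP
      refine ⟨p.2, ?_⟩
      rw [hp]
      congr 1
      ext1
      · exact hi.symm
      · rfl)
  apply hw'
  obtain ⟨i, hi⟩ := hP
  refine ⟨p.2, ?_⟩
  rw [h1, hp]
  congr 1
  ext1
  · exact hi.symm
  · rfl

/-! ### systems -/

variable {A : Type} [CStarAlgebra A]

omit [DecidableEq ι] in
theorem gp_sm (σ : Option ι → CI →⋆ₐ[ℂ] A) (g : FreeGroup ι) : gp (sm σ) g = gp σ (jj g) := by
  have h : gp (sm σ) = (gp σ).comp jj := by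
    apply FreeGroup.ext_hom
    intro i
    simp [gp, sm]
  rw [h]
  rfl

omit [DecidableEq ι] in
theorem sys_sm (φ : TrSt A) (σ : Option ι → CI →⋆ₐ[ℂ] A) (h : Sys φ σ) : Sys φ (sm σ) := by
  refine ⟨fun j f => h.mar (some j) f, fun w hw => ?_⟩
  rw [gp_sm]
  apply h.free
  intro h2
  apply hw
  apply FreeGroup.map_injective (Option.some_injective ι)
  rw [map_one]
  exact h2

theorem n2_unitary (φ : TrSt A) (u : unitary A) : n2 φ (u : A) = 1 := by
  have h := n2_unitary_mul φ u.2 1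
  rw [mul_one, n2_one] at h
  exact h

omit [DecidableEq ι] in
theorem free3 (φ : TrSt A) (σ : Option ι → CI →⋆ₐ[ℂ] A) (h : Sys φ σ)
    (x y z : FreeGroup (Option ι)) (hne : x⁻¹ * (y * z) ≠ 1) :
    φ.toFun (star (gp σ x : A) * ((gp σ y : A) * (gp σ z : A))) = 0 := by
  have h1 := h.free _ hne
  rw [map_mul, map_mul, map_inv] at h1
  exact h1

theorem eq_zero_of_lt (z : ℂ) (h : ∀ ε : ℝ, 0 < ε → ‖z‖ ≤ ε) : z = 0 := by
  rw [← norm_eq_zero]
  refine le_antisymm ?_ (norm_nonneg z)
  exact le_of_forall_pos_le_add (fun ε hε => by rw [zero_add]; exact h ε hε)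

theorem part1 (h1 : S_DENS) (φ : TrSt A) (σ : Option ι → CI →⋆ₐ[ℂ] A) (h : Sys φ σ) (d : A)
    (hd : d ∈ Cs (sm σ)) (t t' : FreeGroup (Option ι)) (ht : HV t) (ht' : HV t') (hne : t ≠ t') :
    φ.toFun (star (gp σ t' : A) * (d * (gp σ t : A))) = 0 := by
  have key : ∀ f : GR ι, φ.toFun (star (gp σ t' : A) * (ev (gp (sm σ)) f * (gp σ t : A))) = 0 := by
    intro f
    induction f using MonoidAlgebra.induction_linear with
    | zero => rw [map_zero, zero_mul, mul_zero, map_zero]
    | add a b ha hb => rw [map_add, add_mul, mul_add, map_add, ha, hb, add_zero]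
    | single g c =>
      have e : ev (gp (sm σ)) (MonoidAlgebra.single g c) = c • (gp σ (jj g) : A) := by
        unfold ev
        rw [MonoidAlgebra.lift_single]
        show c • ((gp (sm σ) g : unitary A) : A) = _
        rw [gp_sm]
      rw [e, smul_mul_assoc, mul_smul_comm, map_smul, free3 φ σ h _ _ _ (ne_one g t t' ht ht' hne),
        smul_zero]
  apply eq_zero_of_lt
  intro ε hε
  obtain ⟨f, hf⟩ := h1 ι A φ (sm σ) (sys_sm φ σ h) d hd ε hε
  have e : star (gp σ t' : A) * (d * (gp σ t : A)) =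
      star (gp σ t' : A) * ((d - ev (gp (sm σ)) f) * (gp σ t : A)) +
        star (gp σ t' : A) * (ev (gp (sm σ)) f * (gp σ t : A)) := by
    rw [← mul_add, ← add_mul, sub_add_cancel]
  rw [e, map_add, key, add_zero]
  refine (cauchy φ _ _).trans ?_
  rw [n2_unitary, one_mul, n2_mul_unitary φ (gp σ t).2]
  exact hf.le

theorem n2_sig (φ : TrSt A) (σ : Option ι → CI →⋆ₐ[ℂ] A) (h : Sys φ σ) (g : CI) :
    n2 φ (σ none g) ^ 2 = ∫ x : unitInterval, ‖g x‖ ^ 2 := by
  rw [n2_sq, ← map_star, ← map_mul, h.mar]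
  have e : ∀ x : unitInterval, (star g * g) x = ((‖g x‖ ^ 2 : ℝ) : ℂ) := by
    intro x
    show star (g x) * g x = _
    have := Complex.conj_mul' (g x)
    rw [Complex.star_def, this]
    push_cast
    rfl
  simp_rw [e]
  rw [integral_complex_ofReal, Complex.ofReal_re]

theorem part2 (h2 : S_FEJ) (h3 : S_TP) (φ : TrSt A) (σ : Option ι → CI →⋆ₐ[ℂ] A) (h : Sys φ σ)
    (w w' : FreeGroup (Option ι)) (hw : ¬ HV w) (hw' : ¬ HV w') (f : CI)
    (hf : φ.toFun (σ none f) = 0) :
    φ.toFun (star (gp σ w' : A) * (σ none f * (gp σ w : A))) = 0 := by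
  have key : ∀ q : ℤ →₀ ℂ, q 0 = 0 →
      φ.toFun (star (gp σ w' : A) * (σ none (tp q) * (gp σ w : A))) = 0 := by
    intro q hq
    rw [h3.1 A (σ none) q, Finsupp.sum, Finset.sum_mul, Finset.mul_sum, map_sum]
    apply Finset.sum_eq_zero
    intro m hm
    have hm0 : m ≠ 0 := by
      rintro rfl
      rw [Finsupp.mem_support_iff] at hm
      exact hm hq
    have e : (uu (σ none) ^ m : unitary A) = gp σ (vv ^ m) := by
      rw [map_zpow]
      simp [gp, vv]
    rw [e, smul_mul_assoc, mul_smul_comm, map_smul, free3 φ σ h _ _ _ (ne_one' m hm0 w w' hw hw'),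
      smul_zero]
  apply eq_zero_of_lt
  intro ε hε
  obtain ⟨q, hq0, -, -, hq⟩ := h2 f (ε ^ 2) (by positivity)
  have hint : ∫ x : unitInterval, f x = 0 := by rw [← h.mar none f]; exact hf
  have e : star (gp σ w' : A) * (σ none f * (gp σ w : A)) =
      star (gp σ w' : A) * (σ none (f - tp q) * (gp σ w : A)) +
        star (gp σ w' : A) * (σ none (tp q) * (gp σ w : A)) := by
    rw [map_sub, ← mul_add, ← add_mul, sub_add_cancel]
  rw [e, map_add, key q (hq0 hint), add_zero]
  refine (cauchy φ _ _).trans ?_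
  rw [n2_unitary, one_mul, n2_mul_unitary φ (gp σ w).2]
  have h4 := n2_sig φ σ h (f - tp q)
  have h5 : ∫ x : unitInterval, ‖(f - tp q) x‖ ^ 2 < ε ^ 2 := hq
  rw [← h4] at h5
  exact (lt_of_pow_lt_pow_left₀ 2 hε.le h5).le

end ORTH

theorem t_ORTH (h1 : S_DENS) (h2 : S_FEJ) (h3 : S_TP) : S_ORTH := by
  intro ι A _ _ φ σ h
  refine ⟨?_, fun w w' hw hw' f hf => ORTH.part2 h2 h3 φ σ h w w' hw hw' f hf⟩
  intro a ha b hb t t' ht ht' hne
  have e : star (b * (gp σ t' : A)) * (a * (gp σ t : A)) =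
      star (gp σ t' : A) * ((star b * a) * (gp σ t : A)) := by
    rw [star_mul]
    noncomm_ring
  rw [e]
  exact ORTH.part1 h1 φ σ h _ (mul_mem (star_mem hb) ha) t t' ht ht' hne

end Pool.Agent.H308R2.CF
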