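import Pool.Agent.H308R2.CF.Stubs

/-! PAIR: a pair inside a system (helper152) -/

namespace Pool.Agent.H308R2.CF

open Pool.Agent.H770R2.UL (TrSt n2)
open Pool.Agent.H581R.FF (GR bs ev jj vv kk act)
open scoped ComplexConjugate

namespace PAIRaux

variable {ι : Type}

/-- the letters -/
def mm (a : ι) : Option Unit → Option ι
  | none => none
  | some _ => some a

/-- left inverse -/
def mr : Option ι → Option Unit
  | none => none
  | some _ => some ()

theorem mr_mm (a : ι) (x : Option Unit) : mr (mm a x) = x := by
  rcases x with _ | x <;> rfl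

theorem map_inj (a : ι) : Function.Injective (FreeGroup.map (mm a)) := by
  apply Function.LeftInverse.injective (g := FreeGroup.map (mr (ι := ι)))
  intro w
  rw [FreeGroup.map.comp]
  have : mr (ι := ι) ∘ mm a = id := funext (mr_mm a)
  rw [this, FreeGroup.map.id]

/-- conjugation of the letter `v` -/
noncomputable def al (G : FreeGroup (Option ι)) : FreeGroup (Option ι) →* FreeGroup (Option ι) :=
  FreeGroup.lift fun
    | none => G * FreeGroup.of none * G⁻¹
    | some j => FreeGroup.of (some j)

theorem al_jj (G : FreeGroup (Option ι)) (g : FreeGroup ι) : al G (jj g) = jj g := by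
  have h : (al G).comp jj = jj := by
    apply FreeGroup.ext_hom
    intro j
    simp [al, jj]
  exact DFunLike.congr_fun h g

theorem al_inj (g : FreeGroup ι) : Function.Injective (al (jj g)⁻¹) := by
  apply Function.LeftInverse.injective (g := al (jj g))
  intro w
  have h : (al (jj g)).comp (al (jj g)⁻¹) = MonoidHom.id _ := by
    apply FreeGroup.ext_hom
    intro j
    rcases j with _ | j
    · have e1 : al (jj g)⁻¹ (FreeGroup.of none) = (jj g)⁻¹ * FreeGroup.of none * jj g := by
        simp [al]
      have e2 : al (jj g) (FreeGroup.of none) = jj g * FreeGroup.of none * (jj g)⁻¹ := by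
        simp [al]
      rw [MonoidHom.comp_apply, e1, map_mul, map_mul, map_inv, al_jj, e2, MonoidHom.id_apply]
      group
    · simp [al]
  exact DFunLike.congr_fun h w

/-- the homomorphism -/
noncomputable def th (a : ι) (g : FreeGroup ι) : FreeGroup (Option Unit) →* FreeGroup (Option ι) :=
  FreeGroup.lift fun
    | none => FreeGroup.of none
    | some _ => jj g * FreeGroup.of (some a) * (jj g)⁻¹

theorem th_eq (a : ι) (g : FreeGroup ι) (w : FreeGroup (Option Unit)) :
    th a g w = jj g * al (jj g)⁻¹ (FreeGroup.map (mm a) w) * (jj g)⁻¹ := by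
  have h : th a g = ((MulAut.conj (jj g)).toMonoidHom.comp (al (jj g)⁻¹)).comp
      (FreeGroup.map (mm a)) := by
    apply FreeGroup.ext_hom
    intro j
    rcases j with _ | j
    · simp [th, al, mm, MulAut.conj_apply]
      group
    · simp [th, al, mm, MulAut.conj_apply]
  have := DFunLike.congr_fun h w
  rw [this]
  simp [MulAut.conj_apply]

theorem th_ne (a : ι) (g : FreeGroup ι) (w : FreeGroup (Option Unit)) (hw : w ≠ 1) :
    th a g w ≠ 1 := by
  intro h
  apply hw
  rw [th_eq] at h
  have h1 : al (jj g)⁻¹ (FreeGroup.map (mm a) w) = 1 := by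
    have h2 : al (jj g)⁻¹ (FreeGroup.map (mm a) w) =
        (jj g)⁻¹ * (jj g * al (jj g)⁻¹ (FreeGroup.map (mm a) w) * (jj g)⁻¹) * jj g := by group
    rw [h2, h]
    group
  have h3 : FreeGroup.map (mm a) w = 1 := al_inj g (by rw [h1, map_one])
  exact map_inj a (by rw [h3, map_one])

end PAIRaux

open PAIRaux in
theorem t_PAIR : S_PAIR := by
  intro ι A _ φ σ hσ a g τ h1 h2
  have hgp : ∀ w, gp τ w = gp σ (th a g w) := by
    intro w
    have h : gp τ = (gp σ).comp (th a g) := by
      apply FreeGroup.ext_hom
      intro j
      rcases j with _ | j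
      · simp [gp, th, h1]
      · have e1 : gp τ (FreeGroup.of (some j)) = uu (τ (some ())) := by simp [gp]
        have e2 : ((gp σ).comp (th a g)) (FreeGroup.of (some j)) =
            gp σ (jj g) * uu (σ (some a)) * (gp σ (jj g))⁻¹ := by
          simp [gp, th]
        rw [e1, e2, h2]
        ext
        simp [uu, cj_apply]
        rfl
    rw [h]
    rfl
  refine ⟨?_, ?_⟩
  · intro j f
    rcases j with _ | j
    · rw [h1]
      exact hσ.mar none f
    · rw [show (some j : Option Unit) = some () from rfl, h2, cj_apply, φ.tr, ← mul_assoc,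
        Unitary.coe_star_mul_self, one_mul]
      exact hσ.mar (some a) f
  · intro w hw
    rw [hgp w]
    exact hσ.free _ (th_ne a g w hw)

end Pool.Agent.H308R2.CF
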