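import Mathlib
import Pool.Agent.H308R2.CF.Stubs

/-! ROT: rotation invariance of free semicircular families. -/

open Finset
open scoped ComplexConjugate

namespace Pool.Agent.H308R2.CF

open Pool.Agent.H770R2.UL (TrSt n2)

/-- sum over all words of the same length with the products of the matrix entries -/
noncomputable def ROT_RS {κ A : Type} [Fintype κ] [Ring A] [Algebra ℂ A] (R : κ → κ → ℂ) :
    List κ → (List κ → A) → A
  | [], F => F []
  | i :: w, F => ∑ j, R i j • ROT_RS R w (fun v => F (j :: v))

theorem ROT_RS_smul {κ A : Type} [Fintype κ] [Ring A] [Algebra ℂ A] (R : κ → κ → ℂ) (c : ℂ)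
    (w : List κ) : ∀ F : List κ → A, ROT_RS R w (fun v => c • F v) = c • ROT_RS R w F := by
  induction w with
  | nil => intro F; rfl
  | cons i w ih =>
    intro F
    simp only [ROT_RS]
    rw [smul_sum]
    refine sum_congr rfl fun j _ => ?_
    rw [ih, smul_comm]

theorem ROT_RS_sub {κ A : Type} [Fintype κ] [Ring A] [Algebra ℂ A] (R : κ → κ → ℂ)
    (w : List κ) : ∀ F G : List κ → A, ROT_RS R w (fun v => F v - G v) =
      ROT_RS R w F - ROT_RS R w G := by
  induction w with
  | nil => intro F G; rfl
  | cons i w ih =>
    intro F G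
    simp only [ROT_RS]
    rw [← sum_sub_distrib]
    refine sum_congr rfl fun j _ => ?_
    rw [ih, smul_sub]

theorem ROT_RS_mul {κ A : Type} [Fintype κ] [Ring A] [Algebra ℂ A] (R : κ → κ → ℂ) (a : A)
    (w : List κ) : ∀ F : List κ → A, ROT_RS R w (fun v => a * F v) = a * ROT_RS R w F := by
  induction w with
  | nil => intro F; rfl
  | cons i w ih =>
    intro F
    simp only [ROT_RS]
    rw [mul_sum]
    refine sum_congr rfl fun j _ => ?_
    rw [ih, mul_smul_comm]

theorem ROT_RS_zero {κ A : Type} [Fintype κ] [Ring A] [Algebra ℂ A] (R : κ → κ → ℂ)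
    (w : List κ) : ROT_RS R w (fun _ => (0 : A)) = 0 := by
  induction w with
  | nil => rfl
  | cons i w ih =>
    simp only [ROT_RS, ih, smul_zero, sum_const_zero]

theorem ROT_PP {κ A : Type} [Fintype κ] [DecidableEq κ] [Ring A] [Algebra ℂ A]
    (R : κ → κ → ℂ) (hR : ∀ i k, ∑ j, R i j * R k j = if i = k then 1 else 0) (x : κ → A) :
    ∀ (n : ℕ) (w : List κ), w.length ≤ n →
      PP (fun i => ∑ j, R i j • x j) w = ROT_RS R w (PP x) := by
  intro n
  induction n with
  | zero =>
    intro w hw
    have : w = [] := List.length_eq_zero_iff.1 (Nat.le_zero.1 hw)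
    subst this
    rfl
  | succ n ih =>
    intro w hw
    match w, hw with
    | [], _ => rfl
    | [i], _ =>
      simp only [PP, ROT_RS]
      rw [smul_sum]
      refine sum_congr rfl fun j _ => ?_
      rw [smul_comm]
    | i :: k :: w, hw =>
      have h1 := ih (k :: w) (by simpa using hw)
      have h2 := ih w (by simp only [List.length_cons] at hw; omega)
      have e1 : ∀ j l : κ, ROT_RS R w (fun v => PP x (j :: l :: v)) =
          (2 : ℂ) • (x j * ROT_RS R w (fun v => PP x (l :: v))) -
          if j = l then ROT_RS R w (PP x) else 0 := by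
        intro j l
        simp only [PP]
        rw [ROT_RS_sub, ROT_RS_smul, ROT_RS_mul]
        congr 1
        split_ifs with h
        · rfl
        · exact ROT_RS_zero R w
      have e2 : ∀ j, ∑ l, R k l • ROT_RS R w (fun v => PP x (j :: l :: v)) =
          (2 : ℂ) • (x j * ROT_RS R (k :: w) (PP x)) - R k j • ROT_RS R w (PP x) := by
        intro j
        calc ∑ l, R k l • ROT_RS R w (fun v => PP x (j :: l :: v))
            = ∑ l, (R k l • ((2 : ℂ) • (x j * ROT_RS R w (fun v => PP x (l :: v)))) -
                R k l • (if j = l then ROT_RS R w (PP x) else 0)) := by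
              refine sum_congr rfl fun l _ => ?_
              rw [e1, smul_sub]
          _ = ∑ l, R k l • ((2 : ℂ) • (x j * ROT_RS R w (fun v => PP x (l :: v)))) -
                ∑ l, R k l • (if j = l then ROT_RS R w (PP x) else 0) := sum_sub_distrib _ _
          _ = _ := by
              congr 1
              · show _ = (2 : ℂ) • (x j * ∑ l, R k l • ROT_RS R w (fun v => PP x (l :: v)))
                rw [mul_sum, smul_sum]
                refine sum_congr rfl fun l _ => ?_
                rw [mul_smul_comm, smul_comm]
              · simp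
      show (2 : ℂ) • ((∑ j, R i j • x j) * PP (fun i => ∑ j, R i j • x j) (k :: w)) -
        (if i = k then PP (fun i => ∑ j, R i j • x j) w else 0) =
        ∑ j, R i j • ∑ l, R k l • ROT_RS R w (fun v => PP x (j :: l :: v))
      rw [h1, h2]
      calc (2 : ℂ) • ((∑ j, R i j • x j) * ROT_RS R (k :: w) (PP x)) -
            (if i = k then ROT_RS R w (PP x) else 0)
          = ∑ j, R i j • ((2 : ℂ) • (x j * ROT_RS R (k :: w) (PP x))) -
            ∑ j, R i j • (R k j • ROT_RS R w (PP x)) := by
            congr 1
            · rw [sum_mul, smul_sum]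
              refine sum_congr rfl fun j _ => ?_
              rw [smul_mul_assoc, smul_comm]
            · rw [sum_congr rfl fun j _ => smul_smul (R i j) (R k j) (ROT_RS R w (PP x)), ← sum_smul,
                hR i k]
              split_ifs with h
              · rw [one_smul]
              · rw [zero_smul]
        _ = ∑ j, (R i j • ((2 : ℂ) • (x j * ROT_RS R (k :: w) (PP x))) -
              R i j • (R k j • ROT_RS R w (PP x))) := (sum_sub_distrib _ _).symm
        _ = _ := by
            refine sum_congr rfl fun j _ => ?_
            rw [e2, smul_sub]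

theorem ROT_zero {κ A : Type} [Fintype κ] [CStarAlgebra A] (φ : TrSt A)
    (R : κ → κ → ℂ) (w : List κ) : ∀ F : List κ → A,
    (∀ v : List κ, v.length = w.length → φ.toFun (F v) = 0) → φ.toFun (ROT_RS R w F) = 0 := by
  induction w with
  | nil =>
    intro F h
    exact h [] rfl
  | cons i w ih =>
    intro F h
    simp only [ROT_RS]
    rw [map_sum]
    refine sum_eq_zero fun j _ => ?_
    rw [map_smul, ih (fun v => F (j :: v)) (fun v hv => h (j :: v) (by simp [hv])), smul_zero]

/-- rotation invariance -/
theorem t_ROT : S_ROT := by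
  intro κ _ _ A _ φ x hx R hR
  refine ⟨fun i => ?_, fun w hw => ?_⟩
  · rw [star_sum]
    refine sum_congr rfl fun j _ => ?_
    rw [star_smul, hx.sa]
    congr 1
    exact Complex.conj_ofReal _
  · have hR' : ∀ i k, ∑ j, ((R i j : ℝ) : ℂ) * ((R k j : ℝ) : ℂ) = if i = k then 1 else 0 := by
      intro i k
      have h3 : ∑ j, R i j * R k j = (1 : Matrix κ κ ℝ) i k := by
        rw [← hR, Matrix.mul_apply]
        rfl
      rw [Matrix.one_apply] at h3
      have h4 := congrArg (fun z : ℝ => (z : ℂ)) h3
      simp only [Complex.ofReal_sum, Complex.ofReal_mul] at h4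
      rw [h4]
      split_ifs <;> simp
    rw [ROT_PP (fun i j => ((R i j : ℝ) : ℂ)) hR' x w.length w le_rfl]
    refine ROT_zero φ _ w (PP x) fun v hv => hx.law v ?_
    rintro rfl
    exact hw (List.length_eq_zero_iff.1 hv.symm)

end Pool.Agent.H308R2.CF
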