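import Pool.Agent.H308R2.CF.Stubs

/-! The moves: first the member `none` is conjugated by `e^{iαx}`, then the flow for time `β`. -/

set_option autoImplicit false

namespace Pool.Agent.H308R2.CF

open Pool.Agent.H770R2.UL (TrSt n2)
open Pool.Agent.H581R.FF (GR bs ev jj vv kk act)
open scoped ComplexConjugate

theorem run_cj_norm {A : Type} [CStarAlgebra A] {U V : A} (hU : U ∈ unitary A)
    (hV : V ∈ unitary A) (a b : A) (ha : ‖a‖ ≤ 1) :
    ‖U * a * star U - V * b * star V‖ ≤ 2 * ‖U - V‖ + ‖a - b‖ := by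
  have h : U * a * star U - V * b * star V =
      (U - V) * a * star U + V * a * star (U - V) + V * (a - b) * star V := by
    rw [star_sub]
    noncomm_ring
  have h1 : ‖(U - V) * a * star U‖ ≤ ‖U - V‖ := by
    rw [CStarRing.norm_mul_mem_unitary _ (Unitary.star_mem hU)]
    calc ‖(U - V) * a‖ ≤ ‖U - V‖ * ‖a‖ := norm_mul_le _ _
      _ ≤ ‖U - V‖ * 1 := by gcongr
      _ = ‖U - V‖ := mul_one _
  have h2 : ‖V * a * star (U - V)‖ ≤ ‖U - V‖ := by
    rw [mul_assoc, CStarRing.norm_mem_unitary_mul _ hV]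
    calc ‖a * star (U - V)‖ ≤ ‖a‖ * ‖star (U - V)‖ := norm_mul_le _ _
      _ ≤ 1 * ‖star (U - V)‖ := by gcongr
      _ = ‖U - V‖ := by rw [one_mul, norm_star]
  have h3 : ‖V * (a - b) * star V‖ = ‖a - b‖ := by
    rw [CStarRing.norm_mul_mem_unitary _ (Unitary.star_mem hV),
      CStarRing.norm_mem_unitary_mul _ hV]
  rw [h]
  have h4 := norm_add₃_le (a := (U - V) * a * star U) (b := V * a * star (U - V))
    (c := V * (a - b) * star V)
  rw [h3] at h4
  linarith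

theorem run_gp_mem {κ A : Type} [CStarAlgebra A] (τ : κ → CI →⋆ₐ[ℂ] A) (w : FreeGroup κ) :
    ((gp τ w : unitary A) : A) ∈ Cs τ := by
  have hj : ∀ j, ((uu (τ j) : unitary A) : A) ∈ Cs τ := by
    intro j
    refine StarSubalgebra.le_topologicalClosure _ ?_
    exact (le_iSup (fun j => (τ j).range) j) ⟨eI, rfl⟩
  induction w using FreeGroup.induction_on with
  | C1 => rw [map_one]; exact one_mem _
  | of j => simpa [gp] using hj j
  | inv_of j ih =>
    rw [map_inv]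
    exact star_mem ih
  | mul x y hx hy =>
    rw [map_mul]
    exact mul_mem hx hy

theorem run_gp_jj {ι A : Type} [CStarAlgebra A] (σ : Option ι → CI →⋆ₐ[ℂ] A) (w : FreeGroup ι) :
    gp σ (jj w) = gp (sm σ) w := by
  have h : (gp σ).comp jj = gp (sm σ) := by
    apply FreeGroup.ext_hom
    intro j
    simp [gp, jj]
  exact DFunLike.congr_fun h w

theorem run_x_mem {ι A : Type} [CStarAlgebra A] (σ : Option ι → CI →⋆ₐ[ℂ] A) (w : FreeGroup ι)
    (a : ι) (f : CI) : cj (gp σ (jj w)) (σ (some a)) f ∈ Cs (sm σ) := by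
  rw [cj_apply, run_gp_jj]
  have h1 := run_gp_mem (sm σ) w
  have h2 : σ (some a) f ∈ Cs (sm σ) := by
    refine StarSubalgebra.le_topologicalClosure _ ?_
    exact (le_iSup (fun j => (sm σ j).range) a) ⟨f, rfl⟩
  exact mul_mem (mul_mem h1 h2) (star_mem h1)

theorem run_cj_cj {A : Type} [CStarAlgebra A] (W W' : unitary A) (σ : CI →⋆ₐ[ℂ] A) :
    cj W' (cj W σ) = cj (W' * W) σ := by
  ext f
  simp only [cj_apply, Submonoid.coe_mul, star_mul, mul_assoc]

theorem run_cj_one {A : Type} [CStarAlgebra A] (σ : CI →⋆ₐ[ℂ] A) : cj 1 σ = σ := by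
  ext f
  simp [cj_apply]

/-- the statement for one list -/
def RunAt (l : List (ℝ × ℝ)) (C : ℝ) : Prop := ∀ (ι : Type) [DecidableEq ι] (a u : ι),
  a ≠ u → ∀ (r : List (ℤ × ℤ)) (c : FreeGroup ι →₀ ℝ) (δ : ℝ), 0 < δ → nc c ≤ δ →
  nc (Z0 (FreeGroup.of a) (FreeGroup.of u) r c - Finsupp.single 1 1) ≤ δ →
  ∀ s : C(unitInterval, ℝ), SCf s → ∀ (A : Type) [CStarAlgebra A] (φ : TrSt A)
  (σ : Option ι → CI →⋆ₐ[ℂ] A), FSG φ σ →
  ∃ (W : unitary A) (σ' : Option ι → CI →⋆ₐ[ℂ] A), FSG φ σ' ∧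
    (∀ j : ι, j ≠ u → σ' (some j) = σ (some j)) ∧ σ' (some u) = cj W (σ (some u)) ∧
    ‖(W : A) - 1‖ ≤ C * δ ∧
    ∀ x x' : A, x = cj (gp σ (jj (wz (FreeGroup.of a) (FreeGroup.of u) r))) (σ (some a)) (cs s) →
    x' = cj (gp σ' (jj (wz (FreeGroup.of a) (FreeGroup.of u) r))) (σ' (some a)) (cs s) →
    ‖x' - Vl x (σ none (cs s)) l * x * star (Vl x (σ none (cs s)) l)‖ ≤ C * δ ∧
    ‖σ' none (cs s) - Vl x (σ none (cs s)) l * σ none (cs s) *
      star (Vl x (σ none (cs s)) l)‖ ≤ C * δ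

theorem run_nil : RunAt [] 0 := by
  intro ι _ a u hau r c δ hδ hc hZ s hs A _ φ σ hσ
  refine ⟨1, σ, hσ, fun _ _ => rfl, (run_cj_one _).symm, by simp, ?_⟩
  intro x x' hx hx'
  rw [hx', ← hx]
  simp [Vl]

/-- the algebra of one step -/
theorem run_alg {A : Type} [CStarAlgebra A] {Q F x y : A} (hQ : Q ∈ unitary A)
    (hF : F ∈ unitary A) (hQx : Q * x = x * Q) (hFy : F * y = y * F) :
    (Q * F * star Q) * x * star (Q * F * star Q) = (Q * F) * x * star (Q * F) ∧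
    (Q * F) * y * star (Q * F) = Q * y * star Q := by
  have hQ1 : star Q * Q = 1 := Unitary.star_mul_self_of_mem hQ
  have hF2 : F * star F = 1 := Unitary.mul_star_self_of_mem hF
  have h1 : star Q * x * Q = x := by
    rw [mul_assoc, ← hQx, ← mul_assoc, hQ1, one_mul]
  constructor
  · calc (Q * F * star Q) * x * star (Q * F * star Q)
        = Q * F * (star Q * x * Q) * star F * star Q := by
          simp only [star_mul, star_star, mul_assoc]
      _ = (Q * F) * x * star (Q * F) := by rw [h1, star_mul]; simp only [mul_assoc]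
  · calc (Q * F) * y * star (Q * F) = Q * (F * y) * star F * star Q := by
          simp only [star_mul, mul_assoc]
      _ = Q * (y * (F * star F)) * star Q := by rw [hFy]; simp only [mul_assoc]
      _ = Q * y * star Q := by rw [hF2, mul_one]

theorem run_cons (hFS : S_FS) (hMV2 : S_MV2) (hEX : S_EX) (hSC0 : S_SC0)
    (p : ℝ × ℝ) (l : List (ℝ × ℝ)) (C CL : ℝ) (hCL : 0 ≤ CL) (ih : RunAt l C)
    (hL : ∀ (A : Type) [CStarAlgebra A]
      (x y x' y' : A), star x = x → star y = y → star x' = x' → star y' = y' →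
      Vl x y l ∈ unitary A ∧ ‖Vl x y l - Vl x' y' l‖ ≤ CL * (‖x - x'‖ + ‖y - y'‖) ∧
      ∀ Q : unitary A, Vl ((Q : A) * x * star (Q : A)) ((Q : A) * y * star (Q : A)) l =
        (Q : A) * Vl x y l * star (Q : A)) :
    RunAt (p :: l) (C + (2 * CL + 1) * (2 * (2 * |p.2| + 1)) + (2 * |p.2| + 1)) := by
  intro ι _ a u hau r c δ hδ hc hZ s hs A _ φ σ hσ
  obtain ⟨hsn, hs0, hsr, hss, hsA⟩ := hSC0 s hs
  set w := wz (FreeGroup.of a) (FreeGroup.of u) r with hw
  obtain ⟨x, hx⟩ : ∃ x, x = cj (gp σ (jj w)) (σ (some a)) (cs s) := ⟨_, rfl⟩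
  obtain ⟨y, hy⟩ : ∃ y, y = σ none (cs s) := ⟨_, rfl⟩
  have hxsa : star x = x := by rw [hx]; exact (hsA A (cj (gp σ (jj w)) (σ (some a)))).1
  have hxn : ‖x‖ ≤ 1 := by rw [hx]; exact (hsA A (cj (gp σ (jj w)) (σ (some a)))).2
  have hysa : star y = y := by rw [hy]; exact (hsA A (σ none)).1
  have hyn : ‖y‖ ≤ 1 := by rw [hy]; exact (hsA A (σ none)).2
  obtain ⟨ex1, -, -, -, -, ex6, -, -, ex9, -, ex11, -⟩ := hEX A x y hxsa hysa
  obtain ⟨ey1, -, -, -, -, ey6, -, -, ey9, -⟩ := hEX A y x hysa hxsa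
  -- the first move
  set Q : unitary A := ⟨ex p.1 x, ex1 p.1⟩ with hQd
  have hQc : (Q : A) = ex p.1 x := rfl
  have hQmem : (Q : A) ∈ Cs (sm σ) := by
    refine ex11 (Cs (sm σ)) ?_ ?_ p.1
    · exact StarSubalgebra.isClosed_topologicalClosure _
    · rw [hx]; exact run_x_mem σ w a (cs s)
  set σ1 : Option ι → CI →⋆ₐ[ℂ] A := Function.update σ none (cj Q (σ none)) with hσ1
  have hs1 : ∀ j : ι, σ1 (some j) = σ (some j) := fun j => by
    rw [hσ1]; exact Function.update_of_ne (by simp) _ _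
  have hn1 : σ1 none = cj Q (σ none) := by rw [hσ1]; exact Function.update_self _ _ _
  have hmv : Mv σ σ1 none Q := ⟨fun i hi => by rw [hσ1]; exact Function.update_of_ne hi _ _, hn1⟩
  have hF1 : FSG φ σ1 := hMV2 ι A φ σ σ1 Q hσ hQmem hmv
  have hg1 : gp σ1 (jj w) = gp σ (jj w) := by
    have h : sm σ1 = sm σ := funext hs1
    rw [run_gp_jj, run_gp_jj, h]
  -- the second move
  obtain ⟨W2, σ2, hmv2, hF2, hW2, hg2⟩ := hFS ι a u hau r c p.2 δ hδ A φ σ1 hF1 (cs s) hs0 hsr hsn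
  have hn2 : σ2 none = σ1 none := hmv2.ne none (by simp)
  have ha2 : σ2 (some a) = σ (some a) := by
    rw [hmv2.ne (some a) (by simpa using hau), hs1]
  rw [← hw, hg1, hn1] at hg2
  set K : ℝ := 2 * |p.2| + 1 with hK
  have hK0 : 0 ≤ K := by positivity
  have hW2' : ‖(W2 : A) - 1‖ ≤ K * δ := by
    refine hW2.trans ?_
    have := mul_le_mul_of_nonneg_left hc (abs_nonneg p.2)
    rw [hK]
    nlinarith
  have hg2' : ‖(gp σ2 (jj w) : A) - ex p.2 (cj Q (σ none) (cs s)) * (gp σ (jj w) : A)‖ ≤ K * δ := by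
    refine hg2.trans ?_
    have := mul_le_mul_of_nonneg_left hZ (abs_nonneg p.2)
    rw [hK]
    nlinarith
  have hE : ex p.2 (cj Q (σ none) (cs s)) = (Q : A) * ex p.2 y * star (Q : A) := by
    rw [cj_apply, ← hy]
    exact ey9 p.2 Q
  set F := ex p.2 y with hFd
  have hFu : F ∈ unitary A := ey1 p.2
  obtain ⟨halg1, halg2⟩ := run_alg (Q := (Q : A)) (F := F) (x := x) (y := y) Q.2 hFu
    (ex6 p.1) (ey6 p.2)
  obtain ⟨x2, hx2⟩ : ∃ x2, x2 = cj (gp σ2 (jj w)) (σ2 (some a)) (cs s) := ⟨_, rfl⟩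
  have hx2n : ‖x2‖ ≤ 1 := by rw [hx2]; exact (hsA A (cj (gp σ2 (jj w)) (σ2 (some a)))).2
  have hx2sa : star x2 = x2 := by rw [hx2]; exact (hsA A (cj (gp σ2 (jj w)) (σ2 (some a)))).1
  have hQF : (Q : A) * F ∈ unitary A := mul_mem Q.2 hFu
  set V2 : unitary A := ⟨(Q : A) * F, hQF⟩ with hV2
  have hV2c : (V2 : A) = (Q : A) * F := rfl
  have hx2' : ‖x2 - (V2 : A) * x * star (V2 : A)‖ ≤ 2 * K * δ := by
    have hEu : (Q : A) * F * star (Q : A) ∈ unitary A := mul_mem hQF (Unitary.star_mem Q.2)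
    have h1 : (V2 : A) * x * star (V2 : A) =
        ((Q : A) * F * star (Q : A) * (gp σ (jj w) : A)) * σ (some a) (cs s) *
          star ((Q : A) * F * star (Q : A) * (gp σ (jj w) : A)) := by
      rw [hV2c, ← halg1, hx, cj_apply]
      simp only [star_mul, star_star, mul_assoc]
    rw [h1, hx2, cj_apply, ha2]
    refine (run_cj_norm (gp σ2 (jj w)).2 (mul_mem hEu (gp σ (jj w)).2) _ _
      (hsA A (σ (some a))).2).trans ?_
    rw [sub_self, norm_zero, add_zero, ← hE]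
    linarith
  have hy2 : σ2 none (cs s) = (V2 : A) * y * star (V2 : A) := by
    rw [hn2, hn1, cj_apply, ← hy, hV2c, halg2]
  -- the induction hypothesis
  obtain ⟨W', σ', hF', hs', hu', hW', hrun⟩ := ih ι a u hau r c δ hδ hc hZ s hs A φ σ2 hF2
  refine ⟨W' * W2, σ', hF', fun j hj => ?_, ?_, ?_, ?_⟩
  · rw [hs' j hj, hmv2.ne (some j) (by simpa using hj), hs1]
  · rw [hu', hmv2.eq, hs1, run_cj_cj]
  · have h1 : ((W' * W2 : unitary A) : A) - 1 = ((W' : A) - 1) * (W2 : A) + ((W2 : A) - 1) := by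
      rw [Submonoid.coe_mul]; noncomm_ring
    rw [h1]
    refine (norm_add_le _ _).trans ?_
    rw [CStarRing.norm_mul_coe_unitary]
    have h2 : 0 ≤ (2 * CL + 1) * (2 * K) * δ := by positivity
    nlinarith
  · intro x₀ x' hx₀ hx'
    rw [← hx] at hx₀
    subst hx₀
    obtain ⟨hr1, hr2⟩ := hrun x2 x' (by rw [hx2]) hx'
    rw [hy2] at hr1 hr2
    rw [← hy]
    set y2 := (V2 : A) * y * star (V2 : A) with hy2d
    have hy2n : ‖y2‖ ≤ 1 := by
      rw [← hy2]; exact (hsA A (σ2 none)).2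
    have hy2sa : star y2 = y2 := by
      rw [← hy2]; exact (hsA A (σ2 none)).1
    have hxx : star ((V2 : A) * x₀ * star (V2 : A)) = (V2 : A) * x₀ * star (V2 : A) := by
      simp only [star_mul, star_star, hxsa, mul_assoc]
    obtain ⟨hV'u, hV'd, -⟩ := hL A x2 y2 ((V2 : A) * x₀ * star (V2 : A)) y2 hx2sa hy2sa hxx hy2sa
    obtain ⟨hVlu, -, hVlc⟩ := hL A x₀ y x₀ y hxsa hysa hxsa hysa
    rw [hVlc V2, sub_self, norm_zero, add_zero] at hV'd
    have hUu : (V2 : A) * Vl x₀ y l * star (V2 : A) ∈ unitary A :=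
      mul_mem (mul_mem V2.2 hVlu) (Unitary.star_mem V2.2)
    have hVstar : star (V2 : A) * (V2 : A) = 1 := Unitary.star_mul_self_of_mem V2.2
    have hVl : Vl x₀ y (p :: l) = (V2 : A) * Vl x₀ y l := rfl
    have hU : ∀ b : A, (V2 : A) * Vl x₀ y l * star (V2 : A) * ((V2 : A) * b * star (V2 : A)) *
        star ((V2 : A) * Vl x₀ y l * star (V2 : A)) =
        Vl x₀ y (p :: l) * b * star (Vl x₀ y (p :: l)) := by
      intro b
      rw [hVl]
      calc _ = (V2 : A) * Vl x₀ y l * (star (V2 : A) * (V2 : A)) * b *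
              (star (V2 : A) * (V2 : A)) * star (Vl x₀ y l) * star (V2 : A) := by
            simp only [star_mul, star_star, mul_assoc]
        _ = _ := by
            rw [hVstar, mul_one, mul_one, star_mul (V2 : A) (Vl x₀ y l)]
            simp only [mul_assoc]
    have hd : ‖Vl x2 y2 l - (V2 : A) * Vl x₀ y l * star (V2 : A)‖ ≤ CL * (2 * K * δ) :=
      hV'd.trans (mul_le_mul_of_nonneg_left hx2' hCL)
    constructor
    · have h1 := run_cj_norm hV'u hUu x2 ((V2 : A) * x₀ * star (V2 : A)) hx2n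
      rw [hU x₀] at h1
      have h2 := norm_sub_le_norm_sub_add_norm_sub x'
        (Vl x2 y2 l * x2 * star (Vl x2 y2 l)) (Vl x₀ y (p :: l) * x₀ * star (Vl x₀ y (p :: l)))
      have h3 : 0 ≤ K * δ := by positivity
      nlinarith
    · have h1 := run_cj_norm hV'u hUu y2 ((V2 : A) * y * star (V2 : A)) hy2n
      rw [hU y, ← hy2d, sub_self, norm_zero, add_zero] at h1
      have h2 := norm_sub_le_norm_sub_add_norm_sub (σ' none (cs s))
        (Vl x2 y2 l * y2 * star (Vl x2 y2 l)) (Vl x₀ y (p :: l) * y * star (Vl x₀ y (p :: l)))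
      have h3 : 0 ≤ K * δ := by positivity
      nlinarith

theorem run_all (hFS : S_FS) (hMV2 : S_MV2) (hLVL : S_LVL) (hEX : S_EX) (hSC0 : S_SC0) :
    ∀ l : List (ℝ × ℝ), ∃ C : ℝ, 0 ≤ C ∧ RunAt l C := by
  intro l
  induction l with
  | nil => exact ⟨0, le_rfl, run_nil⟩
  | cons p l ih =>
    obtain ⟨C, hC, ih⟩ := ih
    obtain ⟨CL, hCL, hL⟩ := hLVL l
    exact ⟨_, by positivity, run_cons hFS hMV2 hEX hSC0 p l C CL hCL ih hL⟩

theorem t_RUN (hFS : S_FS) (hMV2 : S_MV2) (hLVL : S_LVL) (hEX : S_EX) (hSC0 : S_SC0) : S_RUN := by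
  intro l
  obtain ⟨C, hC, h⟩ := run_all hFS hMV2 hLVL hEX hSC0 l
  exact ⟨C, hC, h⟩

end Pool.Agent.H308R2.CF
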