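import Pool.Agent.H308R2.CF.Stubs

/-! A semicircular function on the unit interval exists. -/

namespace Pool.Agent.H308R2.CF

open MeasureTheory Set

/-- the distribution function in the angular variable -/
noncomputable def scF (θ : ℝ) : ℝ := (θ - Real.sin θ * Real.cos θ) / Real.pi

theorem sc_deriv (θ : ℝ) : HasDerivAt scF (2 / Real.pi * Real.sin θ ^ 2) θ := by
  unfold scF
  have h1 := ((hasDerivAt_id θ).sub ((Real.hasDerivAt_sin θ).mul (Real.hasDerivAt_cos θ))).div_const
    Real.pi
  refine h1.congr_deriv ?_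
  have h2 := Real.sin_sq_add_cos_sq θ
  have hp := Real.pi_pos.ne'
  field_simp
  nlinarith

theorem sc_cont : Continuous scF := by
  unfold scF
  fun_prop

theorem sc_zero : scF 0 = 0 := by simp [scF]

theorem sc_pi : scF Real.pi = 1 := by
  simp [scF, Real.pi_pos.ne']

theorem sc_mono : StrictMonoOn scF (Icc 0 Real.pi) := by
  refine strictMonoOn_of_deriv_pos (convex_Icc _ _) sc_cont.continuousOn ?_
  intro x hx
  rw [interior_Icc] at hx
  rw [(sc_deriv x).deriv]
  have := Real.sin_pos_of_pos_of_lt_pi hx.1 hx.2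
  have := Real.pi_pos
  positivity

theorem sc_mem (θ : ℝ) (h : θ ∈ Icc 0 Real.pi) : scF θ ∈ Icc (0 : ℝ) 1 := by
  constructor
  · rw [← sc_zero]
    exact sc_mono.monotoneOn (left_mem_Icc.2 Real.pi_pos.le) h h.1
  · rw [← sc_pi]
    exact sc_mono.monotoneOn h (right_mem_Icc.2 Real.pi_pos.le) h.2

/-- the map on subtypes -/
noncomputable def scM (θ : Icc (0 : ℝ) Real.pi) : unitInterval := ⟨scF θ, sc_mem θ θ.2⟩

theorem scM_mono : StrictMono scM := fun a b h => sc_mono a.2 b.2 h

theorem scM_surj : Function.Surjective scM := by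
  intro t
  have h := intermediate_value_Icc (f := scF) Real.pi_pos.le sc_cont.continuousOn
  rw [sc_zero, sc_pi] at h
  obtain ⟨θ, hθ, h2⟩ := h t.2
  exact ⟨⟨θ, hθ⟩, Subtype.ext h2⟩

/-- the order isomorphism -/
noncomputable def scE : Icc (0 : ℝ) Real.pi ≃o unitInterval :=
  StrictMono.orderIsoOfSurjective scM scM_mono scM_surj

theorem scE_cont : Continuous scE.symm := scE.symm.continuous

/-- the semicircular function -/
noncomputable def scS : C(unitInterval, ℝ) :=
  ⟨fun t => Real.cos (scE.symm t : ℝ), Real.continuous_cos.comp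
    (continuous_subtype_val.comp scE_cont)⟩

theorem scE_symm (θ : Icc (0 : ℝ) Real.pi) : scE.symm (scM θ) = θ := by
  rw [OrderIso.symm_apply_eq]
  rfl

theorem t_SC : S_SC := by
  refine ⟨scS, ?_, ?_, ?_⟩
  · intro a b h
    have h1 := Real.injOn_cos (scE.symm a).2 (scE.symm b).2 h
    exact scE.symm.injective (Subtype.ext h1)
  · ext y
    constructor
    · rintro ⟨t, rfl⟩
      exact Real.cos_mem_Icc _
    · intro hy
      obtain ⟨θ, hθ, h⟩ := Real.surjOn_cos hy
      refine ⟨scM ⟨θ, hθ⟩, ?_⟩
      change Real.cos (scE.symm (scM ⟨θ, hθ⟩) : ℝ) = y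
      rw [scE_symm]
      exact h
  · intro g hg
    set g₁ : ℝ → ℂ := fun t => g (scS (projIcc 0 1 zero_le_one t)) with hg1
    have hc : Continuous g₁ := hg.comp (scS.continuous.comp continuous_projIcc)
    have e1 : ∫ t : unitInterval, g (scS t) = ∫ t in (0 : ℝ)..1, g₁ t := by
      rw [intervalIntegral.integral_of_le zero_le_one, ← integral_Icc_eq_integral_Ioc,
        ← integral_subtype_comap measurableSet_Icc]
      refine integral_congr_ae (Filter.Eventually.of_forall fun t => ?_)
      simp only [hg1]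
      rw [projIcc_val]
    have e2 : ∫ θ in (0 : ℝ)..Real.pi, (2 / Real.pi * Real.sin θ ^ 2 : ℝ) • (g₁ ∘ scF) θ =
        ∫ t in scF 0..scF Real.pi, g₁ t :=
      intervalIntegral.integral_deriv_smul_comp (fun x _ => sc_deriv x)
        (by fun_prop) hc
    rw [sc_zero, sc_pi] at e2
    rw [e1, ← e2, ← intervalIntegral.integral_const_mul]
    refine intervalIntegral.integral_congr fun θ hθ => ?_
    rw [uIcc_of_le Real.pi_pos.le] at hθ
    have h3 : scS (projIcc 0 1 zero_le_one (scF θ)) = Real.cos θ := by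
      have : projIcc (0 : ℝ) 1 zero_le_one (scF θ) = scM ⟨θ, hθ⟩ := by
        rw [projIcc_of_mem zero_le_one (sc_mem θ hθ)]
        rfl
      rw [this]
      change Real.cos (scE.symm (scM ⟨θ, hθ⟩) : ℝ) = _
      rw [scE_symm]
    simp only [hg1, Function.comp, h3, Complex.real_smul]
    push_cast
    ring

end Pool.Agent.H308R2.CF
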