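import Mathlib
import Pool.Agent.H308R2.CF.Stubs

/-! Elementary consequences of the definition of a semicircular function. -/

set_option autoImplicit false

namespace Pool.Agent.H308R2.CF

open scoped ComplexConjugate

theorem sc0_int : ∫ θ in (0 : ℝ)..Real.pi, Real.cos θ * Real.sin θ ^ 2 = 0 := by
  have h : ∀ x ∈ Set.uIcc (0 : ℝ) Real.pi,
      HasDerivAt (fun x => Real.sin x ^ 3 / 3) (Real.cos x * Real.sin x ^ 2) x := by
    intro x _
    have h1 := ((Real.hasDerivAt_sin x).pow 3).div_const 3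
    have e : Real.cos x * Real.sin x ^ 2 = ((3 : ℕ) : ℝ) * Real.sin x ^ (3 - 1) * Real.cos x / 3 := by
      norm_num
      ring
    rw [e]
    exact h1
  rw [intervalIntegral.integral_eq_sub_of_hasDerivAt h]
  · simp
  · apply Continuous.intervalIntegrable
    fun_prop

theorem t_SC0 : S_SC0 := by
  intro s hs
  have hx : ∀ x, ‖cs s x‖ ≤ 1 := by
    intro x
    have h1 : s x ∈ Set.Icc (-1 : ℝ) 1 := by
      rw [← hs.rng]
      exact Set.mem_range_self x
    show ‖((s x : ℝ) : ℂ)‖ ≤ 1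
    rw [Complex.norm_real, Real.norm_eq_abs, abs_le]
    exact h1
  have hn : ‖cs s‖ ≤ 1 := (ContinuousMap.norm_le _ zero_le_one).2 hx
  have hc : ∀ x, conj (cs s x) = cs s x := by
    intro x
    exact Complex.conj_ofReal _
  have hst : star (cs s) = cs s := by
    ext x
    exact hc x
  refine ⟨hn, ?_, hc, hst, ?_⟩
  · have h1 := hs.law (fun x => ((x : ℝ) : ℂ)) Complex.continuous_ofReal
    have h2 : ∫ θ in (0 : ℝ)..Real.pi, ((Real.cos θ : ℝ) : ℂ) * ((Real.sin θ ^ 2 : ℝ) : ℂ) = 0 := by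
      have h3 : ∀ θ : ℝ, ((Real.cos θ : ℝ) : ℂ) * ((Real.sin θ ^ 2 : ℝ) : ℂ) =
          ((Real.cos θ * Real.sin θ ^ 2 : ℝ) : ℂ) := by
        intro θ
        push_cast
        ring
      simp_rw [h3]
      rw [intervalIntegral.integral_ofReal, sc0_int]
      simp
    rw [h2, mul_zero] at h1
    exact h1
  · intro A _ σ
    refine ⟨?_, ?_⟩
    · rw [← map_star, hst]
    · exact (NonUnitalStarAlgHom.norm_apply_le (σ : CI →⋆ₙₐ[ℂ] A) (cs s)).trans hn

end Pool.Agent.H308R2.CF
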