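import Pool.Agent.H308R2.CF.Stubs

set_option autoImplicit false

open scoped ComplexOrder

namespace Pool.Agent.H308R2.CF

open Pool.Agent.H770R2.UL (TrSt n2)

namespace TSCEX

theorem PP_map {κ A B : Type} [Ring A] [Algebra ℂ A] [Ring B] [Algebra ℂ B] [DecidableEq κ]
    (f : A →ₐ[ℂ] B) (x : κ → A) : ∀ w : List κ, f (PP x w) = PP (fun i => f (x i)) w
  | [] => by simp [PP]
  | [i] => by simp [PP]
  | i :: j :: w => by
    have h1 := PP_map f x (j :: w)
    have h2 := PP_map f x w
    rw [PP, PP, map_sub, map_smul, map_mul, h1]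
    congr 1
    split_ifs with h
    · exact h2
    · exact map_zero f

theorem PP_comm {κ A : Type} [Ring A] [Algebra ℂ A] [DecidableEq κ] (a : A) (y : κ → A)
    (h : ∀ j, a * y j = y j * a) : ∀ w : List κ, a * PP y w = PP y w * a
  | [] => by simp [PP]
  | [i] => by
    rw [PP, mul_smul_comm, smul_mul_assoc, h i]
  | i :: j :: w => by
    have h1 := PP_comm a y h (j :: w)
    have h2 := PP_comm a y h w
    rw [PP, mul_sub, sub_mul]
    congr 1
    · rw [mul_smul_comm, smul_mul_assoc, ← mul_assoc, h i, mul_assoc, h1, mul_assoc]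
    · split_ifs with h
      · exact h2
      · rw [mul_zero, zero_mul]

variable {κ H : Type} [NormedAddCommGroup H] [InnerProductSpace ℂ H] [CompleteSpace H]

/-- the algebra -/
noncomputable def R (x : κ → H →L[ℂ] H) : StarSubalgebra ℂ (H →L[ℂ] H) :=
  (StarAlgebra.adjoin ℂ (Set.range x)).topologicalClosure

instance instClosed (x : κ → H →L[ℂ] H) : IsClosed (R x : Set (H →L[ℂ] H)) :=
  StarSubalgebra.isClosed_topologicalClosure _

theorem R_coe (x : κ → H →L[ℂ] H) : (R x : Set (H →L[ℂ] H)) =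
    closure (StarAlgebra.adjoin ℂ (Set.range x) : Set (H →L[ℂ] H)) :=
  StarSubalgebra.topologicalClosure_coe _

theorem mem_R (x : κ → H →L[ℂ] H) (i : κ) : x i ∈ R x :=
  StarSubalgebra.le_topologicalClosure _ (StarAlgebra.subset_adjoin ℂ _ ⟨i, rfl⟩)

theorem R_comm {x y : κ → H →L[ℂ] H} (hy : ∀ i, star (y i) = y i)
    (hc : ∀ i j, x i * y j = y j * x i) (j : κ) (a : H →L[ℂ] H) (ha : a ∈ R x) :
    a * y j = y j * a := by
  have h1 : ∀ a ∈ StarAlgebra.adjoin ℂ (Set.range x), a * y j = y j * a := by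
    intro a ha
    induction ha using StarAlgebra.adjoin_induction with
    | mem a ha =>
      obtain ⟨i, rfl⟩ := ha
      exact hc i j
    | algebraMap r => exact Algebra.commutes r (y j)
    | add a b _ _ ha hb => rw [add_mul, mul_add, ha, hb]
    | mul a b _ _ ha hb => rw [mul_assoc, hb, ← mul_assoc, ha, mul_assoc]
    | star a _ ha =>
      have := congrArg star ha
      rw [star_mul, star_mul, hy j] at this
      exact this.symm
  have h2 : (R x : Set (H →L[ℂ] H)) ⊆ {a | a * y j = y j * a} := by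
    rw [R_coe]
    apply closure_minimal h1
    exact isClosed_eq (continuous_id.mul continuous_const) (continuous_const.mul continuous_id)
  exact h2 ha

/-- the vector functional -/
noncomputable def vf (Ω : H) : (H →L[ℂ] H) →ₗ[ℂ] ℂ where
  toFun a := inner ℂ Ω (a Ω)
  map_add' a b := by simp
  map_smul' c a := by simp

theorem vf_apply (Ω : H) (a : H →L[ℂ] H) : vf Ω a = inner ℂ Ω (a Ω) := rfl

theorem vf_bdd (Ω : H) (hΩ : ‖Ω‖ = 1) (a : H →L[ℂ] H) : ‖vf Ω a‖ ≤ ‖a‖ := by
  rw [vf_apply]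
  calc ‖inner ℂ Ω (a Ω)‖ ≤ ‖Ω‖ * ‖a Ω‖ := norm_inner_le_norm _ _
    _ ≤ ‖Ω‖ * (‖a‖ * ‖Ω‖) := mul_le_mul_of_nonneg_left (a.le_opNorm Ω) (norm_nonneg _)
    _ = ‖a‖ := by rw [hΩ]; ring

theorem vf_cont (Ω : H) : Continuous (vf Ω) := by
  have : (vf Ω : (H →L[ℂ] H) → ℂ) = fun a => inner ℂ Ω (a Ω) := rfl
  rw [this]
  exact continuous_const.inner ((ContinuousLinearMap.apply ℂ H Ω).continuous)

theorem vf_star (Ω : H) (a : H →L[ℂ] H) : vf Ω (star a) = (starRingEnd ℂ) (vf Ω a) := by
  rw [vf_apply, vf_apply, ContinuousLinearMap.star_eq_adjoint,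
    ContinuousLinearMap.adjoint_inner_right, inner_conj_symm]

theorem vf_star_mul (Ω : H) (a : H →L[ℂ] H) : vf Ω (star a * a) = ((‖a Ω‖ ^ 2 : ℝ) : ℂ) := by
  rw [vf_apply, ContinuousLinearMap.mul_apply, ContinuousLinearMap.star_eq_adjoint,
    ContinuousLinearMap.adjoint_inner_right, inner_self_eq_norm_sq_to_K]
  push_cast
  rfl

theorem R_trace {x y : κ → H →L[ℂ] H} (hx : ∀ i, star (x i) = x i) (hy : ∀ i, star (y i) = y i)
    (hc : ∀ i j, x i * y j = y j * x i) (Ω : H) (hxy : ∀ i, x i Ω = y i Ω) (a : H →L[ℂ] H)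
    (ha : a ∈ R x) : ∀ b ∈ R x, vf Ω (a * b) = vf Ω (b * a) := by
  have h1 : ∀ a ∈ StarAlgebra.adjoin ℂ (Set.range x), ∀ b ∈ R x,
      vf Ω (a * b) = vf Ω (b * a) := by
    intro a ha
    induction ha using StarAlgebra.adjoin_induction with
    | mem a ha =>
      obtain ⟨i, rfl⟩ := ha
      intro b hb
      have e1 : ∀ u : H, inner ℂ Ω (x i u) = (inner ℂ (x i Ω) u : ℂ) := by
        intro u
        have := ContinuousLinearMap.adjoint_inner_left (x i) u Ω
        rw [← ContinuousLinearMap.star_eq_adjoint, hx i] at this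
        exact this.symm
      have e2 : ∀ u : H, inner ℂ Ω (y i u) = (inner ℂ (y i Ω) u : ℂ) := by
        intro u
        have := ContinuousLinearMap.adjoint_inner_left (y i) u Ω
        rw [← ContinuousLinearMap.star_eq_adjoint, hy i] at this
        exact this.symm
      have e3 : y i (b Ω) = b (y i Ω) := by
        have := R_comm hy hc i b hb
        have h := congrArg (fun T : H →L[ℂ] H => T Ω) this
        simp only [ContinuousLinearMap.mul_apply] at h
        exact h.symm
      rw [vf_apply, vf_apply, ContinuousLinearMap.mul_apply, ContinuousLinearMap.mul_apply, e1,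
        hxy i, ← e2, e3]
    | algebraMap r =>
      intro b _
      rw [Algebra.commutes r b]
    | add a b _ _ ha hb =>
      intro c hc
      rw [add_mul, mul_add, map_add, map_add, ha c hc, hb c hc]
    | mul a b ham hbm ha hb =>
      intro c hc
      have ham' : a ∈ R x := StarSubalgebra.le_topologicalClosure _ ham
      have hbm' : b ∈ R x := StarSubalgebra.le_topologicalClosure _ hbm
      rw [mul_assoc, ha (b * c) (mul_mem hbm' hc), mul_assoc, hb (c * a) (mul_mem hc ham'),
        mul_assoc]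
    | star a _ ha =>
      intro b hb
      have h := ha (star b) (star_mem hb)
      have h' := congrArg (starRingEnd ℂ) h
      rw [← vf_star, ← vf_star, star_mul, star_mul, star_star] at h'
      exact h'.symm
  intro b hb
  have h2 : (R x : Set (H →L[ℂ] H)) ⊆ {a | vf Ω (a * b) = vf Ω (b * a)} := by
    rw [R_coe]
    refine closure_minimal (fun a ha => h1 a ha b hb) ?_
    exact isClosed_eq ((vf_cont Ω).comp (continuous_id.mul continuous_const))
      ((vf_cont Ω).comp (continuous_const.mul continuous_id))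
  exact h2 ha

/-- the trace -/
noncomputable def tst {x y : κ → H →L[ℂ] H} (hx : ∀ i, star (x i) = x i)
    (hy : ∀ i, star (y i) = y i) (hc : ∀ i j, x i * y j = y j * x i) (Ω : H)
    (hxy : ∀ i, x i Ω = y i Ω) (hΩ : ‖Ω‖ = 1) : TrSt (R x) where
  toFun := (vf Ω).comp (R x).subtype.toAlgHom.toLinearMap
  one := by
    show vf Ω ((1 : R x) : H →L[ℂ] H) = 1
    rw [vf_apply]
    show inner ℂ Ω Ω = (1 : ℂ)
    rw [inner_self_eq_norm_sq_to_K, hΩ]
    simp
  tr a b := R_trace hx hy hc Ω hxy a.1 a.2 b.1 b.2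
  pos a := by
    show 0 ≤ vf Ω (star (a : H →L[ℂ] H) * (a : H →L[ℂ] H))
    rw [vf_star_mul]
    exact Complex.zero_le_real.2 (sq_nonneg _)
  bdd a := vf_bdd Ω hΩ a.1

theorem tst_apply {x y : κ → H →L[ℂ] H} (hx : ∀ i, star (x i) = x i)
    (hy : ∀ i, star (y i) = y i) (hc : ∀ i j, x i * y j = y j * x i) (Ω : H)
    (hxy : ∀ i, x i Ω = y i Ω) (hΩ : ‖Ω‖ = 1) (a : R x) :
    (tst hx hy hc Ω hxy hΩ).toFun a = vf Ω (a : H →L[ℂ] H) := rfl

end TSCEX

open TSCEX in
theorem t_SCEX (hF : S_FOCK) : S_SCEX := by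
  intro κ _
  obtain ⟨H, i1, i2, i3, x, y, δ, hδ, hspan, hx, hy, nx, ny, hc, px, py⟩ := hF κ
  set Ω : H := δ [] with hΩ
  have hΩ1 : ‖Ω‖ = 1 := hδ.1 []
  have hxy : ∀ i, x i Ω = y i Ω := by
    intro i
    have h1 := px [i]
    have h2 := py [i]
    rw [List.reverse_singleton, ← h1] at h2
    simp only [PP, ContinuousLinearMap.smul_apply] at h2
    exact (smul_right_injective H (two_ne_zero : (2 : ℂ) ≠ 0) h2).symm
  refine ⟨R x, inferInstance, tst hx hy hc Ω hxy hΩ1, fun i => ⟨x i, mem_R x i⟩, ?_, ?_, ?_, ?_⟩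
  · intro a ha
    rw [tst_apply] at ha
    have ha' : vf Ω (star (a : H →L[ℂ] H) * (a : H →L[ℂ] H)) = 0 := ha
    rw [vf_star_mul] at ha'
    have h1 : (a : H →L[ℂ] H) Ω = 0 := by
      have : ‖(a : H →L[ℂ] H) Ω‖ ^ 2 = 0 := by exact_mod_cast ha'
      exact norm_eq_zero.1 (pow_eq_zero_iff (two_ne_zero)|>.1 this)
    have h2 : ∀ w, (a : H →L[ℂ] H) (δ w) = 0 := by
      intro w
      have h3 := py w.reverse
      rw [List.reverse_reverse] at h3
      rw [← h3]
      have h4 := PP_comm (a : H →L[ℂ] H) y (fun j => R_comm hy hc j a.1 a.2) w.reverse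
      have h5 := congrArg (fun T : H →L[ℂ] H => T Ω) h4
      simp only [ContinuousLinearMap.mul_apply] at h5
      rw [h5, h1, map_zero]
    have h3 : (Submodule.span ℂ (Set.range δ)).topologicalClosure ≤
        LinearMap.ker ((a : H →L[ℂ] H) : H →ₗ[ℂ] H) := by
      apply Submodule.topologicalClosure_minimal
      · rw [Submodule.span_le]
        rintro _ ⟨w, rfl⟩
        exact h2 w
      · exact (a : H →L[ℂ] H).isClosed_ker
    rw [hspan] at h3
    apply Subtype.ext
    ext v
    exact h3 (Submodule.mem_top (x := v))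
  · refine ⟨fun i => Subtype.ext (hx i), ?_⟩
    intro w hw
    rw [tst_apply]
    have h1 : ((PP (fun i => (⟨x i, mem_R x i⟩ : R x)) w : R x) : H →L[ℂ] H) = PP x w :=
      PP_map (R x).subtype.toAlgHom (fun i => (⟨x i, mem_R x i⟩ : R x)) w
    rw [h1, vf_apply, px w]
    exact hδ.2 (fun h => hw h.symm)
  · intro i
    exact nx i
  · rw [eq_top_iff]
    intro a _
    have h0 : (a : H →L[ℂ] H) ∈ closure (StarAlgebra.adjoin ℂ (Set.range x) :
        Set (H →L[ℂ] H)) := by
      rw [← R_coe]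
      exact a.2
    have h1 : StarSubalgebra.map (R x).subtype
        (StarAlgebra.adjoin ℂ (Set.range fun i => (⟨x i, mem_R x i⟩ : R x))) =
        StarAlgebra.adjoin ℂ (Set.range x) := by
      rw [StarAlgHom.map_adjoin, ← Set.range_comp]
      rfl
    have h2 : (Subtype.val '' (StarAlgebra.adjoin ℂ
        (Set.range fun i => (⟨x i, mem_R x i⟩ : R x)) : Set (R x)) : Set (H →L[ℂ] H)) =
        (StarAlgebra.adjoin ℂ (Set.range x) : Set (H →L[ℂ] H)) := by
      rw [← h1]
      rfl
    show a ∈ (((StarAlgebra.adjoin ℂ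
      (Set.range fun i => (⟨x i, mem_R x i⟩ : R x))).topologicalClosure : StarSubalgebra ℂ (R x)) :
        Set (R x))
    rw [StarSubalgebra.topologicalClosure_coe,
      Topology.IsInducing.subtypeVal.closure_eq_preimage_closure_image]
    rw [Set.mem_preimage]
    rw [← h2] at h0
    exact h0

end Pool.Agent.H308R2.CF
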