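import Mathlib
import Pool.Agent.H308R2.CF.Stubs

/-! SCFP: free semicircular families give free powers. -/

namespace Pool.Agent.H308R2.CF

open Pool.Agent.H770R2.UL (TrSt n2)
open scoped ComplexConjugate
open Polynomial

/-! ### the elements `PP` -/

theorem SCFP_PP3 {κ A : Type} [Ring A] [Algebra ℂ A] [DecidableEq κ] (x : κ → A) (i j : κ)
    (w : List κ) : PP x (i :: j :: w) =
      (2 : ℂ) • (x i * PP x (j :: w)) - if i = j then PP x w else 0 := by
  rw [PP]

theorem SCFP_two {A : Type} [Ring A] [Algebra ℂ A] (a : A) :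
    aeval a (2 : ℂ[X]) = algebraMap ℂ A 2 := by
  rw [map_ofNat, map_ofNat]

theorem SCFP_rep {κ A : Type} [Ring A] [Algebra ℂ A] [DecidableEq κ] (x : κ → A) (j : κ) (n : ℕ) :
    PP x (List.replicate n j) = aeval (x j) (Chebyshev.U ℂ (n : ℤ)) ∧
    PP x (List.replicate (n + 1) j) = aeval (x j) (Chebyshev.U ℂ ((n : ℤ) + 1)) := by
  induction n with
  | zero =>
    refine ⟨by simp [PP], ?_⟩
    simp [PP, Algebra.smul_def, SCFP_two]
  | succ n ih =>
    refine ⟨by simpa using ih.2, ?_⟩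
    have h1 : PP x (List.replicate (n + 1 + 1) j) =
        (2 : ℂ) • (x j * PP x (List.replicate (n + 1) j)) - PP x (List.replicate n j) := by
      rw [List.replicate_succ, List.replicate_succ, SCFP_PP3, if_pos rfl]
    have h2 : (((n + 1 : ℕ) : ℤ) + 1) = (n : ℤ) + 2 := by push_cast; ring
    rw [h1, ih.1, ih.2, h2, Chebyshev.U_add_two, map_sub, map_mul, map_mul, aeval_X]
    simp [Algebra.smul_def, mul_assoc, SCFP_two]

theorem SCFP_append {κ A : Type} [Ring A] [Algebra ℂ A] [DecidableEq κ] (x : κ → A) :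
    ∀ (n : ℕ) (w w' : List κ), w.length ≤ n →
      (∀ a b, w.getLast? = some a → w'.head? = some b → a ≠ b) →
      PP x (w ++ w') = PP x w * PP x w' := by
  intro n
  induction n with
  | zero =>
    intro w w' hw _
    have : w = [] := List.length_eq_zero_iff.mp (by omega)
    subst this
    simp [PP]
  | succ n ih =>
    intro w w' hw h
    match w, hw, h with
    | [], _, _ => simp [PP]
    | [i], _, h =>
      match w', h with
      | [], _ => simp [PP]
      | j :: w'', h =>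
        have hij : i ≠ j := h i j rfl rfl
        simp only [List.cons_append, List.nil_append]
        rw [SCFP_PP3, if_neg hij, sub_zero]
        simp only [PP, smul_mul_assoc]
    | i :: j :: v, hw, h =>
      have e1 := ih (j :: v) w' (by simp at hw ⊢; omega) (fun a b ha hb =>
        h a b (by rw [List.getLast?_cons_cons]; exact ha) hb)
      have e2 : PP x (v ++ w') = PP x v * PP x w' := by
        rcases v.eq_nil_or_concat with rfl | ⟨v0, c, hv⟩
        · simp [PP]
        · refine ih v w' (by simp at hw ⊢; omega) (fun a b ha hb => h a b ?_ hb)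
          subst hv
          rw [← ha]
          simp [List.getLast?_cons]
      rw [List.cons_append, List.cons_append, SCFP_PP3, ← List.cons_append, e1, SCFP_PP3]
      split_ifs with hij
      · rw [e2, sub_mul, smul_mul_assoc, mul_assoc]
      · rw [sub_zero, sub_zero, smul_mul_assoc, mul_assoc]

/-- the word of a list of blocks -/
def SCFP_flat {κ : Type} (L : List (κ × ℕ)) : List κ :=
  L.flatMap fun p => List.replicate (p.2 + 1) p.1

/-- product of Chebyshev polynomials `U_{n+1}` -/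
noncomputable def SCFP_pure {κ A : Type} [Ring A] [Algebra ℂ A] (x : κ → A)
    (L : List (κ × ℕ)) : A :=
  (L.map fun p => aeval (x p.1) (Chebyshev.U ℂ ((p.2 : ℤ) + 1))).prod

theorem SCFP_pure_eq {κ A : Type} [Ring A] [Algebra ℂ A] [DecidableEq κ] (x : κ → A)
    (L : List (κ × ℕ)) (hL : (L.map Prod.fst).IsChain (· ≠ ·)) :
    SCFP_pure x L = PP x (SCFP_flat L) := by
  induction L with
  | nil => simp [SCFP_pure, SCFP_flat, PP]
  | cons p L ih =>
    obtain ⟨j, n⟩ := p
    have h1 : SCFP_pure x ((j, n) :: L) = PP x (List.replicate (n + 1) j) * SCFP_pure x L := by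
      rw [(SCFP_rep x j n).2]
      simp [SCFP_pure]
    have h2 : SCFP_flat ((j, n) :: L) = List.replicate (n + 1) j ++ SCFP_flat L := by
      simp [SCFP_flat]
    have hL' : (L.map Prod.fst).IsChain (· ≠ ·) := by
      rw [List.map_cons] at hL
      exact hL.of_cons
    rw [h1, h2, ih hL', SCFP_append x _ _ _ le_rfl]
    intro a b ha hb
    rw [List.getLast?_replicate] at ha
    have ha' : j = a := by simpa using ha
    subst ha'
    match L, hL, hb with
    | [], _, hb => simp [SCFP_flat] at hb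
    | (j', n') :: L', hL, hb =>
      have hb' : j' = b := by
        simpa [SCFP_flat, List.replicate_succ] using hb
      subst hb'
      rw [List.map_cons, List.map_cons, List.isChain_cons_cons] at hL
      exact hL.1

theorem SCFP_pure_zero {κ A : Type} [CStarAlgebra A] [DecidableEq κ] (φ : TrSt A) (x : κ → A)
    (h : SCL φ x) (L : List (κ × ℕ)) (hne : L ≠ []) (hL : (L.map Prod.fst).IsChain (· ≠ ·)) :
    φ.toFun (SCFP_pure x L) = 0 := by
  rw [SCFP_pure_eq x L hL]
  apply h.law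
  match L, hne with
  | p :: L, _ =>
    simp [SCFP_flat, List.replicate_succ]

/-- the closed span of the `U_{n+1}(x_j)` -/
def SCFP_cl {A : Type} [CStarAlgebra A] (a : A) : Set A :=
  closure (Submodule.span ℂ (Set.range fun n : ℕ => aeval a (Chebyshev.U ℂ ((n : ℤ) + 1))) : Set A)

theorem SCFP_gen {κ A : Type} [CStarAlgebra A] [DecidableEq κ] (φ : TrSt A) (x : κ → A)
    (h : SCL φ x) : ∀ (l2 : List (κ × A)) (l1 : List (κ × ℕ)),
      (∀ p ∈ l2, p.2 ∈ SCFP_cl (x p.1)) → ¬ (l1 = [] ∧ l2 = []) →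
      (l1.map Prod.fst ++ l2.map Prod.fst).IsChain (· ≠ ·) →
      φ.toFun (SCFP_pure x l1 * (l2.map Prod.snd).prod) = 0 := by
  intro l2
  induction l2 with
  | nil =>
    intro l1 _ hne hc
    rw [List.map_nil, List.prod_nil, mul_one]
    rw [List.map_nil, List.append_nil] at hc
    exact SCFP_pure_zero φ x h l1 (fun h1 => hne ⟨h1, rfl⟩) hc
  | cons p l2 ih =>
    intro l1 hl2 _ hc
    obtain ⟨j, a⟩ := p
    set F : A →ₗ[ℂ] ℂ := φ.toFun ∘ₗ (LinearMap.mulLeft ℂ (SCFP_pure x l1)) ∘ₗ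
      (LinearMap.mulRight ℂ ((l2.map Prod.snd).prod)) with hF
    have hFc : Continuous F := by
      have h1 := Pool.Agent.H770R2.UL.continuous_toFun φ
      have h2 : Continuous (fun y : A => SCFP_pure x l1 * (y * (l2.map Prod.snd).prod)) := by
        fun_prop
      exact h1.comp h2
    have hz : ∀ y ∈ SCFP_cl (x j), F y = 0 := by
      intro y hy
      have hcl : IsClosed {y : A | F y = 0} := isClosed_eq hFc continuous_const
      have hsub : (Submodule.span ℂ (Set.range fun n : ℕ =>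
          aeval (x j) (Chebyshev.U ℂ ((n : ℤ) + 1))) : Set A) ⊆ {y : A | F y = 0} := by
        have : Submodule.span ℂ (Set.range fun n : ℕ =>
          aeval (x j) (Chebyshev.U ℂ ((n : ℤ) + 1))) ≤ LinearMap.ker F := by
          rw [Submodule.span_le]
          rintro _ ⟨n, rfl⟩
          have h3 := ih (l1 ++ [(j, n)]) (fun q hq => hl2 q (List.mem_cons_of_mem _ hq))
            (by simp) (by simpa using hc)
          have h4 : SCFP_pure x (l1 ++ [(j, n)]) =
              SCFP_pure x l1 * aeval (x j) (Chebyshev.U ℂ ((n : ℤ) + 1)) := by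
            simp [SCFP_pure]
          rw [h4, mul_assoc] at h3
          exact h3
        exact this
      exact closure_minimal hsub hcl hy
    have := hz a (hl2 (j, a) List.mem_cons_self)
    rw [List.map_cons, List.prod_cons]
    exact this

/-! ### polynomials -/

/-- polynomials without constant Chebyshev coefficient -/
noncomputable def SCFP_W : Submodule ℂ ℂ[X] :=
  Submodule.span ℂ (Set.range fun n : ℕ => Chebyshev.U ℂ ((n : ℤ) + 1))

theorem SCFP_mem (p : ℂ[X]) : ∃ c : ℂ, ∃ q ∈ SCFP_W, p = C c + q := by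
  have hU : ∀ n : ℕ, Chebyshev.U ℂ ((n : ℤ) + 1) ∈ SCFP_W := fun n =>
    Submodule.subset_span ⟨n, rfl⟩
  -- the set is closed under addition
  have hadd : ∀ p p' : ℂ[X], (∃ c : ℂ, ∃ q ∈ SCFP_W, p = C c + q) →
      (∃ c : ℂ, ∃ q ∈ SCFP_W, p' = C c + q) → ∃ c : ℂ, ∃ q ∈ SCFP_W, p + p' = C c + q := by
    rintro _ _ ⟨c, q, hq, rfl⟩ ⟨c', q', hq', rfl⟩
    exact ⟨c + c', q + q', SCFP_W.add_mem hq hq', by rw [C_add]; ring⟩
  have hsmul : ∀ (r : ℂ) (p : ℂ[X]), (∃ c : ℂ, ∃ q ∈ SCFP_W, p = C c + q) →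
      ∃ c : ℂ, ∃ q ∈ SCFP_W, r • p = C c + q := by
    rintro r _ ⟨c, q, hq, rfl⟩
    exact ⟨r * c, r • q, SCFP_W.smul_mem r hq, by rw [smul_add, smul_C, smul_eq_mul]⟩
  have hX : X ∈ SCFP_W := by
    have h1 := SCFP_W.smul_mem (1 / 2 : ℂ) (hU 0)
    have h2 : (1 / 2 : ℂ) • Chebyshev.U ℂ (((0 : ℕ) : ℤ) + 1) = X := by
      rw [Nat.cast_zero, zero_add, Chebyshev.U_one, smul_eq_C_mul, ← mul_assoc,
        show (2 : ℂ[X]) = C 2 from (map_ofNat C 2).symm, ← C_mul]
      norm_num
    rwa [h2] at h1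
  have hXU : ∀ n : ℕ, ∃ c : ℂ, ∃ q ∈ SCFP_W, X * Chebyshev.U ℂ ((n : ℤ) + 1) = C c + q := by
    intro n
    have h1 : X * Chebyshev.U ℂ ((n : ℤ) + 1) =
        C (1 / 2) * (Chebyshev.U ℂ (((n + 1 : ℕ) : ℤ) + 1) + Chebyshev.U ℂ (n : ℤ)) := by
      have h2 : (((n + 1 : ℕ) : ℤ) + 1) = (n : ℤ) + 2 := by push_cast; ring
      rw [h2, Chebyshev.U_add_two]
      have h3 : C (1 / 2 : ℂ) * (2 : ℂ[X]) = 1 := by
        rw [show (2 : ℂ[X]) = C 2 from (map_ofNat C 2).symm, ← C_mul]
        norm_num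
      linear_combination (-X * Chebyshev.U ℂ ((n : ℤ) + 1)) * h3
    rw [h1]
    rcases n with _ | n
    · refine ⟨1 / 2, C (1 / 2) * Chebyshev.U ℂ (((0 + 1 : ℕ) : ℤ) + 1), ?_, ?_⟩
      · rw [← smul_eq_C_mul]
        exact SCFP_W.smul_mem _ (hU (0 + 1))
      · simp
        ring
    · refine ⟨0, C (1 / 2) * (Chebyshev.U ℂ (((n + 1 + 1 : ℕ) : ℤ) + 1) +
        Chebyshev.U ℂ ((n + 1 : ℕ) : ℤ)), ?_, by simp⟩
      rw [← smul_eq_C_mul]
      refine SCFP_W.smul_mem _ (SCFP_W.add_mem (hU _) ?_)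
      have := hU n
      rwa [show ((n + 1 : ℕ) : ℤ) = (n : ℤ) + 1 by push_cast; rfl]
  have hXq : ∀ q ∈ SCFP_W, ∃ c : ℂ, ∃ q' ∈ SCFP_W, X * q = C c + q' := by
    intro q hq
    induction hq using Submodule.span_induction with
    | mem q hq =>
      obtain ⟨n, rfl⟩ := hq
      exact hXU n
    | zero => exact ⟨0, 0, SCFP_W.zero_mem, by simp⟩
    | add a b _ _ ha hb => rw [mul_add]; exact hadd _ _ ha hb
    | smul r a _ ha => rw [mul_smul_comm]; exact hsmul r _ ha
  have hXp : ∀ p : ℂ[X], (∃ c : ℂ, ∃ q ∈ SCFP_W, p = C c + q) →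
      ∃ c : ℂ, ∃ q ∈ SCFP_W, X * p = C c + q := by
    rintro _ ⟨c, q, hq, rfl⟩
    rw [mul_add]
    refine hadd _ _ ⟨0, X * C c, ?_, by simp⟩ (hXq q hq)
    rw [mul_comm, ← smul_eq_C_mul]
    exact SCFP_W.smul_mem _ hX
  have hpow : ∀ n : ℕ, ∃ c : ℂ, ∃ q ∈ SCFP_W, (X : ℂ[X]) ^ n = C c + q := by
    intro n
    induction n with
    | zero => exact ⟨1, 0, SCFP_W.zero_mem, by simp⟩
    | succ n ih => rw [pow_succ']; exact hXp _ ih
  induction p using Polynomial.induction_on' with
  | add p q hp hq => exact hadd _ _ hp hq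
  | monomial n a =>
    rw [← C_mul_X_pow_eq_monomial, ← smul_eq_C_mul]
    exact hsmul a _ (hpow n)

theorem SCFP_dense (s : C(unitInterval, ℝ)) (hs : SCf s) (f : CI) (ε : ℝ) (hε : 0 < ε) :
    ∃ p : ℂ[X], ‖f - aeval (cs s) p‖ < ε := by
  have hst : star (cs s) = cs s := by
    ext t
    simp [cs]
  have h1 : (StarAlgebra.adjoin ℂ {cs s}).topologicalClosure = ⊤ := by
    apply ContinuousMap.starSubalgebra_topologicalClosure_eq_top_of_separatesPoints
    intro a b hab
    refine ⟨cs s, ⟨cs s, StarAlgebra.subset_adjoin ℂ _ (Set.mem_singleton _), rfl⟩, ?_⟩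
    intro h
    apply hab
    apply hs.inj
    have : ((s a : ℝ) : ℂ) = ((s b : ℝ) : ℂ) := h
    exact_mod_cast this
  have hconj : ∀ p : ℂ[X], ∃ q : ℂ[X], star (aeval (cs s) p) = aeval (cs s) q := by
    intro p
    induction p using Polynomial.induction_on' with
    | add p q hp hq =>
      obtain ⟨p', hp'⟩ := hp
      obtain ⟨q', hq'⟩ := hq
      exact ⟨p' + q', by rw [map_add, star_add, hp', hq', map_add]⟩
    | monomial n a =>
      refine ⟨monomial n (star a), ?_⟩
      rw [aeval_monomial, aeval_monomial, star_mul, star_pow, hst, mul_comm,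
        ← algebraMap_star_comm]
  have h2 : ∀ g ∈ StarAlgebra.adjoin ℂ {cs s}, ∃ p : ℂ[X], g = aeval (cs s) p := by
    intro g hg
    induction hg using StarAlgebra.adjoin_induction with
    | mem x hx =>
      rw [Set.mem_singleton_iff] at hx
      exact ⟨X, by rw [hx, aeval_X]⟩
    | algebraMap r => exact ⟨C r, by rw [aeval_C]⟩
    | add x y _ _ hx hy =>
      obtain ⟨p, rfl⟩ := hx
      obtain ⟨q, rfl⟩ := hy
      exact ⟨p + q, by rw [map_add]⟩
    | mul x y _ _ hx hy =>
      obtain ⟨p, rfl⟩ := hx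
      obtain ⟨q, rfl⟩ := hy
      exact ⟨p * q, by rw [map_mul]⟩
    | star x _ hx =>
      obtain ⟨p, rfl⟩ := hx
      exact hconj p
  have h3 : f ∈ (StarAlgebra.adjoin ℂ {cs s}).topologicalClosure := by
    rw [h1]; trivial
  have h4 : f ∈ closure ((StarAlgebra.adjoin ℂ {cs s} : StarSubalgebra ℂ CI) : Set CI) := h3
  rw [Metric.mem_closure_iff] at h4
  obtain ⟨g, hg, hfg⟩ := h4 ε hε
  obtain ⟨p, rfl⟩ := h2 g hg
  exact ⟨p, by rwa [dist_eq_norm] at hfg⟩

/-! ### construction of the homomorphisms -/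

theorem SCFP_sigma (s : C(unitInterval, ℝ)) (hs : SCf s) (A : Type) [CStarAlgebra A] (a : A)
    (ha : star a = a) (hn : ‖a‖ ≤ 1) : ∃ σ : CI →⋆ₐ[ℂ] A, σ (cs s) = a := by
  have hsa : IsSelfAdjoint a := ha
  have hnorm : IsStarNormal a := hsa.isStarNormal
  have hre : ∀ z ∈ spectrum ℂ a, z = (z.re : ℂ) ∧ z.re ∈ Set.range s := by
    intro z hz
    have h1 : z = (z.re : ℂ) := hsa.mem_spectrum_eq_re hz
    refine ⟨h1, ?_⟩
    rw [hs.rng, Set.mem_Icc, ← abs_le]
    have h2 : ‖z‖ ≤ 1 := by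
      rcases subsingleton_or_nontrivial A with h | h
      · exfalso
        have : spectrum ℂ a = ∅ := spectrum.of_subsingleton a
        rw [this] at hz
        exact hz
      · exact (spectrum.norm_le_norm_of_mem hz).trans hn
    exact (Complex.abs_re_le_norm z).trans h2
  have hemb : Topology.IsEmbedding s := (s.continuous.isClosedEmbedding hs.inj).isEmbedding
  set e := hemb.toHomeomorph with he
  set ρ : C(spectrum ℂ a, unitInterval) :=
    ⟨fun z => e.symm ⟨(z : ℂ).re, (hre z z.2).2⟩, by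
      refine e.symm.continuous.comp ?_
      exact Continuous.subtype_mk (Complex.continuous_re.comp continuous_subtype_val) _⟩ with hρ
  refine ⟨(cfcHom (R := ℂ) (a := a) hnorm).comp (ContinuousMap.compStarAlgHom' ℂ ℂ ρ), ?_⟩
  have h3 : ContinuousMap.compStarAlgHom' ℂ ℂ ρ (cs s) =
      ContinuousMap.restrict (spectrum ℂ a) (ContinuousMap.id ℂ) := by
    ext z
    have h4 : s (e.symm ⟨(z : ℂ).re, (hre z z.2).2⟩) = (z : ℂ).re := by
      have := e.apply_symm_apply ⟨(z : ℂ).re, (hre z z.2).2⟩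
      exact congrArg Subtype.val this
    change ((s (e.symm ⟨(z : ℂ).re, (hre z z.2).2⟩) : ℝ) : ℂ) = (z : ℂ)
    rw [h4]
    exact (hre z z.2).1.symm
  rw [StarAlgHom.comp_apply, h3]
  exact cfcHom_id hnorm

/-! ### the theorem -/

open MeasureTheory in
/-- the integral as a linear functional -/
noncomputable def SCFP_I : CI →ₗ[ℂ] ℂ where
  toFun f := ∫ t : unitInterval, f t
  map_add' f g := by
    have hint : ∀ f : CI, Integrable (fun t => f t) := fun f =>
      f.continuous.integrable_of_hasCompactSupport (HasCompactSupport.of_compactSpace f)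
    exact integral_add (hint f) (hint g)
  map_smul' c f := by
    exact integral_smul c (fun t => f t)

theorem SCFP_I_apply (f : CI) : SCFP_I f = ∫ t : unitInterval, f t := rfl

theorem SCFP_I_le (f : CI) : ‖SCFP_I f‖ ≤ ‖f‖ := by
  rw [SCFP_I_apply]
  have := MeasureTheory.norm_integral_le_of_norm_le_const
    (μ := (MeasureTheory.volume : MeasureTheory.Measure unitInterval)) (f := fun t => f t)
    (C := ‖f‖) (Filter.Eventually.of_forall fun t => f.norm_coe_le_norm t)
  simpa using this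

theorem SCFP_I_one : SCFP_I 1 = 1 := by
  rw [SCFP_I_apply]
  simp

theorem SCFP_I_W (s : C(unitInterval, ℝ)) (hs : SCf s) (h1 : S_CHEB) :
    ∀ q ∈ SCFP_W, SCFP_I (aeval (cs s) q) = 0 := by
  have h : SCFP_W ≤ LinearMap.ker (SCFP_I ∘ₗ (aeval (R := ℂ) (cs s)).toLinearMap) := by
    unfold SCFP_W
    rw [Submodule.span_le]
    rintro _ ⟨n, rfl⟩
    have h2 := h1 s hs (n + 1) (Nat.succ_pos n)
    change ∫ t : unitInterval, (aeval (cs s) (Chebyshev.U ℂ ((n : ℤ) + 1))) t = 0
    rw [← h2]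
    congr 1
    ext t
    have h3 : (aeval (cs s) (Chebyshev.U ℂ ((n : ℤ) + 1))) t =
        aeval ((cs s) t) (Chebyshev.U ℂ ((n : ℤ) + 1)) := by
      have h4 := Polynomial.aeval_algHom_apply (ContinuousMap.evalAlgHom ℂ ℂ t) (cs s)
        (Chebyshev.U ℂ ((n : ℤ) + 1))
      exact h4.symm
    rw [h3, Polynomial.coe_aeval_eq_eval]
    push_cast
    rfl
  intro q hq
  exact h hq

theorem SCFP_phi_W {κ A : Type} [CStarAlgebra A] [DecidableEq κ] (φ : TrSt A) (x : κ → A)
    (h : SCL φ x) (j : κ) : ∀ q ∈ SCFP_W, φ.toFun (aeval (x j) q) = 0 := by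
  have h : SCFP_W ≤ LinearMap.ker (φ.toFun ∘ₗ (aeval (R := ℂ) (x j)).toLinearMap) := by
    unfold SCFP_W
    rw [Submodule.span_le]
    rintro _ ⟨n, rfl⟩
    have h2 := SCFP_pure_zero φ x h [(j, n)] (by simp) (by simp)
    simpa [SCFP_pure] using h2
  intro q hq
  exact h hq

theorem t_SCFP (h1 : S_CHEB) : S_SCFP := by
  intro κ _ s hs A _ φ x hfai hx hxn hgen
  have hnt : Nontrivial A := ⟨⟨1, 0, fun h => by
    have := φ.one
    rw [h, map_zero] at this
    exact zero_ne_one this⟩⟩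
  choose σ hσ using fun j => SCFP_sigma s hs A (x j) (hx.sa j) (hxn j)
  have hpol : ∀ (j : κ) (p : ℂ[X]), σ j (aeval (cs s) p) = aeval (x j) p := by
    intro j p
    rw [← Polynomial.aeval_algHom_apply, hσ]
  have hnorm : ∀ (j : κ) (f : CI), ‖σ j f‖ ≤ ‖f‖ := fun j f =>
    NonUnitalStarAlgHom.norm_apply_le (σ j) f
  -- values on polynomials
  have hval : ∀ (j : κ) (c : ℂ) (q : ℂ[X]), q ∈ SCFP_W →
      φ.toFun (σ j (aeval (cs s) (C c + q))) = c := by
    intro j c q hq
    rw [hpol, map_add, map_add, SCFP_phi_W φ x hx j q hq, aeval_C, Algebra.algebraMap_eq_smul_one,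
      map_smul, φ.one, add_zero, smul_eq_mul, mul_one]
  have hvalI : ∀ (c : ℂ) (q : ℂ[X]), q ∈ SCFP_W → SCFP_I (aeval (cs s) (C c + q)) = c := by
    intro c q hq
    rw [map_add, map_add, SCFP_I_W s hs h1 q hq, aeval_C, Algebra.algebraMap_eq_smul_one,
      map_smul, SCFP_I_one, add_zero, smul_eq_mul, mul_one]
  have hmar : ∀ j f, φ.toFun (σ j f) = ∫ t : unitInterval, f t := by
    intro j f
    rw [← SCFP_I_apply, ← sub_eq_zero, ← norm_le_zero_iff]
    refine le_of_forall_pos_le_add fun ε hε => ?_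
    obtain ⟨p, hp⟩ := SCFP_dense s hs f (ε / 2) (by linarith)
    obtain ⟨c, q, hq, rfl⟩ := SCFP_mem p
    have e1 : φ.toFun (σ j f) - SCFP_I f =
        φ.toFun (σ j (f - aeval (cs s) (C c + q))) - SCFP_I (f - aeval (cs s) (C c + q)) := by
      rw [map_sub, map_sub, map_sub, hval j c q hq, hvalI c q hq]
      ring
    rw [e1, zero_add]
    calc _ ≤ ‖φ.toFun (σ j (f - aeval (cs s) (C c + q)))‖ +
          ‖SCFP_I (f - aeval (cs s) (C c + q))‖ := norm_sub_le _ _
      _ ≤ ‖f - aeval (cs s) (C c + q)‖ + ‖f - aeval (cs s) (C c + q)‖ :=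
          add_le_add ((φ.bdd _).trans (hnorm j _)) (SCFP_I_le _)
      _ ≤ ε := by linarith
  have hcl : ∀ (j : κ) (f : CI), φ.toFun (σ j f) = 0 → σ j f ∈ SCFP_cl (x j) := by
    intro j f hf
    unfold SCFP_cl
    rw [Metric.mem_closure_iff]
    intro ε hε
    obtain ⟨p, hp⟩ := SCFP_dense s hs f (ε / 2) (by linarith)
    obtain ⟨c, q, hq, rfl⟩ := SCFP_mem p
    refine ⟨aeval (x j) q, ?_, ?_⟩
    · have h3 : SCFP_W ≤ (Submodule.span ℂ (Set.range fun n : ℕ =>
          aeval (x j) (Chebyshev.U ℂ ((n : ℤ) + 1)))).comap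
          (aeval (R := ℂ) (x j)).toLinearMap := by
        unfold SCFP_W
        rw [Submodule.span_le]
        rintro _ ⟨n, rfl⟩
        exact Submodule.subset_span ⟨n, rfl⟩
      exact h3 hq
    · have hc : ‖c‖ ≤ ‖f - aeval (cs s) (C c + q)‖ := by
        have e2 : φ.toFun (σ j (f - aeval (cs s) (C c + q))) = -c := by
          rw [map_sub, map_sub, hf, hval j c q hq, zero_sub]
        rw [← norm_neg, ← e2]
        exact (φ.bdd _).trans (hnorm j _)
      have e3 : σ j f - aeval (x j) q = σ j (f - aeval (cs s) (C c + q)) + c • (1 : A) := by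
        rw [map_sub, hpol, map_add, aeval_C, Algebra.algebraMap_eq_smul_one]
        abel
      rw [dist_eq_norm, e3]
      calc _ ≤ ‖σ j (f - aeval (cs s) (C c + q))‖ + ‖c • (1 : A)‖ := norm_add_le _ _
        _ ≤ ‖f - aeval (cs s) (C c + q)‖ + ‖f - aeval (cs s) (C c + q)‖ := by
            refine add_le_add (hnorm j _) ?_
            rw [norm_smul, CStarRing.norm_one, mul_one]
            exact hc
        _ < ε := by linarith
  refine ⟨σ, ⟨hfai, hmar, ?_, ?_⟩, hσ⟩
  · intro l hne hchain hz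
    have h3 := SCFP_gen φ x hx (l.map fun p => (p.1, σ p.1 p.2)) [] (by
      intro p hp
      rw [List.mem_map] at hp
      obtain ⟨r, hr, rfl⟩ := hp
      exact hcl r.1 r.2 (hz r hr)) (by
      rintro ⟨-, h⟩
      rw [List.map_eq_nil_iff] at h
      exact hne h) (by
      rw [List.map_nil, List.nil_append, List.map_map]
      exact hchain)
    rw [List.map_map] at h3
    simpa [SCFP_pure, Function.comp_def] using h3
  · rw [eq_top_iff, ← hgen]
    apply StarSubalgebra.topologicalClosure_mono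
    refine StarAlgebra.adjoin_le ?_
    rintro _ ⟨j, rfl⟩
    exact (le_iSup (fun j => (σ j).range) j) ⟨cs s, hσ j⟩

end Pool.Agent.H308R2.CF
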