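import Pool.Agent.H308R2.CF.Stubs

set_option autoImplicit false

namespace Pool.Agent.H308R2.CF

open scoped ComplexConjugate

theorem t_SCGEN : S_SCGEN := by
  intro s hs A _ σ S hS hm f
  have hcont : Continuous σ := by
    refine AddMonoidHomClass.continuous_of_bound σ 1 fun x => ?_
    rw [one_mul]
    exact NonUnitalStarAlgHom.norm_apply_le σ x
  set T : StarSubalgebra ℂ CI := StarAlgebra.adjoin ℂ ({cs s} : Set CI) with hT
  have hT1 : T ≤ S.comap σ := by
    rw [hT]
    refine StarAlgebra.adjoin_le ?_
    intro x hx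
    rw [Set.mem_singleton_iff] at hx
    rw [hx]
    exact hm
  have hcl : IsClosed ((S.comap σ : StarSubalgebra ℂ CI) : Set CI) := hS.preimage hcont
  have hsep : T.toSubalgebra.SeparatesPoints := by
    intro x y hxy
    refine ⟨cs s, ⟨cs s, ?_, rfl⟩, ?_⟩
    · exact StarAlgebra.subset_adjoin ℂ _ (Set.mem_singleton _)
    · intro h
      apply hxy
      apply hs.inj
      have h' : ((s x : ℝ) : ℂ) = ((s y : ℝ) : ℂ) := h
      exact_mod_cast h'
  have hden := ContinuousMap.starSubalgebra_topologicalClosure_eq_top_of_separatesPoints T hsep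
  have h2 : T.topologicalClosure ≤ S.comap σ := StarSubalgebra.topologicalClosure_minimal hT1 hcl
  have h3 : f ∈ T.topologicalClosure := by rw [hden]; trivial
  exact h2 h3

end Pool.Agent.H308R2.CF
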