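import Pool.Agent.H308R2.CF.Stubs

namespace Pool.Agent.H308R2.CF

open Pool.Agent.H770R2.UL (TrSt n2)
open Pool.Agent.H581R.FF (GR bs ev jj vv kk act)

theorem t_SCH (h1 : S_LAWH) (h2 : S_SCGEN) (h3 : S_SCL) (h4 : S_SCM) : S_SCH := by
  intro κ _ s hs A B _ _ φ ψ σ y hσ hψ hy
  have hx : SCL φ (fun j => σ j (cs s)) := h3 κ s hs A φ σ hσ.sys
  let gen : κ → A × B := fun j => (σ j (cs s), y j)
  let S : StarSubalgebra ℂ (A × B) := StarAlgebra.adjoin ℂ (Set.range gen)
  have hstar : ∀ z ∈ Set.range gen ∪ star (Set.range gen), z ∈ Set.range gen := by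
    rintro z (hz | hz)
    · exact hz
    · rw [Set.mem_star] at hz
      obtain ⟨j, hj⟩ := hz
      refine ⟨j, ?_⟩
      have : star (gen j) = gen j := Prod.ext (hx.sa j) (hy.sa j)
      rw [← star_star z, ← hj, this]
  have hmono : ∀ z ∈ Submonoid.closure (Set.range gen ∪ star (Set.range gen)),
      ∃ w : List κ, z = ((w.map fun j => σ j (cs s)).prod, (w.map y).prod) := by
    intro z hz
    induction hz using Submonoid.closure_induction with
    | mem z hz =>
      obtain ⟨j, rfl⟩ := hstar z hz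
      exact ⟨[j], by simp [gen]⟩
    | one => exact ⟨[], rfl⟩
    | mul z z' _ _ ih ih' =>
      obtain ⟨w, rfl⟩ := ih
      obtain ⟨w', rfl⟩ := ih'
      exact ⟨w ++ w', by simp⟩
  have hspan : ∀ z ∈ Submodule.span ℂ
      (Submonoid.closure (Set.range gen ∪ star (Set.range gen)) : Set (A × B)),
      φ.toFun z.1 = ψ.toFun z.2 := by
    intro z hz
    induction hz using Submodule.span_induction with
    | mem z hz =>
      obtain ⟨w, rfl⟩ := hmono z hz
      exact h4 κ A B φ ψ _ y hx hy w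
    | zero => simp
    | add z z' _ _ ih ih' =>
      rw [Prod.fst_add, Prod.snd_add, map_add, map_add, ih, ih']
    | smul c z _ ih =>
      rw [Prod.smul_fst, Prod.smul_snd, map_smul, map_smul, ih]
  have htr : ∀ x ∈ S, φ.toFun x.1 = ψ.toFun x.2 := by
    intro x hxS
    apply hspan
    rw [← StarAlgebra.adjoin_eq_span]
    exact hxS
  -- density of the first projection
  let T : StarSubalgebra ℂ A := (S.map (StarAlgHom.fst ℂ A B)).topologicalClosure
  have hT : ∀ j f, σ j f ∈ T := by
    intro j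
    refine h2 s hs A (σ j) T (StarSubalgebra.isClosed_topologicalClosure _) ?_
    apply StarSubalgebra.le_topologicalClosure
    refine ⟨gen j, ?_, rfl⟩
    exact StarAlgebra.subset_adjoin ℂ _ ⟨j, rfl⟩
  have hTtop : T = ⊤ := by
    rw [eq_top_iff, ← hσ.gen]
    unfold Cs
    apply StarSubalgebra.topologicalClosure_minimal
    · apply iSup_le
      rintro j _ ⟨f, rfl⟩
      exact hT j f
    · exact StarSubalgebra.isClosed_topologicalClosure _
  have hdense : ∀ a : A, a ∈ closure (Prod.fst '' (S : Set (A × B))) := by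
    intro a
    have ha : a ∈ T := by rw [hTtop]; trivial
    have ha' : a ∈ ((S.map (StarAlgHom.fst ℂ A B)).topologicalClosure : Set A) := ha
    rw [StarSubalgebra.topologicalClosure_coe] at ha'
    exact ha'
  obtain ⟨Φ, hΦ1, hΦ2, hΦ3⟩ := h1 A B φ ψ hσ.fai hψ S htr hdense
  refine ⟨Φ, hΦ1, hΦ2, fun j => ?_⟩
  exact hΦ3 (gen j) (StarAlgebra.subset_adjoin ℂ _ ⟨j, rfl⟩)

end Pool.Agent.H308R2.CF
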