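import Pool.Agent.H308R2.CF.Stubs

set_option autoImplicit false

namespace Pool.Agent.H308R2.CF

open Pool.Agent.H770R2.UL (TrSt)

/-- Chebyshev polynomials of the second kind of the function `s` -/
noncomputable def SCL_U (s : C(unitInterval, ℝ)) (n : ℕ) : CI :=
  Polynomial.aeval (cs s) (Polynomial.Chebyshev.U ℂ (n : ℤ))

theorem SCL_U_zero (s : C(unitInterval, ℝ)) : SCL_U s 0 = 1 := by
  unfold SCL_U
  simp

theorem SCL_U_one (s : C(unitInterval, ℝ)) : SCL_U s 1 = (2 : ℂ) • cs s := by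
  unfold SCL_U
  simp only [Nat.cast_one, Polynomial.Chebyshev.U_one, map_mul, Polynomial.aeval_X, map_ofNat]
  rw [two_smul ℂ (cs s), two_mul]

theorem SCL_U_add_two (s : C(unitInterval, ℝ)) (n : ℕ) :
    SCL_U s (n + 2) = (2 : ℂ) • (cs s * SCL_U s (n + 1)) - SCL_U s n := by
  unfold SCL_U
  have h : ((n + 2 : ℕ) : ℤ) = (n : ℤ) + 2 := by push_cast; ring
  have h' : ((n + 1 : ℕ) : ℤ) = (n : ℤ) + 1 := by push_cast; ring
  rw [h, h', Polynomial.Chebyshev.U_add_two]
  simp only [map_sub, map_mul, Polynomial.aeval_X, map_ofNat]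
  congr 1
  rw [mul_assoc, two_mul]
  exact (two_smul ℂ _).symm

theorem SCL_main {κ : Type} [DecidableEq κ] (s : C(unitInterval, ℝ)) {A : Type}
    [CStarAlgebra A] (φ : TrSt A) (σ : κ → CI →⋆ₐ[ℂ] A)
    (h0 : ∀ j n, φ.toFun (σ j (SCL_U s (n + 1))) = 0) (i : κ) (w : List κ) :
    ∃ (n : ℕ) (l : List (κ × CI)), ((i :: l.map Prod.fst)).IsChain (· ≠ ·) ∧
      (∀ p ∈ l, φ.toFun (σ p.1 p.2) = 0) ∧
      PP (fun j => σ j (cs s)) (i :: w) = σ i (SCL_U s (n + 1)) *
        (l.map fun p => σ p.1 p.2).prod ∧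
      PP (fun j => σ j (cs s)) w = σ i (SCL_U s n) * (l.map fun p => σ p.1 p.2).prod := by
  induction w generalizing i with
  | nil =>
    refine ⟨0, [], by simp, by simp, ?_, ?_⟩
    · rw [SCL_U_one, map_smul]
      simp [PP]
    · rw [SCL_U_zero, map_one]
      simp [PP]
  | cons j w ih =>
    obtain ⟨n, l, hc, hz, h1, h2⟩ := ih j
    by_cases hij : i = j
    · subst hij
      refine ⟨n + 1, l, hc, hz, ?_, h1⟩
      have e : PP (fun j => σ j (cs s)) (i :: i :: w) =
          (2 : ℂ) • (σ i (cs s) * PP (fun j => σ j (cs s)) (i :: w)) -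
            PP (fun j => σ j (cs s)) w := by
        simp [PP]
      rw [e, h1, h2, SCL_U_add_two, map_sub, map_smul, map_mul, sub_mul, smul_mul_assoc,
        mul_assoc]
    · refine ⟨0, (j, SCL_U s (n + 1)) :: l, ?_, ?_, ?_, ?_⟩
      · simp only [List.map_cons]
        exact List.IsChain.cons_cons hij hc
      · intro p hp
        rcases List.mem_cons.mp hp with rfl | hp
        · exact h0 j n
        · exact hz p hp
      · have e : PP (fun j => σ j (cs s)) (i :: j :: w) =
            (2 : ℂ) • (σ i (cs s) * PP (fun j => σ j (cs s)) (j :: w)) := by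
          simp [PP, hij]
        rw [e, h1, SCL_U_one, map_smul, smul_mul_assoc, List.map_cons, List.prod_cons]
      · rw [h1, SCL_U_zero, map_one, one_mul, List.map_cons, List.prod_cons]

theorem t_SCL (h1 : S_FREE2) (h2 : S_CHEB) : S_SCL := by
  intro κ _ s hs A _ φ σ hσ
  have h0 : ∀ j n, φ.toFun (σ j (SCL_U s (n + 1))) = 0 := by
    intro j n
    rw [hσ.mar]
    have h3 := h2 s hs (n + 1) (Nat.succ_pos n)
    rw [← h3]
    refine MeasureTheory.integral_congr_ae (Filter.Eventually.of_forall fun t => ?_)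
    unfold SCL_U
    rw [Polynomial.aeval_continuousMap_apply]
    rfl
  constructor
  · intro i
    show star (σ i (cs s)) = σ i (cs s)
    rw [← map_star]
    congr 1
    ext t
    simp [cs]
  · intro w hw
    obtain ⟨i, w', rfl⟩ := List.exists_cons_of_ne_nil hw
    obtain ⟨n, l, hc, hz, e1, -⟩ := SCL_main s φ σ h0 i w'
    rw [e1]
    have h4 := h1 κ A φ σ hσ ((i, SCL_U s (n + 1)) :: l) (by simp) (by simpa using hc) (by
      intro p hp
      rcases List.mem_cons.mp hp with rfl | hp
      · exact h0 i n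
      · exact hz p hp)
    simpa using h4

end Pool.Agent.H308R2.CF
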