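import Pool.Agent.H308R2.CF.Stubs

/-! SCM: the moments of free semicircular families agree. -/

namespace Pool.Agent.H308R2.CF

open Pool.Agent.H770R2.UL (TrSt n2)

theorem scm_nil {κ A : Type} [Ring A] [Algebra ℂ A] [DecidableEq κ] (x : κ → A) (i : κ) :
    x i * PP x [] = (2 : ℂ)⁻¹ • PP x [i] := by
  simp only [PP]
  rw [mul_one, smul_smul, inv_mul_cancel₀ (two_ne_zero' ℂ), one_smul]

theorem scm_cons {κ A : Type} [Ring A] [Algebra ℂ A] [DecidableEq κ] (x : κ → A) (i j : κ)
    (v : List κ) : x i * PP x (j :: v) = (2 : ℂ)⁻¹ • PP x (i :: j :: v) +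
      (if i = j then (2 : ℂ)⁻¹ • PP x v else 0) := by
  have h : PP x (i :: j :: v) = (2 : ℂ) • (x i * PP x (j :: v)) -
      if i = j then PP x v else 0 := by
    rw [PP]
  rw [h, smul_sub, smul_smul, inv_mul_cancel₀ (two_ne_zero' ℂ), one_smul]
  split_ifs <;> simp

theorem scm_key {κ A B : Type} [DecidableEq κ] [CStarAlgebra A] [CStarAlgebra B]
    (φ : TrSt A) (ψ : TrSt B) (x : κ → A) (y : κ → B) (hx : SCL φ x) (hy : SCL ψ y)
    (w : List κ) : ∀ v : List κ,
    φ.toFun ((w.map x).prod * PP x v) = ψ.toFun ((w.map y).prod * PP y v) := by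
  induction w using List.reverseRecOn with
  | nil =>
    intro v
    rw [List.map_nil, List.map_nil, List.prod_nil, List.prod_nil, one_mul, one_mul]
    by_cases hv : v = []
    · subst hv
      simp only [PP]
      rw [φ.one, ψ.one]
    · rw [hx.law v hv, hy.law v hv]
  | append_singleton w i ih =>
    intro v
    rw [List.map_append, List.map_append, List.prod_append, List.prod_append, mul_assoc,
      mul_assoc]
    simp only [List.map_cons, List.map_nil, List.prod_cons, List.prod_nil, mul_one]
    cases v with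
    | nil =>
      rw [scm_nil, scm_nil, mul_smul_comm, mul_smul_comm, map_smul, map_smul, ih]
    | cons j v =>
      rw [scm_cons, scm_cons, mul_add, mul_add, map_add, map_add, mul_smul_comm, mul_smul_comm,
        map_smul, map_smul, ih]
      congr 1
      split_ifs
      · rw [mul_smul_comm, mul_smul_comm, map_smul, map_smul, ih]
      · rw [mul_zero, mul_zero, map_zero, map_zero]

theorem t_SCM : S_SCM := by
  intro κ _ A B _ _ φ ψ x y hx hy w
  have h := scm_key φ ψ x y hx hy w []
  simpa only [PP, mul_one] using h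

end Pool.Agent.H308R2.CF
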