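import Pool.Agent.H308R2.CF.Stubs

namespace Pool.Agent.H308R2.CF

open Pool.Agent.H770R2.UL (TrSt n2)
open Pool.Agent.H581R.FF (GR bs ev jj vv kk act)

theorem STG_range_le {κ A : Type} [CStarAlgebra A] (σ : κ → CI →⋆ₐ[ℂ] A) (j : κ) (f : CI) :
    σ j f ∈ Cs σ := by
  unfold Cs
  apply StarSubalgebra.le_topologicalClosure
  exact (le_iSup (fun j => (σ j).range) j) ⟨f, rfl⟩

theorem STG_gp_mem {κ A : Type} [CStarAlgebra A] (σ : κ → CI →⋆ₐ[ℂ] A) (g : FreeGroup κ) :
    ((gp σ g : unitary A) : A) ∈ Cs σ := by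
  induction g using FreeGroup.induction_on with
  | C1 => rw [map_one]; exact one_mem _
  | of j =>
    unfold gp
    rw [FreeGroup.lift_apply_of]
    exact STG_range_le σ j eI
  | inv_of j _ =>
    unfold gp
    rw [map_inv, FreeGroup.lift_apply_of]
    show star ((uu (σ j) : unitary A) : A) ∈ Cs σ
    exact star_mem (STG_range_le σ j eI)
  | mul x y hx hy =>
    rw [map_mul]
    exact mul_mem hx hy

theorem STG_gp_jj {ι A : Type} [CStarAlgebra A] (σ : Option ι → CI →⋆ₐ[ℂ] A) (g : FreeGroup ι) :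
    gp σ (jj g) = gp (sm σ) g := by
  have h : (gp σ).comp (jj (ι := ι)) = gp (sm σ) := by
    apply FreeGroup.ext_hom
    intro j
    show gp σ (jj (FreeGroup.of j)) = gp (sm σ) (FreeGroup.of j)
    unfold gp jj
    rw [FreeGroup.map.of, FreeGroup.lift_apply_of, FreeGroup.lift_apply_of]
  exact congrArg (fun f : FreeGroup ι →* unitary A => f g) h

theorem t_STG (h1 : S_CW) (h2 : S_VL) (h3 : S_RUN) (h4 : S_PAIR) : S_STG := by
  intro ι _ a u hau s hs A _ φ σ hσ ε hε
  obtain ⟨l, hl⟩ := h2 s hs (ε / 2) (by positivity)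
  obtain ⟨C, hC0, hC⟩ := h3 l
  obtain ⟨r, c, hc1, hc2⟩ := h1 ι a u hau (ε / (2 * (C + 1))) (by positivity)
  set δ := ε / (2 * (C + 1)) with hδ
  have hδ0 : 0 < δ := by positivity
  have hCδ : C * δ < ε / 2 := by
    have h : (C + 1) * δ = ε / 2 := by rw [hδ]; field_simp
    nlinarith
  obtain ⟨W, σ', hσ', hj, hu, hW, hx⟩ := hC ι a u hau r c δ hδ0 hc1.le hc2.le s hs A φ σ hσ
  refine ⟨W, σ', hσ', hj, hu, lt_of_le_of_lt hW (by linarith), ?_⟩
  set g : FreeGroup ι := wz (FreeGroup.of a) (FreeGroup.of u) r with hg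
  obtain ⟨hx1, -⟩ := hx _ _ rfl rfl
  set x := cj (gp σ (jj g)) (σ (some a)) (cs s) with hxd
  set x' := cj (gp σ' (jj g)) (σ' (some a)) (cs s) with hxd'
  refine ⟨x', ?_, ?_⟩
  · rw [hxd', cj_apply, STG_gp_jj]
    exact mul_mem (mul_mem (STG_gp_mem _ _) (STG_range_le (sm σ') a (cs s)))
      (star_mem (STG_gp_mem _ _))
  · let τ : Option Unit → CI →⋆ₐ[ℂ] A := fun o =>
      match o with
      | none => σ none
      | some _ => cj (gp σ (jj g)) (σ (some a))
    have hτ : Sys φ τ := h4 ι A φ σ hσ.sys a g τ rfl rfl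
    have hV := hl A φ τ hσ.fai hτ
    have hV' : ‖Vl x (σ none (cs s)) l * x * star (Vl x (σ none (cs s)) l) - σ none (cs s)‖ <
        ε / 2 := hV
    calc ‖x' - σ none (cs s)‖
        = ‖(x' - Vl x (σ none (cs s)) l * x * star (Vl x (σ none (cs s)) l)) +
            (Vl x (σ none (cs s)) l * x * star (Vl x (σ none (cs s)) l) - σ none (cs s))‖ := by
          congr 1; abel
      _ ≤ _ := norm_add_le _ _
      _ < C * δ + ε / 2 := add_lt_add_of_le_of_lt hx1 hV'
      _ < ε := by linarith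

end Pool.Agent.H308R2.CF
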