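import Pool.Agent.H308R2.CF.Stubs

namespace Pool.Agent.H308R2.CF

open Pool.Agent.H581R.FF (GR bs ev jj vv kk act)
open MeasureTheory

/-- the function `e^{2πimt}` -/
noncomputable def tpE (m : ℤ) : CI :=
  ⟨fun t => Complex.exp (2 * Real.pi * Complex.I * m * ((t : ℝ) : ℂ)), by fun_prop⟩

lemma tpE_apply (m : ℤ) (t : unitInterval) :
    tpE m t = Complex.exp (2 * Real.pi * Complex.I * m * ((t : ℝ) : ℂ)) := rfl

lemma tpE_zero : tpE 0 = 1 := by
  ext t
  rw [tpE_apply]
  simp

lemma tpE_add (m n : ℤ) : tpE (m + n) = tpE m * tpE n := by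
  ext t
  rw [ContinuousMap.mul_apply, tpE_apply, tpE_apply, tpE_apply, ← Complex.exp_add]
  congr 1
  push_cast
  ring

lemma tpE_one : tpE 1 = eI := by
  ext t
  rw [tpE_apply]
  change _ = Complex.exp (2 * Real.pi * Complex.I * ((t : ℝ) : ℂ))
  congr 1
  push_cast
  ring

lemma tp_eq (q : ℤ →₀ ℂ) : tp q = q.sum fun m s => s • tpE m := rfl

lemma tpE_map {A : Type} [CStarAlgebra A] (σ : CI →⋆ₐ[ℂ] A) (m : ℤ) :
    σ (tpE m) = ((uu σ ^ m : unitary A) : A) := by
  let f : Multiplicative ℤ →* A :=
    { toFun := fun m => σ (tpE m.toAdd)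
      map_one' := by
        change σ (tpE 0) = 1
        rw [tpE_zero, map_one]
      map_mul' := by
        intro a b
        change σ (tpE (a.toAdd + b.toAdd)) = _
        rw [tpE_add, map_mul] }
  let g : Multiplicative ℤ →* A := ((unitary A).subtype).comp (zpowersHom (unitary A) (uu σ))
  have h : f = g := by
    apply MonoidHom.ext_mint
    change σ (tpE 1) = (((zpowersHom (unitary A) (uu σ)) (Multiplicative.ofAdd 1) : unitary A) : A)
    rw [zpowersHom_apply, toAdd_ofAdd, zpow_one, tpE_one]
    rfl
  have h2 := DFunLike.congr_fun h (Multiplicative.ofAdd m)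
  change σ (tpE m) = (((zpowersHom (unitary A) (uu σ)) (Multiplicative.ofAdd m) : unitary A) : A)
    at h2
  rw [zpowersHom_apply, toAdd_ofAdd] at h2
  exact h2

lemma tpE_int (m : ℤ) : ∫ x : unitInterval, tpE m x = if m = 0 then 1 else 0 := by
  have h1 : ∫ x : unitInterval, tpE m x =
      ∫ x in Set.Icc (0 : ℝ) 1, Complex.exp (2 * Real.pi * Complex.I * m * (x : ℂ)) := by
    exact integral_subtype_comap measurableSet_Icc
      (fun x : ℝ => Complex.exp (2 * Real.pi * Complex.I * m * (x : ℂ)))
  rw [h1, integral_Icc_eq_integral_Ioc, ← intervalIntegral.integral_of_le zero_le_one]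
  split
  · next h => simp [h]
  · next h =>
    have hc : (2 * Real.pi * Complex.I * m : ℂ) ≠ 0 := by
      refine mul_ne_zero Complex.two_pi_I_ne_zero ?_
      exact_mod_cast h
    rw [integral_exp_mul_complex hc]
    have h2 : Complex.exp (2 * Real.pi * Complex.I * m * ((1 : ℝ) : ℂ)) = 1 := by
      have h3 : (2 * Real.pi * Complex.I * m * ((1 : ℝ) : ℂ) : ℂ) =
          m * (2 * Real.pi * Complex.I) := by
        push_cast
        ring
      rw [h3, Complex.exp_int_mul_two_pi_mul_I]
    rw [h2]
    simp

theorem t_TP : S_TP := by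
  refine ⟨?_, ?_, ?_⟩
  · intro A _ σ q
    rw [tp_eq, map_finsuppSum]
    apply Finsupp.sum_congr
    intro m _
    rw [map_smul, tpE_map]
  · intro ι A _ σ q
    rw [tp_eq, map_finsuppSum]
    unfold kk
    rw [map_finsuppSum]
    apply Finsupp.sum_congr
    intro m _
    rw [map_smul, tpE_map]
    unfold ev
    rw [MonoidAlgebra.lift_single]
    congr 1
    change ((uu (σ none) ^ m : unitary A) : A) = ((gp σ (vv ^ m) : unitary A) : A)
    rw [map_zpow]
    congr 2
    unfold gp vv
    rw [FreeGroup.lift_apply_of]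
  · intro q
    rw [tp_eq]
    have h1 : ∀ x : unitInterval, (q.sum fun m s => s • tpE m) x =
        ∑ m ∈ q.support, q m * tpE m x := by
      intro x
      unfold Finsupp.sum
      rw [ContinuousMap.coe_sum, Finset.sum_apply]
      rfl
    simp only [h1]
    rw [integral_finset_sum]
    · have h2 : ∀ m ∈ q.support, ∫ x : unitInterval, q m * tpE m x =
          if m = 0 then q m else 0 := by
        intro m _
        rw [integral_const_mul, tpE_int]
        split <;> simp
      rw [Finset.sum_congr rfl h2, Finset.sum_ite_eq' q.support 0 (fun m => q m)]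
      split
      · rfl
      · next h => exact (Finsupp.notMem_support_iff.mp h).symm
    · intro m _
      exact ((tpE m).continuous.const_mul (q m)).integrable_of_hasCompactSupport
        (HasCompactSupport.of_compactSpace _)

end Pool.Agent.H308R2.CF
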