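import Mathlib
import Pool.Agent.H308R2.CF.Stubs

/-! Trotter product formula. -/

namespace Pool.Agent.H308R2.CF

theorem TROT_norm_exp {A : Type} [CStarAlgebra A] [Nontrivial A] (x : A) :
    ‖NormedSpace.exp x‖ ≤ Real.exp ‖x‖ := by
  have h1 : NormedSpace.exp x = ∑' n : ℕ, ((n.factorial : ℂ)⁻¹) • x ^ n := by
    rw [NormedSpace.exp_eq_tsum ℂ]
  have h2 : Summable (fun n : ℕ => ‖((n.factorial : ℂ)⁻¹) • x ^ n‖) :=
    NormedSpace.norm_expSeries_summable' x
  rw [h1]
  refine (norm_tsum_le_tsum_norm h2).trans ?_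
  rw [Real.exp_eq_exp_ℝ, NormedSpace.exp_eq_tsum_div]
  have h3 := Real.summable_pow_div_factorial ‖x‖
  refine h2.tsum_le_tsum (fun n => ?_) h3
  rw [norm_smul, norm_inv, Complex.norm_natCast, div_eq_inv_mul]
  exact mul_le_mul_of_nonneg_left (norm_pow_le x n) (by positivity)

theorem TROT_pow {A : Type} [CStarAlgebra A] [Nontrivial A] (a b : A) (M : ℝ) (hM : 1 ≤ M)
    (ha : ‖a‖ ≤ M) (hb : ‖b‖ ≤ M) (k : ℕ) : ‖a ^ k - b ^ k‖ ≤ k * M ^ k * ‖a - b‖ := by
  have hM0 : 0 ≤ M := by linarith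
  induction k with
  | zero => simp
  | succ k ih =>
    have e : a ^ (k + 1) - b ^ (k + 1) = a ^ k * (a - b) + (a ^ k - b ^ k) * b := by
      rw [pow_succ, pow_succ]; noncomm_ring
    have h1 : ‖a ^ k * (a - b)‖ ≤ M ^ k * ‖a - b‖ := by
      refine (norm_mul_le _ _).trans (mul_le_mul_of_nonneg_right ?_ (norm_nonneg _))
      exact (norm_pow_le a k).trans (pow_le_pow_left₀ (norm_nonneg _) ha k)
    have h2 : ‖(a ^ k - b ^ k) * b‖ ≤ (k * M ^ k * ‖a - b‖) * M := by
      refine (norm_mul_le _ _).trans ?_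
      exact mul_le_mul ih hb (norm_nonneg _) (by positivity)
    rw [e]
    refine (norm_add_le _ _).trans ?_
    have h3 : M ^ k * ‖a - b‖ ≤ M ^ (k + 1) * ‖a - b‖ := by
      apply mul_le_mul_of_nonneg_right _ (norm_nonneg _)
      rw [pow_succ]
      nlinarith [pow_nonneg hM0 k]
    push_cast
    have h4 : (k * M ^ k * ‖a - b‖) * M = k * M ^ (k + 1) * ‖a - b‖ := by ring
    rw [h4] at h2
    linarith

theorem t_TROT : S_TROT := by
  intro A _ x y
  rcases subsingleton_or_nontrivial A with h | h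
  · have : (fun n : ℕ => (NormedSpace.exp ((1 / (n : ℂ)) • x) *
        NormedSpace.exp ((1 / (n : ℂ)) • y)) ^ n) = fun _ => NormedSpace.exp (x + y) :=
      funext fun _ => Subsingleton.elim _ _
    rw [this]
    exact tendsto_const_nhds
  -- the difference
  set g : ℂ → A := fun t => NormedSpace.exp (t • x) * NormedSpace.exp (t • y) - NormedSpace.exp (t • (x + y))
    with hg
  have hgd : HasDerivAt g 0 0 := by
    have h1 := hasDerivAt_exp_smul_const (𝕂 := ℂ) x (0 : ℂ)
    have h2 := hasDerivAt_exp_smul_const (𝕂 := ℂ) y (0 : ℂ)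
    have h3 := hasDerivAt_exp_smul_const (𝕂 := ℂ) (x + y) (0 : ℂ)
    have h4 := (h1.mul h2).sub h3
    have e : NormedSpace.exp ((0:ℂ) • x) * x * NormedSpace.exp ((0:ℂ) • y) +
        NormedSpace.exp ((0:ℂ) • x) * (NormedSpace.exp ((0:ℂ) • y) * y) -
        NormedSpace.exp ((0:ℂ) • (x + y)) * (x + y) = 0 := by simp
    rw [e] at h4
    exact h4
  have hg0 : g 0 = 0 := by
    rw [hg]
    simp
  have hlim : Filter.Tendsto (fun n : ℕ => (n : ℂ) • g (1 / (n : ℂ))) Filter.atTop (nhds 0) := by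
    have h1 := hasDerivAt_iff_tendsto_slope_zero.mp hgd
    have h2 : Filter.Tendsto (fun n : ℕ => (1 / (n : ℂ))) Filter.atTop (nhdsWithin 0 {0}ᶜ) := by
      rw [tendsto_nhdsWithin_iff]
      refine ⟨?_, ?_⟩
      · have := tendsto_const_div_atTop_nhds_zero_nat (1:ℝ)
        have h3 := (Complex.continuous_ofReal.tendsto (0:ℝ)).comp this
        simpa [Function.comp_def] using h3
      · filter_upwards [Filter.eventually_gt_atTop 0] with n hn
        have : (n : ℂ) ≠ 0 := by exact_mod_cast hn.ne'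
        simp [this]
    have h3 := h1.comp h2
    refine h3.congr fun n => ?_
    simp only [Function.comp_apply, zero_add, hg0, sub_zero]
    rw [one_div, inv_inv]
  set K : ℝ := Real.exp (‖x‖ + ‖y‖) with hK
  have hbound : ∀ᶠ n : ℕ in Filter.atTop, ‖(NormedSpace.exp ((1 / (n : ℂ)) • x) *
      NormedSpace.exp ((1 / (n : ℂ)) • y)) ^ n - NormedSpace.exp (x + y)‖ ≤
      K * ‖(n : ℂ) • g (1 / (n : ℂ))‖ := by
    filter_upwards [Filter.eventually_gt_atTop 0] with n hn
    have hn0 : (n : ℂ) ≠ 0 := by exact_mod_cast hn.ne'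
    have hnR : (0:ℝ) < n := by exact_mod_cast hn
    set M : ℝ := Real.exp ((‖x‖ + ‖y‖) / n) with hM
    have hM1 : 1 ≤ M := Real.one_le_exp (by positivity)
    have hnorm : ∀ z : A, ‖(1 / (n : ℂ)) • z‖ = ‖z‖ / n := by
      intro z
      rw [norm_smul, norm_div, norm_one, Complex.norm_natCast]
      ring
    have ha : ‖NormedSpace.exp ((1 / (n : ℂ)) • x) * NormedSpace.exp ((1 / (n : ℂ)) • y)‖ ≤ M := by
      refine (norm_mul_le _ _).trans ?_
      rw [hM, add_div, Real.exp_add, ← hnorm x, ← hnorm y]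
      exact mul_le_mul (TROT_norm_exp _) (TROT_norm_exp _) (norm_nonneg _) (Real.exp_pos _).le
    have hb : ‖NormedSpace.exp ((1 / (n : ℂ)) • (x + y))‖ ≤ M := by
      refine (TROT_norm_exp _).trans ?_
      rw [hM, hnorm]
      apply Real.exp_le_exp.mpr
      exact div_le_div_of_nonneg_right (norm_add_le _ _) hnR.le
    have hbn : NormedSpace.exp ((1 / (n : ℂ)) • (x + y)) ^ n = NormedSpace.exp (x + y) := by
      letI : NormedAlgebra ℚ A := NormedAlgebra.restrictScalars ℚ ℂ A
      rw [← NormedSpace.exp_nsmul]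
      congr 1
      rw [← Nat.cast_smul_eq_nsmul ℂ, smul_smul, mul_one_div, div_self hn0, one_smul]
    have key := TROT_pow _ _ M hM1 ha hb n
    rw [hbn] at key
    have hMn : M ^ n = K := by
      rw [hM, hK, ← Real.exp_nat_mul]
      congr 1
      field_simp
    rw [hMn] at key
    refine key.trans (le_of_eq ?_)
    rw [norm_smul, Complex.norm_natCast]
    show (n : ℝ) * K * ‖g (1 / (n : ℂ))‖ = _
    ring
  rw [tendsto_iff_norm_sub_tendsto_zero]
  have hlim2 : Filter.Tendsto (fun n : ℕ => K * ‖(n : ℂ) • g (1 / (n : ℂ))‖) Filter.atTop (nhds 0) := by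
    have := (hlim.norm).const_mul K
    simpa using this
  exact squeeze_zero' (Filter.Eventually.of_forall fun n => norm_nonneg _) hbound hlim2

end Pool.Agent.H308R2.CF
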