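import Pool.Agent.H308R2.CF.Stubs

/-! Uniqueness (non-surjective version): equal moments give an isometric embedding. -/

namespace Pool.Agent.H308R2.CF

open Pool.Agent.H770R2.UL (TrSt n2)

theorem t_UNIQ (h1 : S_LAWH) (h2 : S_MOM) : S_UNIQ := by
  intro κ A B _ _ φ ψ σ τ hσ hψ hτ
  let g : κ × CI → A × B := fun p => (σ p.1 p.2, τ p.1 p.2)
  have hstar : star (Set.range g) ⊆ Set.range g := by
    intro x hx
    obtain ⟨p, hp⟩ := Set.mem_star.1 hx
    refine ⟨(p.1, star p.2), ?_⟩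
    have h3 : x = star (g p) := by rw [hp, star_star]
    rw [h3]
    simp only [g, map_star, Prod.star_def]
  let S : StarSubalgebra ℂ (A × B) := StarAlgebra.adjoin ℂ (Set.range g)
  have hgS : ∀ p, g p ∈ S := fun p => StarAlgebra.subset_adjoin ℂ _ ⟨p, rfl⟩
  have hlist : ∀ l : List (A × B), (∀ y ∈ l, y ∈ Set.range g) →
      ∃ m : List (κ × CI), l.prod = ((m.map fun p => σ p.1 p.2).prod,
        (m.map fun p => τ p.1 p.2).prod) := by
    intro l
    induction l with
    | nil => intro _; exact ⟨[], rfl⟩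
    | cons y l ih =>
      intro hl
      obtain ⟨p, hp⟩ := hl y (by simp)
      obtain ⟨m, hm⟩ := ih fun z hz => hl z (by simp [hz])
      refine ⟨p :: m, ?_⟩
      rw [List.prod_cons, hm, ← hp]
      simp [g]
  have hS1 : ∀ x ∈ S, φ.toFun x.1 = ψ.toFun x.2 := by
    intro x hx
    have hx2 : x ∈ Algebra.adjoin ℂ (Set.range g) := by
      have h4 : x ∈ Algebra.adjoin ℂ (Set.range g ∪ star (Set.range g)) := hx
      rwa [Set.union_eq_self_of_subset_right hstar] at h4
    rw [← Subalgebra.mem_toSubmodule, Algebra.adjoin_eq_span] at hx2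
    clear hx
    induction hx2 using Submodule.span_induction with
    | mem x hx3 =>
      obtain ⟨l, hl, hlx⟩ := Submonoid.exists_list_of_mem_closure hx3
      obtain ⟨m, hm⟩ := hlist l hl
      rw [← hlx, hm]
      exact h2 κ A B φ ψ σ τ hσ.sys hτ m
    | zero => simp
    | add x y _ _ hx4 hy4 =>
      rw [Prod.fst_add, Prod.snd_add, map_add, map_add, hx4, hy4]
    | smul c x _ hx4 =>
      rw [Prod.smul_fst, Prod.smul_snd, map_smul, map_smul, hx4]
  have hS2 : ∀ a : A, a ∈ closure (Prod.fst '' (S : Set (A × B))) := by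
    intro a
    have h5 : a ∈ Cs σ := by rw [hσ.gen]; trivial
    have h6 : (⨆ j, (σ j).range) ≤ S.map (StarAlgHom.fst ℂ A B) := by
      refine iSup_le fun j => ?_
      rintro _ ⟨f, rfl⟩
      exact ⟨g (j, f), hgS (j, f), rfl⟩
    have h7 : a ∈ closure ((⨆ j, (σ j).range : StarSubalgebra ℂ A) : Set A) := h5
    refine closure_mono ?_ h7
    intro b hb
    obtain ⟨x, hx, hxb⟩ := h6 hb
    exact ⟨x, hx, hxb⟩
  obtain ⟨Φ, hΦ1, hΦ2, hΦ3⟩ := h1 A B φ ψ hσ.fai hψ S hS1 hS2
  exact ⟨Φ, hΦ1, hΦ2, fun j f => hΦ3 (g (j, f)) (hgS (j, f))⟩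

end Pool.Agent.H308R2.CF
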