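import Mathlib
import Pool.Agent.H308R2.CF.Stubs

/-! Task VL: the universal list. -/

set_option autoImplicit false

namespace Pool.Agent.H308R2.CF

open Pool.Agent.H770R2.UL (TrSt n2)

namespace VLaux

variable {A : Type} [CStarAlgebra A]

theorem ex_zero (x : A) : ex 0 x = 1 := by
  unfold ex
  simp [NormedSpace.exp_zero]

theorem Vl_append (x y : A) : ∀ l l' : List (ℝ × ℝ), Vl x y (l ++ l') = Vl x y l * Vl x y l'
  | [], l' => by simp [Vl]
  | p :: l, l' => by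
      rw [List.cons_append, Vl, Vl, Vl_append x y l l']
      simp only [mul_assoc]

theorem exists_list (x y : A) (V : A)
    (hV : V ∈ Submonoid.closure (Set.range (fun r : ℝ => ex r x) ∪
      Set.range (fun r : ℝ => ex r y))) : ∃ l : List (ℝ × ℝ), V = Vl x y l := by
  induction hV using Submonoid.closure_induction with
  | mem z hz =>
      rcases hz with ⟨r, rfl⟩ | ⟨r, rfl⟩
      · exact ⟨[(r, 0)], by simp [Vl, ex_zero]⟩
      · exact ⟨[(0, r)], by simp [Vl, ex_zero]⟩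
  | one => exact ⟨[], rfl⟩
  | mul a b _ _ ha hb =>
      obtain ⟨l, rfl⟩ := ha
      obtain ⟨l', rfl⟩ := hb
      exact ⟨l ++ l', (Vl_append x y l l').symm⟩

end VLaux

theorem t_VL (hVLA : S_VLA) (hEXI : S_EXI) (hFREE1 : S_FREE1) (hUNIQ : S_UNIQ) (hSC0 : S_SC0)
    (hEX : S_EX) : S_VL := by
  intro s hs ε hε
  obtain ⟨B, iB, ψ, τ, hF⟩ := hEXI (Option Unit)
  have hFSG : FSG ψ τ := hFREE1 _ B ψ τ hF
  obtain ⟨V, hV, hVε⟩ := hVLA s hs B ψ τ hFSG ε hε
  have hopen : IsOpen {W : B | ‖W * τ (some ()) (cs s) * star W - τ none (cs s)‖ < ε} := by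
    apply isOpen_lt
    · fun_prop
    · exact continuous_const
  obtain ⟨V', hV'1, hV'2⟩ := mem_closure_iff.1 hV _ hopen hVε
  obtain ⟨l, rfl⟩ := VLaux.exists_list _ _ V' hV'2
  refine ⟨l, ?_⟩
  intro A _ φ σ hφ hσ
  obtain ⟨Φ, hΦ1, _, hΦ3⟩ := hUNIQ (Option Unit) B A ψ φ τ σ hFSG hφ hσ
  have hsx : star (τ (some ()) (cs s)) = τ (some ()) (cs s) :=
    ((hSC0 s hs).2.2.2.2 B (τ (some ()))).1
  have hsy : star (τ none (cs s)) = τ none (cs s) := ((hSC0 s hs).2.2.2.2 B (τ none)).1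
  have hx := hEX B _ _ hsx hsy
  have hy := hEX B _ _ hsy hsx
  have hΦx : ∀ r : ℝ, Φ (ex r (τ (some ()) (cs s))) = ex r (σ (some ()) (cs s)) := by
    intro r
    rw [← hΦ3]
    exact hx.2.2.2.2.2.2.2.2.2.1 A Φ r
  have hΦy : ∀ r : ℝ, Φ (ex r (τ none (cs s))) = ex r (σ none (cs s)) := by
    intro r
    rw [← hΦ3]
    exact hy.2.2.2.2.2.2.2.2.2.1 A Φ r
  have hVl : ∀ l : List (ℝ × ℝ), Φ (Vl (τ (some ()) (cs s)) (τ none (cs s)) l) =
      Vl (σ (some ()) (cs s)) (σ none (cs s)) l := by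
    intro l
    induction l with
    | nil => simp [Vl]
    | cons p l ih => rw [Vl, Vl, map_mul, map_mul, hΦx, hΦy, ih]
  rw [← hVl, ← hΦ3, ← hΦ3, ← map_star, ← map_mul, ← map_mul, ← map_sub, hΦ1]
  exact hV'1

end Pool.Agent.H308R2.CF
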