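import Mathlib
import Pool.Agent.H308R2.CF.Stubs

/-! Existence of `V` (task VLA). -/

namespace Pool.Agent.H308R2.CF

open Pool.Agent.H770R2.UL (TrSt n2)

namespace VLA

/-- the rotation matrix -/
noncomputable def rot (θ : ℝ) : Matrix (Option Unit) (Option Unit) ℝ :=
  Matrix.of fun i j => match i, j with
    | some _, some _ => Real.cos θ
    | some _, none => Real.sin θ
    | none, some _ => -Real.sin θ
    | none, none => Real.cos θ

theorem rot_mul (θ : ℝ) : rot θ * (rot θ).transpose = 1 := by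
  have h := Real.sin_sq_add_cos_sq θ
  ext i j
  rcases i with _ | i <;> rcases j with _ | j <;>
    simp [Matrix.mul_apply, Fintype.sum_option, rot] <;> nlinarith

/-- conjugation by `e^{iDK}` up to second order -/
theorem conj_est {A : Type} [CStarAlgebra A] (hEX : S_EX) (K z : A) (hK : star K = K)
    (M D : ℝ) (hM : ‖K‖ ≤ M) (hz : ‖z‖ ≤ 2) (hD : 0 ≤ D) (hD1 : D ≤ 1) :
    ‖ex (-D) K * z * ex D K - z - (D : ℂ) • (Complex.I • (z * K - K * z))‖ ≤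
      (4 * M ^ 2 + 2 * (M + M ^ 2) ^ 2) * D ^ 2 := by
  obtain ⟨-, -, -, -, -, -, -, hT, -⟩ := hEX A K K hK hK
  have hM0 : 0 ≤ M := (norm_nonneg K).trans hM
  set E := ex D K with hE
  set F := ex (-D) K with hF
  set R := E - 1 - ((D : ℂ) * Complex.I) • K with hR
  set R' := F - 1 - (((-D : ℝ) : ℂ) * Complex.I) • K with hR'
  have hDK : D * ‖K‖ ≤ D * M := mul_le_mul_of_nonneg_left hM hD
  have hDK0 : 0 ≤ D * ‖K‖ := mul_nonneg hD (norm_nonneg _)
  have hRn : ‖R‖ ≤ (D * M) ^ 2 := by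
    have := hT D
    rw [abs_of_nonneg hD] at this
    exact this.trans (pow_le_pow_left₀ hDK0 hDK 2)
  have hRn' : ‖R'‖ ≤ (D * M) ^ 2 := by
    have := hT (-D)
    rw [abs_neg, abs_of_nonneg hD] at this
    exact this.trans (pow_le_pow_left₀ hDK0 hDK 2)
  have hDM2 : (D * M) ^ 2 ≤ D * M ^ 2 := by nlinarith [mul_nonneg hD (sq_nonneg M)]
  have hP : ‖E - 1‖ ≤ D * (M + M ^ 2) := by
    have e : E - 1 = R + ((D : ℂ) * Complex.I) • K := by rw [hR]; abel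
    rw [e]
    refine (norm_add_le _ _).trans ?_
    rw [norm_smul, norm_mul, Complex.norm_I, mul_one, Complex.norm_real, Real.norm_of_nonneg hD]
    nlinarith
  have hP' : ‖F - 1‖ ≤ D * (M + M ^ 2) := by
    have e : F - 1 = R' + (((-D : ℝ) : ℂ) * Complex.I) • K := by rw [hR']; abel
    rw [e]
    refine (norm_add_le _ _).trans ?_
    rw [norm_smul, norm_mul, Complex.norm_I, mul_one, Complex.norm_real, norm_neg,
      Real.norm_of_nonneg hD]
    nlinarith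
  have key : F * z * E - z - (D : ℂ) • (Complex.I • (z * K - K * z)) =
      R' * z + z * R + (F - 1) * z * (E - 1) := by
    have e1 : R' * z = F * z - z + ((D : ℂ) * Complex.I) • (K * z) := by
      rw [hR', sub_mul, sub_mul, one_mul, smul_mul_assoc, Complex.ofReal_neg, neg_mul, neg_smul,
        sub_neg_eq_add]
    have e2 : z * R = z * E - z - ((D : ℂ) * Complex.I) • (z * K) := by
      rw [hR, mul_sub, mul_sub, mul_one, mul_smul_comm]
    have e3 : (F - 1) * z * (E - 1) = F * z * E - F * z - z * E + z := by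
      noncomm_ring
    rw [e1, e2, e3, smul_smul, smul_sub]
    abel
  rw [key]
  have n1 : ‖R' * z‖ ≤ (D * M) ^ 2 * 2 :=
    (norm_mul_le _ _).trans (mul_le_mul hRn' hz (norm_nonneg _) (by positivity))
  have n2' : ‖z * R‖ ≤ 2 * (D * M) ^ 2 :=
    (norm_mul_le _ _).trans (mul_le_mul hz hRn (norm_nonneg _) (by positivity))
  have n3 : ‖(F - 1) * z * (E - 1)‖ ≤ (D * (M + M ^ 2)) * 2 * (D * (M + M ^ 2)) := by
    refine (norm_mul_le _ _).trans (mul_le_mul ?_ hP (norm_nonneg _) (by positivity))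
    exact (norm_mul_le _ _).trans (mul_le_mul hP' hz (norm_nonneg _) (by positivity))
  refine (norm_add_le _ _).trans ((add_le_add_left (norm_add_le _ _) _).trans ?_)
  nlinarith

/-- the rotated element -/
noncomputable def zz {A : Type} [CStarAlgebra A] (x y : A) (θ : ℝ) : A :=
  ((Real.cos θ : ℝ) : ℂ) • x + ((Real.sin θ : ℝ) : ℂ) • y

/-- the derivative of the rotated element -/
noncomputable def ss {A : Type} [CStarAlgebra A] (x y : A) (θ : ℝ) : A :=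
  ((-Real.sin θ : ℝ) : ℂ) • x + ((Real.cos θ : ℝ) : ℂ) • y

theorem zz_norm {A : Type} [CStarAlgebra A] (x y : A) (hx : ‖x‖ ≤ 1) (hy : ‖y‖ ≤ 1) (θ : ℝ) :
    ‖zz x y θ‖ ≤ 2 := by
  refine (norm_add_le _ _).trans ?_
  rw [norm_smul, norm_smul, Complex.norm_real, Complex.norm_real]
  have h1 : ‖Real.cos θ‖ * ‖x‖ ≤ 1 * 1 :=
    mul_le_mul (Real.abs_cos_le_one θ) hx (norm_nonneg _) (by norm_num)
  have h2 : ‖Real.sin θ‖ * ‖y‖ ≤ 1 * 1 :=
    mul_le_mul (Real.abs_sin_le_one θ) hy (norm_nonneg _) (by norm_num)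
  linarith

theorem ss_norm {A : Type} [CStarAlgebra A] (x y : A) (hx : ‖x‖ ≤ 1) (hy : ‖y‖ ≤ 1) (θ : ℝ) :
    ‖ss x y θ‖ ≤ 2 := by
  refine (norm_add_le _ _).trans ?_
  rw [norm_smul, norm_smul, Complex.norm_real, Complex.norm_real, norm_neg]
  have h1 : ‖Real.sin θ‖ * ‖x‖ ≤ 1 * 1 :=
    mul_le_mul (Real.abs_sin_le_one θ) hx (norm_nonneg _) (by norm_num)
  have h2 : ‖Real.cos θ‖ * ‖y‖ ≤ 1 * 1 :=
    mul_le_mul (Real.abs_cos_le_one θ) hy (norm_nonneg _) (by norm_num)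
  linarith

theorem zz_add {A : Type} [CStarAlgebra A] (x y : A) (θ D : ℝ) :
    zz x y (θ + D) - zz x y θ - (D : ℂ) • ss x y θ =
      ((Real.cos D - 1 : ℝ) : ℂ) • zz x y θ + ((Real.sin D - D : ℝ) : ℂ) • ss x y θ := by
  unfold zz ss
  rw [Real.cos_add, Real.sin_add]
  push_cast
  module

theorem zz_est {A : Type} [CStarAlgebra A] (x y : A) (hx : ‖x‖ ≤ 1) (hy : ‖y‖ ≤ 1) (θ D : ℝ)
    (hD : 0 ≤ D) (hD1 : D ≤ 1) :
    ‖zz x y (θ + D) - zz x y θ - (D : ℂ) • ss x y θ‖ ≤ 4 * D ^ 2 := by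
  rw [zz_add]
  refine (norm_add_le _ _).trans ?_
  rw [norm_smul, norm_smul, Complex.norm_real, Complex.norm_real]
  have hc : ‖Real.cos D - 1‖ ≤ D ^ 2 := by
    rw [Real.norm_eq_abs, abs_le]
    constructor
    · nlinarith [Real.one_sub_sq_div_two_le_cos (x := D)]
    · nlinarith [Real.cos_le_one D, sq_nonneg D]
  have hs : ‖Real.sin D - D‖ ≤ D ^ 2 := by
    rw [Real.norm_eq_abs, abs_le]
    constructor
    · rcases hD.eq_or_lt with h | h
      · rw [← h]; simp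
      · have := Real.sin_gt_sub_cube h
        nlinarith [mul_nonneg hD hD, mul_nonneg (mul_nonneg hD hD) (sub_nonneg.2 hD1)]
    · nlinarith [Real.sin_le hD, sq_nonneg D]
  have h1 : ‖Real.cos D - 1‖ * ‖zz x y θ‖ ≤ D ^ 2 * 2 :=
    mul_le_mul hc (zz_norm x y hx hy θ) (norm_nonneg _) (by positivity)
  have h2 : ‖Real.sin D - D‖ * ‖ss x y θ‖ ≤ D ^ 2 * 2 :=
    mul_le_mul hs (ss_norm x y hx hy θ) (norm_nonneg _) (by positivity)
  linarith

/-- the element `K` -/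
theorem exK (hINT : S_INT) (hAVG : S_AVG) {s : C(unitInterval, ℝ)} (hs : SCf s)
    {A : Type} [CStarAlgebra A] {φ : TrSt A} {σ : Option Unit → CI →⋆ₐ[ℂ] A} (hF : FSG φ σ)
    (hx : star (σ (some ()) (cs s)) = σ (some ()) (cs s))
    (hy : star (σ none (cs s)) = σ none (cs s)) (δ : ℝ) (hδ : 0 < δ) :
    ∃ K ∈ LL (σ (some ()) (cs s)) (σ none (cs s)),
      ‖Complex.I • (σ (some ()) (cs s) * K - K * σ (some ()) (cs s)) - σ none (cs s)‖ ≤ δ := by
  obtain ⟨T, hT⟩ := exists_nat_gt ((4 / δ) ^ 2 + 1)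
  have hT1 : (1 : ℝ) < T := by nlinarith [sq_nonneg (4 / δ)]
  have hT0 : 0 < T := by
    have : (0 : ℝ) < T := by linarith
    exact_mod_cast this
  obtain ⟨K, hK, e⟩ := hINT A _ _ hx hy (T : ℝ) (by linarith)
  refine ⟨K, hK, ?_⟩
  rw [e]
  have := hAVG s hs A φ σ hF T hT0
  rw [sub_sub_cancel_left, norm_neg]
  refine this.trans ?_
  have h4 : 4 / δ ≤ Real.sqrt (2 * T) := by
    apply Real.le_sqrt_of_sq_le
    linarith
  have hs0 : 0 < Real.sqrt (2 * T) := Real.sqrt_pos.2 (by linarith)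
  rw [div_le_iff₀ hs0]
  rw [div_le_iff₀ hδ] at h4
  linarith

/-- one step -/
theorem step (hLIE : S_LIE) (hINT : S_INT) (hAVG : S_AVG) (hSCL : S_SCL) (hROT : S_ROT)
    (hSCH : S_SCH) (hEX : S_EX) (hSC0 : S_SC0) {s : C(unitInterval, ℝ)} (hs : SCf s)
    {A : Type} [CStarAlgebra A] {φ : TrSt A} {σ : Option Unit → CI →⋆ₐ[ℂ] A} (hF : FSG φ σ)
    (δ : ℝ) (hδ : 0 < δ) :
    ∃ C : ℝ, 0 ≤ C ∧ ∀ θ D : ℝ, 0 ≤ D → D ≤ 1 → ∃ W ∈ GG (σ (some ()) (cs s)) (σ none (cs s)),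
      ‖W * zz (σ (some ()) (cs s)) (σ none (cs s)) θ * star W -
        zz (σ (some ()) (cs s)) (σ none (cs s)) (θ + D)‖ ≤ D * δ + C * D ^ 2 := by
  obtain ⟨-, -, -, -, hS0⟩ := hSC0 s hs
  obtain ⟨hx, hx1⟩ := hS0 A (σ (some ()))
  obtain ⟨hy, hy1⟩ := hS0 A (σ none)
  obtain ⟨K, hK, hKδ⟩ := exK hINT hAVG hs hF hx hy δ hδ
  have hSL := hSCL (Option Unit) s hs A φ σ hF.sys
  set x := σ (some ()) (cs s) with hxd
  set y := σ none (cs s) with hyd
  obtain ⟨⟨hxL, hyL⟩, hadd, hsmul, -, -, hun, -, -, hsub, hmap⟩ := hLIE A x y hx hy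
  refine ⟨4 * ‖K‖ ^ 2 + 2 * (‖K‖ + ‖K‖ ^ 2) ^ 2 + 4, by positivity, ?_⟩
  intro θ D hD hD1
  have hrot := hROT (Option Unit) A φ _ hSL (rot θ) (rot_mul θ)
  obtain ⟨Φ, hΦn, -, hΦ⟩ := hSCH (Option Unit) s hs A A φ φ σ _ hF hF.fai hrot
  have hΦx : Φ x = zz x y θ := by
    rw [hxd, hΦ, Fintype.sum_option, Fintype.sum_unique]
    exact add_comm _ _
  have hΦy : Φ y = ss x y θ := by
    rw [hyd, hΦ, Fintype.sum_option, Fintype.sum_unique]
    exact add_comm _ _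
  have hzL : zz x y θ ∈ LL x y := hadd _ (hsmul _ _ hxL) _ (hsmul _ _ hyL)
  have hsL : ss x y θ ∈ LL x y := hadd _ (hsmul _ _ hxL) _ (hsmul _ _ hyL)
  have hKs : star (Φ K) = Φ K := by rw [← map_star, hK.1]
  have hKG : ∀ r : ℝ, ex r (Φ K) ∈ GG x y := by
    intro r
    obtain ⟨-, -, -, -, -, -, -, -, -, hm, -⟩ := hEX A K K hK.1 hK.1
    rw [← hm A Φ r]
    apply hsub _ hzL _ hsL
    rw [← hΦx, ← hΦy]
    exact hmap A Φ _ (hK.2 r)
  refine ⟨ex (-D) (Φ K), hKG _, ?_⟩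
  have hst : star (ex (-D) (Φ K)) = ex D (Φ K) := by
    obtain ⟨-, hst, -⟩ := hEX A (Φ K) (Φ K) hKs hKs
    rw [hst, neg_neg]
  rw [hst]
  have e1 := conj_est hEX (Φ K) (zz x y θ) hKs ‖K‖ D (hΦn K).le (zz_norm x y hx1 hy1 θ) hD hD1
  have e2 := zz_est x y hx1 hy1 θ D hD hD1
  have e3 : ‖(D : ℂ) • (Complex.I • (zz x y θ * Φ K - Φ K * zz x y θ)) - (D : ℂ) • ss x y θ‖ ≤
      D * δ := by
    rw [← smul_sub, norm_smul, Complex.norm_real, Real.norm_of_nonneg hD]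
    refine mul_le_mul_of_nonneg_left ?_ hD
    rw [← hΦx, ← hΦy, ← map_mul, ← map_mul, ← map_sub, ← map_smul, ← map_sub, hΦn]
    exact hKδ
  have e4 : ex (-D) (Φ K) * zz x y θ * ex D (Φ K) - zz x y (θ + D) =
      (ex (-D) (Φ K) * zz x y θ * ex D (Φ K) - zz x y θ -
        (D : ℂ) • (Complex.I • (zz x y θ * Φ K - Φ K * zz x y θ))) +
      ((D : ℂ) • (Complex.I • (zz x y θ * Φ K - Φ K * zz x y θ)) - (D : ℂ) • ss x y θ) -
      (zz x y (θ + D) - zz x y θ - (D : ℂ) • ss x y θ) := by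
    abel
  rw [e4]
  refine (norm_sub_le _ _).trans ?_
  have e5 := norm_add_le (ex (-D) (Φ K) * zz x y θ * ex D (Φ K) - zz x y θ -
        (D : ℂ) • (Complex.I • (zz x y θ * Φ K - Φ K * zz x y θ)))
      ((D : ℂ) • (Complex.I • (zz x y θ * Φ K - Φ K * zz x y θ)) - (D : ℂ) • ss x y θ)
  nlinarith

/-- several steps -/
theorem steps (hLIE : S_LIE) (hINT : S_INT) (hAVG : S_AVG) (hSCL : S_SCL) (hROT : S_ROT)
    (hSCH : S_SCH) (hEX : S_EX) (hSC0 : S_SC0) {s : C(unitInterval, ℝ)} (hs : SCf s)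
    {A : Type} [CStarAlgebra A] {φ : TrSt A} {σ : Option Unit → CI →⋆ₐ[ℂ] A} (hF : FSG φ σ)
    (δ : ℝ) (hδ : 0 < δ) :
    ∃ C : ℝ, 0 ≤ C ∧ ∀ D : ℝ, 0 ≤ D → D ≤ 1 → ∀ n : ℕ,
      ∃ V ∈ GG (σ (some ()) (cs s)) (σ none (cs s)),
      ‖V * σ (some ()) (cs s) * star V -
        zz (σ (some ()) (cs s)) (σ none (cs s)) (n * D)‖ ≤ n * (D * δ + C * D ^ 2) := by
  obtain ⟨C, hC, h⟩ := step hLIE hINT hAVG hSCL hROT hSCH hEX hSC0 hs hF δ hδ
  refine ⟨C, hC, fun D hD hD1 n => ?_⟩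
  obtain ⟨-, -, -, -, hS0⟩ := hSC0 s hs
  obtain ⟨hx, hx1⟩ := hS0 A (σ (some ()))
  obtain ⟨hy, hy1⟩ := hS0 A (σ none)
  set x := σ (some ()) (cs s) with hxd
  set y := σ none (cs s) with hyd
  obtain ⟨-, -, -, -, -, hun, hone, hmul, -, -⟩ := hLIE A x y hx hy
  induction n with
  | zero =>
    refine ⟨1, hone, ?_⟩
    simp [zz]
  | succ n ih =>
    obtain ⟨V, hV, hVe⟩ := ih
    obtain ⟨W, hW, hWe⟩ := h (n * D) D hD hD1
    refine ⟨W * V, hmul _ hW _ hV, ?_⟩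
    have hWu := hun W hW
    have e : W * V * x * star (W * V) - zz x y (((n + 1 : ℕ) : ℝ) * D) =
        W * (V * x * star V - zz x y (n * D)) * star W +
        (W * zz x y (n * D) * star W - zz x y (n * D + D)) := by
      have : ((n + 1 : ℕ) : ℝ) * D = n * D + D := by push_cast; ring
      rw [this, star_mul]
      noncomm_ring
    rw [e]
    refine (norm_add_le _ _).trans ?_
    have e1 : ‖W * (V * x * star V - zz x y (n * D)) * star W‖ ≤ n * (D * δ + C * D ^ 2) := by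
      have hWs : star W ∈ unitary A := Unitary.star_mem hWu
      rw [CStarRing.norm_mul_mem_unitary _ hWs, CStarRing.norm_mem_unitary_mul _ hWu]
      exact hVe
    push_cast
    linarith

end VLA

/-- existence of `V` -/
theorem t_VLA (h1 : S_LIE) (h2 : S_INT) (h3 : S_AVG) (h4 : S_SCL) (h5 : S_ROT) (h6 : S_SCH)
    (h7 : S_EX) (h8 : S_SC0) : S_VLA := by
  intro s hs A _ φ σ hF ε hε
  obtain ⟨C, hC, h⟩ := VLA.steps h1 h2 h3 h4 h5 h6 h7 h8 hs hF (ε / 4) (by linarith)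
  obtain ⟨n, hn⟩ := exists_nat_gt (16 * C / ε + 2)
  have hpi : Real.pi / 2 ≤ 2 := by linarith [Real.pi_le_four]
  have hpi0 := Real.pi_pos
  have hCε : 0 ≤ 16 * C / ε := by positivity
  have hn0 : (0 : ℝ) < n := by linarith
  have hnD : (n : ℝ) * (Real.pi / 2 / n) = Real.pi / 2 := by field_simp
  obtain ⟨V, hV, hVe⟩ := h (Real.pi / 2 / n) (by positivity) (by
    rw [div_le_one hn0]
    linarith) n
  refine ⟨V, hV, ?_⟩
  rw [hnD] at hVe
  have hz : VLA.zz (σ (some ()) (cs s)) (σ none (cs s)) (Real.pi / 2) = σ none (cs s) := by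
    simp [VLA.zz]
  rw [hz] at hVe
  refine hVe.trans_lt ?_
  have e1 : (n : ℝ) * (Real.pi / 2 / n * (ε / 4) + C * (Real.pi / 2 / n) ^ 2) =
      (Real.pi / 2) * (ε / 4) + C * (Real.pi / 2) ^ 2 / n := by
    field_simp
  rw [e1]
  have e2 : C * (Real.pi / 2) ^ 2 / n < ε / 2 := by
    rw [div_lt_iff₀ hn0]
    have h16 : 16 * C / ε < n := by linarith
    rw [div_lt_iff₀ hε] at h16
    have h5 : (Real.pi / 2) ^ 2 ≤ 4 := by nlinarith
    nlinarith [mul_le_mul_of_nonneg_left h5 hC]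
  nlinarith

end Pool.Agent.H308R2.CF
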