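import Pool.Agent.H308R2.CF.Stubs

/-! The unitary `W = e^{t(D - i·h)} 1`. -/

set_option autoImplicit false

namespace Pool.Agent.H308R2.CF

open Pool.Agent.H770R2.UL (TrSt n2)
open Pool.Agent.H581R.FF (GR bs ev jj vv kk act)
open scoped ComplexConjugate
open Finset

namespace TW

/-- norm of an evaluation of a word -/
lemma norm_word {X A : Type} [CStarAlgebra A] (e : X → A) (he : ∀ x, ‖e x‖ ≤ 1)
    (w : FreeMonoid X) : ‖FreeMonoid.lift e w‖ ≤ 1 := by
  have h1 : ‖(1 : A)‖ ≤ 1 := by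
    rcases subsingleton_or_nontrivial A with h | h
    · rw [Subsingleton.elim (1 : A) 0]; simp
    · rw [CStarRing.norm_one]
  induction w using FreeMonoid.inductionOn' with
  | one => simpa using h1
  | of_mul x w ih =>
    rw [map_mul, FreeMonoid.lift_eval_of]
    refine (norm_mul_le _ _).trans ?_
    calc ‖e x‖ * ‖FreeMonoid.lift e w‖ ≤ 1 * 1 :=
        mul_le_mul (he x) ih (norm_nonneg _) zero_le_one
      _ = 1 := one_mul 1

lemma norm_fev_le {X A : Type} [CStarAlgebra A] (e : X → A) (he : ∀ x, ‖e x‖ ≤ 1)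
    (f : FA X) : ‖fev e f‖ ≤ fl1 f := by
  unfold fev fl1
  rw [MonoidAlgebra.lift_apply, Finsupp.sum]
  refine (norm_sum_le _ _).trans (Finset.sum_le_sum fun w _ => ?_)
  rw [norm_smul]
  calc ‖f.coeff w‖ * ‖FreeMonoid.lift e w‖ ≤ ‖f.coeff w‖ * 1 :=
      mul_le_mul_of_nonneg_left (norm_word e he w) (norm_nonneg _)
    _ = _ := mul_one _

/-- the combinatorial identity behind the product rule -/
lemma conv_succ {R : Type} [Ring R] [Algebra ℂ R] (β α : ℕ → R) (n : ℕ) :
    ((n + 1 : ℕ) : ℂ) • ∑ p ∈ antidiagonal (n + 1), β p.1 * α p.2 =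
      ∑ p ∈ antidiagonal n, (((p.1 + 1 : ℕ) : ℂ) • β (p.1 + 1)) * α p.2 +
      ∑ p ∈ antidiagonal n, β p.1 * (((p.2 + 1 : ℕ) : ℂ) • α (p.2 + 1)) := by
  have h1 : ((n + 1 : ℕ) : ℂ) • ∑ p ∈ antidiagonal (n + 1), β p.1 * α p.2 =
      ∑ p ∈ antidiagonal (n + 1), (((p.1 : ℕ) : ℂ) • β p.1) * α p.2 +
      ∑ p ∈ antidiagonal (n + 1), β p.1 * (((p.2 : ℕ) : ℂ) • α p.2) := by
    rw [Finset.smul_sum, ← Finset.sum_add_distrib]
    refine Finset.sum_congr rfl fun p hp => ?_
    have hp' : p.1 + p.2 = n + 1 := mem_antidiagonal.1 hp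
    rw [← hp', smul_mul_assoc, mul_smul_comm, ← add_smul]
    push_cast
    rfl
  rw [h1, Finset.Nat.sum_antidiagonal_succ, Finset.Nat.sum_antidiagonal_succ']
  simp

/-- the coefficients `b_n / n!` -/
noncomputable def bet {X : Type} (D : FA X →ₗ[ℂ] FA X) (h : FA X) (n : ℕ) : FA X :=
  ((n.factorial : ℂ))⁻¹ • (DD D h)^[n] 1

/-- the coefficients `a_n / n!` -/
noncomputable def alp {X : Type} (τ : X → X) (D : FA X →ₗ[ℂ] FA X) (h : FA X) (n : ℕ) : FA X :=
  fst τ (bet D h n)

lemma bet_succ {X : Type} (D : FA X →ₗ[ℂ] FA X) (h : FA X) (n : ℕ) :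
    ((n + 1 : ℕ) : ℂ) • bet D h (n + 1) = D (bet D h n) - Complex.I • (bet D h n * h) := by
  have hn : ((n + 1 : ℕ) : ℂ) ≠ 0 := by exact_mod_cast Nat.succ_ne_zero n
  have e1 : ((n + 1 : ℕ) : ℂ) • bet D h (n + 1) = ((n.factorial : ℂ))⁻¹ • (DD D h)^[n + 1] 1 := by
    unfold bet
    rw [smul_smul, Nat.factorial_succ]
    congr 1
    push_cast
    have hn' : (n : ℂ) + 1 ≠ 0 := by exact_mod_cast hn
    field_simp
  rw [e1, Function.iterate_succ_apply']
  unfold bet
  rw [← map_smul]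
  unfold DD
  simp only [LinearMap.sub_apply, LinearMap.smul_apply, LinearMap.mulRight_apply, map_smul,
    smul_sub, smul_mul_assoc]
  rw [smul_comm Complex.I]

variable {X : Type} {τ : X → X} {D : FA X →ₗ[ℂ] FA X} {h : FA X} {K : ℝ}

lemma D_one (hL : FLeib D) : D 1 = 0 := by
  have := hL 1 1
  rw [mul_one, mul_one, one_mul] at this
  have h2 : D 1 + 0 = D 1 + D 1 := by rw [add_zero]; exact this
  exact (add_left_cancel h2).symm

lemma alp_succ (hF : S_FST) (hD : FData τ D h K) (n : ℕ) :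
    ((n + 1 : ℕ) : ℂ) • alp τ D h (n + 1) =
      D (alp τ D h n) + Complex.I • (h * alp τ D h n) := by
  obtain ⟨f1, f2, f3, f4, f5, f6, f7, _⟩ := hF X τ hD.inv
  have h1 : fst τ (((n + 1 : ℕ) : ℂ) • bet D h (n + 1)) =
      ((n + 1 : ℕ) : ℂ) • alp τ D h (n + 1) := by
    rw [f3]; simp [alp]
  rw [← h1, bet_succ, sub_eq_add_neg, ← neg_smul, f1, f3, f2, hD.hst, ← hD.dst]
  simp [alp]

lemma T_succ (hF : S_FST) (hD : FData τ D h K) (n : ℕ) :
    ((n + 1 : ℕ) : ℂ) • ∑ p ∈ antidiagonal (n + 1), bet D h p.1 * alp τ D h p.2 =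
      D (∑ p ∈ antidiagonal n, bet D h p.1 * alp τ D h p.2) := by
  rw [conv_succ, ← Finset.sum_add_distrib, map_sum]
  refine Finset.sum_congr rfl fun p _ => ?_
  rw [bet_succ, alp_succ hF hD, hD.leib, sub_mul, mul_add, smul_mul_assoc, mul_smul_comm,
    ← mul_assoc]
  abel

lemma S_succ (hF : S_FST) (hD : FData τ D h K) (n : ℕ) :
    ((n + 1 : ℕ) : ℂ) • ∑ p ∈ antidiagonal (n + 1), alp τ D h p.1 * bet D h p.2 =
      D (∑ p ∈ antidiagonal n, alp τ D h p.1 * bet D h p.2) +
      Complex.I • (h * (∑ p ∈ antidiagonal n, alp τ D h p.1 * bet D h p.2) -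
        (∑ p ∈ antidiagonal n, alp τ D h p.1 * bet D h p.2) * h) := by
  rw [conv_succ, ← Finset.sum_add_distrib, map_sum, Finset.mul_sum, Finset.sum_mul,
    ← Finset.sum_sub_distrib, Finset.smul_sum, ← Finset.sum_add_distrib]
  refine Finset.sum_congr rfl fun p _ => ?_
  rw [bet_succ, alp_succ hF hD, hD.leib, add_mul, mul_sub, smul_mul_assoc, mul_smul_comm,
    smul_sub, ← mul_assoc, mul_assoc h]
  abel

lemma bet_zero : bet D h 0 = 1 := by simp [bet]

lemma alp_zero (hF : S_FST) (hD : FData τ D h K) : alp τ D h 0 = 1 := by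
  obtain ⟨f1, f2, f3, f4, f5, f6, f7, _⟩ := hF X τ hD.inv
  unfold alp
  rw [bet_zero, f6]

lemma T_zero (hF : S_FST) (hD : FData τ D h K) (n : ℕ) :
    ∑ p ∈ antidiagonal (n + 1), bet D h p.1 * alp τ D h p.2 = 0 := by
  have hn : ∀ n : ℕ, ((n + 1 : ℕ) : ℂ) ≠ 0 := fun n => by exact_mod_cast Nat.succ_ne_zero n
  induction n with
  | zero =>
    have := T_succ hF hD 0
    rw [Finset.Nat.antidiagonal_zero, Finset.sum_singleton, bet_zero, alp_zero hF hD, mul_one,
      D_one hD.leib] at this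
    exact (smul_eq_zero.1 this).resolve_left (hn 0)
  | succ n ih =>
    have := T_succ hF hD (n + 1)
    rw [ih, map_zero] at this
    exact (smul_eq_zero.1 this).resolve_left (hn _)

lemma S_zero (hF : S_FST) (hD : FData τ D h K) (n : ℕ) :
    ∑ p ∈ antidiagonal (n + 1), alp τ D h p.1 * bet D h p.2 = 0 := by
  have hn : ∀ n : ℕ, ((n + 1 : ℕ) : ℂ) ≠ 0 := fun n => by exact_mod_cast Nat.succ_ne_zero n
  induction n with
  | zero =>
    have := S_succ hF hD 0
    rw [Finset.Nat.antidiagonal_zero, Finset.sum_singleton, bet_zero, alp_zero hF hD, mul_one,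
      D_one hD.leib, mul_one, one_mul, sub_self, smul_zero, add_zero] at this
    exact (smul_eq_zero.1 this).resolve_left (hn 0)
  | succ n ih =>
    have := S_succ hF hD (n + 1)
    rw [ih, map_zero, mul_zero, zero_mul, sub_self, smul_zero, add_zero] at this
    exact (smul_eq_zero.1 this).resolve_left (hn _)

end TW

open TW in
theorem t_W (hF : S_FST) : S_W := by
  intro X A _ τ D h K t e hD hE ht
  obtain ⟨f1, f2, f3, f4, f5, f6, f7, f8⟩ := hF X τ hD.inv
  have hK := hD.Kpos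
  -- terms of the series
  set B : ℕ → A := fun n => ((t : ℂ) ^ n) • fev e (bet D h n) with hB
  set C : ℕ → A := fun n => ((t : ℂ) ^ n) • fev e (alp τ D h n) with hC
  set x : ℝ := |t| * K with hx
  have hx0 : 0 ≤ x := by positivity
  have hterm : ∀ n, ((t : ℂ) ^ n / (n.factorial : ℂ)) • fev e ((DD D h)^[n] 1) = B n := by
    intro n
    simp only [hB, bet, map_smul, smul_smul, div_eq_mul_inv]
  have hCs : ∀ n, C n = star (B n) := by
    intro n
    simp only [hC, hB, alp, star_smul]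
    rw [f8 A e hE.str]
    congr 1
    simp
  have hBn : ∀ n, ‖B n‖ ≤ x ^ n := by
    intro n
    rw [← hterm n, norm_smul, norm_div, norm_pow, Complex.norm_real, Real.norm_eq_abs,
      Complex.norm_natCast]
    have h1 := (norm_fev_le e hE.nrm ((DD D h)^[n] 1)).trans (hD.bDD n 1)
    have h2 : (2 : ℝ) ^ (FreeMonoid.length (1 : FreeMonoid X)) = 1 := by simp
    rw [h2, mul_one] at h1
    have hn : (0 : ℝ) < (n.factorial : ℝ) := by exact_mod_cast n.factorial_pos
    calc |t| ^ n / (n.factorial : ℝ) * ‖fev e ((DD D h)^[n] 1)‖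
        ≤ |t| ^ n / (n.factorial : ℝ) * (n.factorial * K ^ n) := by gcongr
      _ = x ^ n := by rw [hx, mul_pow]; field_simp
  have hBs : Summable fun n => ‖B n‖ :=
    Summable.of_nonneg_of_le (fun n => norm_nonneg _) hBn
      (summable_geometric_of_lt_one hx0 (by linarith))
  have hCsum : Summable fun n => ‖C n‖ := by
    refine hBs.congr fun n => ?_
    rw [hCs, norm_star]
  set W : A := ∑' n, B n with hW
  have hWs : HasSum B W := hBs.of_norm.hasSum
  have hWst : star W = ∑' n, C n := by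
    have : HasSum (fun n => star (B n)) (star W) := hWs.star
    rw [← this.tsum_eq]
    exact tsum_congr fun n => (hCs n).symm
  have hWW : W * star W = 1 := by
    rw [hWst, hW, tsum_mul_tsum_eq_tsum_sum_antidiagonal_of_summable_norm hBs hCsum]
    have : ∀ n, ∑ kl ∈ antidiagonal n, B kl.1 * C kl.2 = if n = 0 then 1 else 0 := by
      intro n
      have e1 : ∑ kl ∈ antidiagonal n, B kl.1 * C kl.2 =
          ((t : ℂ) ^ n) • fev e (∑ p ∈ antidiagonal n, bet D h p.1 * alp τ D h p.2) := by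
        rw [map_sum, Finset.smul_sum]
        refine Finset.sum_congr rfl fun p hp => ?_
        rw [← mem_antidiagonal.1 hp, pow_add, map_mul]
        simp only [hB, hC, smul_mul_smul_comm]
      rw [e1]
      rcases n with _ | n
      · rw [Finset.Nat.antidiagonal_zero, Finset.sum_singleton, bet_zero, alp_zero hF hD]
        simp
      · rw [T_zero hF hD]; simp
    simp_rw [this]
    rw [tsum_ite_eq]
  have hWW' : star W * W = 1 := by
    rw [hWst, hW, tsum_mul_tsum_eq_tsum_sum_antidiagonal_of_summable_norm hCsum hBs]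
    have : ∀ n, ∑ kl ∈ antidiagonal n, C kl.1 * B kl.2 = if n = 0 then 1 else 0 := by
      intro n
      have e1 : ∑ kl ∈ antidiagonal n, C kl.1 * B kl.2 =
          ((t : ℂ) ^ n) • fev e (∑ p ∈ antidiagonal n, alp τ D h p.1 * bet D h p.2) := by
        rw [map_sum, Finset.smul_sum]
        refine Finset.sum_congr rfl fun p hp => ?_
        rw [← mem_antidiagonal.1 hp, pow_add, map_mul]
        simp only [hB, hC, smul_mul_smul_comm]
      rw [e1]
      rcases n with _ | n
      · rw [Finset.Nat.antidiagonal_zero, Finset.sum_singleton, bet_zero, alp_zero hF hD]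
        simp
      · rw [S_zero hF hD]; simp
    simp_rw [this]
    rw [tsum_ite_eq]
  refine ⟨⟨W, Unitary.mem_iff.2 ⟨hWW', hWW⟩⟩, ?_, ?_⟩
  · show HasSum _ W
    have : (fun n : ℕ => ((t : ℂ) ^ n / (n.factorial : ℂ)) • fev e ((DD D h)^[n] 1)) = B :=
      funext hterm
    rw [this]
    exact hWs
  · show ‖W - 1‖ ≤ _
    have hB0 : B 0 = 1 := by simp [hB, bet_zero]
    have hB1 : ‖B 1‖ = |t| * ‖fev e h‖ := by
      have : bet D h 1 = -(Complex.I • h) := by
        simp only [bet, Function.iterate_one, DD, LinearMap.sub_apply, LinearMap.smul_apply]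
        rw [D_one hD.leib]
        simp
      simp only [hB, this, map_neg, map_smul, pow_one, norm_smul, norm_neg, Complex.norm_I,
        Complex.norm_real, Real.norm_eq_abs, one_mul]
    have h2 : HasSum (fun n => B (n + 2)) (W - ∑ i ∈ range 2, B i) := by
      rw [hasSum_nat_add_iff' 2]; exact hWs
    have h3 : ‖W - ∑ i ∈ range 2, B i‖ ≤ x ^ 2 / (1 - x) := by
      rw [← h2.tsum_eq]
      have hg : HasSum (fun n : ℕ => x ^ 2 * x ^ n) (x ^ 2 * (1 - x)⁻¹) :=
        (hasSum_geometric_of_lt_one hx0 (by linarith)).mul_left _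
      rw [div_eq_mul_inv]
      refine tsum_of_norm_bounded hg fun n => ?_
      have := hBn (n + 2)
      calc ‖B (n + 2)‖ ≤ x ^ (n + 2) := this
        _ = x ^ 2 * x ^ n := by ring
    rw [Finset.sum_range_succ, Finset.sum_range_one, hB0] at h3
    have h4 : ‖W - 1‖ ≤ ‖W - (1 + B 1)‖ + ‖B 1‖ := by
      calc ‖W - 1‖ = ‖(W - (1 + B 1)) + B 1‖ := by congr 1; abel
        _ ≤ _ := norm_add_le _ _
    have h5 : x ^ 2 / (1 - x) ≤ 2 * K ^ 2 * t ^ 2 := by
      rw [div_le_iff₀ (by linarith)]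
      have : x ^ 2 = K ^ 2 * t ^ 2 := by rw [hx, mul_pow, sq_abs]; ring
      have h0 : 0 ≤ K ^ 2 * t ^ 2 := by positivity
      rw [this]
      nlinarith
    rw [hB1] at h4
    linarith

end Pool.Agent.H308R2.CF
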