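import Pool.Agent.H308R2.CF.Stubs

/-! Task WADJ: letters with `D x = i(xh - hx)` are conjugated by `W`. -/

set_option autoImplicit false

namespace Pool.Agent.H308R2.CF

theorem wadj_fev_lt {X A : Type} [Ring A] [Algebra ℂ A] (e : X → A) (x : X) :
    fev e (lt x) = e x := by
  unfold fev lt wd
  rw [MonoidAlgebra.lift_single]
  simp

theorem wadj_step {X : Type} {D : FA X →ₗ[ℂ] FA X} (hD : FLeib D) (h : FA X) {x : X}
    (hx : D (lt x) = Complex.I • (lt x * h - h * lt x)) (b : FA X) :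
    DD D h (b * lt x) = DD D h b * lt x := by
  have e1 : ∀ g : FA X, DD D h g = D g - Complex.I • (g * h) := fun g => rfl
  rw [e1, e1, hD, hx, mul_smul_comm, sub_mul, smul_mul_assoc, mul_sub, smul_sub, mul_assoc b h,
    mul_assoc b (lt x) h]
  abel

theorem wadj_iter {X : Type} {D : FA X →ₗ[ℂ] FA X} (hD : FLeib D) (h : FA X) {x : X}
    (hx : D (lt x) = Complex.I • (lt x * h - h * lt x)) (n : ℕ) (b : FA X) :
    (DD D h)^[n] (b * lt x) = (DD D h)^[n] b * lt x := by
  induction n generalizing b with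
  | zero => rfl
  | succ n ih =>
    rw [Function.iterate_succ_apply, Function.iterate_succ_apply, wadj_step hD h hx, ih]

theorem t_WADJ (hWMUL : S_WMUL) : S_WADJ := by
  intro X A _ D h K t e e' W hD hK hFB hFB' he ht hfl hW x hx
  have h1 := hWMUL X A D h K t e e' W hD hK hFB hFB' he ht hfl hW (lt x)
  rw [wadj_fev_lt] at h1
  have h2 : HasSum (fun n : ℕ => (((t : ℂ) ^ n / (n.factorial : ℂ)) • fev e ((DD D h)^[n] 1)) *
      e x) (W * e x) := HasSum.mul_right (e x) hW
  have h3 : (fun n : ℕ => ((t : ℂ) ^ n / (n.factorial : ℂ)) • fev e ((DD D h)^[n] (lt x))) =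
      fun n : ℕ => (((t : ℂ) ^ n / (n.factorial : ℂ)) • fev e ((DD D h)^[n] 1)) * e x := by
    funext n
    have e1 : (DD D h)^[n] (lt x) = (DD D h)^[n] 1 * lt x := by
      have := wadj_iter hD h hx n 1
      rwa [one_mul] at this
    rw [e1, map_mul, wadj_fev_lt, smul_mul_assoc]
  rw [h3] at h1
  exact h1.unique h2

end Pool.Agent.H308R2.CF
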