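import Pool.Agent.H308R2.CF.Stubs

namespace Pool.Agent.H308R2.CF

open Pool.Agent.H770R2.UL (TrSt n2)
open Pool.Agent.H581R.FF (GR bs ev jj vv kk act)

theorem WMUL_fl1_single {X : Type} (w : FreeMonoid X) (c : ℂ) :
    fl1 (MonoidAlgebra.single w c : FA X) = ‖c‖ := by
  unfold fl1
  rw [MonoidAlgebra.coeff_single]
  rw [Finset.sum_subset (Finsupp.support_single_subset (a := w) (b := c))]
  · simp
  · intro v _ hv
    rw [Finsupp.notMem_support_iff] at hv
    rw [hv, norm_zero]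

theorem WMUL_fl1_eq {X : Type} (f : FA X) (s : Finset (FreeMonoid X)) (hs : f.coeff.support ⊆ s) :
    fl1 f = ∑ w ∈ s, ‖f.coeff w‖ := by
  unfold fl1
  apply Finset.sum_subset hs
  intro w _ hw
  rw [Finsupp.notMem_support_iff] at hw
  rw [hw, norm_zero]

theorem WMUL_fl1_add {X : Type} (f g : FA X) : fl1 (f + g) ≤ fl1 f + fl1 g := by
  classical
  rw [WMUL_fl1_eq (f + g) (f.coeff.support ∪ g.coeff.support) (by
      rw [MonoidAlgebra.coeff_add]; exact Finsupp.support_add),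
    WMUL_fl1_eq f (f.coeff.support ∪ g.coeff.support) Finset.subset_union_left,
    WMUL_fl1_eq g (f.coeff.support ∪ g.coeff.support) Finset.subset_union_right,
    ← Finset.sum_add_distrib]
  refine Finset.sum_le_sum fun w _ => ?_
  rw [MonoidAlgebra.coeff_add, Finsupp.add_apply]
  exact norm_add_le _ _

theorem WMUL_fl1_smul {X : Type} (c : ℂ) (f : FA X) : fl1 (c • f) ≤ ‖c‖ * fl1 f := by
  classical
  rw [WMUL_fl1_eq (c • f) f.coeff.support (by
      rw [MonoidAlgebra.coeff_smul]; exact Finsupp.support_smul)]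
  unfold fl1
  rw [Finset.mul_sum]
  refine Finset.sum_le_sum fun w _ => ?_
  rw [MonoidAlgebra.coeff_smul, Finsupp.smul_apply, smul_eq_mul, norm_mul]

theorem WMUL_fl1_zero {X : Type} : fl1 (0 : FA X) = 0 := by
  unfold fl1
  simp

theorem WMUL_fl1_sum {X ι : Type} (s : Finset ι) (F : ι → FA X) :
    fl1 (∑ i ∈ s, F i) ≤ ∑ i ∈ s, fl1 (F i) := by
  classical
  induction s using Finset.induction_on with
  | empty => simp [WMUL_fl1_zero]
  | insert a s ha ih =>
    rw [Finset.sum_insert ha, Finset.sum_insert ha]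
    exact (WMUL_fl1_add _ _).trans (by linarith)

theorem WMUL_expand {X : Type} (f : FA X) : f = ∑ w ∈ f.coeff.support, f.coeff w • wd w := by
  have h : f = f.coeff.sum fun w c => MonoidAlgebra.single w c :=
    (MonoidAlgebra.sum_coeff_single f).symm
  conv_lhs => rw [h]
  unfold Finsupp.sum
  refine Finset.sum_congr rfl fun w _ => ?_
  rw [MonoidAlgebra.smul_single, smul_eq_mul, mul_one]

theorem WMUL_one_le (A : Type) [CStarAlgebra A] : ‖(1 : A)‖ ≤ 1 := by
  have h : ‖(1 : A)‖ = ‖(1 : A)‖ * ‖(1 : A)‖ := by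
    have := CStarRing.norm_star_mul_self (x := (1 : A))
    rwa [star_one, one_mul] at this
  by_contra hlt
  push Not at hlt
  nlinarith

theorem WMUL_lift_le {X A : Type} [CStarAlgebra A] (e : X → A) (he : ∀ x, ‖e x‖ ≤ 1)
    (w : FreeMonoid X) : ‖FreeMonoid.lift e w‖ ≤ 1 := by
  induction w using FreeMonoid.recOn with
  | one => rw [map_one]; exact WMUL_one_le A
  | of_mul x w ih =>
    rw [map_mul, FreeMonoid.lift_eval_of]
    calc ‖e x * FreeMonoid.lift e w‖ ≤ ‖e x‖ * ‖FreeMonoid.lift e w‖ := norm_mul_le _ _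
      _ ≤ 1 * 1 := mul_le_mul (he x) ih (norm_nonneg _) zero_le_one
      _ = 1 := mul_one 1

theorem WMUL_fev_wd {X A : Type} [CStarAlgebra A] (e : X → A) (w : FreeMonoid X) :
    fev e (wd w) = FreeMonoid.lift e w := by
  unfold fev
  rw [MonoidAlgebra.lift_single, one_smul]

theorem WMUL_fev_le {X A : Type} [CStarAlgebra A] (e : X → A) (he : ∀ x, ‖e x‖ ≤ 1)
    (f : FA X) : ‖fev e f‖ ≤ fl1 f := by
  conv_lhs => rw [WMUL_expand f]
  rw [map_sum]
  refine (norm_sum_le _ _).trans ?_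
  unfold fl1
  refine Finset.sum_le_sum fun w _ => ?_
  rw [map_smul, norm_smul, WMUL_fev_wd]
  calc ‖f.coeff w‖ * ‖FreeMonoid.lift e w‖ ≤ ‖f.coeff w‖ * 1 :=
        mul_le_mul_of_nonneg_left (WMUL_lift_le e he w) (norm_nonneg _)
    _ = _ := mul_one _

theorem WMUL_iter {X : Type} (T : FA X →ₗ[ℂ] FA X) (n : ℕ) (f : FA X) :
    T^[n] f = (T ^ n) f := by
  rw [Module.End.pow_apply]

theorem WMUL_bound {X : Type} (T : FA X →ₗ[ℂ] FA X) (K : ℝ) (hT : FB T K) (f : FA X) :
    ∃ M : ℝ, 0 ≤ M ∧ ∀ n : ℕ, fl1 (T^[n] f) ≤ n.factorial * K ^ n * M := by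
  refine ⟨∑ w ∈ f.coeff.support, ‖f.coeff w‖ * 2 ^ w.length,
    Finset.sum_nonneg fun w _ => by positivity, fun n => ?_⟩
  have h1 : T^[n] f = ∑ w ∈ f.coeff.support, f.coeff w • T^[n] (wd w) := by
    rw [WMUL_iter]
    conv_lhs => rw [WMUL_expand f]
    rw [map_sum]
    refine Finset.sum_congr rfl fun w _ => ?_
    rw [map_smul, WMUL_iter]
  rw [h1, Finset.mul_sum]
  refine (WMUL_fl1_sum _ _).trans (Finset.sum_le_sum fun w _ => ?_)
  refine (WMUL_fl1_smul _ _).trans ?_
  have h2 := mul_le_mul_of_nonneg_left (hT n w) (norm_nonneg (f.coeff w))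
  refine h2.trans (le_of_eq ?_)
  ring

theorem WMUL_summable {X A : Type} [CStarAlgebra A] (e : X → A) (he : ∀ x, ‖e x‖ ≤ 1)
    (T : FA X →ₗ[ℂ] FA X) (K t : ℝ) (hK : 0 < K) (hT : FB T K) (ht : |t| * K ≤ 1 / 4) (f : FA X) :
    Summable fun n : ℕ => ‖((t : ℂ) ^ n / (n.factorial : ℂ)) • fev e (T^[n] f)‖ := by
  obtain ⟨M, hM0, hM⟩ := WMUL_bound T K hT f
  have hg : Summable fun n : ℕ => (1 / 4 : ℝ) ^ n * M :=
    (summable_geometric_of_lt_one (by norm_num) (by norm_num)).mul_right M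
  refine Summable.of_nonneg_of_le (fun n => norm_nonneg _) (fun n => ?_) hg
  rw [norm_smul, norm_div, norm_pow, Complex.norm_real, Real.norm_eq_abs, Complex.norm_natCast]
  have h1 : ‖fev e (T^[n] f)‖ ≤ n.factorial * K ^ n * M := (WMUL_fev_le e he _).trans (hM n)
  have hf : (0 : ℝ) < n.factorial := by exact_mod_cast n.factorial_pos
  calc |t| ^ n / n.factorial * ‖fev e (T^[n] f)‖
      ≤ |t| ^ n / n.factorial * (n.factorial * K ^ n * M) :=
        mul_le_mul_of_nonneg_left h1 (by positivity)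
    _ = (|t| * K) ^ n * M := by
        rw [mul_pow]
        field_simp
    _ ≤ (1 / 4) ^ n * M := by
        apply mul_le_mul_of_nonneg_right _ hM0
        exact pow_le_pow_left₀ (by positivity) ht n

theorem WMUL_leib {X : Type} (D : FA X →ₗ[ℂ] FA X) (h : FA X) (hD : FLeib D) (f g : FA X) :
    DD D h (f * g) = D f * g + f * DD D h g := by
  unfold DD
  simp only [LinearMap.sub_apply, LinearMap.smul_apply, LinearMap.mulRight_apply]
  rw [hD f g, mul_sub, mul_smul_comm, mul_assoc]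
  abel

theorem WMUL_binom {X : Type} (D : FA X →ₗ[ℂ] FA X) (h : FA X) (hD : FLeib D) (f g : FA X)
    (n : ℕ) : (DD D h)^[n] (f * g) =
      ∑ ij ∈ Finset.HasAntidiagonal.antidiagonal n, n.choose ij.1 • (D^[ij.1] f * (DD D h)^[ij.2] g) := by
  induction n with
  | zero => simp
  | succ n ih =>
    rw [Finset.sum_antidiagonal_choose_succ_nsmul (fun i j => D^[i] f * (DD D h)^[j] g) n,
      Function.iterate_succ_apply', ih, map_sum, ← Finset.sum_add_distrib]
    refine Finset.sum_congr rfl fun ij hij => ?_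
    rw [map_nsmul, WMUL_leib D h hD, Function.iterate_succ_apply', Function.iterate_succ_apply',
      smul_add, add_comm]
    have hc : n.choose ij.2 = n.choose ij.1 := by
      rw [Finset.HasAntidiagonal.mem_antidiagonal] at hij
      exact (Nat.choose_symm_of_eq_add hij.symm).symm
    rw [hc]

theorem t_WMUL : S_WMUL := by
  intro X A _ D h K t e e' W hD hK hB1 hB2 he ht hfl hW f
  have s1 := WMUL_summable e he D K t hK hB1 ht f
  have s2 := WMUL_summable e he (DD D h) K t hK hB2 ht 1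
  have s3 := summable_norm_sum_mul_antidiagonal_of_summable_norm s1 s2
  have s4 := tsum_mul_tsum_eq_tsum_sum_antidiagonal_of_summable_norm s1 s2
  rw [(hfl f).tsum_eq, HasSum.tsum_eq hW] at s4
  have s5 := s3.of_norm.hasSum
  rw [← s4] at s5
  have hfun : (fun n : ℕ => ((t : ℂ) ^ n / (n.factorial : ℂ)) • fev e ((DD D h)^[n] f)) =
      fun n : ℕ => ∑ kl ∈ Finset.HasAntidiagonal.antidiagonal n,
        (((t : ℂ) ^ kl.1 / (kl.1.factorial : ℂ)) • fev e (D^[kl.1] f)) *
        (((t : ℂ) ^ kl.2 / (kl.2.factorial : ℂ)) • fev e ((DD D h)^[kl.2] 1)) := ?_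
  · rw [hfun]
    exact s5
  funext n
  have h1 := WMUL_binom D h hD f 1 n
  rw [mul_one] at h1
  rw [h1, map_sum, Finset.smul_sum]
  refine Finset.sum_congr rfl fun ij hij => ?_
  rw [Finset.HasAntidiagonal.mem_antidiagonal] at hij
  rw [map_nsmul, map_mul, smul_mul_smul_comm, ← Nat.cast_smul_eq_nsmul ℂ, smul_smul]
  congr 1
  have hc : (n.choose ij.1 : ℂ) * ((ij.1.factorial : ℂ) * (ij.2.factorial : ℂ)) =
      (n.factorial : ℂ) := by
    rw [← hij]
    have := Nat.add_choose_mul_factorial_mul_factorial ij.1 ij.2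
    rw [← Nat.choose_symm_add] at this
    rw [← mul_assoc]
    exact_mod_cast this
  have e1 : (ij.1.factorial : ℂ) ≠ 0 := by exact_mod_cast ij.1.factorial_ne_zero
  have e2 : (ij.2.factorial : ℂ) ≠ 0 := by exact_mod_cast ij.2.factorial_ne_zero
  have e3 : (n.factorial : ℂ) ≠ 0 := by exact_mod_cast n.factorial_ne_zero
  rw [div_mul_div_comm, ← pow_add, hij, div_mul_eq_mul_div, div_eq_div_iff e3 (mul_ne_zero e1 e2),
    mul_assoc, hc]

end Pool.Agent.H308R2.CF
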