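import Mathlib
import Pool.Agent.H308R2.CF.Stubs

/-! The reverse flow. -/

namespace Pool.Agent.H308R2.CF

namespace WREVaux

/-- the norm of an evaluation -/
theorem fev_norm_le {X A : Type} [CStarAlgebra A] (e : X → A) (he : ∀ x, ‖e x‖ ≤ 1) (f : FA X) :
    ‖fev e f‖ ≤ fl1 f := by
  have h1 : ‖(1 : A)‖ ≤ 1 := by
    rcases subsingleton_or_nontrivial A with h | h
    · rw [Subsingleton.elim (1 : A) 0]; simp
    · exact le_of_eq CStarRing.norm_one
  have hw : ∀ w : FreeMonoid X, ‖FreeMonoid.lift e w‖ ≤ 1 := by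
    intro w
    induction w using FreeMonoid.recOn with
    | one => simpa using h1
    | of_mul x w ih =>
      rw [map_mul, FreeMonoid.lift_eval_of]
      calc ‖e x * FreeMonoid.lift e w‖ ≤ ‖e x‖ * ‖FreeMonoid.lift e w‖ := norm_mul_le _ _
        _ ≤ 1 * 1 := mul_le_mul (he x) ih (norm_nonneg _) zero_le_one
        _ = 1 := one_mul 1
  unfold fev fl1
  rw [MonoidAlgebra.lift_apply, Finsupp.sum]
  refine (norm_sum_le _ _).trans (Finset.sum_le_sum fun w _ => ?_)
  rw [norm_smul]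
  calc ‖f.coeff w‖ * ‖FreeMonoid.lift e w‖ ≤ ‖f.coeff w‖ * 1 :=
        mul_le_mul_of_nonneg_left (hw w) (norm_nonneg _)
    _ = ‖f.coeff w‖ := mul_one _

theorem key (t : ℂ) (N : ℕ) :
    ∑ p ∈ Finset.HasAntidiagonal.antidiagonal N, ((-t) ^ p.1 * t ^ p.2 / ((p.1.factorial : ℂ) * p.2.factorial)) =
      if N = 0 then 1 else 0 := by
  have h := (Commute.all (-t) t).add_pow' N
  rw [neg_add_cancel] at h
  have h2 : ∑ p ∈ Finset.HasAntidiagonal.antidiagonal N,
      ((-t) ^ p.1 * t ^ p.2 / ((p.1.factorial : ℂ) * p.2.factorial)) =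
      (∑ m ∈ Finset.HasAntidiagonal.antidiagonal N, N.choose m.1 • ((-t) ^ m.1 * t ^ m.2)) / (N.factorial : ℂ) := by
    rw [Finset.sum_div]
    refine Finset.sum_congr rfl fun p hp => ?_
    have hp' : p.1 + p.2 = N := Finset.HasAntidiagonal.mem_antidiagonal.1 hp
    have h3 := Nat.add_choose_mul_factorial_mul_factorial p.1 p.2
    rw [← Nat.choose_symm_add, hp'] at h3
    have h4 : ((N.choose p.1 : ℕ) : ℂ) * (p.1.factorial : ℂ) * (p.2.factorial : ℂ) =
        (N.factorial : ℂ) := by exact_mod_cast h3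
    have h5 : (p.1.factorial : ℂ) ≠ 0 := by exact_mod_cast p.1.factorial_ne_zero
    have h6 : (p.2.factorial : ℂ) ≠ 0 := by exact_mod_cast p.2.factorial_ne_zero
    have h7 : (N.factorial : ℂ) ≠ 0 := by exact_mod_cast N.factorial_ne_zero
    rw [nsmul_eq_mul, div_eq_div_iff (mul_ne_zero h5 h6) h7, ← h4]
    ring
  rw [h2, ← h]
  split_ifs with h0
  · subst h0; simp
  · rw [zero_pow h0, zero_div]

end WREVaux

theorem t_WREV (hM : S_WMUL) : S_WREV := by
  intro X A _ D h K t e e' W hL hK hD hDD he htK hFl hW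
  obtain ⟨T, hT⟩ : ∃ T : FA X →ₗ[ℂ] FA X, T = DD D h := ⟨_, rfl⟩
  rw [← hT] at hDD ⊢
  obtain ⟨a, ha⟩ : ∃ a : ℕ → A, ∀ n, a n = fev e (T^[n] 1) := ⟨_, fun _ => rfl⟩
  obtain ⟨b, hb⟩ : ∃ b : ℕ → A, ∀ n, b n = fev e' (T^[n] 1) := ⟨_, fun _ => rfl⟩
  have hone : (1 : FA X) = wd 1 := rfl
  have ha_norm : ∀ n, ‖a n‖ ≤ n.factorial * K ^ n := by
    intro n
    have h1 := hDD n 1
    rw [FreeMonoid.length_one, pow_zero, mul_one] at h1
    rw [ha, hone]
    exact (WREVaux.fev_norm_le e he _).trans h1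
  obtain ⟨F, hF⟩ : ∃ F : ℕ × ℕ → A, ∀ p, F p =
      ((-(t:ℂ)) ^ p.1 * (t:ℂ) ^ p.2 / ((p.1.factorial : ℂ) * p.2.factorial)) • a (p.1 + p.2) :=
    ⟨_, fun _ => rfl⟩
  have hFn : ∀ p, ‖F p‖ ≤ ((1:ℝ) / 2) ^ p.1 * (1 / 2) ^ p.2 := by
    intro p
    rw [hF, norm_smul, norm_div, norm_mul, norm_pow, norm_pow, norm_neg, norm_mul,
      Complex.norm_natCast, Complex.norm_natCast, Complex.norm_real, Real.norm_eq_abs]
    have h3 : ((p.1 + p.2).choose p.1 : ℝ) * p.1.factorial * p.2.factorial =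
        ((p.1 + p.2).factorial : ℝ) := by
      have := Nat.add_choose_mul_factorial_mul_factorial p.1 p.2
      rw [← Nat.choose_symm_add] at this
      exact_mod_cast this
    have h5 : (p.1.factorial : ℝ) ≠ 0 := by exact_mod_cast p.1.factorial_ne_zero
    have h6 : (p.2.factorial : ℝ) ≠ 0 := by exact_mod_cast p.2.factorial_ne_zero
    have h7 : ((p.1 + p.2).choose p.1 : ℝ) ≤ 2 ^ (p.1 + p.2) := by
      exact_mod_cast Nat.choose_le_two_pow (p.1 + p.2) p.1
    have h8 : |t| ^ p.1 * |t| ^ p.2 / ((p.1.factorial : ℝ) * p.2.factorial) *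
        ((p.1 + p.2).factorial * K ^ (p.1 + p.2)) =
        ((p.1 + p.2).choose p.1 : ℝ) * (|t| * K) ^ (p.1 + p.2) := by
      rw [← h3, mul_pow, pow_add |t|]
      field_simp
    calc |t| ^ p.1 * |t| ^ p.2 / ((p.1.factorial : ℝ) * p.2.factorial) * ‖a (p.1 + p.2)‖
        ≤ |t| ^ p.1 * |t| ^ p.2 / ((p.1.factorial : ℝ) * p.2.factorial) *
          ((p.1 + p.2).factorial * K ^ (p.1 + p.2)) :=
          mul_le_mul_of_nonneg_left (ha_norm _) (by positivity)
      _ = ((p.1 + p.2).choose p.1 : ℝ) * (|t| * K) ^ (p.1 + p.2) := h8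
      _ ≤ 2 ^ (p.1 + p.2) * (1 / 4) ^ (p.1 + p.2) :=
          mul_le_mul h7 (pow_le_pow_left₀ (by positivity) htK _) (by positivity) (by positivity)
      _ = ((1:ℝ) / 2) ^ p.1 * (1 / 2) ^ p.2 := by
          rw [← mul_pow, ← pow_add]; norm_num
  have hsumm : Summable F := by
    have hg : Summable (fun n : ℕ => ((1:ℝ) / 2) ^ n) := summable_geometric_two
    have h2 : Summable (fun p : ℕ × ℕ => ((1:ℝ) / 2) ^ p.1 * (1 / 2) ^ p.2) :=
      hg.mul_of_nonneg hg (fun _ => by positivity) (fun _ => by positivity)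
    exact Summable.of_norm_bounded h2 hFn
  obtain ⟨S, hS⟩ := hsumm
  -- the sum along the antidiagonals
  have hS1 : S = 1 := by
    have h1 : HasSum (F ∘ Finset.HasAntidiagonal.sigmaAntidiagonalEquivProd) S :=
      (Finset.HasAntidiagonal.sigmaAntidiagonalEquivProd (A := ℕ)).hasSum_iff.2 hS
    have h2 : HasSum (fun N : ℕ => ∑ p ∈ Finset.HasAntidiagonal.antidiagonal N, F p) S := by
      refine h1.sigma fun N => ?_
      rw [← Finset.sum_coe_sort (Finset.HasAntidiagonal.antidiagonal N) F]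
      exact hasSum_fintype _
    have h3 : ∀ N, ∑ p ∈ Finset.HasAntidiagonal.antidiagonal N, F p = if N = 0 then (1 : A) else 0 := by
      intro N
      have h4 : ∑ p ∈ Finset.HasAntidiagonal.antidiagonal N, F p = (∑ p ∈ Finset.HasAntidiagonal.antidiagonal N,
          ((-(t:ℂ)) ^ p.1 * (t:ℂ) ^ p.2 / ((p.1.factorial : ℂ) * p.2.factorial))) • a N := by
        rw [Finset.sum_smul]
        refine Finset.sum_congr rfl fun p hp => ?_
        rw [hF, Finset.HasAntidiagonal.mem_antidiagonal.1 hp]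
      rw [h4, WREVaux.key]
      split_ifs with h0
      · subst h0
        rw [one_smul, ha]
        exact map_one (fev e)
      · rw [zero_smul]
    have h5 : HasSum (fun N : ℕ => if N = 0 then (1 : A) else 0) S := by
      have : (fun N : ℕ => ∑ p ∈ Finset.HasAntidiagonal.antidiagonal N, F p) =
          fun N : ℕ => if N = 0 then (1 : A) else 0 := funext h3
      rw [this] at h2
      exact h2
    exact h5.unique (hasSum_ite_eq 0 1)
  -- the sum along the rows
  have hrow : HasSum (fun n : ℕ => (((-t : ℝ) : ℂ) ^ n / (n.factorial : ℂ)) • (b n * (W : A))) S := by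
    refine hS.prod_fiberwise fun n => ?_
    have h1 := hM X A D h K t e e' (W : A) hL hK hD (hT ▸ hDD) he htK hFl hW (T^[n] 1)
    rw [← hb, ← hT] at h1
    have h2 := h1.const_smul (((-t : ℝ) : ℂ) ^ n / (n.factorial : ℂ))
    have h3 : (fun m : ℕ => F (n, m)) = fun i : ℕ => (((-t : ℝ) : ℂ) ^ n / (n.factorial : ℂ)) •
        ((t : ℂ) ^ i / (i.factorial : ℂ)) • fev e (T^[i] (T^[n] 1)) := by
      funext i
      rw [hF, ha, smul_smul, ← Function.iterate_add_apply, add_comm n i]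
      congr 1
      push_cast
      rw [div_mul_div_comm]
    rw [h3]
    exact h2
  have hWW : (W : A) * star (W : A) = 1 := (Unitary.mem_iff.1 W.2).2
  have hfin := hrow.mul_right (star (W : A))
  rw [hS1, one_mul] at hfin
  have h4 : (fun n : ℕ => (((-t : ℝ) : ℂ) ^ n / (n.factorial : ℂ)) • (b n * (W : A)) *
      star (W : A)) = fun n : ℕ => (((-t : ℝ) : ℂ) ^ n / (n.factorial : ℂ)) • fev e' (T^[n] 1) := by
    funext n
    rw [smul_mul_assoc, mul_assoc, hWW, mul_one, hb]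
  rw [h4] at hfin
  exact hfin

end Pool.Agent.H308R2.CF
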