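import Mathlib
import Pool.Agent.H308R2.CF.TABS
import Pool.Agent.H308R2.CF.TALT
import Pool.Agent.H308R2.CF.TAPX
import Pool.Agent.H308R2.CF.TAVG
import Pool.Agent.H308R2.CF.TBES
import Pool.Agent.H308R2.CF.TCW
import Pool.Agent.H308R2.CF.TVLA
import Pool.Agent.H308R2.CF.TSCGEN
import Pool.Agent.H308R2.CF.TCHEB
import Pool.Agent.H308R2.CF.TDENS
import Pool.Agent.H308R2.CF.TEQV
import Pool.Agent.H308R2.CF.TEX
import Pool.Agent.H308R2.CF.TEXI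
import Pool.Agent.H308R2.CF.TFDAT
import Pool.Agent.H308R2.CF.TFDER
import Pool.Agent.H308R2.CF.TFBND
import Pool.Agent.H308R2.CF.TFEJ
import Pool.Agent.H308R2.CF.TFL
import Pool.Agent.H308R2.CF.TFLT
import Pool.Agent.H308R2.CF.TFOCK
import Pool.Agent.H308R2.CF.TFORM
import Pool.Agent.H308R2.CF.TFREE1
import Pool.Agent.H308R2.CF.TFREE2
import Pool.Agent.H308R2.CF.TFS
import Pool.Agent.H308R2.CF.TFS1
import Pool.Agent.H308R2.CF.TFST
import Pool.Agent.H308R2.CF.TFSYS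
import Pool.Agent.H308R2.CF.TFTAY
import Pool.Agent.H308R2.CF.TFTR
import Pool.Agent.H308R2.CF.TINT
import Pool.Agent.H308R2.CF.TLAWH
import Pool.Agent.H308R2.CF.TLAWN
import Pool.Agent.H308R2.CF.TLIE
import Pool.Agent.H308R2.CF.TLIM
import Pool.Agent.H308R2.CF.TLVL
import Pool.Agent.H308R2.CF.TMAIN2
import Pool.Agent.H308R2.CF.TMOM
import Pool.Agent.H308R2.CF.TMV2
import Pool.Agent.H308R2.CF.TN2C
import Pool.Agent.H308R2.CF.TNL
import Pool.Agent.H308R2.CF.TNLG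
import Pool.Agent.H308R2.CF.TNLOP
import Pool.Agent.H308R2.CF.TORTH
import Pool.Agent.H308R2.CF.TPAIR
import Pool.Agent.H308R2.CF.TROT
import Pool.Agent.H308R2.CF.TRUN
import Pool.Agent.H308R2.CF.TSC
import Pool.Agent.H308R2.CF.TSC0
import Pool.Agent.H308R2.CF.TSCEX
import Pool.Agent.H308R2.CF.TSCFP
import Pool.Agent.H308R2.CF.TSCH
import Pool.Agent.H308R2.CF.TSCL
import Pool.Agent.H308R2.CF.TSCM
import Pool.Agent.H308R2.CF.TSTG
import Pool.Agent.H308R2.CF.TTHETA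
import Pool.Agent.H308R2.CF.TTP
import Pool.Agent.H308R2.CF.TTROT
import Pool.Agent.H308R2.CF.TUNIQ
import Pool.Agent.H308R2.CF.TVL
import Pool.Agent.H308R2.CF.TW
import Pool.Agent.H308R2.CF.TWADJ
import Pool.Agent.H308R2.CF.TWMUL
import Pool.Agent.H308R2.CF.TWREV

/-! All the pieces together. -/

namespace Pool.Agent.H308R2.CF

/-- the reduced free powers exist -/
theorem exi_all : S_EXI := t_EXI t_SC (t_SCEX t_FOCK) (t_SCFP t_CHEB)

/-- uniqueness -/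
theorem uniq_all : S_UNIQ := t_UNIQ (t_LAWH t_LAWN) (t_MOM t_FEJ t_TP)

/-- the universal list -/
theorem vl_all : S_VL := by
  have hDENS : S_DENS := t_DENS t_FEJ t_TP
  have hORTH : S_ORTH := t_ORTH hDENS t_FEJ t_TP
  have hNL : S_NL := t_NL hORTH t_NLOP hDENS
  have hAVG : S_AVG := t_AVG hNL t_BES t_EX t_SC0
  have hLIE : S_LIE := t_LIE t_TROT t_EX
  have hINT : S_INT := t_INT hLIE t_EX
  have hSCL : S_SCL := t_SCL (t_FREE2 t_FEJ t_TP) t_CHEB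
  have hSCH : S_SCH := t_SCH (t_LAWH t_LAWN) t_SCGEN hSCL t_SCM
  have hVLA : S_VLA := t_VLA hLIE hINT hAVG hSCL t_ROT hSCH t_EX t_SC0
  exact t_VL hVLA exi_all t_FREE1 uniq_all t_SC0 t_EX

/-- absorption of one copy -/
theorem abs_of (hFBND : S_FBND) : S_ABS := by
  have hDENS : S_DENS := t_DENS t_FEJ t_TP
  have hORTH : S_ORTH := t_ORTH hDENS t_FEJ t_TP
  have hNL : S_NL := t_NL hORTH t_NLOP hDENS
  have hNLG : S_NLG := t_NLG hNL
  have hFDAT : S_FDAT := t_FDAT t_FDER hFBND t_FST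
  have hFTR : S_FTR := t_FTR t_THETA t_N2C t_FEJ t_TP
  have hFSYS : S_FSYS := t_FSYS t_FL (t_WADJ t_WMUL) (t_WREV t_WMUL) t_FLT hFTR
  have hFS1 : S_FS1 := t_FS1 hFDAT (t_W t_FST) hFSYS t_FORM t_FTAY hNLG t_EX
  have hFS : S_FS := t_FS hFS1 t_EX
  have hALT : S_ALT := t_ALT t_FEJ t_TP hDENS
  have hMV2 : S_MV2 := t_MV2 hALT
  have hRUN : S_RUN := t_RUN hFS hMV2 (t_LVL t_EX) t_EX t_SC0
  have hSTG : S_STG := t_STG t_CW vl_all hRUN t_PAIR
  exact t_ABS t_SC hSTG (t_APX t_SCGEN) t_LIM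

/-- absorption of one copy -/
theorem abs_all : S_ABS := abs_of t_FBND

/-- the main theorem: the reduced free powers are isomorphic, by trace preserving isomorphisms -/
theorem main_all : ∀ (ℓ m : ℕ), 2 ≤ ℓ → 2 ≤ m → ∀ (A B : Type) [CStarAlgebra A] [CStarAlgebra B]
    (φ : Pool.Agent.H770R2.UL.TrSt A) (ψ : Pool.Agent.H770R2.UL.TrSt B)
    (σ : Fin ℓ → CI →⋆ₐ[ℂ] A) (τ : Fin m → CI →⋆ₐ[ℂ] B),
    FreePow φ σ → FreePow ψ τ → ∃ Φ : A ≃⋆ₐ[ℂ] B, ∀ a, ψ.toFun (Φ a) = φ.toFun a :=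
  t_MAIN2 t_FREE1 abs_all uniq_all

end Pool.Agent.H308R2.CF
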