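import Mathlib
import Pool.Agent.H308R2.CF.Stubs
import Pool.Agent.H722.FG.Inj

/-! The word `g = a^3 u^9 a^27 u^81 …`: definitions and the distinctness statement. The index words
(`Vd`, `adm`, `W`, `Ad'`) are those of `Pool.Agent.H722.FG.Inj`. -/

namespace Pool.Agent.H308R2.CF

open FreeGroup
open Pool.Agent.H722.FG (Vd adm W Ad')

/-- the letter of the `j`-th syllable: `a` for odd `j`, `u` for even `j` -/
def lx {X : Type} (a u : X) (j : ℕ) : X := if Even j then u else a

/-- the prefixes `x_j = a^3 u^9 a^27 u^81 … (letter j)^(3^j)` -/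
def xp {X : Type} (a u : X) : ℕ → FreeGroup X
  | 0 => 1
  | j + 1 => xp a u j * (of (lx a u (j + 1))) ^ (3 ^ (j + 1))

/-- the value of an index word -/
def vl {X : Type} (a u : X) : List (ℕ × ℕ) → FreeGroup X
  | [] => 1
  | (p, q) :: w => xp a u p * ((xp a u q)⁻¹ * vl a u w)

/-- distinctness of the values -/
def S_CWD : Prop := ∀ (X : Type) (a u : X), a ≠ u →
  (∀ w w' : List (ℕ × ℕ), Vd w → Vd w' → vl a u w = vl a u w' → w = w') ∧
  (∀ (w w' : List (ℕ × ℕ)) (q q' : ℕ), Vd w → Vd w' → 1 ≤ q → 1 ≤ q' → adm q w → adm q' w' →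
    (xp a u q)⁻¹ * vl a u w = (xp a u q')⁻¹ * vl a u w' → q = q' ∧ w = w')

/-- from distinctness to the small solution -/
def S_CWA : Prop := S_CWD → S_CW

end Pool.Agent.H308R2.CF
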