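import Mathlib
import Pool.Agent.H308R2.CF.Defs

/-! The reduced free power defined with general states (Avitzour, Voiculescu): the free product
state is only assumed to have a faithful GNS representation. -/

namespace Pool.Agent.H308R2.CF

open Pool.Agent.H770R2.UL (TrSt n2)
open scoped ComplexOrder

/-- The algebraic part of the definition: `φ` is unital, restricts to the Lebesgue integral on each
copy, and the copies are free: an alternating product of centred elements has expectation zero. -/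
structure FreeLaw {κ A : Type} [CStarAlgebra A] (φ : A →ₗ[ℂ] ℂ) (σ : κ → CI →⋆ₐ[ℂ] A) : Prop where
  one : φ 1 = 1
  mar : ∀ j f, φ (σ j f) = ∫ x : unitInterval, f x
  free : ∀ l : List (κ × CI), l ≠ [] → (l.map Prod.fst).IsChain (· ≠ ·) →
    (∀ p ∈ l, ∫ x : unitInterval, p.2 x = 0) → φ ((l.map fun p => σ p.1 p.2).prod) = 0

/-- `(A, φ)` with the embeddings `σ_j` is the reduced free product of copies of `(C([0,1]), ∫)`:
`φ` is a state which restricts to the integral on each copy, the copies are free and generate `A`,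
and the GNS representation of `φ` is faithful. -/
structure RedFree {κ A : Type} [CStarAlgebra A] (φ : A →ₗ[ℂ] ℂ) (σ : κ → CI →⋆ₐ[ℂ] A) : Prop where
  law : FreeLaw φ σ
  pos : ∀ x : A, 0 ≤ φ (star x * x)
  gen : (⨆ j, (σ j).range).topologicalClosure = (⊤ : StarSubalgebra ℂ A)
  gns : ∀ a : A, (∀ x : A, φ (star x * (star a * a) * x) = 0) → a = 0

/-- states are hermitian and contractive, and `φ(b* a b) ≤ |a| φ(b* b)` for positive `a` -/
def S_GST : Prop := ∀ (A : Type) [CStarAlgebra A] (φ : A →ₗ[ℂ] ℂ), φ 1 = 1 →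
  (∀ x, 0 ≤ φ (star x * x)) → (∀ x, ‖φ x‖ ≤ ‖x‖) ∧
  ∀ x y, φ (star x * (star y * y) * x) ≤ (‖y‖ ^ 2 : ℝ) * φ (star x * x)

/-- the law determines the moments -/
def S_GMOM : Prop := ∀ (κ A B : Type) [CStarAlgebra A] [CStarAlgebra B] (φ : A →ₗ[ℂ] ℂ)
  (ψ : B →ₗ[ℂ] ℂ) (σ : κ → CI →⋆ₐ[ℂ] A) (τ : κ → CI →⋆ₐ[ℂ] B), FreeLaw φ σ → FreeLaw ψ τ →
  ∀ l : List (κ × CI), φ ((l.map fun p => σ p.1 p.2).prod) = ψ ((l.map fun p => τ p.1 p.2).prod)

/-- the free product state is a faithful trace -/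
def S_GTR : Prop := ∀ (κ A : Type) [CStarAlgebra A] (φ : A →ₗ[ℂ] ℂ) (σ : κ → CI →⋆ₐ[ℂ] A),
  RedFree φ σ → ∃ φ' : TrSt A, φ'.toFun = φ ∧ FreePow φ' σ

/-- tracial free powers are reduced free powers -/
def S_GRED : Prop := ∀ (κ A : Type) [CStarAlgebra A] (φ : TrSt A) (σ : κ → CI →⋆ₐ[ℂ] A),
  FreePow φ σ → RedFree φ.toFun σ

end Pool.Agent.H308R2.CF
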