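import Pool.Agent.H308R2.CF.Stubs

/-! EXI: existence of the reduced free powers.  helper329. -/

namespace Pool.Agent.H308R2.CF

theorem t_EXI (h1 : S_SC) (h2 : S_SCEX) (h3 : S_SCFP) : S_EXI := by
  classical
  intro κ
  obtain ⟨s, hs⟩ := h1
  obtain ⟨A, iA, φ, x, hfai, hscl, hn, hgen⟩ := h2 κ
  obtain ⟨σ, hσ, -⟩ := @h3 κ _ s hs A iA φ x hfai hscl hn hgen
  exact ⟨A, iA, φ, σ, hσ⟩

end Pool.Agent.H308R2.CF
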