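import Pool.Agent.H308R2.CF.Stubs
import Pool.Agent.H308R2.CF.TFTR
import Pool.Agent.H770R2.FA.Ev

/-! The flow of a system. -/

namespace Pool.Agent.H308R2.CF

open Pool.Agent.H770R2.UL (TrSt n2)
open Pool.Agent.H770R2.FA
open Pool.Agent.H581R.FF (GR bs ev jj vv kk act)
open scoped ComplexConjugate

/-- words -/
theorem FSYS_gp {ι A : Type} [DecidableEq ι] [CStarAlgebra A] (σ : Option ι → CI →⋆ₐ[ℂ] A)
    (f : CI) (w : FreeGroup (Option ι)) : fev (le σ f) (wd (fw w)) = (gp σ w : A) := by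
  rw [FTR_fev_wd]
  unfold fw
  conv_rhs => rw [← FreeGroup.mk_toWord (x := w)]
  unfold gp
  rw [FreeGroup.lift_mk]
  induction w.toWord with
  | nil => rfl
  | cons a L ih =>
    rw [List.map_cons, List.map_cons, List.prod_cons, FreeMonoid.ofList_cons, map_mul,
      FreeMonoid.lift_eval_of, ih]
    obtain ⟨j, b⟩ := a
    cases b with
    | true => rfl
    | false => rfl

/-- the trace is invariant -/
theorem FSYS_tr (h5 : S_FTR) {ι A : Type} [DecidableEq ι] [CStarAlgebra A] (u : ι)
    (c : FreeGroup ι →₀ ℝ) (D : FA (Lt (Option ι)) →ₗ[ℂ] FA (Lt (Option ι))) (hD : FD u c D)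
    (φ : TrSt A) (σ : Option ι → CI →⋆ₐ[ℂ] A) (hσ : Sys φ σ) (f : CI)
    (hf : ∫ x : unitInterval, f x = 0) (hr : ∀ x, conj (f x) = f x) (t : ℝ)
    (e' : Lt (Option ι) → A) (hfl : IsFl D t (le σ f) e') (x : FA (Lt (Option ι))) :
    φ.toFun (fev e' x) = φ.toFun (fev (le σ f) x) := by
  have h1 := (hfl x).map φ.toFun.toAddMonoidHom (Pool.Agent.H770R2.UL.continuous_toFun φ)
  have h2 : ∀ n : ℕ, n ≠ 0 → (φ.toFun.toAddMonoidHom ∘
      (fun n : ℕ => ((t : ℂ) ^ n / (n.factorial : ℂ)) • fev (le σ f) (D^[n] x))) n = 0 := by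
    intro n hn
    obtain ⟨m, rfl⟩ := Nat.exists_eq_succ_of_ne_zero hn
    show φ.toFun (((t : ℂ) ^ (m + 1) / ((m + 1).factorial : ℂ)) •
      fev (le σ f) (D^[m + 1] x)) = 0
    rw [map_smul, Function.iterate_succ_apply', h5 ι u c D hD A φ σ hσ f hf hr, smul_zero]
  have h3 := h1.unique (hasSum_single 0 h2)
  change φ.toFun (fev e' x) = φ.toFun (((t : ℂ) ^ 0 / ((0 : ℕ).factorial : ℂ)) •
    fev (le σ f) (D^[0] x)) at h3
  simpa using h3

/-- the letters after the flow -/
theorem FSYS_letters (h2 : S_WADJ) (h4 : S_FLT) {ι A : Type} [DecidableEq ι] [CStarAlgebra A]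
    (u : ι) (c : FreeGroup ι →₀ ℝ) (D : FA (Lt (Option ι)) →ₗ[ℂ] FA (Lt (Option ι))) (K t : ℝ)
    (hD : FD u c D) (hK : FData lst D (fh c) K) (ht : |t| * K ≤ 1 / 4)
    (σ σ' : Option ι → CI →⋆ₐ[ℂ] A) (f : CI) (W : unitary A)
    (hn : ∀ x, ‖le σ f x‖ ≤ 1) (hW : IsW D (fh c) t (le σ f) (W : A)) (hM : Mv σ σ' (some u) W)
    (e' : Lt (Option ι) → A) (hfl : IsFl D t (le σ f) e') : e' = le σ' f := by
  have hWW : (W : A) * star (W : A) = 1 := Unitary.coe_mul_star_self W
  have hconj : ∀ x, D (lt x) = Complex.I • (lt x * fh c - fh c * lt x) →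
      e' x = (W : A) * le σ f x * star (W : A) := by
    intro x hx
    have h := h2 _ A D (fh c) K t (le σ f) e' W hK.leib hK.Kpos hK.bD hK.bDD hn ht hfl hW x hx
    rw [← h, mul_assoc, hWW, mul_one]
  funext x
  match x with
  | none =>
    rw [h4 _ A D t (le σ f) e' hfl none hD.dY]
    show σ none f = σ' none f
    rw [hM.ne none (by simp)]
  | some (j, b) =>
    by_cases hj : j = some u
    · subst hj
      rw [hconj _ (hD.du b)]
      cases b with
      | true =>
        show (W : A) * σ (some u) eI * star (W : A) = σ' (some u) eI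
        rw [hM.eq, cj_apply]
      | false =>
        show (W : A) * star (σ (some u) eI) * star (W : A) = star (σ' (some u) eI)
        rw [hM.eq, cj_apply, star_mul, star_mul, star_star, mul_assoc]
    · rw [h4 _ A D t (le σ f) e' hfl _ (hD.dz j b hj)]
      cases b with
      | true =>
        show σ j eI = σ' j eI
        rw [hM.ne j hj]
      | false =>
        show star (σ j eI) = star (σ' j eI)
        rw [hM.ne j hj]

theorem FSYS_mem_Cs {κ A : Type} [CStarAlgebra A] (σ : κ → CI →⋆ₐ[ℂ] A) (j : κ) (g : CI) :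
    σ j g ∈ Cs σ := by
  unfold Cs
  apply StarSubalgebra.le_topologicalClosure
  exact (le_iSup (fun j => (σ j).range) j) ⟨g, rfl⟩

theorem FSYS_closed {κ A : Type} [CStarAlgebra A] (σ : κ → CI →⋆ₐ[ℂ] A) :
    IsClosed (Cs σ : Set A) := StarSubalgebra.isClosed_topologicalClosure _

/-- evaluations lie in the algebra generated -/
theorem FSYS_fev_mem {ι A : Type} [CStarAlgebra A] (σ : Option ι → CI →⋆ₐ[ℂ] A)
    (f : CI) (z : FA (Lt (Option ι))) : fev (le σ f) z ∈ Cs σ := by
  have hl : ∀ x, le σ f x ∈ Cs σ := by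
    intro x
    match x with
    | none => exact FSYS_mem_Cs σ none f
    | some (j, true) => exact FSYS_mem_Cs σ j eI
    | some (j, false) => exact star_mem (FSYS_mem_Cs σ j eI)
  have hw : ∀ w : FreeMonoid (Lt (Option ι)), FreeMonoid.lift (le σ f) w ∈ Cs σ := by
    intro w
    induction w using FreeMonoid.inductionOn' with
    | one => rw [map_one]; exact one_mem _
    | of_mul x xs ih =>
      rw [map_mul, FreeMonoid.lift_eval_of]
      exact mul_mem (hl x) ih
  induction z using MonoidAlgebra.induction_linear with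
  | zero => rw [map_zero]; exact zero_mem _
  | add a b ha hb => rw [map_add]; exact add_mem ha hb
  | single w r =>
    have e : fev (le σ f) (MonoidAlgebra.single w r) = r • FreeMonoid.lift (le σ f) w := by
      unfold fev
      rw [MonoidAlgebra.lift_single]
    rw [e]
    exact (Cs σ).smul_mem (hw w) r

theorem t_FSYS (h1 : S_FL) (h2 : S_WADJ) (h3 : S_WREV) (h4 : S_FLT) (h5 : S_FTR) : S_FSYS := by
  intro ι _ u c D K t hD hK ht A _ φ σ σ' f W hσ hf hr hf1 hW hM
  have hWW : (W : A) * star (W : A) = 1 := Unitary.coe_mul_star_self W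
  have hWW' : star (W : A) * (W : A) = 1 := Unitary.coe_star_mul_self W
  have hn : ∀ x, ‖le σ f x‖ ≤ 1 := FTR_norm σ f 1 le_rfl hf1
  obtain ⟨e', hfl⟩ := h1 _ A D K t hK.leib hK.bD hK.Kpos (by linarith) (le σ f) hn
  have he' := FSYS_letters h2 h4 u c D K t hD hK ht σ σ' f W hn hW hM e' hfl
  subst he'
  refine ⟨hfl, hσ.fai, ⟨?_, ?_⟩, ?_⟩
  · intro j g
    by_cases hj : j = some u
    · subst hj
      rw [hM.eq, cj_apply, φ.tr, ← mul_assoc, hWW', one_mul, hσ.sys.mar]
    · rw [hM.ne j hj, hσ.sys.mar]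
  · intro w hw
    rw [← FSYS_gp σ' f w, FSYS_tr h5 u c D hD φ σ hσ.sys f hf hr t _ hfl, FSYS_gp]
    exact hσ.sys.free w hw
  · have hrev := h3 _ A D (fh c) K t (le σ f) (le σ' f) W hK.leib hK.Kpos hK.bD hK.bDD hn ht hfl hW
    have hsW : star (W : A) ∈ Cs σ' := by
      refine (FSYS_closed σ').mem_of_tendsto hrev (Filter.Eventually.of_forall fun s => ?_)
      refine sum_mem fun n _ => ?_
      exact (Cs σ').smul_mem (FSYS_fev_mem σ' f _) _
    have hWm : (W : A) ∈ Cs σ' := by
      have := star_mem hsW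
      rwa [star_star] at this
    have hle : Cs σ ≤ Cs σ' := by
      unfold Cs at *
      refine StarSubalgebra.topologicalClosure_minimal ?_ (FSYS_closed σ')
      refine iSup_le fun j => ?_
      rintro _ ⟨g, rfl⟩
      show σ j g ∈ Cs σ'
      by_cases hj : j = some u
      · subst hj
        have e : σ (some u) g = star (W : A) * σ' (some u) g * (W : A) := by
          rw [hM.eq, cj_apply]
          calc σ (some u) g = (star (W : A) * W) * σ (some u) g * (star (W : A) * W) := by
                rw [hWW', one_mul, mul_one]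
            _ = _ := by simp only [mul_assoc]
        rw [e]
        exact mul_mem (mul_mem hsW (FSYS_mem_Cs σ' _ _)) hWm
      · rw [← hM.ne j hj]
        exact FSYS_mem_Cs σ' _ _
    rw [eq_top_iff, ← hσ.gen]
    exact hle

end Pool.Agent.H308R2.CF
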