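import Pool.Agent.H308R2.CF.GDefs

/-! Task GMOM (helper672): the law determines the moments. -/

set_option autoImplicit false

namespace Pool.Agent.H308R2.CF

open MeasureTheory

/-- the moment -/
noncomputable def gmomM {κ A : Type} [CStarAlgebra A] (σ : κ → CI →⋆ₐ[ℂ] A)
    (l : List (κ × CI)) : A := (l.map fun p => σ p.1 p.2).prod

theorem gmomM_append {κ A : Type} [CStarAlgebra A] (σ : κ → CI →⋆ₐ[ℂ] A)
    (l1 l2 : List (κ × CI)) : gmomM σ (l1 ++ l2) = gmomM σ l1 * gmomM σ l2 := by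
  unfold gmomM
  rw [List.map_append, List.prod_append]

theorem gmomM_cons {κ A : Type} [CStarAlgebra A] (σ : κ → CI →⋆ₐ[ℂ] A) (p : κ × CI)
    (l : List (κ × CI)) : gmomM σ (p :: l) = σ p.1 p.2 * gmomM σ l := by
  unfold gmomM
  rw [List.map_cons, List.prod_cons]

theorem gmom_center (f : CI) :
    ∫ x : unitInterval, (f - (∫ y : unitInterval, f y) • (1 : CI)) x = 0 := by
  have h1 : ∀ x : unitInterval, (f - (∫ y : unitInterval, f y) • (1 : CI)) x =
      f x - ∫ y : unitInterval, f y := by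
    intro x
    simp
  have hint : Integrable (fun x : unitInterval => f x) :=
    f.continuous.integrable_of_hasCompactSupport (HasCompactSupport.of_compactSpace _)
  rw [integral_congr_ae (Filter.Eventually.of_forall h1), integral_sub hint (integrable_const _)]
  simp

theorem gmom_split {κ A : Type} [CStarAlgebra A] (φ : A →ₗ[ℂ] ℂ) (σ : κ → CI →⋆ₐ[ℂ] A)
    (l1 l2 : List (κ × CI)) (j : κ) (f : CI) (c : ℂ) :
    φ (gmomM σ (l1 ++ (j, f) :: l2)) =
      φ (gmomM σ (l1 ++ (j, f - c • (1 : CI)) :: l2)) + c * φ (gmomM σ (l1 ++ l2)) := by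
  rw [gmomM_append, gmomM_append, gmomM_append, gmomM_cons, gmomM_cons]
  have e1 : σ (j, f - c • (1 : CI)).1 (j, f - c • (1 : CI)).2 = σ j f - c • (1 : A) := by
    simp only [map_sub, map_smul, map_one]
  have e2 : c * φ (gmomM σ l1 * gmomM σ l2) = φ (c • (gmomM σ l1 * gmomM σ l2)) := by
    rw [map_smul, smul_eq_mul]
  rw [e1, e2, ← map_add]
  congr 1
  rw [sub_mul, mul_sub, smul_mul_assoc, one_mul, mul_smul_comm]
  abel

theorem gmom_nochain {κ : Type} : ∀ l : List (κ × CI),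
    ¬ (l.map Prod.fst).IsChain (· ≠ ·) → ∃ (l1 : List (κ × CI)) (j : κ) (f g : CI)
      (l2 : List (κ × CI)), l = l1 ++ (j, f) :: (j, g) :: l2
  | [], h => by
    exfalso
    apply h
    simp
  | [p], h => by
    exfalso
    apply h
    simp
  | p :: q :: l, h => by
    by_cases hpq : p.1 = q.1
    · refine ⟨[], q.1, p.2, q.2, l, ?_⟩
      rw [List.nil_append, ← hpq]
      congr 2
      exact Prod.ext hpq.symm rfl
    · have h1 : ¬ ((q :: l).map Prod.fst).IsChain (· ≠ ·) := by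
        intro hc
        apply h
        rw [List.map_cons, List.map_cons, List.isChain_cons_cons]
        exact ⟨hpq, hc⟩
      obtain ⟨l1, j, f, g, l2, hl⟩ := gmom_nochain (q :: l) h1
      exact ⟨p :: l1, j, f, g, l2, by rw [hl, List.cons_append]⟩

theorem gmom_aux {κ A B : Type} [CStarAlgebra A] [CStarAlgebra B] {φ : A →ₗ[ℂ] ℂ}
    {ψ : B →ₗ[ℂ] ℂ} {σ : κ → CI →⋆ₐ[ℂ] A} {τ : κ → CI →⋆ₐ[ℂ] B} (h1 : FreeLaw φ σ)
    (h2 : FreeLaw ψ τ) (n : ℕ) (ih : ∀ l : List (κ × CI), l.length < n →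
      φ (gmomM σ l) = ψ (gmomM τ l)) : ∀ (l2 l1 : List (κ × CI)),
    (∀ p ∈ l1, ∫ x : unitInterval, p.2 x = 0) →
    ((l1 ++ l2).map Prod.fst).IsChain (· ≠ ·) → (l1 ++ l2).length = n →
    φ (gmomM σ (l1 ++ l2)) = ψ (gmomM τ (l1 ++ l2)) := by
  intro l2
  induction l2 with
  | nil =>
    intro l1 hc hch _
    rw [List.append_nil] at hch ⊢
    by_cases hl : l1 = []
    · subst hl
      simp only [gmomM, List.map_nil, List.prod_nil]
      rw [h1.one, h2.one]
    · have e1 := h1.free l1 hl hch hc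
      have e2 := h2.free l1 hl hch hc
      unfold gmomM
      rw [e1, e2]
  | cons p l2 ihl =>
    intro l1 hc hch hlen
    obtain ⟨j, f⟩ := p
    have e0 : ∀ (q : κ × CI), l1 ++ q :: l2 = (l1 ++ [q]) ++ l2 := by
      intro q
      simp
    rw [gmom_split φ σ l1 l2 j f (∫ y : unitInterval, f y),
      gmom_split ψ τ l1 l2 j f (∫ y : unitInterval, f y)]
    rw [ih (l1 ++ l2) (by
      rw [← hlen]
      simp)]
    rw [e0, ihl (l1 ++ [(j, f - (∫ y : unitInterval, f y) • (1 : CI))])]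
    · intro q hq
      rw [List.mem_append, List.mem_singleton] at hq
      rcases hq with hq | hq
      · exact hc q hq
      · subst hq
        exact gmom_center f
    · rw [← e0]
      simpa using hch
    · rw [← e0]
      simpa using hlen

theorem gmom_main {κ A B : Type} [CStarAlgebra A] [CStarAlgebra B] {φ : A →ₗ[ℂ] ℂ}
    {ψ : B →ₗ[ℂ] ℂ} {σ : κ → CI →⋆ₐ[ℂ] A} {τ : κ → CI →⋆ₐ[ℂ] B} (h1 : FreeLaw φ σ)
    (h2 : FreeLaw ψ τ) (n : ℕ) : ∀ l : List (κ × CI), l.length = n →
    φ (gmomM σ l) = ψ (gmomM τ l) := by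
  induction n using Nat.strong_induction_on with
  | _ n ih =>
    intro l hl
    by_cases hch : (l.map Prod.fst).IsChain (· ≠ ·)
    · have := gmom_aux h1 h2 n (fun l' hl' => ih l'.length hl' l' rfl) l []
        (fun p hp => absurd hp (by simp)) (by simpa using hch) (by simpa using hl)
      simpa using this
    · obtain ⟨l1, j, f, g, l2, rfl⟩ := gmom_nochain l hch
      have e1 : ∀ (C : Type) [CStarAlgebra C] (ρ : κ → CI →⋆ₐ[ℂ] C),
          gmomM ρ (l1 ++ (j, f) :: (j, g) :: l2) = gmomM ρ (l1 ++ (j, f * g) :: l2) := by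
        intro C _ ρ
        rw [gmomM_append, gmomM_append, gmomM_cons, gmomM_cons, gmomM_cons]
        simp only [map_mul]
        rw [mul_assoc (ρ j f)]
      rw [e1 A σ, e1 B τ]
      refine ih (l1 ++ (j, f * g) :: l2).length ?_ _ rfl
      rw [← hl]
      simp

theorem t_GMOM : S_GMOM := by
  intro κ A B _ _ φ ψ σ τ h1 h2 l
  exact gmom_main h1 h2 l.length l rfl

end Pool.Agent.H308R2.CF
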