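import Pool.Agent.H308R2.CF.GDefs

/-! Tracial free powers are reduced free powers. -/

set_option autoImplicit false

namespace Pool.Agent.H308R2.CF

open Pool.Agent.H770R2.UL (TrSt n2)
open scoped ComplexOrder

theorem t_GRED : S_GRED := by
  intro κ A _ φ σ h
  refine ⟨⟨φ.one, h.mar, ?_⟩, φ.pos, h.gen, ?_⟩
  · intro l hl hc hp
    refine h.free l hl hc fun p hpl => ?_
    rw [h.mar]
    exact hp p hpl
  · intro a ha
    refine h.fai a ?_
    have := ha 1
    simpa using this

end Pool.Agent.H308R2.CF
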