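import Pool.Agent.H308R2.CF.GDefs

/-! States are hermitian and contractive. -/

open scoped ComplexOrder

namespace Pool.Agent.H308R2.CF

section gst

variable {A : Type} [CStarAlgebra A] (φ : A →ₗ[ℂ] ℂ)

theorem gst_star (h1 : φ 1 = 1) (hp : ∀ x, 0 ≤ φ (star x * x)) (x : A) :
    φ (star x) = star (φ x) := by
  have h1' := hp (1 + x)
  have h2 := hp (1 + Complex.I • x)
  have h3 := hp x
  have e1 : φ (star (1 + x) * (1 + x)) = 1 + φ x + φ (star x) + φ (star x * x) := by
    have : star (1 + x) * (1 + x) = 1 + x + star x + star x * x := by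
      simp [mul_add, add_mul]; abel
    rw [this, map_add, map_add, map_add, h1]
  have e2 : φ (star (1 + Complex.I • x) * (1 + Complex.I • x)) =
      1 + Complex.I * φ x - Complex.I * φ (star x) + φ (star x * x) := by
    have hI : star (Complex.I • x) * (Complex.I • x) = star x * x := by
      rw [star_smul, smul_mul_smul_comm]
      simp
    have hI2 : star (Complex.I • x) = - (Complex.I • star x) := by
      rw [star_smul]
      simp
    have : star (1 + Complex.I • x) * (1 + Complex.I • x) =
        1 + Complex.I • x - Complex.I • star x + star x * x := by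
      rw [star_add, star_one, add_mul, mul_add, mul_add, hI, one_mul, one_mul, mul_one, hI2]
      abel
    rw [this, map_add, map_sub, map_add, h1, map_smul, map_smul, smul_eq_mul, smul_eq_mul]
  rw [e1] at h1'
  rw [e2] at h2
  have i1 := (Complex.le_def.1 h1').2
  have i2 := (Complex.le_def.1 h2).2
  have i3 := (Complex.le_def.1 h3).2
  simp only [Complex.zero_im, Complex.add_im, Complex.one_im, Complex.sub_im, Complex.mul_im,
    Complex.I_re, Complex.I_im, zero_mul, one_mul, zero_add] at i1 i2 i3
  apply Complex.ext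
  · simp only [Complex.star_def, Complex.conj_re]
    linarith
  · simp only [Complex.star_def, Complex.conj_im]
    linarith

/-- the inner product `⟨x, y⟩ = φ(x* y)` -/
@[instance_reducible]
noncomputable def gstCore (h1 : φ 1 = 1) (hp : ∀ x, 0 ≤ φ (star x * x)) :
    PreInnerProductSpace.Core ℂ A where
  inner x y := φ (star x * y)
  conj_inner_symm x y := by
    show (starRingEnd ℂ) (φ (star y * x)) = φ (star x * y)
    have h := gst_star φ h1 hp (star y * x)
    rw [star_mul, star_star] at h
    exact h.symm
  re_inner_nonneg x := (Complex.le_def.1 (hp x)).1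
  add_left x y z := by
    show φ (star (x + y) * z) = _
    rw [star_add, add_mul, map_add]
  smul_left x y r := by
    show φ (star (r • x) * y) = _
    rw [star_smul, smul_mul_assoc, map_smul]
    rfl

theorem gst_cauchy (h1 : φ 1 = 1) (hp : ∀ x, 0 ≤ φ (star x * x)) (x y : A) :
    ‖φ (star x * y)‖ ≤ √(φ (star x * x)).re * √(φ (star y * y)).re :=
  @InnerProductSpace.Core.norm_inner_le_norm ℂ A _ _ _ (gstCore φ h1 hp) x y

theorem gst_bd (hp : ∀ x, 0 ≤ φ (star x * x)) (x y : A) :
    φ (star x * (star y * y) * x) ≤ (‖y‖ ^ 2 : ℝ) * φ (star x * x) := by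
  letI := CStarAlgebra.spectralOrder A
  letI := CStarAlgebra.spectralOrderedRing A
  have h2 : (0 : A) ≤ algebraMap ℝ A (‖y‖ ^ 2) - star y * y :=
    sub_nonneg.2 CStarAlgebra.star_mul_le_algebraMap_norm_sq
  obtain ⟨z, hz⟩ := CStarAlgebra.nonneg_iff_eq_star_mul_self.1 h2
  have h3 := hp (z * x)
  have e : star (z * x) * (z * x) =
      ((‖y‖ ^ 2 : ℝ) : ℂ) • (star x * x) - star x * (star y * y) * x := by
    have e1 : star (z * x) * (z * x) = star x * (star z * z) * x := by
      rw [star_mul]
      noncomm_ring
    rw [e1, ← hz, mul_sub, sub_mul]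
    congr 1
    rw [Algebra.algebraMap_eq_smul_one, mul_smul_comm, mul_one, smul_mul_assoc, Complex.coe_smul]
  rw [e, map_sub, map_smul, smul_eq_mul, sub_nonneg] at h3
  exact h3

end gst

theorem t_GST : S_GST := by
  intro A _ φ h1 hp
  refine ⟨fun x => ?_, gst_bd φ hp⟩
  have h2 := gst_cauchy φ h1 hp 1 x
  rw [star_one, one_mul, one_mul, h1, Complex.one_re, Real.sqrt_one, one_mul] at h2
  have h3 := gst_bd φ hp 1 x
  rw [star_one, one_mul, mul_one, one_mul, h1, mul_one] at h3
  have h4 := (Complex.le_def.1 h3).1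
  rw [Complex.ofReal_re] at h4
  refine h2.trans ?_
  rw [← Real.sqrt_sq (norm_nonneg x)]
  exact Real.sqrt_le_sqrt h4

end Pool.Agent.H308R2.CF
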