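import Mathlib
import Pool.Agent.H308R2.CF.GDefs
import Pool.Agent.H308R2.CF.Stubs

/-! The free product state is a faithful trace. -/

namespace Pool.Agent.H308R2.CF

open Pool.Agent.H770R2.UL (TrSt n2)
open scoped ComplexOrder

namespace GTRaux

/-- the words in the generators -/
noncomputable def wr {κ A : Type} [CStarAlgebra A] (σ : κ → CI →⋆ₐ[ℂ] A) (l : List (κ × CI)) : A :=
  (l.map fun p => σ p.1 p.2).prod

theorem wr_append {κ A : Type} [CStarAlgebra A] (σ : κ → CI →⋆ₐ[ℂ] A) (l l' : List (κ × CI)) :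
    wr σ (l ++ l') = wr σ l * wr σ l' := by
  unfold wr
  rw [List.map_append, List.prod_append]

theorem wr_star {κ A : Type} [CStarAlgebra A] (σ : κ → CI →⋆ₐ[ℂ] A) (l : List (κ × CI)) :
    star (wr σ l) = wr σ (l.reverse.map fun p => (p.1, star p.2)) := by
  induction l with
  | nil => simp [wr]
  | cons p l ih =>
    have h1 : wr σ (p :: l) = σ p.1 p.2 * wr σ l := by
      unfold wr
      rw [List.map_cons, List.prod_cons]
    rw [h1, star_mul, ih, List.reverse_cons, List.map_append, wr_append]
    congr 1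
    unfold wr
    simp [map_star]

/-- the span of the words -/
noncomputable def sp {κ A : Type} [CStarAlgebra A] (σ : κ → CI →⋆ₐ[ℂ] A) : Submodule ℂ A :=
  Submodule.span ℂ (Set.range (wr σ))

theorem wr_mem {κ A : Type} [CStarAlgebra A] (σ : κ → CI →⋆ₐ[ℂ] A) (l : List (κ × CI)) :
    wr σ l ∈ sp σ := Submodule.subset_span ⟨l, rfl⟩

theorem sp_mul {κ A : Type} [CStarAlgebra A] (σ : κ → CI →⋆ₐ[ℂ] A) {a b : A} (ha : a ∈ sp σ)
    (hb : b ∈ sp σ) : a * b ∈ sp σ := by
  refine Submodule.span_induction (p := fun a _ => a * b ∈ sp σ) ?_ ?_ ?_ ?_ ha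
  · rintro _ ⟨l, rfl⟩
    refine Submodule.span_induction (p := fun b _ => wr σ l * b ∈ sp σ) ?_ ?_ ?_ ?_ hb
    · rintro _ ⟨l', rfl⟩
      rw [← wr_append]
      exact wr_mem σ _
    · rw [mul_zero]
      exact Submodule.zero_mem _
    · intro x y _ _ hx hy
      rw [mul_add]
      exact Submodule.add_mem _ hx hy
    · intro c x _ hx
      rw [mul_smul_comm]
      exact Submodule.smul_mem _ c hx
  · rw [zero_mul]
    exact Submodule.zero_mem _
  · intro x y _ _ hx hy
    rw [add_mul]
    exact Submodule.add_mem _ hx hy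
  · intro c x _ hx
    rw [smul_mul_assoc]
    exact Submodule.smul_mem _ c hx

theorem sp_star {κ A : Type} [CStarAlgebra A] (σ : κ → CI →⋆ₐ[ℂ] A) {a : A} (ha : a ∈ sp σ) :
    star a ∈ sp σ := by
  refine Submodule.span_induction (p := fun a _ => star a ∈ sp σ) ?_ ?_ ?_ ?_ ha
  · rintro _ ⟨l, rfl⟩
    rw [wr_star]
    exact wr_mem σ _
  · rw [star_zero]
    exact Submodule.zero_mem _
  · intro x y _ _ hx hy
    rw [star_add]
    exact Submodule.add_mem _ hx hy
  · intro c x _ hx
    rw [star_smul]
    exact Submodule.smul_mem _ _ hx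

/-- the span of the words as a star subalgebra -/
noncomputable def TT {κ A : Type} [CStarAlgebra A] (σ : κ → CI →⋆ₐ[ℂ] A) : StarSubalgebra ℂ A where
  carrier := (sp σ : Set A)
  mul_mem' := fun ha hb => sp_mul σ ha hb
  add_mem' := fun ha hb => Submodule.add_mem _ ha hb
  algebraMap_mem' := fun r => by
    have h1 : wr σ [] = 1 := by simp [wr]
    have h2 := Submodule.smul_mem (sp σ) r (wr_mem σ [])
    rw [h1] at h2
    rw [Algebra.algebraMap_eq_smul_one]
    exact h2
  star_mem' := fun ha => sp_star σ ha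

theorem dense {κ A : Type} [CStarAlgebra A] (σ : κ → CI →⋆ₐ[ℂ] A)
    (gen : (⨆ j, (σ j).range).topologicalClosure = (⊤ : StarSubalgebra ℂ A)) :
    Dense (sp σ : Set A) := by
  have h1 : (⨆ j, (σ j).range) ≤ TT σ := by
    refine iSup_le fun j => ?_
    rintro _ ⟨f, rfl⟩
    have h2 : wr σ [(j, f)] = σ j f := by simp [wr]
    show σ j f ∈ sp σ
    rw [← h2]
    exact wr_mem σ _
  have h2 : (TT σ).topologicalClosure = ⊤ := by
    rw [eq_top_iff, ← gen]
    exact StarSubalgebra.topologicalClosure_mono h1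
  intro x
  have h3 : x ∈ (TT σ).topologicalClosure := by
    rw [h2]
    trivial
  exact h3

end GTRaux

open GTRaux in
theorem t_GTR (h1 : S_GST) (h2 : S_GMOM) (h3 : S_EXI) : S_GTR := by
  intro κ A _ φ σ h
  obtain ⟨B, _, ψ, τ, hB⟩ := h3 κ
  obtain ⟨hbd, hcs⟩ := h1 A φ h.law.one h.pos
  have hψ : FreeLaw ψ.toFun τ := by
    refine ⟨ψ.one, hB.mar, fun l hl hc h0 => hB.free l hl hc fun p hp => ?_⟩
    rw [hB.mar]
    exact h0 p hp
  have hmom : ∀ l : List (κ × CI), φ (wr σ l) = ψ.toFun (wr τ l) := fun l =>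
    h2 κ A B φ ψ.toFun σ τ h.law hψ l
  have hword : ∀ l l' : List (κ × CI), φ (wr σ l * wr σ l') = φ (wr σ l' * wr σ l) := by
    intro l l'
    rw [← wr_append, ← wr_append, hmom, hmom, wr_append, wr_append, ψ.tr]
  have hcont : Continuous φ :=
    AddMonoidHomClass.continuous_of_bound φ 1 (fun x => by rw [one_mul]; exact hbd x)
  have hd := dense σ h.gen
  have hsp : ∀ a ∈ sp σ, ∀ b ∈ sp σ, φ (a * b) = φ (b * a) := by
    intro a ha b hb
    refine Submodule.span_induction (p := fun a _ => φ (a * b) = φ (b * a)) ?_ ?_ ?_ ?_ ha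
    · rintro _ ⟨l, rfl⟩
      refine Submodule.span_induction (p := fun b _ => φ (wr σ l * b) = φ (b * wr σ l))
        ?_ ?_ ?_ ?_ hb
      · rintro _ ⟨l', rfl⟩
        exact hword l l'
      · simp
      · intro x y _ _ hx hy
        rw [mul_add, add_mul, map_add, map_add, hx, hy]
      · intro c x _ hx
        rw [mul_smul_comm, smul_mul_assoc, map_smul, map_smul, hx]
    · simp
    · intro x y _ _ hx hy
      rw [mul_add, add_mul, map_add, map_add, hx, hy]
    · intro c x _ hx
      rw [mul_smul_comm, smul_mul_assoc, map_smul, map_smul, hx]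
  have htr : ∀ a b : A, φ (a * b) = φ (b * a) := by
    have s1 : ∀ a ∈ sp σ, ∀ b : A, φ (a * b) = φ (b * a) := by
      intro a ha b
      have hcl : IsClosed {b : A | φ (a * b) = φ (b * a)} :=
        isClosed_eq (hcont.comp (continuous_const.mul continuous_id))
          (hcont.comp (continuous_id.mul continuous_const))
      have hsub : closure (sp σ : Set A) ⊆ {b : A | φ (a * b) = φ (b * a)} :=
        hcl.closure_subset_iff.2 fun b hb => hsp a ha b hb
      exact hsub (hd b)
    intro a b
    have hcl : IsClosed {a : A | φ (a * b) = φ (b * a)} :=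
      isClosed_eq (hcont.comp (continuous_id.mul continuous_const))
        (hcont.comp (continuous_const.mul continuous_id))
    have hsub : closure (sp σ : Set A) ⊆ {a : A | φ (a * b) = φ (b * a)} :=
      hcl.closure_subset_iff.2 fun a ha => s1 a ha b
    exact hsub (hd a)
  refine ⟨⟨φ, h.law.one, htr, h.pos, hbd⟩, rfl, ?_, h.law.mar, ?_, h.gen⟩
  · intro a ha
    have ha' : φ (star a * a) = 0 := ha
    apply h.gns
    intro x
    have e1 : φ (star x * (star a * a) * x) = φ (a * (x * star x) * star a) := by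
      have e2 : star x * (star a * a) * x = (star x * star a) * (a * x) := by
        simp only [mul_assoc]
      have e3 : a * (x * star x) * star a = (a * x) * (star x * star a) := by
        simp only [mul_assoc]
      rw [e2, e3, htr]
    have hle := hcs (star a) (star x)
    rw [star_star, star_star] at hle
    have e4 : φ (a * star a) = 0 := by rw [htr]; exact ha'
    rw [e4, mul_zero, ← e1] at hle
    have hge : 0 ≤ φ (star x * (star a * a) * x) := by
      have e5 : star x * (star a * a) * x = star (a * x) * (a * x) := by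
        rw [star_mul]
        simp only [mul_assoc]
      rw [e5]
      exact h.pos _
    exact le_antisymm hle hge
  · intro l hl hc h0
    refine h.law.free l hl hc fun p hp => ?_
    rw [← h.law.mar p.1 p.2]
    exact h0 p hp

end Pool.Agent.H308R2.CF
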