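import Pool.Agent.H308R2.CF.Stubs

namespace Pool.Agent.H308R2.CF

open Pool.Agent.H770R2.UL (TrSt n2)
open Pool.Agent.H581R.FF (GR bs ev jj vv kk act)
open scoped ComplexConjugate

theorem nlg_gp_mem {κ A : Type} [CStarAlgebra A] (τ : κ → CI →⋆ₐ[ℂ] A) (β : FreeGroup κ) :
    (gp τ β : A) ∈ Cs τ := by
  induction β using FreeGroup.induction_on with
  | C1 => rw [map_one]; exact one_mem _
  | of j =>
    have h1 : (gp τ (FreeGroup.of j) : A) = τ j eI := by
      unfold gp
      rw [FreeGroup.lift_apply_of]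
      rfl
    rw [h1]
    exact StarSubalgebra.le_topologicalClosure _ (le_iSup (fun j => (τ j).range) j ⟨eI, rfl⟩)
  | inv_of j h =>
    rw [map_inv]
    exact star_mem h
  | mul x y hx hy =>
    rw [map_mul]
    exact mul_mem hx hy

theorem nlg_gp_jj {ι A : Type} [CStarAlgebra A] (σ : Option ι → CI →⋆ₐ[ℂ] A) (β : FreeGroup ι) :
    gp σ (jj β) = gp (sm σ) β := by
  have h : (gp σ).comp (jj : FreeGroup ι →* FreeGroup (Option ι)) = gp (sm σ) := by
    apply FreeGroup.ext_hom
    intro j
    simp [gp]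
  exact DFunLike.congr_fun h β

theorem nlg_jj_inj {ι : Type} : Function.Injective (jj : FreeGroup ι →* FreeGroup (Option ι)) :=
  FreeGroup.map_injective (Option.some_injective ι)

theorem nlg_orth {ι A : Type} [CStarAlgebra A] (φ : TrSt A) (σ : Option ι → CI →⋆ₐ[ℂ] A)
    (hs : Sys φ σ) {x y : FreeGroup ι} (hxy : x ≠ y) :
    φ.toFun (star (gp σ (jj x) : A) * (gp σ (jj y) : A)) = 0 := by
  have h1 : star (gp σ (jj x) : A) * (gp σ (jj y) : A) = (gp σ ((jj x)⁻¹ * jj y) : A) := by
    rw [map_mul, map_inv]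
    rfl
  rw [h1]
  apply hs.free
  intro h
  apply hxy
  apply nlg_jj_inj
  exact inv_mul_eq_one.mp h

theorem t_NLG (h : S_NL) : S_NLG := by
  intro ι A _ φ σ hF c f hf
  classical
  let e : Fin c.support.card ≃ c.support := c.support.equivFin.symm
  have key := h ι A φ σ hF c.support.card (fun m => gp σ (jj (e m : FreeGroup ι))) 1
    (fun m => by rw [nlg_gp_jj]; exact nlg_gp_mem _ _) ?_ (fun m => ((c (e m) : ℝ) : ℂ)) f hf
  · have e1 : hh σ c f = ∑ m, ((c (e m) : ℝ) : ℂ) • ((gp σ (jj (e m : FreeGroup ι)) : A) *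
        σ none f * star (gp σ (jj (e m : FreeGroup ι)) : A)) := by
      unfold hh Finsupp.sum
      rw [← Finset.sum_coe_sort]
      exact (Equiv.sum_comp e (fun β : c.support => ((c β : ℝ) : ℂ) •
        ((gp σ (jj (β : FreeGroup ι)) : A) * σ none f *
          star (gp σ (jj (β : FreeGroup ι)) : A)))).symm
    have e2 : nc c = Real.sqrt (∑ m, ‖((c (e m) : ℝ) : ℂ)‖ ^ 2) := by
      unfold nc Pool.Agent.H581R.FF.n2
      congr 1
      rw [← Finset.sum_coe_sort]
      rw [← Equiv.sum_comp e (fun β : c.support => c β ^ 2)]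
      apply Finset.sum_congr rfl
      intro m _
      rw [Complex.norm_real, Real.norm_eq_abs, sq_abs]
    rw [e1, e2]
    rw [Real.sqrt_one, mul_one] at key
    exact key
  · intro ξ
    rw [Pool.Agent.H770R2.UL.n2_sq, one_mul, star_sum, Finset.sum_mul_sum, map_sum]
    have e3 : ∀ i : Fin c.support.card, φ.toFun (∑ j, star (ξ i • (gp σ (jj (e i : FreeGroup ι)) : A)) *
        ξ j • (gp σ (jj (e j : FreeGroup ι)) : A)) = ((‖ξ i‖ ^ 2 : ℝ) : ℂ) := by
      intro i
      rw [map_sum, Finset.sum_eq_single i]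
      · rw [star_smul, smul_mul_smul_comm, map_smul]
        have : star (gp σ (jj (e i : FreeGroup ι)) : A) * (gp σ (jj (e i : FreeGroup ι)) : A) = 1 :=
          Unitary.star_mul_self_of_mem (gp σ (jj (e i : FreeGroup ι))).2
        rw [this, φ.one, smul_eq_mul, mul_one]
        rw [Complex.star_def, ← Complex.normSq_eq_conj_mul_self, Complex.normSq_eq_norm_sq]
      · intro j _ hj
        rw [star_smul, smul_mul_smul_comm, map_smul, nlg_orth φ σ hF.sys, smul_zero]
        intro h2
        apply hj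
        exact (e.injective (Subtype.ext h2)).symm
      · intro hi
        exact absurd (Finset.mem_univ i) hi
    rw [Finset.sum_congr rfl (fun i _ => e3 i), ← Complex.ofReal_sum, Complex.ofReal_re]

end Pool.Agent.H308R2.CF
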