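import Pool.Agent.H308R2.CF.Stubs
import Pool.Agent.H581R.FF.TTR
import Pool.Agent.H581R.FF.TDER

/-! Task THETA: trace invariance in the group ring. -/

set_option autoImplicit false

namespace Pool.Agent.H308R2.CF

open Pool.Agent.H770R2.UL (TrSt n2)
open Pool.Agent.H581R.FF (GR bs ev jj vv kk act Ad Leib DU)
open Pool.Agent.H581R.FF.TTR (bs_mul bs_mul_inv bs_inv_mul leib_one leib_inv D_vpow t_TR)
open Pool.Agent.H581R.FF.TDER (t_DER)
open scoped ComplexConjugate

namespace THETAx

theorem Ad_sub {ι : Type} (c c' : FreeGroup ι →₀ ℝ) (k : ℤ →₀ ℂ) :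
    Ad (c - c') k = Ad c k - Ad c' k := by
  unfold Ad
  refine Finsupp.sum_sub_index ?_
  intro β r s
  push_cast
  rw [sub_smul]

theorem Ad_act {ι : Type} (x : FreeGroup ι) (c : FreeGroup ι →₀ ℝ) (k : ℤ →₀ ℂ) :
    Ad (act x c) k = bs (jj x) * Ad c k * bs (jj x)⁻¹ := by
  unfold Ad act
  rw [Finsupp.sum_mapDomain_index]
  · unfold Finsupp.sum
    rw [Finset.mul_sum, Finset.sum_mul]
    refine Finset.sum_congr rfl fun β _ => ?_
    show (c β : ℂ) • (bs (jj (x * β)) * kk k * bs (jj (x * β))⁻¹) =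
      bs (jj x) * ((c β : ℂ) • (bs (jj β) * kk k * bs (jj β)⁻¹)) * bs (jj x)⁻¹
    rw [mul_smul_comm, smul_mul_assoc, map_mul, bs_mul, mul_inv_rev, bs_mul]
    congr 1
    simp only [mul_assoc]
  · intro β
    simp
  · intro β r s
    push_cast
    rw [add_smul]

theorem fev_wd {X A : Type} [Ring A] [Algebra ℂ A] (e : X → A) (w : FreeMonoid X) :
    fev e (wd w) = FreeMonoid.lift e w := by
  unfold fev wd
  rw [MonoidAlgebra.lift_single, one_smul]

theorem fev_lt {X A : Type} [Ring A] [Algebra ℂ A] (e : X → A) (x : X) :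
    fev e (lt x) = e x := by
  rw [fev_wd, FreeMonoid.lift_eval_of]

theorem lift_word {ι : Type} (q : ℤ →₀ ℂ) (L : List (Option ι × Bool)) :
    FreeMonoid.lift (lg (ι := ι) q) (FreeMonoid.ofList (L.map some)) = bs (FreeGroup.mk L) := by
  induction L with
  | nil => rfl
  | cons p L ih =>
    rw [List.map_cons]
    have h1 : FreeMonoid.ofList (some p :: L.map some) =
        FreeMonoid.of (some p) * FreeMonoid.ofList (L.map some) := rfl
    rw [h1, map_mul, ih, FreeMonoid.lift_eval_of]
    have h2 : FreeGroup.mk (p :: L) = FreeGroup.mk [p] * FreeGroup.mk L := by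
      rw [FreeGroup.mul_mk]; rfl
    rw [h2, bs_mul]
    congr 1
    obtain ⟨j, b⟩ := p
    cases b
    · show bs (FreeGroup.of j)⁻¹ = _
      congr 1
    · rfl

theorem fev_fw {ι : Type} [DecidableEq ι] (q : ℤ →₀ ℂ) (w : FreeGroup (Option ι)) :
    fev (lg (ι := ι) q) (wd (fw w)) = bs w := by
  rw [fev_wd]
  unfold fw
  rw [lift_word, FreeGroup.mk_toWord]

theorem fev_fh {ι : Type} [DecidableEq ι] (q : ℤ →₀ ℂ) (c : FreeGroup ι →₀ ℝ) :
    fev (lg (ι := ι) q) (fh c) = Ad c q := by
  unfold fh Ad Finsupp.sum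
  rw [map_sum]
  refine Finset.sum_congr rfl fun β _ => ?_
  rw [map_smul, map_mul, map_mul, fev_fw, fev_fw, fev_lt]
  rfl

theorem fleib_one {X : Type} {D : FA X →ₗ[ℂ] FA X} (h : FLeib D) : D 1 = 0 := by
  have := h 1 1
  simp only [one_mul, mul_one] at this
  simpa using this

theorem D_kk {ι : Type} {u : ι} {c : FreeGroup ι →₀ ℝ} {k : ℤ →₀ ℂ}
    {D : GR (Option ι) →ₗ[ℂ] GR (Option ι)} (h : DU u c k D) (q : ℤ →₀ ℂ) : D (kk q) = 0 := by
  unfold kk Finsupp.sum
  rw [map_sum]
  refine Finset.sum_eq_zero fun m _ => ?_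
  have h1 : (MonoidAlgebra.single (vv ^ m) (q m) : GR (Option ι)) = (q m) • bs (vv ^ m) := by
    simp [bs, MonoidAlgebra.smul_single]
  show D (MonoidAlgebra.single (vv ^ m) (q m)) = 0
  rw [h1, map_smul, D_vpow h, smul_zero]

end THETAx

open THETAx

theorem t_THETA : S_THETA := by
  intro ι _ u c D hD q q0 qs x
  classical
  set c' : FreeGroup ι →₀ ℝ := c - act (FreeGroup.of u)⁻¹ c with hc'
  obtain ⟨D', hL, hd⟩ := t_DER (Option ι) (fun z => if z = some u then
    Complex.I • (bs (FreeGroup.of (some u)) * Ad c' q) else 0)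
  have hDU : DU u c' q D' := by
    refine ⟨q0, qs, hL, ?_, ?_⟩
    · rw [hd, if_pos rfl]
    · intro z hz
      rw [hd, if_neg hz]
  have hjj : jj (FreeGroup.of u) = FreeGroup.of (some u) := by
    show FreeGroup.map some (FreeGroup.of u) = _
    rw [FreeGroup.map.of]
  have hu : D' (bs (FreeGroup.of (some u))) = Complex.I • (bs (FreeGroup.of (some u)) * Ad c q -
      Ad c q * bs (FreeGroup.of (some u))) := by
    rw [hDU.du, hc', Ad_sub, Ad_act, map_inv, hjj, inv_inv]
    congr 1
    rw [mul_sub]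
    congr 1
    rw [← mul_assoc, ← mul_assoc, bs_mul_inv, one_mul]
  have hui : D' (bs (FreeGroup.of (some u))⁻¹) = Complex.I • (bs (FreeGroup.of (some u))⁻¹ * Ad c q -
      Ad c q * bs (FreeGroup.of (some u))⁻¹) := by
    rw [leib_inv hL, hu, mul_smul_comm, smul_mul_assoc, ← smul_neg]
    congr 1
    rw [mul_sub, sub_mul, neg_sub]
    congr 1
    · rw [mul_assoc, mul_assoc (Ad c q), bs_mul_inv, mul_one]
    · rw [← mul_assoc, bs_inv_mul, one_mul]
  have hlet : ∀ a : Lt (Option ι), fev (lg (ι := ι) q) (D (lt a)) =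
      D' (fev (lg (ι := ι) q) (lt a)) := by
    intro a
    rw [fev_lt]
    rcases a with _ | ⟨j, b⟩
    · rw [hD.dY, map_zero]
      exact (D_kk hDU q).symm
    · by_cases hj : j = some u
      · subst hj
        rw [hD.du b, map_smul, map_sub, map_mul, map_mul, fev_fh, fev_lt]
        cases b
        · exact hui.symm
        · exact hu.symm
      · rw [hD.dz j b hj, map_zero]
        cases b
        · show 0 = D' (bs (FreeGroup.of j)⁻¹)
          rw [leib_inv hL, hDU.dz j hj, mul_zero, zero_mul, neg_zero]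
        · show 0 = D' (bs (FreeGroup.of j))
          rw [hDU.dz j hj]
  have hw : ∀ w : FreeMonoid (Lt (Option ι)), fev (lg (ι := ι) q) (D (wd w)) =
      D' (fev (lg (ι := ι) q) (wd w)) := by
    intro w
    induction w using FreeMonoid.recOn with
    | one =>
      have h1 : (wd (1 : FreeMonoid (Lt (Option ι)))) = 1 := rfl
      rw [h1, fleib_one hD.leib, map_zero, map_one, leib_one hL]
    | of_mul a w ih =>
      have h1 : (wd (FreeMonoid.of a * w) : FA (Lt (Option ι))) = lt a * wd w := by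
        simp [wd, lt, MonoidAlgebra.single_mul_single]
      rw [h1, hD.leib, map_add, map_mul, map_mul, map_mul, hlet, ih, hL]
  have hx : ∀ x : FA (Lt (Option ι)), fev (lg (ι := ι) q) (D x) =
      D' (fev (lg (ι := ι) q) x) := by
    intro x
    induction x using MonoidAlgebra.induction_linear with
    | zero => simp
    | add a b ha hb => rw [map_add, map_add, map_add, map_add, ha, hb]
    | single m r =>
      have h1 : (MonoidAlgebra.single m r : FA (Lt (Option ι))) = r • wd m := by
        simp [wd, MonoidAlgebra.smul_single]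
      rw [h1, map_smul, map_smul, map_smul, map_smul, hw]
  rw [hx]
  exact t_TR ι u c' q D' hDU _

end Pool.Agent.H308R2.CF
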